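import Mathlib

/-!
# One interval decides Furstenberg's conjecture (MP_e27144_an): interface

`p ≠ q` are primes, `S = {p ^ i q ^ j}`. The pieces `S_PR`, `S_RK`, `S_MOD`, `S_ARC` are
independent of each other (`S_MOD` is proved from `S_PR` and `S_RK`). Complete proofs are given in
the docstrings.
-/

set_option autoImplicit false

namespace Pool.Agent.Run7.h776.FT

open Finset MeasureTheory

/-- the residues modulo `N` of the numbers `p ^ i q ^ j` -/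
noncomputable def HH (p q N : ℕ) [NeZero N] : Finset (ZMod N) := by
  classical
  exact univ.filter (fun h => ∃ i j : ℕ, h = (p : ZMod N) ^ i * (q : ZMod N) ^ j)

/-- `n` is one of the numbers `p ^ i q ^ j` -/
def IsS (p q : ℕ) (n : ℤ) : Prop := ∃ i j : ℕ, n = (p : ℤ) ^ i * (q : ℤ) ^ j

/-- **PR (many primes `r` with `r - 1 ∣ L`).**
Proof. Put `y = z ^ 4`, `X = 2 ^ z`. Let `D` be the set of the products of three distinct primes
`≤ y`; `|D| = C(π(y), 3)`, and `π(y) ≥ y / (2 log y)` (Mathlib: `Chebyshev.psi_ge`,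
`Chebyshev.psi_le_primeCounting_mul_log`), so `|D| ≥ z ^ 11.5` for large `z`. All `d ∈ D` are at
most `z ^ 12 ≤ X ^ (1/4)`. By the Bombieri-Vinogradov theorem of the starting tree,
`Pool.Agent.H442R2.KF.bvY (1/4) _ 3` with `a = fun _ => 1`,
`∑_{d ≤ X^(1/4)} |Er X d 1| ≤ C X / (log X) ^ 3`, where
`Er X d 1 = piAP X d 1 - π(X) / φ(d)`. So
`∑_{d ∈ D} d * piAP X d 1 ≥ |D| π(X) - z ^ 12 C X / (log X) ^ 3 ≥ |D| X / (4 z)`, large `z`
(`φ(d) ≤ d`, `π(X) ≥ X / (2 z)`).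
On the other hand every prime `r ≤ X`, `r ≡ 1 mod d` is `r = d k + 1` with `1 ≤ k ≤ X / d`, so with
`D_k = {d ∈ D : d k + 1 is a prime ≤ X}`,
`∑_{d ∈ D} d * piAP X d 1 = ∑_{k ≤ X} ∑_{d ∈ D_k} d ≤ ∑_{k ≤ X} |D_k| X / k ≤
X (1 + log X) max_k |D_k|`. So `|D_k| ≥ |D| / (8 z ^ 2) ≥ z ^ 9` for some `1 ≤ k ≤ X`.
Put `M = primorial(y) * primorial(sqrt y) ^ (log2 y)` (every `n ≤ y` divides `M`: a prime `l` with
`l ^ 2 ∣ n` is at most `sqrt y`, and its exponent is at most `log2 y`), and `L = M k`. Then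
`log L ≤ log 4 (y + sqrt y log2 y) + z log 2 ≤ C y` (`primorial_le_four_pow`), `l - 1 ∣ M` for
`l ≤ y`, and the primes `r = d k + 1`, `d ∈ D_k`, satisfy `r - 1 = d k ∣ M k` because `d` is
squarefree with prime factors `≤ y`. -/
def S_PR : Prop :=
  ∃ C : ℝ, 0 < C ∧ ∃ z₀ : ℕ, ∀ z : ℕ, z₀ ≤ z → ∃ L : ℕ, 0 < L ∧
    Real.log L ≤ C * (z : ℝ) ^ 4 ∧ (∀ l : ℕ, l.Prime → l ≤ z ^ 4 → l - 1 ∣ L) ∧
    ∃ R : Finset ℕ, (∀ r ∈ R, r.Prime ∧ r - 1 ∣ L) ∧ z ^ 9 ≤ R.card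

/-- **RK (rank lemma).**
Proof. For `m ∈ A` let `v(m) = (v_l(m))_l : ℕ →₀ ℚ` be the vector of the exponents
(`m.factorization` with rational values) and `W` the `ℚ`-span of the `v(m)`, `T = dim W`.
(1) `T < T₀`: otherwise there are `m_1, …, m_{T₀} ∈ A` with linearly independent `v(m_i)`, so the
integers `∏ m_i ^ e_i`, `0 ≤ e_i ≤ E`, are distinct; they are between `1` and
`x ^ (T₀ E) < N`, so their residues modulo `N` are distinct elements of `G`; hence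
`(E + 1) ^ T₀ ≤ |G|`, a contradiction.
(2) The coordinate functionals restricted to `W` span the dual of `W`, so there is a set `κ` of
`T` primes such that the elements of `W` are determined by their coordinates in `κ`. Since all the
prime factors of `m ∈ A` are `> y`, `1 / m ≤ ∏_{l ∈ κ} (1/y) ^ (v_l(m))`; the map
`m ↦ (v_l(m))_{l ∈ κ}` is injective on `A`, so
`∑_{m ∈ A} 1 / m ≤ ∑_{e : κ → ℕ, finite box} ∏ (1/y) ^ (e_l) ≤ (1 / (1 - 1/y)) ^ T`
(`Finset.prod_univ_sum`, geometric sums). -/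
def S_RK : Prop :=
  ∀ (y x T₀ E N : ℕ) [NeZero N] (A : Finset ℕ) (G : Finset (ZMod N)), 2 ≤ y →
    (∀ m ∈ A, 0 < m ∧ m ≤ x ∧ (∀ l : ℕ, l.Prime → l ∣ m → y < l) ∧ (m : ZMod N) ∈ G) →
    1 ∈ G → (∀ a ∈ G, ∀ b ∈ G, a * b ∈ G) → x ^ (T₀ * E) < N → G.card < (E + 1) ^ T₀ →
    ∑ m ∈ A, (1 : ℝ) / m ≤ ((y : ℝ) / (y - 1)) ^ T₀

/-- **MOD (moduli with few small residues), from `S_PR` and `S_RK`.**
Proof. By Dirichlet's theorem and quadratic reciprocity there is a prime `r₀ ≡ -1 mod 8 p q`;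
`p` and `q` are squares and `-1` is not a square modulo `r₀`. Take `z` large, `y = z ^ 4`, `L`, `R`
from `S_PR`; let `P` be the set of all the primes `r ∤ p q r₀` with `r - 1 ∣ L` (it contains
`R \ {p, q, r₀}` and all the primes `≤ y` except `p, q, r₀`) and `N = r₀ ∏_{r ∈ P} r`, so
`N ≥ 2 ^ (z ^ 9 - 3)`. With `L₀ = L (r₀ - 1)`: `p ^ L₀ = q ^ L₀ = 1` modulo `N`, so
`|HH| ≤ K := L₀ ^ 2`, `log K ≤ C y`. In particular `|HH| ≤ ε N` for large `z`.
Let `G = HH ∪ -HH` (closed under multiplication, `|G| ≤ 2 K`), `x = (2 K + z) ^ 2`.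
Let `h ∈ HH`, `n = valMinAbs h`, not of the form `p ^ i q ^ j`. `n` is prime to `N`;
`|n| = p ^ i q ^ j m` with `m` prime to `p q`. `m` has no prime factor in `P ∪ {r₀}`, so all its
prime factors are `> y` (`y ≥ r₀`), and `m mod N ∈ G`, `1 ≤ m ≤ N / 2`. `m = 1` is impossible: `n ≠ p ^ i q ^ j`,
so `n = - p ^ i q ^ j` and `-1` is modulo `r₀` a product of powers of `p, q` and of their inverses,
a square, contradiction. So `∑ 1 / |n| ≤ ∑_{i,j} p ^ (-i) q ^ (-j) * 2 ∑_m 1 / m ≤ 8 ∑_m 1 / m`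
over `m > 1`, `m ≤ N / 2`, `m mod N ∈ G`, `m` with all prime factors `> y`
(the pair `(m, sign)` and `i, j` determine `n`, and `n` determines `h`).
The `m > x` contribute at most `|G| / x ≤ 1 / z`. For the `m ≤ x` use `S_RK` for the set of these
`m` together with `1`, with `T₀ = ⌊C' y / log y⌋ + 1 ≤ y` and `E = ⌊y ^ (1/10)⌋`:
`x ^ (T₀ E) ≤ exp(C y * y * y ^ (1/10)) < 2 ^ (z ^ 9 - 3) ≤ N` as `z ^ 9 = y ^ (9/4)`, and
`(E + 1) ^ T₀ ≥ exp(C' y / 10) > 2 K`. So the sum over the `m ≤ x`, `m > 1` is at most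
`(y / (y - 1)) ^ T₀ - 1 ≤ exp(2 T₀ / y) - 1 → 0`. -/
def S_MOD : Prop :=
  ∀ p q : ℕ, p.Prime → q.Prime → p ≠ q → ∀ ε : ℝ, 0 < ε →
    ∃ (N : ℕ) (_ : NeZero N), N.Coprime p ∧ N.Coprime q ∧ ((HH p q N).card : ℝ) ≤ ε * N ∧
      ∀ F : Finset (ZMod N), F ⊆ HH p q N → (∀ h ∈ F, ¬ IsS p q h.valMinAbs) →
        ∑ h ∈ F, 1 / |(h.valMinAbs : ℝ)| ≤ ε

/-- **ARC.** For `s ≠ t` on the circle there is an integer `a` prime to `p q` with
`∑_{i,j} p ^ (-i) q ^ (-j) (e(- a p ^ i q ^ j s) - e(- a p ^ i q ^ j t)) ≠ 0`.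
Proof. Let `B(x) = {x} - 1/2` (fractional part of the representative in `[0, 1)`), right
continuous, with Fourier coefficients `-1 / (2 π i n)` at `n ≠ 0` and `0` at `0`, and
`β(x) = B(x) - B(p x) / p - B(q x) / q + B(p q x) / (p q)`; its Fourier coefficients are
`-1 / (2 π i n)` at the `n` prime to `p q` and `0` at the other `n` (also at `0`). Suppose that the sums are all
`0`. Put `R(x) = ∑_{i,j} p ^ (-i) q ^ (-j) (β(x - p ^ i q ^ j t) - β(x - p ^ i q ^ j s))`, a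
uniformly convergent series of bounded right continuous functions. Its `n`-th Fourier coefficient
is `0` for `n` not prime to `p q` and a constant times the sum in question for `a = n` prime to
`p q`; so all are `0`, `R = 0` almost everywhere (`tsum_sq_fourierCoeff`), and `R(0) = 0` by right
continuity. But `∑_{i,j} p ^ (-i) q ^ (-j) β(- p ^ i q ^ j t) = B(-t)` by telescoping, so
`0 = R(0) = B(-t) - B(-s)`, hence `s = t`. -/
def S_ARC : Prop :=
  ∀ p q : ℕ, p.Prime → q.Prime → p ≠ q → ∀ s t : UnitAddCircle, s ≠ t →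
    ∃ a : ℤ, a ≠ 0 ∧ IsCoprime a (p : ℤ) ∧ IsCoprime a (q : ℤ) ∧
      ∑' ij : ℕ × ℕ, ((fourier (-(a * (p : ℤ) ^ ij.1 * (q : ℤ) ^ ij.2)) s : ℂ) -
        (fourier (-(a * (p : ℤ) ^ ij.1 * (q : ℤ) ^ ij.2)) t : ℂ)) /
          ((p : ℂ) ^ ij.1 * (q : ℂ) ^ ij.2) ≠ 0

end Pool.Agent.Run7.h776.FT
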