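import Mathlib
import Pool.Agent.Run7.h776.FT.Iface

/-!
# Piece ARC of the project FT (MP_e27144_an)

The second periodic Bernoulli function has an absolutely convergent Fourier series; its
combination `b2` has the Fourier coefficients `1 / m ^ 2` at the integers `m` prime to `p q`. If
all the sums in question vanish, then `sum_(i,j) p ^ (-i) q ^ (-j) (b2(x - p ^ i q ^ j s) -
b2(x - p ^ i q ^ j t)) = 0` for all `x`; the right derivative at `0` telescopes.
-/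

set_option autoImplicit false

namespace Pool.Agent.Run7.h776.FT.ArcPiece

open Complex Pool.Agent.Run7.h776.FT



lemma hsc {ι : Type*} {f g : ι → ℂ} {a : ℂ} (h : ∀ n, f n = g n) : HasSum f a ↔ HasSum g a := by
  rw [funext h]

/-- the character -/
noncomputable def E (m : ℤ) (x : ℝ) : ℂ := Complex.exp (2 * Real.pi * Complex.I * m * x)

lemma E_fourier (m : ℤ) (x : ℝ) : (fourier m (x : UnitAddCircle) : ℂ) = E m x := by
  rw [fourier_coe_apply, E]
  congr 1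
  simp

lemma norm_E (m : ℤ) (x : ℝ) : ‖E m x‖ = 1 := by
  rw [E]
  have : (2 * (Real.pi : ℂ) * Complex.I * m * x) = ((2 * Real.pi * m * x : ℝ) : ℂ) * Complex.I := by
    push_cast; ring
  rw [this, Complex.norm_exp_ofReal_mul_I]

lemma E_sub (m : ℤ) (P : ℕ) (x t : ℝ) :
    E m (x - P * t) = E m x * E (-(m * P)) t := by
  rw [E, E, E, ← Complex.exp_add]
  congr 1
  push_cast
  ring

lemma E_fract (m : ℤ) (x : ℝ) : E m (Int.fract x) = E m x := by
  rw [← E_fourier, ← E_fourier]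
  congr 1
  have : x = Int.fract x + ((⌊x⌋ : ℤ) : ℝ) := by
    rw [add_comm, Int.floor_add_fract]
  conv_rhs => rw [this]
  rw [AddCircle.coe_add]
  have h0 : (((⌊x⌋ : ℤ) : ℝ) : UnitAddCircle) = 0 := by
    rw [AddCircle.coe_eq_zero_iff]
    exact ⟨⌊x⌋, by simp⟩
  rw [h0, add_zero]

lemma E_mul_left (d : ℤ) (n : ℤ) (x : ℝ) : E n (d * x) = E (d * n) x := by
  rw [E, E]
  congr 1
  push_cast
  ring

/-- the second periodic Bernoulli function, normalised -/
noncomputable def g2 (x : ℝ) : ℝ := 2 * Real.pi ^ 2 * (Int.fract x ^ 2 - Int.fract x + 6⁻¹)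

/-- the sawtooth -/
noncomputable def g1 (x : ℝ) : ℝ := Int.fract x - 1 / 2

lemma hasSum_g2 (x : ℝ) : HasSum (fun n : ℤ => 1 / (n : ℂ) ^ 2 * E n x) (g2 x : ℂ) := by
  have h := hasSum_one_div_pow_mul_fourier_mul_bernoulliFun (k := 2) le_rfl
    (x := Int.fract x) ⟨Int.fract_nonneg x, (Int.fract_lt_one x).le⟩
  have h2 : (-(2 * (Real.pi : ℂ) * Complex.I) ^ 2 / ((Nat.factorial 2 : ℕ) : ℂ) *
      ((bernoulliFun 2 (Int.fract x) : ℝ) : ℂ)) = (g2 x : ℂ) := by
    rw [bernoulliFun_two, g2]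
    have : (2 * (Real.pi : ℂ) * Complex.I) ^ 2 = -(4 * Real.pi ^ 2) := by
      rw [mul_pow, Complex.I_sq]; ring
    rw [this]
    simp only [Nat.factorial]
    push_cast
    ring
  rw [h2] at h
  refine (hsc (fun n => ?_)).mp h
  rw [E_fourier, E_fract]

/-- terms divisible by `d` -/
lemma hasSum_g2_dvd (d : ℕ) (hd : 0 < d) (x : ℝ) :
    HasSum (fun m : ℤ => if (d : ℤ) ∣ m then 1 / (m : ℂ) ^ 2 * E m x else 0)
      ((g2 (d * x) / (d : ℝ) ^ 2 : ℝ) : ℂ) := by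
  have h := (hasSum_g2 (d * x)).mul_left (1 / (d : ℂ) ^ 2)
  have hinj : Function.Injective (fun n : ℤ => (d : ℤ) * n) := by
    intro a b hab
    have hd' : (d : ℤ) ≠ 0 := by exact_mod_cast hd.ne'
    exact mul_left_cancel₀ hd' hab
  have h3 : HasSum ((fun m : ℤ => if (d : ℤ) ∣ m then 1 / (m : ℂ) ^ 2 * E m x else 0) ∘
      (fun n : ℤ => (d : ℤ) * n)) ((g2 (d * x) / (d : ℝ) ^ 2 : ℝ) : ℂ) := by
    have hv : ((g2 (d * x) / (d : ℝ) ^ 2 : ℝ) : ℂ) = 1 / (d : ℂ) ^ 2 * (g2 (d * x) : ℂ) := by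
      push_cast
      ring
    rw [hv]
    refine (hsc (fun n => ?_)).mp h
    simp only [Function.comp_apply, dvd_mul_right, if_true]
    have : E n (d * x) = E (d * n) x := by
      have := E_mul_left (d : ℤ) n x
      simpa using this
    rw [this]
    push_cast
    have hd' : (d : ℂ) ≠ 0 := by exact_mod_cast hd.ne'
    by_cases hn : (n : ℂ) = 0
    · rw [hn]; simp
    · field_simp
  refine (hinj.hasSum_iff ?_).mp h3
  intro m hm
  rw [if_neg]
  rintro ⟨k, rfl⟩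
  exact hm ⟨k, rfl⟩

/-- the combination with Fourier coefficients at the integers prime to `p q` -/
noncomputable def b2 (p q : ℕ) (x : ℝ) : ℝ :=
  g2 x - g2 (p * x) / (p : ℝ) ^ 2 - g2 (q * x) / (q : ℝ) ^ 2 +
    g2 ((p * q : ℕ) * x) / ((p * q : ℕ) : ℝ) ^ 2

lemma hasSum_b2 (p q : ℕ) (hp : p.Prime) (hq : q.Prime) (hpq : p ≠ q) (x : ℝ) :
    HasSum (fun m : ℤ => if ¬ (p : ℤ) ∣ m ∧ ¬ (q : ℤ) ∣ m then 1 / (m : ℂ) ^ 2 * E m x else 0)
      (b2 p q x : ℂ) := by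
  have h := (((hasSum_g2 x).sub (hasSum_g2_dvd p hp.pos x)).sub (hasSum_g2_dvd q hq.pos x)).add
    (hasSum_g2_dvd (p * q) (Nat.mul_pos hp.pos hq.pos) x)
  have hv : (g2 x : ℂ) - ((g2 (p * x) / (p : ℝ) ^ 2 : ℝ) : ℂ) -
      ((g2 (q * x) / (q : ℝ) ^ 2 : ℝ) : ℂ) +
      ((g2 ((p * q : ℕ) * x) / ((p * q : ℕ) : ℝ) ^ 2 : ℝ) : ℂ) = (b2 p q x : ℂ) := by
    rw [b2]
    push_cast
    ring
  rw [hv] at h
  refine (hsc (fun m => ?_)).mp h
  have hc : IsCoprime (p : ℤ) (q : ℤ) :=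
    Nat.isCoprime_iff_coprime.mpr ((Nat.coprime_primes hp hq).mpr hpq)
  have hpq' : ((p * q : ℕ) : ℤ) ∣ m ↔ (p : ℤ) ∣ m ∧ (q : ℤ) ∣ m := by
    push_cast
    constructor
    · intro h
      exact ⟨dvd_trans (dvd_mul_right _ _) h, dvd_trans (dvd_mul_left _ _) h⟩
    · rintro ⟨h1, h2⟩
      exact hc.mul_dvd h1 h2
  simp only [hpq']
  by_cases h1 : (p : ℤ) ∣ m <;> by_cases h2 : (q : ℤ) ∣ m <;> simp [h1, h2]

/-! ### the right derivative -/

lemma g2_lip {x h : ℝ} (h0 : 0 ≤ h) (h1 : h < 1) :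
    |g2 (x + h) - g2 x| ≤ 2 * Real.pi ^ 2 * h := by
  have hf0 := Int.fract_nonneg x
  have hf1 := Int.fract_lt_one x
  have key : ∃ g : ℝ, Int.fract (x + h) = g ∧
      (g = Int.fract x + h ∨ (g = Int.fract x + h - 1 ∧ 1 ≤ Int.fract x + h)) ∧ 0 ≤ g ∧ g < 1 := by
    refine ⟨_, rfl, ?_, Int.fract_nonneg _, Int.fract_lt_one _⟩
    have e : x + h = (Int.fract x + h) + (⌊x⌋ : ℤ) := by
      have := Int.floor_add_fract x
      linarith
    by_cases hc : Int.fract x + h < 1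
    · left
      rw [e, Int.fract_add_intCast]
      exact Int.fract_eq_self.mpr ⟨by linarith, hc⟩
    · right
      push Not at hc
      refine ⟨?_, hc⟩
      rw [e, Int.fract_add_intCast]
      have : Int.fract x + h = (Int.fract x + h - 1) + ((1 : ℤ) : ℝ) := by push_cast; ring
      rw [this, Int.fract_add_intCast]
      push_cast
      rw [Int.fract_eq_self.mpr]
      · ring
      · constructor <;> linarith
  obtain ⟨g, hg, hg2, hg0, hg1⟩ := key
  rw [g2, g2, hg]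
  set f := Int.fract x
  have e : 2 * Real.pi ^ 2 * (g ^ 2 - g + 6⁻¹) - 2 * Real.pi ^ 2 * (f ^ 2 - f + 6⁻¹) =
      2 * Real.pi ^ 2 * ((g ^ 2 - g) - (f ^ 2 - f)) := by ring
  rw [e, abs_mul, abs_of_nonneg (by positivity : (0 : ℝ) ≤ 2 * Real.pi ^ 2)]
  refine mul_le_mul_of_nonneg_left ?_ (by positivity)
  rw [abs_le]
  rcases hg2 with rfl | ⟨rfl, hc⟩
  · constructor <;> nlinarith
  · constructor <;> nlinarith

lemma g2_deriv (x : ℝ) :
    Filter.Tendsto (fun h : ℝ => (g2 (x + h) - g2 x) / h) (nhdsWithin 0 (Set.Ioi 0))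
      (nhds (4 * Real.pi ^ 2 * g1 x)) := by
  have hf1 := Int.fract_lt_one x
  have hf0 := Int.fract_nonneg x
  have e1 : ∀ᶠ h : ℝ in nhdsWithin 0 (Set.Ioi 0), 
      2 * Real.pi ^ 2 * (2 * Int.fract x - 1 + h) = (g2 (x + h) - g2 x) / h := by
    have : Set.Ioo (0 : ℝ) (1 - Int.fract x) ∈ nhdsWithin (0 : ℝ) (Set.Ioi 0) :=
      Ioo_mem_nhdsGT (by linarith)
    filter_upwards [this] with h hh
    have e : x + h = (Int.fract x + h) + (⌊x⌋ : ℤ) := by
      have := Int.floor_add_fract x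
      linarith
    have e2 : Int.fract (x + h) = Int.fract x + h := by
      rw [e, Int.fract_add_intCast]
      exact Int.fract_eq_self.mpr ⟨by linarith [hh.1], by linarith [hh.2]⟩
    rw [g2, g2, e2]
    have : h ≠ 0 := hh.1.ne'
    field_simp
    ring
  refine Filter.Tendsto.congr' e1 ?_
  have : (4 * Real.pi ^ 2 * g1 x) = 2 * Real.pi ^ 2 * (2 * Int.fract x - 1 + 0) := by
    rw [g1]; ring
  rw [this]
  have hc : Continuous (fun h : ℝ => 2 * Real.pi ^ 2 * (2 * Int.fract x - 1 + h)) := by fun_prop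
  exact (hc.tendsto 0).mono_left nhdsWithin_le_nhds

lemma g2_deriv_dil (d : ℕ) (hd : 0 < d) (x : ℝ) :
    Filter.Tendsto (fun h : ℝ => (g2 (d * (x + h)) / (d : ℝ) ^ 2 - g2 (d * x) / (d : ℝ) ^ 2) / h)
      (nhdsWithin 0 (Set.Ioi 0)) (nhds (4 * Real.pi ^ 2 * (g1 (d * x) / d))) := by
  have hd' : (0 : ℝ) < d := by exact_mod_cast hd
  have hm : Filter.Tendsto (fun h : ℝ => (d : ℝ) * h) (nhdsWithin 0 (Set.Ioi 0))
      (nhdsWithin 0 (Set.Ioi 0)) := by
    refine tendsto_nhdsWithin_iff.mpr ⟨?_, ?_⟩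
    · have hc : Continuous (fun h : ℝ => (d : ℝ) * h) := by fun_prop
      have := hc.tendsto 0
      rw [mul_zero] at this
      exact this.mono_left nhdsWithin_le_nhds
    · filter_upwards [self_mem_nhdsWithin] with h hh
      exact mul_pos hd' hh
  have h2 := ((g2_deriv (d * x)).comp hm).mul_const (1 / (d : ℝ))
  have e : 4 * Real.pi ^ 2 * g1 (d * x) * (1 / (d : ℝ)) = 4 * Real.pi ^ 2 * (g1 (d * x) / d) := by
    ring
  rw [e] at h2
  refine h2.congr' ?_
  filter_upwards [self_mem_nhdsWithin] with h hh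
  have hh' : h ≠ 0 := (show (0 : ℝ) < h from hh).ne'
  simp only [Function.comp_apply]
  rw [mul_add]
  field_simp

lemma g2_lip_dil (d : ℕ) (hd : 0 < d) {x h : ℝ} (h0 : 0 ≤ h) (h1 : d * h < 1) :
    |g2 (d * (x + h)) / (d : ℝ) ^ 2 - g2 (d * x) / (d : ℝ) ^ 2| ≤ 2 * Real.pi ^ 2 * h := by
  have hd' : (0 : ℝ) < d := by exact_mod_cast hd
  have hd1 : (1 : ℝ) ≤ d := by exact_mod_cast hd
  have h2 := g2_lip (x := d * x) (h := d * h) (by positivity) h1
  rw [← mul_add] at h2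
  rw [← sub_div, abs_div, abs_of_pos (by positivity : (0 : ℝ) < (d : ℝ) ^ 2),
    div_le_iff₀ (by positivity)]
  refine h2.trans ?_
  have : (d : ℝ) * h ≤ h * (d : ℝ) ^ 2 := by
    have := mul_nonneg (mul_nonneg hd'.le h0) (sub_nonneg.mpr hd1)
    nlinarith
  nlinarith [sq_nonneg Real.pi]

/-- the combination of sawtooths -/
noncomputable def b1 (p q : ℕ) (x : ℝ) : ℝ :=
  g1 x - g1 (p * x) / p - g1 (q * x) / q + g1 ((p * q : ℕ) * x) / ((p * q : ℕ) : ℝ)

lemma b2_deriv (p q : ℕ) (hp : p.Prime) (hq : q.Prime) (x : ℝ) :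
    Filter.Tendsto (fun h : ℝ => (b2 p q (x + h) - b2 p q x) / h)
      (nhdsWithin 0 (Set.Ioi 0)) (nhds (4 * Real.pi ^ 2 * b1 p q x)) := by
  have h := (((g2_deriv x).sub (g2_deriv_dil p hp.pos x)).sub (g2_deriv_dil q hq.pos x)).add
    (g2_deriv_dil (p * q) (Nat.mul_pos hp.pos hq.pos) x)
  have e : 4 * Real.pi ^ 2 * g1 x - 4 * Real.pi ^ 2 * (g1 (p * x) / p) -
      4 * Real.pi ^ 2 * (g1 (q * x) / q) +
      4 * Real.pi ^ 2 * (g1 ((p * q : ℕ) * x) / ((p * q : ℕ) : ℝ)) =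
      4 * Real.pi ^ 2 * b1 p q x := by
    rw [b1]; ring
  rw [e] at h
  refine h.congr (fun t => ?_)
  rw [b2, b2]
  ring

lemma b2_lip (p q : ℕ) (hp : p.Prime) (hq : q.Prime) {x h : ℝ} (h0 : 0 ≤ h)
    (h1 : ((p * q : ℕ) : ℝ) * h < 1) :
    |b2 p q (x + h) - b2 p q x| ≤ 8 * Real.pi ^ 2 * h := by
  have hp1 : (1 : ℝ) ≤ p := by exact_mod_cast hp.one_lt.le
  have hq1 : (1 : ℝ) ≤ q := by exact_mod_cast hq.one_lt.le
  have e1 : ((p * q : ℕ) : ℝ) = p * q := by push_cast; ring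
  have hpl : (p : ℝ) * h < 1 := by
    refine lt_of_le_of_lt ?_ h1
    rw [e1]
    have : 0 ≤ (p : ℝ) * h := by positivity
    nlinarith
  have hql : (q : ℝ) * h < 1 := by
    refine lt_of_le_of_lt ?_ h1
    rw [e1]
    have : 0 ≤ (q : ℝ) * h := by positivity
    nlinarith
  have hl : h < 1 := by nlinarith
  have a1 := g2_lip (x := x) h0 hl
  have a2 := g2_lip_dil p hp.pos (x := x) h0 hpl
  have a3 := g2_lip_dil q hq.pos (x := x) h0 hql
  have a4 := g2_lip_dil (p * q) (Nat.mul_pos hp.pos hq.pos) (x := x) h0 h1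
  rw [b2, b2]
  rw [abs_le] at *
  constructor <;> linarith [a1.1, a1.2, a2.1, a2.2, a3.1, a3.2, a4.1, a4.2]



/-- the product `p ^ i q ^ j` -/
def PP (p q : ℕ) (ij : ℕ × ℕ) : ℕ := p ^ ij.1 * q ^ ij.2

/-- the weight -/
noncomputable def ww (p q : ℕ) (ij : ℕ × ℕ) : ℝ := 1 / (PP p q ij : ℝ)

lemma ww_pos {p q : ℕ} (hp : p.Prime) (hq : q.Prime) (ij : ℕ × ℕ) : 0 < ww p q ij := by
  have : 0 < PP p q ij := Nat.mul_pos (pow_pos hp.pos _) (pow_pos hq.pos _)
  rw [ww]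
  positivity

lemma ww_summable {p q : ℕ} (hp : p.Prime) (hq : q.Prime) : Summable (ww p q) := by
  have h1 : Summable (fun i : ℕ => (1 / (p : ℝ)) ^ i) := by
    refine summable_geometric_of_lt_one (by positivity) ?_
    rw [div_lt_one (by exact_mod_cast hp.pos)]
    exact_mod_cast hp.one_lt
  have h2 : Summable (fun i : ℕ => (1 / (q : ℝ)) ^ i) := by
    refine summable_geometric_of_lt_one (by positivity) ?_
    rw [div_lt_one (by exact_mod_cast hq.pos)]
    exact_mod_cast hq.one_lt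
  have h3 := h1.mul_of_nonneg h2 (fun i => by positivity) (fun i => by positivity)
  refine h3.congr (fun ij => ?_)
  rw [ww, PP]
  push_cast
  simp only [one_div, inv_pow]
  rw [mul_inv]

/-- the sum of the problem -/
noncomputable def cc (p q : ℕ) (s t : ℝ) (m : ℤ) : ℂ :=
  ∑' ij : ℕ × ℕ, (E (-(m * (PP p q ij : ℕ))) s - E (-(m * (PP p q ij : ℕ))) t) * (ww p q ij : ℂ)

/-- the Fourier coefficients of `b2` -/
noncomputable def be (p q : ℕ) (m : ℤ) : ℂ :=
  open Classical in if ¬ (p : ℤ) ∣ m ∧ ¬ (q : ℤ) ∣ m then 1 / (m : ℂ) ^ 2 else 0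

lemma hasSum_b2' (p q : ℕ) (hp : p.Prime) (hq : q.Prime) (hpq : p ≠ q) (x : ℝ) :
    HasSum (fun m : ℤ => be p q m * E m x) (b2 p q x : ℂ) := by
  refine (hsc (fun m => ?_)).mp (hasSum_b2 p q hp hq hpq x)
  rw [be]
  split_ifs <;> simp

lemma norm_be (p q : ℕ) (m : ℤ) : ‖be p q m‖ ≤ 1 / (m : ℝ) ^ 2 := by
  rw [be]
  split_ifs
  · simp
  · simp; positivity

lemma bb_summable {p q : ℕ} (hp : p.Prime) (hq : q.Prime) :
    Summable (fun a : (ℕ × ℕ) × ℤ => ww p q a.1 * (2 * (1 / (a.2 : ℝ) ^ 2))) := by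
  have h2 : Summable (fun m : ℤ => 2 * (1 / (m : ℝ) ^ 2)) :=
    (Real.summable_one_div_int_pow.mpr one_lt_two).mul_left 2
  exact Summable.mul_of_nonneg (f := ww p q) (g := fun m : ℤ => 2 * (1 / (m : ℝ) ^ 2))
    (ww_summable hp hq) h2 (fun ij => (ww_pos hp hq ij).le)
    (fun m => by show (0 : ℝ) ≤ 2 * (1 / (m : ℝ) ^ 2); positivity)

lemma H_zero {p q : ℕ} (hp : p.Prime) (hq : q.Prime) (hpq : p ≠ q) {s t : ℝ}
    (hc : ∀ m : ℤ, be p q m * cc p q s t m = 0) (x : ℝ) :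
    ∑' ij : ℕ × ℕ, ww p q ij * (b2 p q (x - PP p q ij * s) - b2 p q (x - PP p q ij * t)) = 0 := by
  have hC : ((∑' ij : ℕ × ℕ, ww p q ij *
      (b2 p q (x - PP p q ij * s) - b2 p q (x - PP p q ij * t)) : ℝ) : ℂ) = 0 := by
    rw [Complex.ofReal_tsum]
    have e1 : ∀ ij : ℕ × ℕ, ((ww p q ij * (b2 p q (x - PP p q ij * s) -
        b2 p q (x - PP p q ij * t)) : ℝ) : ℂ) =
        ∑' m : ℤ, be p q m * E m x * ((E (-(m * (PP p q ij : ℕ))) s -
          E (-(m * (PP p q ij : ℕ))) t) * (ww p q ij : ℂ)) := by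
      intro ij
      have h1 := ((hasSum_b2' p q hp hq hpq (x - PP p q ij * s)).sub
        (hasSum_b2' p q hp hq hpq (x - PP p q ij * t))).mul_left (ww p q ij : ℂ)
      push_cast
      rw [← h1.tsum_eq]
      refine tsum_congr (fun m => ?_)
      rw [E_sub, E_sub]
      ring
    simp_rw [e1]
    have hsum : Summable (Function.uncurry (fun (ij : ℕ × ℕ) (m : ℤ) =>
        be p q m * E m x * ((E (-(m * (PP p q ij : ℕ))) s -
          E (-(m * (PP p q ij : ℕ))) t) * (ww p q ij : ℂ)))) := by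
      refine Summable.of_norm_bounded (bb_summable hp hq) (fun a => ?_)
      obtain ⟨ij, m⟩ := a
      simp only [Function.uncurry_apply_pair]
      rw [norm_mul, norm_mul, norm_mul, norm_E, mul_one]
      have hw : ‖(ww p q ij : ℂ)‖ = ww p q ij := by
        rw [Complex.norm_real, Real.norm_of_nonneg (ww_pos hp hq ij).le]
      rw [hw]
      have h2 : ‖E (-(m * (PP p q ij : ℕ))) s - E (-(m * (PP p q ij : ℕ))) t‖ ≤ 2 := by
        refine (norm_sub_le _ _).trans ?_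
        rw [norm_E, norm_E]; norm_num
      have h3 := norm_be p q m
      have hw0 := (ww_pos hp hq ij).le
      calc ‖be p q m‖ * (‖E (-(m * (PP p q ij : ℕ))) s - E (-(m * (PP p q ij : ℕ))) t‖ * ww p q ij)
          ≤ (1 / (m : ℝ) ^ 2) * (2 * ww p q ij) := by gcongr
        _ = ww p q ij * (2 * (1 / (m : ℝ) ^ 2)) := by ring
    rw [← hsum.tsum_comm]
    have : ∀ m : ℤ, ∑' ij : ℕ × ℕ, be p q m * E m x * ((E (-(m * (PP p q ij : ℕ))) s -
          E (-(m * (PP p q ij : ℕ))) t) * (ww p q ij : ℂ)) = 0 := by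
      intro m
      rw [tsum_mul_left]
      have := hc m
      rw [cc] at this
      calc _ = E m x * (be p q m * ∑' ij : ℕ × ℕ, (E (-(m * (PP p q ij : ℕ))) s -
          E (-(m * (PP p q ij : ℕ))) t) * (ww p q ij : ℂ)) := by ring
        _ = 0 := by rw [this, mul_zero]
    simp_rw [this]
    exact tsum_zero
  exact_mod_cast hC

lemma b1_zero {p q : ℕ} (hp : p.Prime) (hq : q.Prime) {s t : ℝ}
    (hH : ∀ x : ℝ, ∑' ij : ℕ × ℕ, ww p q ij *
      (b2 p q (x - PP p q ij * s) - b2 p q (x - PP p q ij * t)) = 0)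
    (hS : ∀ x : ℝ, Summable (fun ij : ℕ × ℕ => ww p q ij *
      (b2 p q (x - PP p q ij * s) - b2 p q (x - PP p q ij * t)))) :
    ∑' ij : ℕ × ℕ, ww p q ij * (4 * Real.pi ^ 2 * b1 p q (0 - PP p q ij * s) -
      4 * Real.pi ^ 2 * b1 p q (0 - PP p q ij * t)) = 0 := by
  have hT : Filter.Tendsto (fun h : ℝ => ∑' ij : ℕ × ℕ, ww p q ij *
      ((b2 p q ((0 - PP p q ij * s) + h) - b2 p q (0 - PP p q ij * s)) / h -
      (b2 p q ((0 - PP p q ij * t) + h) - b2 p q (0 - PP p q ij * t)) / h))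
      (nhdsWithin 0 (Set.Ioi 0))
      (nhds (∑' ij : ℕ × ℕ, ww p q ij * (4 * Real.pi ^ 2 * b1 p q (0 - PP p q ij * s) -
      4 * Real.pi ^ 2 * b1 p q (0 - PP p q ij * t)))) := by
    refine tendsto_tsum_of_dominated_convergence (bound := fun ij => ww p q ij *
      (16 * Real.pi ^ 2)) ((ww_summable hp hq).mul_right _) ?_ ?_
    · intro ij
      exact ((b2_deriv p q hp hq _).sub (b2_deriv p q hp hq _)).const_mul _
    · have hpq0 : (0 : ℝ) < ((p * q : ℕ) : ℝ) := by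
        exact_mod_cast Nat.mul_pos hp.pos hq.pos
      have : Set.Ioo (0 : ℝ) (1 / ((p * q : ℕ) : ℝ)) ∈ nhdsWithin (0 : ℝ) (Set.Ioi 0) :=
        Ioo_mem_nhdsGT (by positivity)
      filter_upwards [this] with h hh ij
      have hh0 : 0 < h := hh.1
      have hh1 : ((p * q : ℕ) : ℝ) * h < 1 := by
        have := hh.2
        rw [lt_div_iff₀ hpq0] at this
        linarith
      have k1 := b2_lip p q hp hq (x := 0 - PP p q ij * s) hh0.le hh1
      have k2 := b2_lip p q hp hq (x := 0 - PP p q ij * t) hh0.le hh1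
      rw [norm_mul, Real.norm_of_nonneg (ww_pos hp hq ij).le]
      refine mul_le_mul_of_nonneg_left ?_ (ww_pos hp hq ij).le
      refine (norm_sub_le _ _).trans ?_
      rw [norm_div, norm_div, Real.norm_eq_abs, Real.norm_eq_abs, Real.norm_eq_abs,
        abs_of_pos hh0]
      have l1 : |b2 p q ((0 - PP p q ij * s) + h) - b2 p q (0 - PP p q ij * s)| / h ≤
          8 * Real.pi ^ 2 := by
        rw [div_le_iff₀ hh0]; exact k1
      have l2 : |b2 p q ((0 - PP p q ij * t) + h) - b2 p q (0 - PP p q ij * t)| / h ≤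
          8 * Real.pi ^ 2 := by
        rw [div_le_iff₀ hh0]; exact k2
      linarith
  have hZ : ∀ h : ℝ, ∑' ij : ℕ × ℕ, ww p q ij *
      ((b2 p q ((0 - PP p q ij * s) + h) - b2 p q (0 - PP p q ij * s)) / h -
      (b2 p q ((0 - PP p q ij * t) + h) - b2 p q (0 - PP p q ij * t)) / h) = 0 := by
    intro h
    have h1 := ((hS h).hasSum.sub (hS 0).hasSum).mul_right (1 / h)
    rw [hH, hH, sub_zero, zero_mul] at h1
    refine (tsum_congr (fun ij => ?_)).trans h1.tsum_eq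
    have a1 : (0 - PP p q ij * s) + h = h - PP p q ij * s := by ring
    have a2 : (0 - PP p q ij * t) + h = h - PP p q ij * t := by ring
    rw [a1, a2]
    ring
  simp_rw [hZ] at hT
  exact (tendsto_nhds_unique tendsto_const_nhds hT).symm

/-! ### summability and telescoping -/

lemma g2_bd (x : ℝ) : |g2 x| ≤ 2 * Real.pi ^ 2 := by
  have hf0 := Int.fract_nonneg x
  have hf1 := Int.fract_lt_one x
  rw [g2, abs_mul, abs_of_nonneg (by positivity : (0 : ℝ) ≤ 2 * Real.pi ^ 2)]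
  have : |Int.fract x ^ 2 - Int.fract x + 6⁻¹| ≤ 1 := by
    rw [abs_le]
    constructor <;> nlinarith
  have h2 : (0 : ℝ) ≤ 2 * Real.pi ^ 2 := by positivity
  nlinarith

lemma b2_bd (p q : ℕ) (hp : p.Prime) (hq : q.Prime) (x : ℝ) :
    |b2 p q x| ≤ 8 * Real.pi ^ 2 := by
  have hd : ∀ d : ℕ, 0 < d → |g2 (d * x) / (d : ℝ) ^ 2| ≤ 2 * Real.pi ^ 2 := by
    intro d hd
    have hd1 : (1 : ℝ) ≤ (d : ℝ) ^ 2 := one_le_pow₀ (by exact_mod_cast hd)
    rw [abs_div, abs_of_pos (by linarith : (0 : ℝ) < (d : ℝ) ^ 2)]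
    exact (div_le_self (abs_nonneg _) hd1).trans (g2_bd _)
  have a1 := g2_bd x
  have a2 := hd p hp.pos
  have a3 := hd q hq.pos
  have a4 := hd (p * q) (Nat.mul_pos hp.pos hq.pos)
  rw [b2]
  rw [abs_le] at *
  constructor <;> linarith [a1.1, a1.2, a2.1, a2.2, a3.1, a3.2, a4.1, a4.2]

lemma hS {p q : ℕ} (hp : p.Prime) (hq : q.Prime) (s t x : ℝ) :
    Summable (fun ij : ℕ × ℕ => ww p q ij *
      (b2 p q (x - PP p q ij * s) - b2 p q (x - PP p q ij * t))) := by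
  refine Summable.of_norm_bounded ((ww_summable hp hq).mul_right (16 * Real.pi ^ 2))
    (fun ij => ?_)
  rw [norm_mul, Real.norm_of_nonneg (ww_pos hp hq ij).le]
  refine mul_le_mul_of_nonneg_left ?_ (ww_pos hp hq ij).le
  refine (norm_sub_le _ _).trans ?_
  have h1 := b2_bd p q hp hq (x - PP p q ij * s)
  have h2 := b2_bd p q hp hq (x - PP p q ij * t)
  rw [Real.norm_eq_abs, Real.norm_eq_abs]
  linarith

lemma tele (f : ℕ → ℝ) (hf : Summable f) : ∑' n, (f n - f (n + 1)) = f 0 := by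
  have h1 : Summable (fun n => f (n + 1)) := (summable_nat_add_iff 1).mpr hf
  rw [hf.tsum_sub h1, hf.tsum_eq_zero_add]
  ring

lemma tele2 (G : ℕ × ℕ → ℝ) (hG : Summable G) :
    HasSum (fun ij : ℕ × ℕ => (G (ij.1, ij.2) - G (ij.1, ij.2 + 1)) -
      (G (ij.1 + 1, ij.2) - G (ij.1 + 1, ij.2 + 1))) (G (0, 0)) := by
  have s1 : Summable (fun ij : ℕ × ℕ => G (ij.1, ij.2 + 1)) :=
    hG.comp_injective (i := fun ij : ℕ × ℕ => (ij.1, ij.2 + 1)) (by
      rintro ⟨a, b⟩ ⟨c, d⟩ h; simpa using h)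
  have s2 : Summable (fun ij : ℕ × ℕ => G (ij.1 + 1, ij.2)) :=
    hG.comp_injective (i := fun ij : ℕ × ℕ => (ij.1 + 1, ij.2)) (by
      rintro ⟨a, b⟩ ⟨c, d⟩ h; simpa using h)
  have s3 : Summable (fun ij : ℕ × ℕ => G (ij.1 + 1, ij.2 + 1)) :=
    hG.comp_injective (i := fun ij : ℕ × ℕ => (ij.1 + 1, ij.2 + 1)) (by
      rintro ⟨a, b⟩ ⟨c, d⟩ h; simpa using h)
  have hF : Summable (fun ij : ℕ × ℕ => (G (ij.1, ij.2) - G (ij.1, ij.2 + 1)) -
      (G (ij.1 + 1, ij.2) - G (ij.1 + 1, ij.2 + 1))) := (hG.sub s1).sub (s2.sub s3)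
  have hrow : ∀ i : ℕ, Summable (fun j : ℕ => G (i, j)) := fun i =>
    hG.comp_injective (i := fun j : ℕ => (i, j)) (by intro a b h; simpa using h)
  have hcol : Summable (fun i : ℕ => G (i, 0)) :=
    hG.comp_injective (i := fun i : ℕ => (i, 0)) (by intro a b h; simpa using h)
  have hsr : ∀ i : ℕ, Summable (fun j : ℕ => G (i, j) - G (i, j + 1)) := fun i =>
    (hrow i).sub ((summable_nat_add_iff 1).mpr (hrow i))
  have e : ∑' ij : ℕ × ℕ, ((G (ij.1, ij.2) - G (ij.1, ij.2 + 1)) -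
      (G (ij.1 + 1, ij.2) - G (ij.1 + 1, ij.2 + 1))) = G (0, 0) := by
    rw [hF.tsum_prod]
    have : ∀ i : ℕ, ∑' j : ℕ, ((G (i, j) - G (i, j + 1)) - (G (i + 1, j) - G (i + 1, j + 1))) =
        G (i, 0) - G (i + 1, 0) := by
      intro i
      rw [(hsr i).tsum_sub (hsr (i + 1)), tele _ (hrow i), tele _ (hrow (i + 1))]
    simp only [this]
    exact tele (fun i => G (i, 0)) hcol
  rw [← e]
  exact hF.hasSum

lemma hasSum_b1 {p q : ℕ} (hp : p.Prime) (hq : q.Prime) (t : ℝ) :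
    HasSum (fun ij : ℕ × ℕ => ww p q ij * b1 p q (0 - PP p q ij * t)) (g1 (-t)) := by
  have hG : Summable (fun ij : ℕ × ℕ => ww p q ij * g1 (-(PP p q ij * t))) := by
    refine Summable.of_norm_bounded ((ww_summable hp hq).mul_right 1) (fun ij => ?_)
    rw [norm_mul, Real.norm_of_nonneg (ww_pos hp hq ij).le]
    refine mul_le_mul_of_nonneg_left ?_ (ww_pos hp hq ij).le
    rw [g1, Real.norm_eq_abs, abs_le]
    have hf0 := Int.fract_nonneg (-(PP p q ij * t))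
    have hf1 := Int.fract_lt_one (-(PP p q ij * t))
    constructor <;> linarith
  have h := tele2 _ hG
  have e0 : ww p q (0, 0) * g1 (-((PP p q (0, 0) : ℕ) * t)) = g1 (-t) := by
    simp [ww, PP]
  rw [e0] at h
  have e : (fun ij : ℕ × ℕ => ww p q ij * b1 p q (0 - PP p q ij * t)) =
      (fun ij : ℕ × ℕ => (ww p q (ij.1, ij.2) * g1 (-((PP p q (ij.1, ij.2) : ℕ) * t)) -
        ww p q (ij.1, ij.2 + 1) * g1 (-((PP p q (ij.1, ij.2 + 1) : ℕ) * t))) -
      (ww p q (ij.1 + 1, ij.2) * g1 (-((PP p q (ij.1 + 1, ij.2) : ℕ) * t)) -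
        ww p q (ij.1 + 1, ij.2 + 1) * g1 (-((PP p q (ij.1 + 1, ij.2 + 1) : ℕ) * t)))) := by
    funext ij
    obtain ⟨i, j⟩ := ij
    simp only
    have f1 : ((PP p q (i + 1, j) : ℕ) : ℝ) = p * (PP p q (i, j) : ℕ) := by
      simp only [PP]; push_cast; ring
    have f2 : ((PP p q (i, j + 1) : ℕ) : ℝ) = q * (PP p q (i, j) : ℕ) := by
      simp only [PP]; push_cast; ring
    have f3 : ((PP p q (i + 1, j + 1) : ℕ) : ℝ) = p * q * (PP p q (i, j) : ℕ) := by
      simp only [PP]; push_cast; ring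
    simp only [ww, b1]
    rw [f1, f2, f3]
    have k1 : (p : ℝ) * (0 - (PP p q (i, j) : ℕ) * t) = -(p * (PP p q (i, j) : ℕ) * t) := by ring
    have k2 : (q : ℝ) * (0 - (PP p q (i, j) : ℕ) * t) = -(q * (PP p q (i, j) : ℕ) * t) := by ring
    have k3 : ((p * q : ℕ) : ℝ) * (0 - (PP p q (i, j) : ℕ) * t) =
        -(p * q * (PP p q (i, j) : ℕ) * t) := by push_cast; ring
    have k0 : (0 : ℝ) - (PP p q (i, j) : ℕ) * t = -((PP p q (i, j) : ℕ) * t) := by ring
    rw [k1, k2, k3, k0]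
    have hp0 : (p : ℝ) ≠ 0 := by exact_mod_cast hp.ne_zero
    have hq0 : (q : ℝ) ≠ 0 := by exact_mod_cast hq.ne_zero
    have hP0 : ((PP p q (i, j) : ℕ) : ℝ) ≠ 0 := by
      have : 0 < PP p q (i, j) := Nat.mul_pos (pow_pos hp.pos _) (pow_pos hq.pos _)
      exact_mod_cast this.ne'
    push_cast
    field_simp
    ring
  rw [e]
  exact h

/-- **ARC.** -/
theorem arcMain : S_ARC := by
  intro p q hp hq hpq s t hst
  by_contra hcon
  push Not at hcon
  apply hst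
  obtain ⟨s', rfl⟩ := QuotientAddGroup.mk_surjective s
  obtain ⟨t', rfl⟩ := QuotientAddGroup.mk_surjective t
  have hc : ∀ m : ℤ, be p q m * cc p q s' t' m = 0 := by
    intro m
    rw [be]
    split_ifs with hm
    · have hm0 : m ≠ 0 := by
        rintro rfl
        exact hm.1 (dvd_zero _)
      have hmp : IsCoprime m (p : ℤ) :=
        ((Nat.prime_iff_prime_int.mp hp).coprime_iff_not_dvd.mpr hm.1).symm
      have hmq : IsCoprime m (q : ℤ) :=
        ((Nat.prime_iff_prime_int.mp hq).coprime_iff_not_dvd.mpr hm.2).symm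
      have h := hcon m hm0 hmp hmq
      have h2 : cc p q s' t' m = 0 := by
        rw [cc, ← h]
        refine tsum_congr (fun ij => ?_)
        have k : -(m * ((PP p q ij : ℕ) : ℤ)) = -(m * (p : ℤ) ^ ij.1 * (q : ℤ) ^ ij.2) := by
          rw [PP]; push_cast; ring
        rw [← E_fourier, ← E_fourier, k, ww, PP]
        push_cast
        rw [mul_one_div]
      rw [h2, mul_zero]
    · rw [zero_mul]
  have hH := fun x => H_zero hp hq hpq hc x
  have hb := b1_zero hp hq hH (hS hp hq s' t')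
  have h1 := ((hasSum_b1 hp hq s').sub (hasSum_b1 hp hq t')).mul_left (4 * Real.pi ^ 2)
  have h2 : 4 * Real.pi ^ 2 * (g1 (-s') - g1 (-t')) = 0 := by
    refine h1.tsum_eq.symm.trans (Eq.trans (tsum_congr (fun ij => ?_)) hb)
    ring
  have h3 : g1 (-s') = g1 (-t') := by
    have hpi : (4 * Real.pi ^ 2 : ℝ) ≠ 0 := by positivity
    have := (mul_eq_zero.mp h2).resolve_left hpi
    linarith
  have h4 : Int.fract (-s') = Int.fract (-t') := by
    rw [g1, g1] at h3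
    linarith
  obtain ⟨z, hz⟩ := Int.fract_eq_fract.mp h4
  have h5 : s' = t' + (-(z : ℤ) : ℤ) := by push_cast; linarith
  have h6 : ((s' : ℝ) : UnitAddCircle) = ((t' : ℝ) : UnitAddCircle) := by
    rw [h5, AddCircle.coe_add]
    have h0 : (((-(z : ℤ) : ℤ) : ℝ) : UnitAddCircle) = 0 := by
      rw [AddCircle.coe_eq_zero_iff]
      exact ⟨-z, by simp⟩
    rw [h0, add_zero]
  exact h6


end Pool.Agent.Run7.h776.FT.ArcPiece

/-- **ARC.** -/
theorem Pool.Agent.Run7.h776.FT.t_ARC : Pool.Agent.Run7.h776.FT.S_ARC :=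
  Pool.Agent.Run7.h776.FT.ArcPiece.arcMain
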