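import Mathlib
import Pool.Agent.Run7.h776.FT.Iface

/-!
# Piece MOD (helper480): moduli with few small residues, from `S_PR` and `S_RK`
-/

set_option autoImplicit false

namespace Pool.Agent.Run7.h776.FT

open Finset

namespace Mod

/-- a prime `p` is a square modulo a prime `r` with `r = -1` modulo `8` and modulo `p` -/
lemma sq_of (p r : ℕ) (hp : p.Prime) (hr : r.Prime) (h8 : r % 8 = 7)
    (hpr : (r : ZMod p) = -1) : IsSquare (p : ZMod r) := by
  have := Fact.mk hp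
  have := Fact.mk hr
  have hr2 : r ≠ 2 := by rintro rfl; norm_num at h8
  rcases hp.eq_two_or_odd' with h2 | hodd
  · subst h2
    simpa using (ZMod.exists_sq_eq_two_iff hr2).2 (Or.inr h8)
  · have h4 : p % 4 = 1 ∨ p % 4 = 3 := by
      rcases hodd with ⟨k, hk⟩; omega
    rcases h4 with h4 | h4
    · refine (ZMod.exists_sq_eq_prime_iff_of_mod_four_eq_one h4 hr2).1 ?_
      rw [hpr]
      exact ZMod.exists_sq_eq_neg_one_iff.2 (by omega)
    · have hne : r ≠ p := by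
        rintro rfl
        simp at hpr
      rw [ZMod.exists_sq_eq_prime_iff_of_mod_four_eq_three (by omega) h4 hne, hpr,
        ZMod.exists_sq_eq_neg_one_iff]
      omega

lemma exists_r0 (p q : ℕ) (hp : p.Prime) (hq : q.Prime) :
    ∃ r : ℕ, r.Prime ∧ r ≠ p ∧ r ≠ q ∧ IsSquare (p : ZMod r) ∧ IsSquare (q : ZMod r) ∧
      ¬ IsSquare (-1 : ZMod r) := by
  have : NeZero (8 * p * q) := ⟨by have := hp.pos; have := hq.pos; positivity⟩
  obtain ⟨r, hgt, hr, hmod⟩ := Nat.forall_exists_prime_gt_and_eq_mod (q := 8 * p * q) (a := -1)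
    (isUnit_one.neg) (p + q)
  have hdvd : 8 * p * q ∣ r + 1 := by
    rw [← ZMod.natCast_eq_zero_iff]
    push_cast
    rw [hmod]; ring
  have h8 : r % 8 = 7 := by
    have : 8 ∣ r + 1 := (Dvd.intro (p * q) (by ring)).trans hdvd
    omega
  have hP : (r : ZMod p) = -1 := by
    have h1 : p ∣ r + 1 := (Dvd.intro (8 * q) (by ring)).trans hdvd
    have h2 := (ZMod.natCast_eq_zero_iff (r + 1) p).2 h1
    push_cast at h2
    exact eq_neg_of_add_eq_zero_left h2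
  have hQ : (r : ZMod q) = -1 := by
    have h1 : q ∣ r + 1 := (Dvd.intro (8 * p) (by ring)).trans hdvd
    have h2 := (ZMod.natCast_eq_zero_iff (r + 1) q).2 h1
    push_cast at h2
    exact eq_neg_of_add_eq_zero_left h2
  refine ⟨r, hr, by omega, by omega, sq_of p r hp hr h8 hP, sq_of q r hq hr h8 hQ, ?_⟩
  have := Fact.mk hr
  rw [ZMod.exists_sq_eq_neg_one_iff]
  omega

section HHfacts

variable {p q N : ℕ} [NeZero N]

lemma mem_HH {h : ZMod N} : h ∈ HH p q N ↔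
    ∃ i j : ℕ, h = (p : ZMod N) ^ i * (q : ZMod N) ^ j := by
  simp [HH]

lemma one_mem_HH : (1 : ZMod N) ∈ HH p q N := mem_HH.2 ⟨0, 0, by simp⟩

lemma mul_mem_HH {a b : ZMod N} (ha : a ∈ HH p q N) (hb : b ∈ HH p q N) :
    a * b ∈ HH p q N := by
  obtain ⟨i, j, rfl⟩ := mem_HH.1 ha
  obtain ⟨k, l, rfl⟩ := mem_HH.1 hb
  exact mem_HH.2 ⟨i + k, j + l, by ring⟩

lemma inv_mem_HH {L : ℕ} (hL : 0 < L) (hp : (p : ZMod N) ^ L = 1) (hq : (q : ZMod N) ^ L = 1)
    {a : ZMod N} (ha : a ∈ HH p q N) : ∃ b ∈ HH p q N, a * b = 1 := by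
  obtain ⟨i, j, rfl⟩ := mem_HH.1 ha
  obtain ⟨M, rfl⟩ : ∃ M, L = M + 1 := ⟨L - 1, by omega⟩
  refine ⟨(p : ZMod N) ^ (i * M) * (q : ZMod N) ^ (j * M), mem_HH.2 ⟨_, _, rfl⟩, ?_⟩
  calc (p : ZMod N) ^ i * (q : ZMod N) ^ j * ((p : ZMod N) ^ (i * M) * (q : ZMod N) ^ (j * M))
      = ((p : ZMod N) ^ (M + 1)) ^ i * ((q : ZMod N) ^ (M + 1)) ^ j := by ring
    _ = 1 := by rw [hp, hq]; simp

lemma card_HH_le {L : ℕ} (hL : 0 < L) (hp : (p : ZMod N) ^ L = 1) (hq : (q : ZMod N) ^ L = 1) :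
    (HH p q N).card ≤ L * L := by
  have hsub : HH p q N ⊆ (range L ×ˢ range L).image
      (fun ij => (p : ZMod N) ^ ij.1 * (q : ZMod N) ^ ij.2) := by
    intro a ha
    obtain ⟨i, j, rfl⟩ := mem_HH.1 ha
    rw [mem_image]
    refine ⟨(i % L, j % L), ?_, ?_⟩
    · simp [Nat.mod_lt _ hL]
    · simp only
      rw [← pow_eq_pow_mod i hp, ← pow_eq_pow_mod j hq]
  calc (HH p q N).card ≤ _ := card_le_card hsub
    _ ≤ (range L ×ˢ range L).card := card_image_le
    _ = L * L := by simp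

end HHfacts

/-- `HH` and its negatives -/
noncomputable def GG (p q N : ℕ) [NeZero N] : Finset (ZMod N) := by
  classical
  exact HH p q N ∪ (HH p q N).image (fun h => -h)

section GGfacts

variable {p q N : ℕ} [NeZero N]

lemma mem_GG {h : ZMod N} : h ∈ GG p q N ↔ h ∈ HH p q N ∨ -h ∈ HH p q N := by
  classical
  simp only [GG, mem_union, mem_image]
  constructor
  · rintro (h1 | ⟨a, ha, rfl⟩)
    · exact Or.inl h1
    · exact Or.inr (by simpa using ha)
  · rintro (h1 | h1)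
    · exact Or.inl h1
    · exact Or.inr ⟨-h, h1, by simp⟩

lemma card_GG_le : (GG p q N).card ≤ 2 * (HH p q N).card := by
  classical
  have h1 : (GG p q N).card ≤ (HH p q N).card + ((HH p q N).image (fun h => -h)).card :=
    card_union_le _ _
  have h2 : ((HH p q N).image (fun h : ZMod N => -h)).card ≤ (HH p q N).card := card_image_le
  omega

lemma mul_mem_GG {a b : ZMod N} (ha : a ∈ GG p q N) (hb : b ∈ GG p q N) :
    a * b ∈ GG p q N := by
  rw [mem_GG] at *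
  rcases ha with ha | ha <;> rcases hb with hb | hb
  · exact Or.inl (mul_mem_HH ha hb)
  · exact Or.inr (by simpa using mul_mem_HH ha hb)
  · exact Or.inr (by simpa using mul_mem_HH ha hb)
  · exact Or.inl (by simpa using mul_mem_HH ha hb)

end GGfacts

/-- the possible large parts -/
noncomputable def AA (p q N y : ℕ) [NeZero N] : Finset ℕ := by
  classical
  exact (Finset.Icc 2 (N / 2)).filter
    (fun m => (∀ l : ℕ, l.Prime → l ∣ m → y < l) ∧ (m : ZMod N) ∈ GG p q N)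

lemma mem_AA {p q N y m : ℕ} [NeZero N] : m ∈ AA p q N y ↔
    (2 ≤ m ∧ m ≤ N / 2) ∧ (∀ l : ℕ, l.Prime → l ∣ m → y < l) ∧ (m : ZMod N) ∈ GG p q N := by
  simp [AA]

/-- decomposition of a residue which is not of the form `p ^ i q ^ j` -/
lemma decomp {p q N y L r : ℕ} [NeZero N] (hp : p.Prime) (hq : q.Prime) (hL : 0 < L)
    (hpL : (p : ZMod N) ^ L = 1) (hqL : (q : ZMod N) ^ L = 1)
    (hpN : N.Coprime p) (hqN : N.Coprime q)
    (hy : ∀ l : ℕ, l.Prime → l ≤ y → l ≠ p → l ≠ q → l ∣ N)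
    (hr : r.Prime) (hrp : r ≠ p) (hrq : r ≠ q) (hrN : r ∣ N)
    (hps : IsSquare (p : ZMod r)) (hqs : IsSquare (q : ZMod r)) (hns : ¬ IsSquare (-1 : ZMod r))
    {h : ZMod N} (hh : h ∈ HH p q N) (hS : ¬ IsS p q h.valMinAbs) :
    ∃ (s : Bool) (i j m : ℕ), i < N ∧ j < N ∧ m ∈ AA p q N y ∧
      h.valMinAbs = (if s then -1 else 1) * ((p : ℤ) ^ i * (q : ℤ) ^ j * m) := by
  set n := h.valMinAbs with hn
  have hnh : (n : ZMod N) = h := ZMod.coe_valMinAbs h
  obtain ⟨a, b, hab⟩ := mem_HH.1 hh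
  have hdvd : (N : ℤ) ∣ (p : ℤ) ^ a * (q : ℤ) ^ b - n := by
    rw [← ZMod.intCast_eq_intCast_iff_dvd_sub]
    push_cast
    rw [hnh, hab]
  -- a prime dividing `N` does not divide `n`
  have hcop : ∀ l : ℕ, l.Prime → l ∣ N → ¬ (l : ℤ) ∣ n := by
    intro l hl hlN hln
    have h1 : (l : ℤ) ∣ (p : ℤ) ^ a * (q : ℤ) ^ b := by
      have h2 : (l : ℤ) ∣ (p : ℤ) ^ a * (q : ℤ) ^ b - n := (Int.natCast_dvd_natCast.2 hlN).trans hdvd
      have h3 := dvd_add h2 hln
      simpa using h3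
    have h4 : l ∣ p ^ a * q ^ b := by exact_mod_cast h1
    rcases (Nat.Prime.dvd_mul hl).1 h4 with h5 | h5
    · have h6 := (Nat.prime_dvd_prime_iff_eq hl hp).1 (hl.dvd_of_dvd_pow h5)
      subst h6
      exact hl.one_lt.ne' (Nat.dvd_one.1 (hpN ▸ Nat.dvd_gcd hlN dvd_rfl))
    · have h6 := (Nat.prime_dvd_prime_iff_eq hl hq).1 (hl.dvd_of_dvd_pow h5)
      subst h6
      exact hl.one_lt.ne' (Nat.dvd_one.1 (hqN ▸ Nat.dvd_gcd hlN dvd_rfl))
  have hn0 : n ≠ 0 := by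
    intro h0
    exact hcop r hr hrN (by rw [h0]; exact dvd_zero _)
  have hna : n.natAbs ≠ 0 := by simpa using hn0
  obtain ⟨i, n', hpn', hni⟩ := Nat.exists_eq_pow_mul_and_not_dvd hna p hp.one_lt.ne'
  have hn'0 : n' ≠ 0 := by rintro rfl; simp at hpn'
  obtain ⟨j, m, hqm, hn'⟩ := Nat.exists_eq_pow_mul_and_not_dvd hn'0 q hq.one_lt.ne'
  have hpm : ¬ p ∣ m := fun h => hpn' (hn' ▸ h.mul_left _)
  have hm0 : m ≠ 0 := by rintro rfl; simp at hqm
  have habs : n.natAbs = p ^ i * q ^ j * m := by rw [hni, hn']; ring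
  have hle : n.natAbs ≤ N / 2 := ZMod.natAbs_valMinAbs_le h
  have hN0 : 0 < N := NeZero.pos N
  have hpi : 0 < p ^ i := pow_pos hp.pos i
  have hqj : 0 < q ^ j := pow_pos hq.pos j
  have hmle : m ≤ N / 2 := by
    refine le_trans ?_ hle
    rw [habs]
    exact Nat.le_mul_of_pos_left m (Nat.mul_pos hpi hqj)
  have hmpos : 0 < m := Nat.pos_of_ne_zero hm0
  have hpile : p ^ i ≤ N := by
    have h1 : p ^ i ≤ n.natAbs := by
      rw [habs, mul_assoc]
      exact Nat.le_mul_of_pos_right _ (Nat.mul_pos hqj hmpos)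
    omega
  have hqjle : q ^ j ≤ N := by
    have h1 : q ^ j ≤ n.natAbs := by
      rw [habs, mul_comm (p ^ i), mul_assoc]
      exact Nat.le_mul_of_pos_right _ (Nat.mul_pos hpi hmpos)
    omega
  have hi : i < N := lt_of_lt_of_le (Nat.lt_pow_self hp.one_lt) hpile
  have hj : j < N := lt_of_lt_of_le (Nat.lt_pow_self hq.one_lt) hqjle
  have hsign : ∃ s : Bool, n = (if s then -1 else 1) * ((p : ℤ) ^ i * (q : ℤ) ^ j * m) := by
    rcases Int.natAbs_eq n with h1 | h1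
    · refine ⟨false, ?_⟩
      rw [h1, habs]; push_cast; simp
    · refine ⟨true, ?_⟩
      rw [h1, habs]; push_cast; simp
  obtain ⟨s, hs⟩ := hsign
  have hmn : (m : ℤ) ∣ n := by rw [hs]; exact Dvd.dvd.mul_left (dvd_mul_left _ _) _
  refine ⟨s, i, j, m, hi, hj, mem_AA.2 ⟨⟨?_, hmle⟩, ?_, ?_⟩, hs⟩
  · -- `m ≠ 1`
    rcases Nat.lt_or_ge m 2 with h2 | h2
    · exfalso
      have hm1 : m = 1 := by omega
      subst hm1
      cases s with
      | false => exact hS ⟨i, j, by rw [hs]; simp⟩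
      | true =>
        apply hns
        have := Fact.mk hr
        have h3 : (r : ℤ) ∣ (p : ℤ) ^ a * (q : ℤ) ^ b - n :=
          (Int.natCast_dvd_natCast.2 hrN).trans hdvd
        have h4 := (ZMod.intCast_zmod_eq_zero_iff_dvd _ r).2 h3
        rw [hs] at h4
        push_cast at h4
        simp only [if_true, mul_one] at h4
        have hp0 : (p : ZMod r) ≠ 0 := by
          rw [Ne, ZMod.natCast_eq_zero_iff]
          exact fun h => hrp ((Nat.prime_dvd_prime_iff_eq hr hp).1 h)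
        have hq0 : (q : ZMod r) ≠ 0 := by
          rw [Ne, ZMod.natCast_eq_zero_iff]
          exact fun h => hrq ((Nat.prime_dvd_prime_iff_eq hr hq).1 h)
        have h5 : (p : ZMod r) ^ i * (q : ZMod r) ^ j ≠ 0 :=
          mul_ne_zero (pow_ne_zero _ hp0) (pow_ne_zero _ hq0)
        have h6 : (-1 : ZMod r) = (p : ZMod r) ^ a * (q : ZMod r) ^ b *
            ((p : ZMod r) ^ i * (q : ZMod r) ^ j)⁻¹ := by
          rw [eq_mul_inv_iff_mul_eq₀ h5]
          linear_combination (-1 : ZMod r) * h4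
        rw [h6]
        exact ((hps.pow a).mul (hqs.pow b)).mul ((hps.pow i).mul (hqs.pow j)).inv
    · exact h2
  · intro l hl hlm
    by_contra hle'
    rw [not_lt] at hle'
    have h1 : l ≠ p := by rintro rfl; exact hpm hlm
    have h2 : l ≠ q := by rintro rfl; exact hqm hlm
    exact hcop l hl (hy l hl hle' h1 h2) ((Int.natCast_dvd_natCast.2 hlm).trans hmn)
  · -- the class of `m`
    obtain ⟨c, hc, hc1⟩ := inv_mem_HH hL hpL hqL
      (mem_HH.2 ⟨i, j, rfl⟩ : (p : ZMod N) ^ i * (q : ZMod N) ^ j ∈ HH p q N)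
    have h1 : ((if s then -1 else 1 : ℤ) : ZMod N) *
        ((p : ZMod N) ^ i * (q : ZMod N) ^ j * (m : ZMod N)) = h := by
      rw [← hnh, hs]; push_cast; ring
    rw [mem_GG]
    cases s with
    | false =>
      left
      have h2 : (m : ZMod N) = h * c := by
        rw [← h1]
        simp only [Bool.false_eq_true, if_false, Int.cast_one, one_mul]
        linear_combination (-(m : ZMod N)) * hc1
      rw [h2]
      exact mul_mem_HH hh hc
    | true =>
      right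
      have h2 : -(m : ZMod N) = h * c := by
        rw [← h1]
        simp only [if_true, Int.cast_neg, Int.cast_one]
        linear_combination ((m : ZMod N)) * hc1
      rw [h2]
      exact mul_mem_HH hh hc

lemma geom_le (p K : ℕ) (hp : 2 ≤ p) : ∑ i ∈ range K, (1 / (p : ℝ)) ^ i ≤ 2 := by
  refine le_trans (sum_le_sum fun i _ => ?_) (sum_geometric_two_le K)
  have h2 : (2 : ℝ) ≤ p := by exact_mod_cast hp
  exact pow_le_pow_left₀ (by positivity) (one_div_le_one_div_of_le (by norm_num) h2) i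

/-- the sum over the residues is at most `8` times the sum over the large parts -/
lemma sum_le {p q N y L r : ℕ} [NeZero N] (hp : p.Prime) (hq : q.Prime) (hL : 0 < L)
    (hpL : (p : ZMod N) ^ L = 1) (hqL : (q : ZMod N) ^ L = 1)
    (hpN : N.Coprime p) (hqN : N.Coprime q)
    (hy : ∀ l : ℕ, l.Prime → l ≤ y → l ≠ p → l ≠ q → l ∣ N)
    (hr : r.Prime) (hrp : r ≠ p) (hrq : r ≠ q) (hrN : r ∣ N)
    (hps : IsSquare (p : ZMod r)) (hqs : IsSquare (q : ZMod r)) (hns : ¬ IsSquare (-1 : ZMod r))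
    (F : Finset (ZMod N)) (hF : F ⊆ HH p q N) (hS : ∀ h ∈ F, ¬ IsS p q h.valMinAbs) :
    ∑ h ∈ F, 1 / |(h.valMinAbs : ℝ)| ≤ 8 * ∑ m ∈ AA p q N y, (1 : ℝ) / m := by
  classical
  have hdec : ∀ h : ZMod N, ∃ (s : Bool) (i j m : ℕ), h ∈ F → i < N ∧ j < N ∧ m ∈ AA p q N y ∧
      h.valMinAbs = (if s then -1 else 1) * ((p : ℤ) ^ i * (q : ℤ) ^ j * m) := by
    intro h
    by_cases hh : h ∈ F
    · obtain ⟨s, i, j, m, h1⟩ := decomp hp hq hL hpL hqL hpN hqN hy hr hrp hrq hrN hps hqs hns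
        (hF hh) (hS h hh)
      exact ⟨s, i, j, m, fun _ => h1⟩
    · exact ⟨true, 0, 0, 0, fun h1 => absurd h1 hh⟩
  choose s i j m hdec using hdec
  let φ : ZMod N → Bool × (ℕ × (ℕ × ℕ)) := fun h => (s h, (i h, (j h, m h)))
  let f : Bool × (ℕ × (ℕ × ℕ)) → ℝ := fun t =>
    (1 / (p : ℝ)) ^ t.2.1 * ((1 / (q : ℝ)) ^ t.2.2.1 * (1 / (t.2.2.2 : ℝ)))
  have hinj : Set.InjOn φ F := by
    intro h hh h' hh' he
    simp only [φ, Prod.mk.injEq] at he
    obtain ⟨e1, e2, e3, e4⟩ := he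
    apply ZMod.injective_valMinAbs
    rw [(hdec h hh).2.2.2, (hdec h' hh').2.2.2, e1, e2, e3, e4]
  have hval : ∀ h ∈ F, 1 / |(h.valMinAbs : ℝ)| = f (φ h) := by
    intro h hh
    rw [(hdec h hh).2.2.2]
    have h1 : |(((if s h then -1 else 1 : ℤ) * ((p : ℤ) ^ i h * (q : ℤ) ^ j h * (m h : ℤ)) : ℤ) : ℝ)|
        = (p : ℝ) ^ i h * (q : ℝ) ^ j h * m h := by
      push_cast
      rw [abs_mul, abs_of_nonneg (by positivity :
        (0 : ℝ) ≤ (p : ℝ) ^ i h * (q : ℝ) ^ j h * (m h : ℝ))]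
      cases s h <;> simp
    rw [h1]
    simp only [f, φ]
    rw [one_div, mul_inv, mul_inv, one_div, one_div, one_div, inv_pow, inv_pow, mul_assoc]
  have hfnn : ∀ t, 0 ≤ f t := fun t => by simp only [f]; positivity
  rw [sum_congr rfl hval, ← sum_image (f := f) hinj]
  have hsub : F.image φ ⊆ (univ : Finset Bool) ×ˢ (range N ×ˢ (range N ×ˢ AA p q N y)) := by
    intro t ht
    obtain ⟨h, hh, rfl⟩ := mem_image.1 ht
    obtain ⟨h1, h2, h3, -⟩ := hdec h hh
    simp only [φ, mem_product, mem_univ, mem_range, true_and]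
    exact ⟨h1, h2, h3⟩
  refine le_trans (sum_le_sum_of_subset_of_nonneg hsub fun t _ _ => hfnn t) ?_
  have hprod : ∑ t ∈ (univ : Finset Bool) ×ˢ (range N ×ˢ (range N ×ˢ AA p q N y)), f t =
      2 * ((∑ i ∈ range N, (1 / (p : ℝ)) ^ i) * ((∑ j ∈ range N, (1 / (q : ℝ)) ^ j) *
        ∑ m ∈ AA p q N y, (1 : ℝ) / m)) := by
    rw [sum_product]
    simp only [f]
    rw [sum_const]
    simp only [card_univ, Fintype.card_bool, nsmul_eq_mul, Nat.cast_ofNat]
    congr 1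
    rw [sum_product, sum_mul]
    refine sum_congr rfl fun i _ => ?_
    rw [sum_product, sum_mul, mul_sum]
    refine sum_congr rfl fun j _ => ?_
    rw [mul_sum, mul_sum]
  rw [hprod]
  have hA : 0 ≤ ∑ m ∈ AA p q N y, (1 : ℝ) / m := sum_nonneg fun m _ => by positivity
  have h1 := geom_le p N hp.two_le
  have h2 := geom_le q N hq.two_le
  have h1' : 0 ≤ ∑ i ∈ range N, (1 / (p : ℝ)) ^ i := sum_nonneg fun m _ => by positivity
  have h2' : 0 ≤ ∑ i ∈ range N, (1 / (q : ℝ)) ^ i := sum_nonneg fun m _ => by positivity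
  have h3 : (∑ j ∈ range N, (1 / (q : ℝ)) ^ j) * ∑ m ∈ AA p q N y, (1 : ℝ) / m ≤
      2 * ∑ m ∈ AA p q N y, (1 : ℝ) / m := mul_le_mul_of_nonneg_right h2 hA
  have h4 : (∑ i ∈ range N, (1 / (p : ℝ)) ^ i) * ((∑ j ∈ range N, (1 / (q : ℝ)) ^ j) *
        ∑ m ∈ AA p q N y, (1 : ℝ) / m) ≤ 2 * (2 * ∑ m ∈ AA p q N y, (1 : ℝ) / m) :=
    mul_le_mul h1 h3 (mul_nonneg h2' hA) (by norm_num)
  linarith

/-- the sum over the large parts, by `S_RK` -/
lemma sum_AA_le (hRK : S_RK) {p q N y x T E : ℕ} [NeZero N] (hy : 2 ≤ y) (hx : 0 < x)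
    (hxN : x ^ (T * E) < N) (hG : (GG p q N).card < (E + 1) ^ T) :
    ∑ m ∈ AA p q N y, (1 : ℝ) / m ≤
      (((y : ℝ) / (y - 1)) ^ T - 1) + (GG p q N).card / (x : ℝ) := by
  classical
  have h1 : (1 : ZMod N) ∈ GG p q N := mem_GG.2 (Or.inl one_mem_HH)
  rw [← sum_filter_add_sum_filter_not (AA p q N y) (fun m => m ≤ x)]
  refine add_le_add ?_ ?_
  · set A := insert 1 ((AA p q N y).filter (fun m => m ≤ x)) with hA
    have h1not : 1 ∉ (AA p q N y).filter (fun m => m ≤ x) := by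
      intro h
      have := (mem_AA.1 (mem_filter.1 h).1).1.1
      omega
    have h2 := hRK y x T E N A (GG p q N) hy (by
      intro m hm
      rw [hA, mem_insert] at hm
      rcases hm with rfl | hm
      · refine ⟨one_pos, hx, ?_, by simpa using h1⟩
        intro l hl hl1
        exact absurd (Nat.dvd_one.1 hl1) hl.one_lt.ne'
      · obtain ⟨h3, h4⟩ := mem_filter.1 hm
        obtain ⟨h5, h6, h7⟩ := mem_AA.1 h3
        exact ⟨by omega, h4, h6, h7⟩) h1 (fun a ha b hb => mul_mem_GG ha hb) hxN hG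
    rw [hA, sum_insert h1not] at h2
    simp only [Nat.cast_one, div_one] at h2
    linarith
  · have h3 : ∀ m ∈ (AA p q N y).filter (fun m => ¬ m ≤ x), (1 : ℝ) / m ≤ 1 / x := by
      intro m hm
      have h4 := (mem_filter.1 hm).2
      have h5 : (x : ℝ) ≤ m := by
        have : x ≤ m := by omega
        exact_mod_cast this
      exact one_div_le_one_div_of_le (by exact_mod_cast hx) h5
    refine le_trans (sum_le_card_nsmul _ _ _ h3) ?_
    rw [nsmul_eq_mul, mul_one_div]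
    have h6 : ((AA p q N y).filter (fun m => ¬ m ≤ x)).card ≤ (GG p q N).card := by
      refine card_le_card_of_injOn (fun m => (m : ZMod N)) ?_ ?_
      · intro m hm
        exact (mem_AA.1 (mem_filter.1 (Finset.mem_coe.1 hm)).1).2.2
      · intro m hm m' hm' he
        have h7 := (mem_AA.1 (mem_filter.1 (Finset.mem_coe.1 hm)).1).1.2
        have h8 := (mem_AA.1 (mem_filter.1 (Finset.mem_coe.1 hm')).1).1.2
        have hN : 0 < N := NeZero.pos N
        have h9 := (ZMod.natCast_eq_natCast_iff' m m' N).1 he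
        rwa [Nat.mod_eq_of_lt (by omega), Nat.mod_eq_of_lt (by omega)] at h9
    gcongr

/-- the primes `r` other than `p`, `q` with `r - 1 ∣ L` -/
noncomputable def PP (p q L : ℕ) : Finset ℕ := by
  classical
  exact (range (L + 2)).filter (fun r => r.Prime ∧ r ≠ p ∧ r ≠ q ∧ r - 1 ∣ L)

lemma mem_PP {p q L r : ℕ} (hL : 0 < L) : r ∈ PP p q L ↔
    r.Prime ∧ r ≠ p ∧ r ≠ q ∧ r - 1 ∣ L := by
  simp only [PP, mem_filter, mem_range, and_iff_right_iff_imp]
  rintro ⟨-, -, -, h⟩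
  have := Nat.le_of_dvd hL h
  omega

/-- the modulus -/
noncomputable def NN (p q L : ℕ) : ℕ := ∏ r ∈ PP p q L, r

lemma NN_pos {p q L : ℕ} (hL : 0 < L) : 0 < NN p q L :=
  prod_pos fun r hr => ((mem_PP hL).1 hr).1.pos

lemma pow_NN {p q L a : ℕ} (hL : 0 < L) (ha0 : 0 < a) (ha : ∀ r ∈ PP p q L, ¬ r ∣ a) :
    (a : ZMod (NN p q L)) ^ L = 1 := by
  have h1 : NN p q L ∣ a ^ L - 1 := by
    refine prod_primes_dvd _ (fun r hr => ((mem_PP hL).1 hr).1.prime) ?_
    intro r hr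
    have hp := ((mem_PP hL).1 hr).1
    have := Fact.mk hp
    have h2 : (a : ZMod r) ≠ 0 := by
      rw [Ne, ZMod.natCast_eq_zero_iff]; exact ha r hr
    have h3 : (a : ZMod r) ^ (r - 1) = 1 := ZMod.pow_card_sub_one_eq_one h2
    obtain ⟨k, hk⟩ := ((mem_PP hL).1 hr).2.2.2
    rw [← ZMod.natCast_eq_zero_iff, Nat.cast_sub (Nat.one_le_pow _ _ ha0)]
    push_cast
    rw [hk, pow_mul, h3, one_pow, sub_self]
  have h4 := (ZMod.natCast_eq_zero_iff (a ^ L - 1) (NN p q L)).2 h1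
  rw [Nat.cast_sub (Nat.one_le_pow _ _ ha0)] at h4
  push_cast at h4
  exact sub_eq_zero.1 h4

lemma NN_coprime {p q L a : ℕ} (hL : 0 < L) (ha : a.Prime) (hpq : a = p ∨ a = q) :
    (NN p q L).Coprime a := by
  refine Nat.Coprime.prod_left fun r hr => ?_
  obtain ⟨h1, h2, h3, -⟩ := (mem_PP hL).1 hr
  refine (Nat.coprime_primes h1 ha).2 ?_
  rcases hpq with rfl | rfl
  · exact h2
  · exact h3

lemma dvd_NN {p q L r : ℕ} (hr : r ∈ PP p q L) : r ∣ NN p q L := dvd_prod_of_mem _ hr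

lemma le_NN {p q L n : ℕ} (hL : 0 < L) (h : n ≤ (PP p q L).card) : 2 ^ n ≤ NN p q L :=
  (Nat.pow_le_pow_right (by norm_num) h).trans
    (pow_card_le_prod _ _ _ fun _ hr => ((mem_PP hL).1 hr).1.two_le)

/-- the real inequalities -/
lemma numbers {D δ ε : ℝ} (hD : 0 < D) (hδ : 0 < δ) (hδ1 : δ ≤ 1 / 2) (hε : 0 < ε)
    {z L N : ℕ} (hL : 0 < L) (hlogL : Real.log L ≤ D * (z : ℝ) ^ 4)
    (hN : 2 ^ (z ^ 9 - 2) ≤ N) (h1 : 16 / ε ≤ z) (h2 : 2 * (2 * D + 1) / δ < Real.log z)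
    (h3 : 8 * (2 * D + 2) < √(z : ℝ)) (h4 : 3 ≤ δ * z) (h5 : 2 ≤ z) :
    (2 * (L * L) * z) ^ (⌈δ * (z : ℝ) ^ 4⌉₊ * Nat.sqrt z) < N ∧
    2 * (L * L) < (Nat.sqrt z + 1) ^ ⌈δ * (z : ℝ) ^ 4⌉₊ ∧
    ((L * L : ℕ) : ℝ) ≤ ε * N ∧
    (((z ^ 4 : ℕ) : ℝ) / ((z ^ 4 : ℕ) - 1)) ^ ⌈δ * (z : ℝ) ^ 4⌉₊ ≤ Real.exp (2 * δ) := by
  have hz2 : (2 : ℝ) ≤ z := by exact_mod_cast h5
  have hz0 : (0 : ℝ) < z := by linarith
  have hz4 : (z : ℝ) ≤ (z : ℝ) ^ 4 := by
    nlinarith [pow_pos hz0 2, pow_pos hz0 3, mul_self_nonneg ((z : ℝ) - 1)]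
  set T := ⌈δ * (z : ℝ) ^ 4⌉₊ with hT
  set E := Nat.sqrt z with hE
  have hTlow : δ * (z : ℝ) ^ 4 ≤ T := Nat.le_ceil _
  have hTup : (T : ℝ) < δ * (z : ℝ) ^ 4 + 1 := Nat.ceil_lt_add_one (by positivity)
  have hLpos : (0 : ℝ) < L := by exact_mod_cast hL
  have hlog2 : Real.log 2 ≤ 1 := by have := Real.log_two_lt_d9; linarith
  have hlog2' : (1 : ℝ) / 2 ≤ Real.log 2 := by have := Real.log_two_gt_d9; linarith
  have hlogz : Real.log z ≤ z := (Real.log_le_sub_one_of_pos hz0).trans (by linarith)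
  have hE1 : 1 ≤ E := by
    rw [hE, Nat.le_sqrt]; omega
  have hElow : (z : ℝ) < ((E : ℝ) + 1) * (E + 1) := by
    have := Nat.lt_succ_sqrt z
    rw [← hE] at this
    exact_mod_cast this
  have hEup : (E : ℝ) ≤ √(z : ℝ) := Real.nat_sqrt_le_real_sqrt
  have hδz4 : 3 ≤ δ * (z : ℝ) ^ 4 := by nlinarith
  have hT1 : 1 ≤ T := by
    have : (0 : ℝ) < T := by linarith
    exact_mod_cast this
  have hsq : √(z : ℝ) * √(z : ℝ) = z := Real.mul_self_sqrt hz0.le
  have hsqpos : 0 < √(z : ℝ) := Real.sqrt_pos.2 hz0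
  have hlogEpos : 0 < Real.log ((E : ℝ) + 1) := Real.log_pos (by
    have : (1 : ℝ) ≤ E := by exact_mod_cast hE1
    linarith)
  have hlogE : Real.log z / 2 ≤ Real.log ((E : ℝ) + 1) := by
    have hE0 : (0 : ℝ) < (E : ℝ) + 1 := by positivity
    have := Real.log_le_log hz0 hElow.le
    rw [Real.log_mul hE0.ne' hE0.ne'] at this
    linarith
  -- (i)
  have hxpos : 0 < 2 * (L * L) * z := by positivity
  have hlogx : Real.log ((2 * (L * L) * z : ℕ) : ℝ) ≤ (2 * D + 2) * (z : ℝ) ^ 4 := by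
    push_cast
    rw [Real.log_mul (by positivity) hz0.ne', Real.log_mul (by norm_num) (by positivity),
      Real.log_mul hLpos.ne' hLpos.ne']
    nlinarith
  have hN0 : 0 < N := lt_of_lt_of_le (by positivity) hN
  have hNR : (0 : ℝ) < N := by exact_mod_cast hN0
  have hlogN : (z : ℝ) ^ 9 / 4 ≤ Real.log N := by
    have h6 : (2 : ℝ) ^ (z ^ 9 - 2) ≤ N := by exact_mod_cast hN
    have h7 := Real.log_le_log (by positivity) h6
    rw [Real.log_pow] at h7
    have h8 : 2 ≤ z ^ 9 := le_trans h5 (Nat.le_self_pow (by norm_num) z)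
    rw [Nat.cast_sub h8] at h7
    push_cast at h7
    have h9 : (4 : ℝ) ≤ (z : ℝ) ^ 9 := by
      calc (4 : ℝ) ≤ 2 ^ 9 := by norm_num
        _ ≤ (z : ℝ) ^ 9 := pow_le_pow_left₀ (by norm_num) hz2 9
    nlinarith
  have hA : (2 * (L * L) * z) ^ (T * E) < N := by
    have h6 : Real.log (((2 * (L * L) * z) ^ (T * E) : ℕ) : ℝ) < Real.log N := by
      rw [Nat.cast_pow, Real.log_pow]
      refine lt_of_lt_of_le ?_ hlogN
      have hlx0 : 0 ≤ Real.log ((2 * (L * L) * z : ℕ) : ℝ) := Real.log_natCast_nonneg _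
      have h7 : ((T * E : ℕ) : ℝ) ≤ (z : ℝ) ^ 4 * √(z : ℝ) := by
        push_cast
        refine mul_le_mul ?_ hEup (by positivity) (by positivity)
        nlinarith
      calc ((T * E : ℕ) : ℝ) * Real.log ((2 * (L * L) * z : ℕ) : ℝ)
          ≤ ((z : ℝ) ^ 4 * √(z : ℝ)) * ((2 * D + 2) * (z : ℝ) ^ 4) :=
            mul_le_mul h7 hlogx hlx0 (by positivity)
        _ = (z : ℝ) ^ 8 * √(z : ℝ) * (2 * D + 2) := by ring
        _ < (z : ℝ) ^ 8 * √(z : ℝ) * (√(z : ℝ) / 4) := by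
            refine mul_lt_mul_of_pos_left ?_ (by positivity)
            linarith
        _ = (z : ℝ) ^ 8 * (√(z : ℝ) * √(z : ℝ)) / 4 := by ring
        _ = (z : ℝ) ^ 9 / 4 := by rw [hsq]; ring
    have h7 : (0 : ℝ) < (((2 * (L * L) * z) ^ (T * E) : ℕ) : ℝ) := by
      have := pow_pos hxpos (T * E)
      exact_mod_cast this
    have h8 := (Real.log_lt_log_iff h7 hNR).1 h6
    exact_mod_cast h8
  have hB : 2 * (L * L) < (E + 1) ^ T := by
    have h6 : Real.log ((2 * (L * L) : ℕ) : ℝ) < Real.log (((E + 1) ^ T : ℕ) : ℝ) := by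
      push_cast
      rw [Real.log_mul (by norm_num) (by positivity), Real.log_mul hLpos.ne' hLpos.ne',
        Real.log_pow]
      have h7 : (2 * D + 1) * (z : ℝ) ^ 4 < δ * (z : ℝ) ^ 4 * (Real.log z / 2) := by
        rw [div_lt_iff₀ hδ] at h2
        have h8 : 0 < (z : ℝ) ^ 4 := by positivity
        nlinarith
      have h8 : δ * (z : ℝ) ^ 4 * (Real.log z / 2) ≤ T * Real.log ((E : ℝ) + 1) :=
        mul_le_mul hTlow hlogE (by
          have := Real.log_nonneg (by linarith : (1 : ℝ) ≤ z)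
          linarith) (by positivity)
      nlinarith
    have h7 : (0 : ℝ) < ((2 * (L * L) : ℕ) : ℝ) := by
      have : 0 < 2 * (L * L) := by positivity
      exact_mod_cast this
    have h8 : (0 : ℝ) < (((E + 1) ^ T : ℕ) : ℝ) := by
      have : 0 < (E + 1) ^ T := by positivity
      exact_mod_cast this
    have h9 := (Real.log_lt_log_iff h7 h8).1 h6
    exact_mod_cast h9
  refine ⟨hA, hB, ?_, ?_⟩
  · have h6 : 2 * (L * L) * z ≤ (2 * (L * L) * z) ^ (T * E) :=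
      Nat.le_self_pow (Nat.mul_ne_zero (by omega) (by omega)) _
    have h7 : 2 * (L * L) * z < N := lt_of_le_of_lt h6 hA
    have h8 : 2 * ((L * L : ℕ) : ℝ) * z < N := by exact_mod_cast h7
    have h9 : 16 ≤ z * ε := (div_le_iff₀ hε).1 h1
    have h10 : (0 : ℝ) ≤ ((L * L : ℕ) : ℝ) := by positivity
    have h11 : ε * (2 * ((L * L : ℕ) : ℝ) * z) ≤ ε * N := mul_le_mul_of_nonneg_left h8.le hε.le
    nlinarith
  · have hy1 : (0 : ℝ) < (z : ℝ) ^ 4 - 1 := by nlinarith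
    have h6 : ((z ^ 4 : ℕ) : ℝ) / ((z ^ 4 : ℕ) - 1) ≤ Real.exp (1 / ((z : ℝ) ^ 4 - 1)) := by
      push_cast
      have h7 := Real.add_one_le_exp (1 / ((z : ℝ) ^ 4 - 1))
      refine le_trans (le_of_eq ?_) h7
      field_simp
      ring
    have h8 : (0 : ℝ) ≤ ((z ^ 4 : ℕ) : ℝ) / ((z ^ 4 : ℕ) - 1) := by
      push_cast; positivity
    calc (((z ^ 4 : ℕ) : ℝ) / ((z ^ 4 : ℕ) - 1)) ^ T
        ≤ (Real.exp (1 / ((z : ℝ) ^ 4 - 1))) ^ T := pow_le_pow_left₀ h8 h6 T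
      _ = Real.exp (T * (1 / ((z : ℝ) ^ 4 - 1))) := by rw [← Real.exp_nat_mul]
      _ ≤ Real.exp (2 * δ) := by
          apply Real.exp_le_exp.2
          rw [mul_one_div, div_le_iff₀ hy1]
          nlinarith

end Mod

open Pool.Agent.Run7.h776.FT.Mod in
/-- **MOD.** -/
theorem t_MOD (h1 : S_PR) (h2 : S_RK) : S_MOD := by
  intro p q hp hq hpq ε hε
  obtain ⟨C, hC, z₀, hPR⟩ := h1
  obtain ⟨r, hr, hrp, hrq, hps, hqs, hns⟩ := exists_r0 p q hp hq
  set D : ℝ := C + r with hD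
  have hDpos : 0 < D := by positivity
  set δ : ℝ := min (1 / 2) (ε / 64) with hδ
  have hδpos : 0 < δ := lt_min (by norm_num) (by positivity)
  have hδ1 : δ ≤ 1 / 2 := min_le_left _ _
  have hδ2 : δ ≤ ε / 64 := min_le_right _ _
  have htz : Filter.Tendsto (fun z : ℕ => (z : ℝ)) Filter.atTop Filter.atTop :=
    tendsto_natCast_atTop_atTop
  have e1 : ∀ᶠ z : ℕ in Filter.atTop, z₀ ≤ z := Filter.eventually_ge_atTop z₀
  have e2 : ∀ᶠ z : ℕ in Filter.atTop, 16 / ε ≤ (z : ℝ) := htz.eventually_ge_atTop _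
  have e3 : ∀ᶠ z : ℕ in Filter.atTop, 2 * (2 * D + 1) / δ < Real.log z :=
    (Real.tendsto_log_atTop.comp htz).eventually_gt_atTop _
  have e4 : ∀ᶠ z : ℕ in Filter.atTop, 8 * (2 * D + 2) < √(z : ℝ) :=
    (Real.tendsto_sqrt_atTop.comp htz).eventually_gt_atTop _
  have e5 : ∀ᶠ z : ℕ in Filter.atTop, 3 / δ ≤ (z : ℝ) := htz.eventually_ge_atTop _
  have e6 : ∀ᶠ z : ℕ in Filter.atTop, 2 ≤ z := Filter.eventually_ge_atTop 2
  obtain ⟨z, h3, h4, h5, h6, h7, h8⟩ := (e1.and (e2.and (e3.and (e4.and (e5.and e6))))).exists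
  obtain ⟨L₁, hL₁, hlogL₁, hall, R, hR, hRc⟩ := hPR z h3
  set L := L₁ * (r - 1) with hLdef
  have hr1 : 0 < r - 1 := by have := hr.two_le; omega
  have hL : 0 < L := Nat.mul_pos hL₁ hr1
  have hz2 : (2 : ℝ) ≤ z := by exact_mod_cast h8
  have hz4 : (1 : ℝ) ≤ (z : ℝ) ^ 4 := one_le_pow₀ (by linarith)
  have hlogL : Real.log L ≤ D * (z : ℝ) ^ 4 := by
    rw [hLdef]
    push_cast
    have h9 : (0 : ℝ) < L₁ := by exact_mod_cast hL₁
    have h10 : (0 : ℝ) < ((r - 1 : ℕ) : ℝ) := by exact_mod_cast hr1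
    rw [Real.log_mul h9.ne' h10.ne']
    have h11 : Real.log ((r - 1 : ℕ) : ℝ) ≤ r := by
      refine (Real.log_le_sub_one_of_pos h10).trans ?_
      have : ((r - 1 : ℕ) : ℝ) ≤ r := by exact_mod_cast Nat.sub_le r 1
      linarith
    have h12 : (0 : ℝ) ≤ r := by positivity
    rw [hD]
    nlinarith
  set N := NN p q L with hNdef
  have hNpos : 0 < N := NN_pos hL
  have hNZ : NeZero N := ⟨hNpos.ne'⟩
  have hrP : r ∈ PP p q L := (mem_PP hL).2 ⟨hr, hrp, hrq, Dvd.intro_left _ rfl⟩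
  have hcard : z ^ 9 - 2 ≤ (PP p q L).card := by
    classical
    have h9 : (R.erase p).erase q ⊆ PP p q L := by
      intro l hl
      rw [mem_erase, mem_erase] at hl
      exact (mem_PP hL).2 ⟨(hR l hl.2.2).1, hl.2.1, hl.1, (hR l hl.2.2).2.trans (Dvd.intro _ rfl)⟩
    have h10 := card_le_card h9
    have h11 := pred_card_le_card_erase (s := R) (a := p)
    have h12 := pred_card_le_card_erase (s := R.erase p) (a := q)
    omega
  have hN2 : 2 ^ (z ^ 9 - 2) ≤ N := le_NN hL hcard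
  obtain ⟨hA, hB, hK, hY⟩ := numbers (ε := ε) hDpos hδpos hδ1 hε hL hlogL hN2 h4 h5 h6
    (by rw [div_le_iff₀ hδpos] at h7; linarith) h8
  have hpL : (p : ZMod N) ^ L = 1 := by
    refine pow_NN hL hp.pos fun l hl hlp => ?_
    obtain ⟨h9, h10, -, -⟩ := (mem_PP hL).1 hl
    exact h10 ((Nat.prime_dvd_prime_iff_eq h9 hp).1 hlp)
  have hqL : (q : ZMod N) ^ L = 1 := by
    refine pow_NN hL hq.pos fun l hl hlp => ?_
    obtain ⟨h9, -, h10, -⟩ := (mem_PP hL).1 hl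
    exact h10 ((Nat.prime_dvd_prime_iff_eq h9 hq).1 hlp)
  have hpN : N.Coprime p := NN_coprime hL hp (Or.inl rfl)
  have hqN : N.Coprime q := NN_coprime hL hq (Or.inr rfl)
  have hy : ∀ l : ℕ, l.Prime → l ≤ z ^ 4 → l ≠ p → l ≠ q → l ∣ N := by
    intro l hl hle hlp hlq
    exact dvd_NN ((mem_PP hL).2 ⟨hl, hlp, hlq, (hall l hl hle).trans (Dvd.intro _ rfl)⟩)
  have hHH : (HH p q N).card ≤ L * L := card_HH_le hL hpL hqL
  have hGG : (GG p q N).card ≤ 2 * (L * L) := card_GG_le.trans (by omega)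
  refine ⟨N, hNZ, hpN, hqN, ?_, ?_⟩
  · refine le_trans ?_ hK
    exact_mod_cast hHH
  · intro F hF hS
    have h9 := sum_le hp hq hL hpL hqL hpN hqN hy hr hrp hrq (dvd_NN hrP) hps hqs hns F hF hS
    have hy2 : 2 ≤ z ^ 4 := le_trans h8 (Nat.le_self_pow (by norm_num) z)
    have h10 := sum_AA_le h2 (p := p) (q := q) hy2 (x := 2 * (L * L) * z) (by positivity) hA
      (lt_of_le_of_lt hGG hB)
    have h11 : ((GG p q N).card : ℝ) / ((2 * (L * L) * z : ℕ) : ℝ) ≤ ε / 16 := by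
      have hz0 : (0 : ℝ) < z := by linarith
      have hLL : (0 : ℝ) < ((2 * (L * L) : ℕ) : ℝ) := by
        have : 0 < 2 * (L * L) := by positivity
        exact_mod_cast this
      have h12 : ((GG p q N).card : ℝ) ≤ ((2 * (L * L) : ℕ) : ℝ) := by exact_mod_cast hGG
      have h13 : ((2 * (L * L) * z : ℕ) : ℝ) = ((2 * (L * L) : ℕ) : ℝ) * z := by push_cast; ring
      rw [h13, div_le_iff₀ (by positivity)]
      have h14 : 16 ≤ z * ε := (div_le_iff₀ hε).1 h4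
      nlinarith
    have h12 : Real.exp (2 * δ) - 1 ≤ 4 * δ := by
      have h13 := Real.abs_exp_sub_one_le (x := 2 * δ) (by rw [abs_of_pos (by positivity)]; linarith)
      rw [abs_of_pos (by positivity : (0 : ℝ) < 2 * δ)] at h13
      have := (abs_le.1 h13).2
      linarith
    linarith

end Pool.Agent.Run7.h776.FT
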