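import Pool.Agent.Run7.h776.FT.Iface
import Pool.Agent.H442R2.KF.BvY

/-! Piece PR (helper594): `S_PR`. -/

set_option autoImplicit false

namespace Pool.Agent.Run7.h776.FT

open Finset

namespace PR

open Pool.Agent.H442R2.KF

lemma piAP_le (X d : ℕ) (hd : 0 < d) :
    piAP X d 1 ≤ ((Icc 1 X).filter (fun k => (d * k + 1).Prime ∧ d * k + 1 ≤ X)).card := by
  unfold piAP
  have h : ((Icc 1 X).filter (fun p : ℕ => p.Prime ∧ p ≡ 1 [MOD d])) ⊆
      ((Icc 1 X).filter (fun k => (d * k + 1).Prime ∧ d * k + 1 ≤ X)).image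
        (fun k => d * k + 1) := by
    intro r hr
    rw [mem_filter, mem_Icc] at hr
    obtain ⟨⟨h1, h2⟩, h3, h4⟩ := hr
    have h5 : d ∣ r - 1 := (Nat.modEq_iff_dvd' h1).1 h4.symm
    obtain ⟨k, hk⟩ := h5
    have h6 : r = d * k + 1 := by omega
    have h7 : 1 ≤ k := by
      rcases Nat.eq_zero_or_pos k with rfl | h
      · simp at h6
        subst h6
        exact absurd h3 (by norm_num)
      · exact h
    have h8 : k ≤ X := by nlinarith
    rw [mem_image]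
    refine ⟨k, ?_, h6.symm⟩
    rw [mem_filter, mem_Icc, ← h6]
    exact ⟨⟨h7, h8⟩, h3, h2⟩
  exact (card_le_card h).trans card_image_le

lemma count (X : ℕ) (D : Finset ℕ) (hD : ∀ d ∈ D, 0 < d) (B : ℝ) (hB0 : 0 ≤ B)
    (hB : ∀ k ∈ Icc 1 X, ((D.filter (fun d => (d * k + 1).Prime ∧ d * k + 1 ≤ X)).card : ℝ) ≤ B) :
    ∑ d ∈ D, (d : ℝ) * piAP X d 1 ≤ B * (X * (1 + Real.log X)) := by
  have h1 : ∑ d ∈ D, (d : ℝ) * piAP X d 1 ≤
      ∑ d ∈ D, ∑ k ∈ Icc 1 X, (if (d * k + 1).Prime ∧ d * k + 1 ≤ X then (d : ℝ) else 0) := by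
    refine sum_le_sum fun d hd => ?_
    rw [← sum_filter, sum_const, nsmul_eq_mul, mul_comm]
    gcongr
    exact piAP_le X d (hD d hd)
  rw [sum_comm] at h1
  refine h1.trans ?_
  have h2 : ∀ k ∈ Icc 1 X,
      ∑ d ∈ D, (if (d * k + 1).Prime ∧ d * k + 1 ≤ X then (d : ℝ) else 0) ≤
        B * X * (k : ℝ)⁻¹ := by
    intro k hk
    have hk1 : (1 : ℝ) ≤ k := by exact_mod_cast (mem_Icc.1 hk).1
    rw [← sum_filter]
    calc ∑ d ∈ D.filter (fun d => (d * k + 1).Prime ∧ d * k + 1 ≤ X), (d : ℝ)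
        ≤ ∑ d ∈ D.filter (fun d => (d * k + 1).Prime ∧ d * k + 1 ≤ X), (X : ℝ) * (k : ℝ)⁻¹ := by
          refine sum_le_sum fun d hd => ?_
          rw [mem_filter] at hd
          have h3 : d * k ≤ X := by omega
          have h4 : (d : ℝ) * k ≤ X := by exact_mod_cast h3
          rw [← div_eq_mul_inv, le_div_iff₀ (by linarith)]
          exact h4
      _ = ((D.filter (fun d => (d * k + 1).Prime ∧ d * k + 1 ≤ X)).card : ℝ) *
            ((X : ℝ) * (k : ℝ)⁻¹) := by rw [sum_const, nsmul_eq_mul]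
      _ ≤ B * ((X : ℝ) * (k : ℝ)⁻¹) := by
          apply mul_le_mul_of_nonneg_right (hB k hk) (by positivity)
      _ = B * X * (k : ℝ)⁻¹ := by ring
  refine (sum_le_sum h2).trans ?_
  rw [← mul_sum]
  have h3 : ∑ k ∈ Icc 1 X, ((k : ℝ))⁻¹ ≤ 1 + Real.log X := by
    have h4 := harmonic_le_one_add_log X
    rw [harmonic_eq_sum_Icc] at h4
    push_cast at h4
    exact h4
  calc B * X * ∑ k ∈ Icc 1 X, ((k : ℝ))⁻¹ ≤ B * X * (1 + Real.log X) := by
        apply mul_le_mul_of_nonneg_left h3 (by positivity)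
    _ = B * (X * (1 + Real.log X)) := by ring

/-- the products of three distinct primes `≤ y` -/
noncomputable def DD (y : ℕ) : Finset ℕ :=
  (powersetCard 3 ((Icc 1 y).filter Nat.Prime)).image (fun s => ∏ p ∈ s, p)

lemma card_DD (y : ℕ) : (DD y).card = (Nat.primeCounting y).choose 3 := by
  unfold DD
  rw [card_image_of_injOn, card_powersetCard]
  · congr 1
    rw [Nat.primeCounting, Nat.primeCounting', Nat.count_eq_card_filter_range]
    congr 1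
    ext p
    simp only [mem_filter, mem_Icc, mem_range]
    constructor
    · rintro ⟨⟨h1, h2⟩, h3⟩
      exact ⟨by omega, h3⟩
    · rintro ⟨h1, h3⟩
      exact ⟨⟨h3.one_lt.le, by omega⟩, h3⟩
  · intro s hs t ht hst
    rw [mem_coe, mem_powersetCard] at hs ht
    have key : ∀ u : Finset ℕ, u ⊆ (Icc 1 y).filter Nat.Prime →
        (∏ p ∈ u, p).primeFactors = u := by
      intro u hu
      exact Nat.primeFactors_prod fun p hp => (mem_filter.1 (hu hp)).2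
    have h1 := key s hs.1
    have h2 := key t ht.1
    simp only at hst
    rw [← h1, ← h2, hst]

lemma DD_pos {y d : ℕ} (hd : d ∈ DD y) : 0 < d := by
  unfold DD at hd
  rw [mem_image] at hd
  obtain ⟨s, hs, rfl⟩ := hd
  rw [mem_powersetCard] at hs
  exact prod_pos fun p hp => (mem_filter.1 (hs.1 hp)).2.pos

lemma DD_le {y d : ℕ} (hd : d ∈ DD y) : d ≤ y ^ 3 := by
  unfold DD at hd
  rw [mem_image] at hd
  obtain ⟨s, hs, rfl⟩ := hd
  rw [mem_powersetCard] at hs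
  calc ∏ p ∈ s, p ≤ ∏ p ∈ s, y := by
        refine prod_le_prod' fun p hp => ?_
        exact (mem_Icc.1 (mem_filter.1 (hs.1 hp)).1).2
    _ = y ^ 3 := by rw [prod_const, hs.2]

lemma DD_dvd {y d : ℕ} (hd : d ∈ DD y) : d ∣ Nat.lcmUpto y := by
  unfold DD at hd
  rw [mem_image] at hd
  obtain ⟨s, hs, rfl⟩ := hd
  rw [mem_powersetCard] at hs
  refine Finset.prod_primes_dvd _ (fun p hp => ((mem_filter.1 (hs.1 hp)).2).prime) fun p hp => ?_
  unfold Nat.lcmUpto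
  exact Finset.dvd_lcm (f := id) (mem_filter.1 (hs.1 hp)).1

lemma dvd_lcmUpto {y n : ℕ} (h1 : 1 ≤ n) (h2 : n ≤ y) : n ∣ Nat.lcmUpto y := by
  unfold Nat.lcmUpto
  exact Finset.dvd_lcm (f := id) (mem_Icc.2 ⟨h1, h2⟩)

/-- the pigeonhole step -/
lemma pigeon (C : ℝ) (hC : 0 < C) (z : ℕ) (hz1 : 1 ≤ z)
    (hE : ∑ d ∈ Icc 1 ⌊(((2 ^ z : ℕ) : ℝ)) ^ (1 / 4 : ℝ)⌋₊, |Er (2 ^ z) d 1| ≤
      C * (((2 ^ z : ℕ) : ℝ) / Real.log ((2 ^ z : ℕ) : ℝ) ^ 12))
    (hz2 : ((z ^ 12 : ℕ) : ℝ) ≤ (((2 ^ z : ℕ) : ℝ)) ^ (1 / 4 : ℝ))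
    (hpi : (2 ^ z : ℝ) / (2 * z) ≤ (piN (2 ^ z) : ℝ))
    (hD : 4 * (z : ℝ) ^ 11 + 2 * (C * (Real.log 2)⁻¹ ^ 12) * z < ((DD (z ^ 4)).card : ℝ)) :
    ∃ k : ℕ, 1 ≤ k ∧ k ≤ 2 ^ z ∧
      z ^ 9 ≤ ((DD (z ^ 4)).filter (fun d => (d * k + 1).Prime ∧ d * k + 1 ≤ 2 ^ z)).card := by
  by_contra hcon
  push Not at hcon
  have hzr : (1 : ℝ) ≤ z := by exact_mod_cast hz1
  have hX : (0 : ℝ) < (2 : ℝ) ^ z := by positivity
  have hlog2 := Real.log_pos (show (1:ℝ) < 2 by norm_num)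
  have hlogX : Real.log (((2 ^ z : ℕ) : ℝ)) = z * Real.log 2 := by
    push_cast
    rw [Real.log_pow]
  have hup := count (2 ^ z) (DD (z ^ 4)) (fun d hd => DD_pos hd) ((z : ℝ) ^ 9) (by positivity)
    (fun k hk => by
      rw [mem_Icc] at hk
      have := hcon k hk.1 hk.2
      exact_mod_cast this.le)
  have hlow : ((DD (z ^ 4)).card : ℝ) * ((2 ^ z : ℝ) / (2 * z)) -
      (z : ℝ) ^ 12 * (C * (((2 ^ z : ℕ) : ℝ) / Real.log ((2 ^ z : ℕ) : ℝ) ^ 12)) ≤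
      ∑ d ∈ DD (z ^ 4), (d : ℝ) * piAP (2 ^ z) d 1 := by
    have h1 : ∀ d ∈ DD (z ^ 4), (2 ^ z : ℝ) / (2 * z) - (z : ℝ) ^ 12 * |Er (2 ^ z) d 1| ≤
        (d : ℝ) * piAP (2 ^ z) d 1 := by
      intro d hd
      have hd0 : (0 : ℝ) < d := by exact_mod_cast DD_pos hd
      have hd1 : (d : ℝ) ≤ (z : ℝ) ^ 12 := by
        have := DD_le hd
        have h2 : (z ^ 4) ^ 3 = z ^ 12 := by rw [← pow_mul]
        rw [h2] at this
        exact_mod_cast this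
      have ht0 : (0 : ℝ) < Nat.totient d := by
        exact_mod_cast Nat.totient_pos.2 (DD_pos hd)
      have ht1 : (Nat.totient d : ℝ) ≤ d := by exact_mod_cast Nat.totient_le d
      have h3 : (piAP (2 ^ z) d 1 : ℝ) = Er (2 ^ z) d 1 + (piN (2 ^ z) : ℝ) / Nat.totient d := by
        unfold Er; ring
      have h4 : -|Er (2 ^ z) d 1| ≤ Er (2 ^ z) d 1 := neg_abs_le _
      have h5 : (piN (2 ^ z) : ℝ) ≤ d * ((piN (2 ^ z) : ℝ) / Nat.totient d) := by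
        rw [mul_div_assoc', le_div_iff₀ ht0, mul_comm (d : ℝ)]
        apply mul_le_mul_of_nonneg_left ht1 (by positivity)
      have h6 : (d : ℝ) * |Er (2 ^ z) d 1| ≤ (z : ℝ) ^ 12 * |Er (2 ^ z) d 1| :=
        mul_le_mul_of_nonneg_right hd1 (abs_nonneg _)
      rw [h3, mul_add]
      nlinarith
    have h2 := sum_le_sum h1
    rw [sum_sub_distrib, sum_const, nsmul_eq_mul, ← mul_sum] at h2
    refine le_trans ?_ h2
    have h7 : ∑ d ∈ DD (z ^ 4), |Er (2 ^ z) d 1| ≤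
        C * (((2 ^ z : ℕ) : ℝ) / Real.log ((2 ^ z : ℕ) : ℝ) ^ 12) := by
      refine le_trans ?_ hE
      refine sum_le_sum_of_subset_of_nonneg ?_ fun _ _ _ => abs_nonneg _
      intro d hd
      rw [mem_Icc]
      refine ⟨DD_pos hd, Nat.le_floor ?_⟩
      have h8 := DD_le hd
      have h9 : (z ^ 4) ^ 3 = z ^ 12 := by rw [← pow_mul]
      rw [h9] at h8
      refine le_trans ?_ hz2
      exact_mod_cast h8
    have h8 : (z : ℝ) ^ 12 * ∑ d ∈ DD (z ^ 4), |Er (2 ^ z) d 1| ≤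
        (z : ℝ) ^ 12 * (C * (((2 ^ z : ℕ) : ℝ) / Real.log ((2 ^ z : ℕ) : ℝ) ^ 12)) :=
      mul_le_mul_of_nonneg_left h7 (by positivity)
    linarith
  have hfin := hlow.trans hup
  rw [hlogX] at hfin
  push_cast at hfin
  have e1 : (z : ℝ) ^ 12 * (C * ((2 : ℝ) ^ z / (z * Real.log 2) ^ 12)) =
      (C * (Real.log 2)⁻¹ ^ 12) * (2 : ℝ) ^ z := by
    field_simp
  rw [e1] at hfin
  have e2 : 1 + z * Real.log 2 ≤ 2 * z := by
    have := Real.log_two_lt_d9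
    nlinarith
  have e3 : (z : ℝ) ^ 9 * ((2 : ℝ) ^ z * (1 + z * Real.log 2)) ≤
      (z : ℝ) ^ 9 * ((2 : ℝ) ^ z * (2 * z)) := by
    gcongr
  have e4 : ((DD (z ^ 4)).card : ℝ) * ((2 ^ z : ℝ) / (2 * z)) -
      (C * (Real.log 2)⁻¹ ^ 12) * (2 : ℝ) ^ z ≤ (z : ℝ) ^ 9 * ((2 : ℝ) ^ z * (2 * z)) :=
    hfin.trans e3
  have e5 : ((DD (z ^ 4)).card : ℝ) ≤
      4 * (z : ℝ) ^ 11 + 2 * (C * (Real.log 2)⁻¹ ^ 12) * z := by
    have h10 : ((DD (z ^ 4)).card : ℝ) * ((2 ^ z : ℝ) / (2 * z)) ≤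
        (4 * (z : ℝ) ^ 11 + 2 * (C * (Real.log 2)⁻¹ ^ 12) * z) * ((2 ^ z : ℝ) / (2 * z)) := by
      have h11 : (4 * (z : ℝ) ^ 11 + 2 * (C * (Real.log 2)⁻¹ ^ 12) * z) *
          ((2 ^ z : ℝ) / (2 * z)) = (z : ℝ) ^ 9 * ((2 : ℝ) ^ z * (2 * z)) +
            (C * (Real.log 2)⁻¹ ^ 12) * (2 : ℝ) ^ z := by
        field_simp
        ring
      rw [h11]
      linarith
    exact le_of_mul_le_mul_right h10 (by positivity)
  linarith


lemma pi_pow (z : ℕ) (hz : 5 ≤ z) :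
    (z : ℝ) ^ 4 / (8 * Real.log z) ≤ (Nat.primeCounting (z ^ 4) : ℝ) - 2 := by
  have hzr : (5 : ℝ) ≤ z := by exact_mod_cast hz
  have hlz : 0 < Real.log z := Real.log_pos (by linarith)
  have h1 := Chebyshev.pi_ge (z ^ 4)
  have h2 : Real.log ((z ^ 4 : ℕ) : ℝ) = 4 * Real.log z := by
    push_cast; rw [Real.log_pow]; norm_num
  rw [h2] at h1
  have h3 : Real.log (((z ^ 4 : ℕ) : ℝ) + 1) ≤ 1 + 4 * Real.log z := by
    have h4 : ((z ^ 4 : ℕ) : ℝ) + 1 ≤ 2 * (z : ℝ) ^ 4 := by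
      push_cast
      have : (1 : ℝ) ≤ (z : ℝ) ^ 4 := one_le_pow₀ (by linarith)
      linarith
    have h5 : Real.log (((z ^ 4 : ℕ) : ℝ) + 1) ≤ Real.log (2 * (z : ℝ) ^ 4) :=
      Real.log_le_log (by positivity) h4
    rw [Real.log_mul (by norm_num) (by positivity), Real.log_pow] at h5
    have := Real.log_two_lt_d9
    push_cast at h5 ⊢
    linarith
  have h6 : Real.log z ≤ z := (Real.log_le_sub_one_of_pos (by linarith)).trans (by linarith)
  have h7 : (z : ℝ) ^ 4 / (8 * Real.log z) + 2 ≤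
      (((z ^ 4 : ℕ) : ℝ) * Real.log 2 - Real.log (((z ^ 4 : ℕ) : ℝ) + 1)) / (4 * Real.log z) := by
    rw [le_div_iff₀ (by positivity)]
    have e : ((z : ℝ) ^ 4 / (8 * Real.log z) + 2) * (4 * Real.log z) =
        (z : ℝ) ^ 4 / 2 + 8 * Real.log z := by
      field_simp
      ring
    rw [e]
    have h8 := Real.log_two_gt_d9
    push_cast at h3 ⊢
    have h9 : (125 : ℝ) * z ≤ (z : ℝ) ^ 4 := by
      have : (125 : ℝ) ≤ (z : ℝ) ^ 3 := by
        calc (125 : ℝ) = 5 ^ 3 := by norm_num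
          _ ≤ (z : ℝ) ^ 3 := by gcongr
      calc (125 : ℝ) * z ≤ (z : ℝ) ^ 3 * z := by gcongr
        _ = (z : ℝ) ^ 4 := by ring
    have h10 : (z : ℝ) ^ 4 * 0.69 ≤ (z : ℝ) ^ 4 * Real.log 2 := by
      apply mul_le_mul_of_nonneg_left (by linarith) (by positivity)
    nlinarith
  linarith

open Filter Asymptotics in
lemma choose_large (A : ℝ) (hA : 0 < A) : ∃ z₀ : ℕ, ∀ z : ℕ, z₀ ≤ z →
    A * (z : ℝ) ^ 11 ≤ ((Nat.primeCounting (z ^ 4)).choose 3 : ℝ) := by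
  have h1 := (Real.isLittleO_pow_log_id_atTop (n := 3)).bound
    (show (0 : ℝ) < 1 / (3072 * A) by positivity)
  have h2 := (tendsto_natCast_atTop_atTop (R := ℝ)).eventually h1
  obtain ⟨z₁, hz₁⟩ := Filter.eventually_atTop.1 h2
  refine ⟨max z₁ 5, fun z hz => ?_⟩
  have hz5 : 5 ≤ z := (le_max_right _ _).trans hz
  have h3 := hz₁ z ((le_max_left _ _).trans hz)
  have hzr : (5 : ℝ) ≤ z := by exact_mod_cast hz5
  have hlz : 0 < Real.log z := Real.log_pos (by linarith)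
  simp only [norm_pow, Real.norm_eq_abs, id, abs_of_pos hlz,
    abs_of_pos (show (0:ℝ) < z by linarith)] at h3
  have h4 := pi_pow z hz5
  have h5 := Nat.pow_le_choose (α := ℝ) 3 (Nat.primeCounting (z ^ 4))
  have h6 : (0 : ℝ) < (z : ℝ) ^ 4 / (8 * Real.log z) := by positivity
  have h7 : (2 : ℝ) ≤ (Nat.primeCounting (z ^ 4) : ℝ) := by linarith
  have h7' : 2 ≤ Nat.primeCounting (z ^ 4) := by exact_mod_cast h7
  have h8 : (((Nat.primeCounting (z ^ 4) - 2 : ℕ)) : ℝ) =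
      (Nat.primeCounting (z ^ 4) : ℝ) - 2 := by
    push_cast [Nat.cast_sub h7']
    ring
  rw [show Nat.primeCounting (z ^ 4) + 1 - 3 = Nat.primeCounting (z ^ 4) - 2 by omega,
    h8] at h5
  refine le_trans ?_ h5
  have h9 : ((z : ℝ) ^ 4 / (8 * Real.log z)) ^ 3 ≤
      ((Nat.primeCounting (z ^ 4) : ℝ) - 2) ^ 3 := by gcongr
  have h10 : A * (z : ℝ) ^ 11 * 6 ≤ ((z : ℝ) ^ 4 / (8 * Real.log z)) ^ 3 := by
    rw [div_pow, le_div_iff₀ (by positivity)]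
    have h11 : 3072 * A * Real.log z ^ 3 ≤ z := by
      have h12 := mul_le_mul_of_nonneg_left h3 (show (0:ℝ) ≤ 3072 * A by positivity)
      have h13 : 3072 * A * (1 / (3072 * A) * (z : ℝ)) = z := by field_simp
      linarith
    calc A * (z : ℝ) ^ 11 * 6 * (8 * Real.log z) ^ 3
        = (3072 * A * Real.log z ^ 3) * (z : ℝ) ^ 11 := by ring
      _ ≤ z * (z : ℝ) ^ 11 := by gcongr
      _ = ((z : ℝ) ^ 4) ^ 3 := by ring
  have h14 : ((Nat.factorial 3 : ℕ) : ℝ) = 6 := by norm_num [Nat.factorial]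
  rw [h14, le_div_iff₀ (by norm_num)]
  linarith

open Filter in
lemma pow_small : ∃ z₀ : ℕ, ∀ z : ℕ, z₀ ≤ z →
    ((z ^ 12 : ℕ) : ℝ) ≤ (((2 ^ z : ℕ) : ℝ)) ^ (1 / 4 : ℝ) := by
  have h1 := tendsto_pow_const_div_const_pow_of_one_lt 48 (show (1:ℝ) < 2 by norm_num)
  have h2 := h1.eventually (gt_mem_nhds (show (0:ℝ) < 1 by norm_num))
  obtain ⟨z₁, hz₁⟩ := Filter.eventually_atTop.1 h2
  refine ⟨z₁, fun z hz => ?_⟩
  have h3 := hz₁ z hz
  rw [div_lt_one (by positivity)] at h3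
  push_cast
  have h4 : (z : ℝ) ^ 12 = ((z : ℝ) ^ 48) ^ (1 / 4 : ℝ) := by
    rw [show (z : ℝ) ^ 48 = ((z : ℝ) ^ 12) ^ (4 : ℕ) by ring,
      ← Real.rpow_natCast ((z : ℝ) ^ 12) 4, ← Real.rpow_mul (by positivity)]
    norm_num
  rw [h4]
  exact Real.rpow_le_rpow (by positivity) h3.le (by norm_num)

lemma pi_two_pow (z : ℕ) (hz : 3 ≤ z) :
    (2 ^ z : ℝ) / (2 * z) ≤ (Nat.primeCounting (2 ^ z) : ℝ) := by
  have hzr : (3 : ℝ) ≤ z := by exact_mod_cast hz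
  have hl2 := Real.log_pos (show (1:ℝ) < 2 by norm_num)
  have h1 := Chebyshev.pi_ge (2 ^ z)
  have h2 : Real.log ((2 ^ z : ℕ) : ℝ) = z * Real.log 2 := by
    push_cast; rw [Real.log_pow]
  rw [h2] at h1
  refine le_trans ?_ h1
  rw [div_le_div_iff₀ (by positivity) (by positivity)]
  have h3 : Real.log (((2 ^ z : ℕ) : ℝ) + 1) ≤ (z + 1) * Real.log 2 := by
    have h4 : ((2 ^ z : ℕ) : ℝ) + 1 ≤ (2 : ℝ) ^ (z + 1) := by
      push_cast
      have : (1 : ℝ) ≤ (2 : ℝ) ^ z := one_le_pow₀ (by norm_num)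
      rw [pow_succ]; linarith
    have h5 : Real.log (((2 ^ z : ℕ) : ℝ) + 1) ≤ Real.log ((2 : ℝ) ^ (z + 1)) :=
      Real.log_le_log (by positivity) h4
    rw [Real.log_pow] at h5
    push_cast at h5 ⊢
    exact h5
  have h6 : ∀ n : ℕ, 3 ≤ n → 2 * (n + 1) ≤ 2 ^ n := by
    intro n hn
    induction n, hn using Nat.le_induction with
    | base => norm_num
    | succ n hn ih => rw [pow_succ]; omega
  have h7 : 2 * ((z : ℝ) + 1) ≤ 2 ^ z := by exact_mod_cast h6 z hz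
  have h8 : (2 * ((z : ℝ) + 1)) * Real.log 2 ≤ 2 ^ z * Real.log 2 := by gcongr
  push_cast at h3 ⊢
  nlinarith [mul_le_mul_of_nonneg_left h3 (show (0:ℝ) ≤ 2 * z by positivity),
    mul_le_mul_of_nonneg_left h8 (show (0:ℝ) ≤ z by positivity)]


lemma piN_eq (X : ℕ) : piN X = Nat.primeCounting X := by
  unfold piN
  rw [Nat.primeCounting, Nat.primeCounting', Nat.count_eq_card_filter_range]
  congr 1
  ext p
  simp only [mem_filter, mem_Icc, mem_range]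
  constructor
  · rintro ⟨⟨h1, h2⟩, h3⟩
    exact ⟨by omega, h3⟩
  · rintro ⟨h1, h3⟩
    exact ⟨⟨h3.one_lt.le, by omega⟩, h3⟩

end PR

open PR Pool.Agent.H442R2.KF in
/-- **PR** -/
theorem t_PR : S_PR := by
  obtain ⟨C, hC, hBV⟩ := bvY (1 / 4) (by norm_num) 12
  set C₁ : ℝ := C * (Real.log 2)⁻¹ ^ 12 with hC₁
  have hl2 := Real.log_pos (show (1:ℝ) < 2 by norm_num)
  have hC₁0 : 0 < C₁ := by positivity
  obtain ⟨z₁, hz₁⟩ := choose_large (5 + 2 * C₁) (by positivity)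
  obtain ⟨z₂, hz₂⟩ := pow_small
  refine ⟨Real.log 4 + 4 + 1, by positivity, max (max z₁ z₂) 3, fun z hz => ?_⟩
  have hz3 : 3 ≤ z := (le_max_right _ _).trans hz
  have hza : z₁ ≤ z := (le_max_left _ _).trans ((le_max_left _ _).trans hz)
  have hzb : z₂ ≤ z := (le_max_right _ _).trans ((le_max_left _ _).trans hz)
  have hzr : (3 : ℝ) ≤ z := by exact_mod_cast hz3
  have h2z : 3 ≤ 2 ^ z := by
    calc 3 ≤ 2 ^ 3 := by norm_num
      _ ≤ 2 ^ z := Nat.pow_le_pow_right (by norm_num) hz3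
  have hE := hBV (2 ^ z) h2z (2 ^ z) le_rfl (fun _ => 1) (fun d _ => Nat.coprime_one_left d)
  have hD : 4 * (z : ℝ) ^ 11 + 2 * (C * (Real.log 2)⁻¹ ^ 12) * z <
      ((DD (z ^ 4)).card : ℝ) := by
    rw [card_DD, ← hC₁]
    refine lt_of_lt_of_le ?_ (hz₁ z hza)
    have h1 : (z : ℝ) ≤ (z : ℝ) ^ 11 := le_self_pow₀ (by linarith) (by norm_num)
    nlinarith
  obtain ⟨k, hk1, hk2, hk3⟩ := pigeon C hC z (by omega) hE (hz₂ z hzb)
    (by rw [piN_eq]; exact pi_two_pow z hz3) hD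
  have hLpos : 0 < Nat.lcmUpto (z ^ 4) := Nat.lcmUpto_pos _
  refine ⟨Nat.lcmUpto (z ^ 4) * k, by positivity, ?_, ?_, ?_⟩
  · push_cast
    rw [Real.log_mul (by positivity) (by positivity), ← Chebyshev.psi_eq_log_lcmUpto]
    have h1 := Chebyshev.psi_le_const_mul_self (x := ((z ^ 4 : ℕ) : ℝ)) (by positivity)
    have h2 : Real.log k ≤ z * Real.log 2 := by
      rw [← Real.log_pow]
      exact Real.log_le_log (by exact_mod_cast hk1) (by exact_mod_cast hk2)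
    have h3 : (z : ℝ) * Real.log 2 ≤ (z : ℝ) ^ 4 := by
      have h4 := Real.log_two_lt_d9
      have h5 : (z : ℝ) ≤ (z : ℝ) ^ 4 := le_self_pow₀ (by linarith) (by norm_num)
      nlinarith
    push_cast at h1 ⊢
    linarith
  · intro l hl hly
    refine Dvd.dvd.mul_right (dvd_lcmUpto ?_ ?_) k
    · have := hl.two_le; omega
    · omega
  · refine ⟨((DD (z ^ 4)).filter (fun d => (d * k + 1).Prime ∧ d * k + 1 ≤ 2 ^ z)).image
      (fun d => d * k + 1), ?_, ?_⟩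
    · intro r hr
      rw [mem_image] at hr
      obtain ⟨d, hd, rfl⟩ := hr
      rw [mem_filter] at hd
      refine ⟨hd.2.1, ?_⟩
      rw [Nat.add_sub_cancel]
      exact Nat.mul_dvd_mul (DD_dvd hd.1) dvd_rfl
    · rw [card_image_of_injOn]
      · exact hk3
      · intro a _ b _ hab
        simp only at hab
        exact Nat.eq_of_mul_eq_mul_right (by omega) (by omega : a * k = b * k)

end Pool.Agent.Run7.h776.FT
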