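import Pool.Agent.Run7.h776.FT.Iface

/-!
# The rank lemma `S_RK` of project FT (helper639)
-/

set_option autoImplicit false

namespace Pool.Agent.Run7.h776.FT

open Finset

/-- the vector of the exponents of `m` -/
noncomputable def vv (m : ℕ) : ℕ →₀ ℚ := m.factorization.mapRange (fun n : ℕ => (n : ℚ)) (by simp)

theorem vv_apply (m l : ℕ) : vv m l = (m.factorization l : ℚ) := by
  simp [vv]

theorem vv_inj {m n : ℕ} (hm : m ≠ 0) (hn : n ≠ 0) (h : vv m = vv n) : m = n := by
  apply Nat.factorization_inj hm hn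
  ext l
  have := DFunLike.congr_fun h l
  rw [vv_apply, vv_apply] at this
  exact_mod_cast this

/-- a finite dimensional space of finitely supported functions is determined by few coordinates -/
theorem coords : ∀ (T : ℕ) (W : Submodule ℚ (ℕ →₀ ℚ)), Module.Finite ℚ W → Module.finrank ℚ W = T →
    ∃ κ : Finset ℕ, κ.card ≤ T ∧ ∀ f ∈ W, (∀ l ∈ κ, f l = 0) → f = 0 := by
  intro T
  induction T using Nat.strong_induction_on with
  | _ T ih =>
    intro W hfin hT
    by_cases hW : W = ⊥
    · refine ⟨∅, by simp, fun f hf _ => ?_⟩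
      rw [hW] at hf
      exact (Submodule.mem_bot ℚ).1 hf
    · obtain ⟨f, hf, hf0⟩ := (Submodule.ne_bot_iff W).1 hW
      obtain ⟨l, hl⟩ : ∃ l, f l ≠ 0 := by
        by_contra hcon
        push Not at hcon
        exact hf0 (Finsupp.ext hcon)
      set W' : Submodule ℚ (ℕ →₀ ℚ) := W ⊓ LinearMap.ker (Finsupp.lapply l : (ℕ →₀ ℚ) →ₗ[ℚ] ℚ) with hW'
      have hlt : W' < W := by
        refine lt_of_le_of_ne inf_le_left fun h => ?_
        have h1 : f ∈ W' := h ▸ hf
        have h2 := h1.2
        rw [SetLike.mem_coe, LinearMap.mem_ker, Finsupp.lapply_apply] at h2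
        exact hl h2
      have hr : Module.finrank ℚ W' < Module.finrank ℚ W := Submodule.finrank_lt_finrank_of_lt hlt
      have hfin' : Module.Finite ℚ W' := Submodule.finiteDimensional_of_le hlt.le
      obtain ⟨κ, hκ, hκ2⟩ := ih (Module.finrank ℚ W') (hT ▸ hr) W' hfin' rfl
      refine ⟨insert l κ, (card_insert_le _ _).trans (by omega), fun g hg hg0 => ?_⟩
      refine hκ2 g ⟨hg, ?_⟩ fun j hj => hg0 j (mem_insert_of_mem hj)
      rw [SetLike.mem_coe, LinearMap.mem_ker, Finsupp.lapply_apply]
      exact hg0 l (mem_insert_self _ _)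

theorem vv_prod {ι : Type*} (s : Finset ι) (f : ι → ℕ) (e : ι → ℕ) (hf : ∀ i ∈ s, f i ≠ 0) :
    vv (∏ i ∈ s, f i ^ e i) = ∑ i ∈ s, (e i : ℚ) • vv (f i) := by
  classical
  ext l
  rw [vv_apply, Nat.factorization_prod (fun i hi => pow_ne_zero _ (hf i hi))]
  simp only [Nat.factorization_pow, Finsupp.coe_finsetSum, Finset.sum_apply, Finsupp.smul_apply,
    smul_eq_mul, vv_apply]
  push_cast
  rfl

theorem t_RK : S_RK := by
  classical
  intro y x T₀ E N _ A G hy hA h1G hmul hxN hG
  have hA0 : ∀ m ∈ A, m ≠ 0 := fun m hm => (hA m hm).1.ne'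
  -- a basis among the vectors
  obtain ⟨b, hb, hspan, hli⟩ := exists_linearIndependent ℚ (vv '' (A : Set ℕ))
  set W : Submodule ℚ (ℕ →₀ ℚ) := Submodule.span ℚ (vv '' (A : Set ℕ)) with hW
  have hbfin : b.Finite := (A.finite_toSet.image vv).subset hb
  set B : Finset ℕ := A.filter (fun m => vv m ∈ b) with hB
  have hBA : ∀ m ∈ B, m ∈ A := fun m hm => (mem_filter.1 hm).1
  have hBb : ∀ m ∈ B, vv m ∈ b := fun m hm => (mem_filter.1 hm).2
  have hliB : LinearIndependent ℚ (fun m : B => vv m) := by
    refine hli.comp (fun m : B => (⟨vv m, hBb m m.2⟩ : b)) ?_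
    intro m m' h
    have h1 : vv m = vv m' := congrArg Subtype.val h
    exact Subtype.ext (vv_inj (hA0 _ (hBA _ m.2)) (hA0 _ (hBA _ m'.2)) h1)
  -- the rank is the number of elements of `B`
  have hWfin : Module.Finite ℚ W := Module.Finite.span_of_finite ℚ (A.finite_toSet.image vv)
  have hcard : Module.finrank ℚ W = B.card := by
    have e1 : W = Submodule.span ℚ (Set.range (fun m : B => vv m)) := by
      rw [← hspan]
      congr 1
      ext f
      constructor
      · intro hf
        obtain ⟨m, hm, rfl⟩ := hb hf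
        exact ⟨⟨m, mem_filter.2 ⟨hm, hf⟩⟩, rfl⟩
      · rintro ⟨m, rfl⟩
        exact hBb m m.2
    rw [e1, finrank_span_eq_card hliB, Fintype.card_coe]
  -- (1) the rank is less than `T₀`
  have hBT : B.card < T₀ := by
    by_contra hcon
    push Not at hcon
    obtain ⟨B', hB'B, hB'c⟩ := exists_subset_card_eq hcon
    have hB'A : ∀ m ∈ B', m ∈ A := fun m hm => hBA m (hB'B hm)
    have hli' : LinearIndependent ℚ (fun m : B' => vv m) :=
      hliB.comp (fun m : B' => (⟨m, hB'B m.2⟩ : B)) (by
        intro m m' h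
        exact Subtype.ext (congrArg (fun z : B => (z : ℕ)) h))
    let P : (B' → Fin (E + 1)) → ℕ := fun e => ∏ m : B', (m : ℕ) ^ (e m : ℕ)
    have hPpos : ∀ e, P e ≠ 0 := fun e => prod_ne_zero_iff.2 fun m _ => pow_ne_zero _ (hA0 _ (hB'A _ m.2))
    have hPlt : ∀ e, P e < N := by
      intro e
      refine lt_of_le_of_lt ?_ hxN
      calc P e ≤ ∏ m : B', x ^ E := by
            refine prod_le_prod (fun _ _ => Nat.zero_le _) fun m _ => ?_
            have h1 := (hA _ (hB'A _ m.2)).2.1
            have h2 := (hA _ (hB'A _ m.2)).1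
            calc (m : ℕ) ^ (e m : ℕ) ≤ x ^ (e m : ℕ) := Nat.pow_le_pow_left h1 _
              _ ≤ x ^ E := Nat.pow_le_pow_right (by omega) (by have := (e m).2; omega)
        _ = x ^ (T₀ * E) := by
            rw [prod_const, card_univ, Fintype.card_coe, hB'c, ← pow_mul, mul_comm]
    have hPG : ∀ e, ((P e : ℕ) : ZMod N) ∈ G := by
      intro e
      have hpow : ∀ a ∈ G, ∀ k : ℕ, a ^ k ∈ G := by
        intro a ha k
        induction k with
        | zero => simpa using h1G
        | succ k ihk => rw [pow_succ]; exact hmul _ ihk _ ha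
      have hprod : ∀ (s : Finset B') (g : B' → ZMod N), (∀ m ∈ s, g m ∈ G) → ∏ m ∈ s, g m ∈ G := by
        intro s g
        induction s using Finset.induction_on with
        | empty => intro _; simpa using h1G
        | insert a s ha ihs =>
          intro h
          rw [prod_insert ha]
          exact hmul _ (h a (mem_insert_self _ _)) _ (ihs fun m hm => h m (mem_insert_of_mem hm))
      have : ((P e : ℕ) : ZMod N) = ∏ m : B', ((m : ℕ) : ZMod N) ^ (e m : ℕ) := by
        simp only [P]
        push_cast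
        rfl
      rw [this]
      exact hprod _ _ fun m _ => hpow _ (hA _ (hB'A _ m.2)).2.2.2 _
    have hinj : Function.Injective (fun e : B' → Fin (E + 1) => ((P e : ℕ) : ZMod N)) := by
      intro e f h
      have h1 : P e = P f := by
        have h2 : ((P e : ℕ) : ZMod N) = ((P f : ℕ) : ZMod N) := h
        rw [ZMod.natCast_eq_natCast_iff] at h2
        have h3 := h2
        unfold Nat.ModEq at h3
        rwa [Nat.mod_eq_of_lt (hPlt e), Nat.mod_eq_of_lt (hPlt f)] at h3
      have h2 : ∑ m : B', ((e m : ℕ) : ℚ) • vv m = ∑ m : B', ((f m : ℕ) : ℚ) • vv m := by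
        rw [← vv_prod univ (fun m : B' => (m : ℕ)) (fun m => (e m : ℕ)) (fun m _ => hA0 _ (hB'A _ m.2)),
          ← vv_prod univ (fun m : B' => (m : ℕ)) (fun m => (f m : ℕ)) (fun m _ => hA0 _ (hB'A _ m.2))]
        exact congrArg vv h1
      have h3 := Fintype.linearIndependent_iff.1 hli' (fun m => ((e m : ℕ) : ℚ) - ((f m : ℕ) : ℚ)) (by
        simp only [sub_smul, sum_sub_distrib]
        rw [h2, sub_self])
      funext m
      have h4 : ((e m : ℕ) : ℚ) = ((f m : ℕ) : ℚ) := by linarith [h3 m]
      exact Fin.ext (by exact_mod_cast h4)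
    have hle : Fintype.card (B' → Fin (E + 1)) ≤ G.card := by
      rw [← card_univ, ← card_image_of_injective univ hinj]
      refine card_le_card fun z hz => ?_
      obtain ⟨e, -, rfl⟩ := mem_image.1 hz
      exact hPG e
    rw [Fintype.card_fun, Fintype.card_fin, Fintype.card_coe, hB'c] at hle
    omega
  -- (2) few coordinates
  obtain ⟨κ, hκ, hκ2⟩ := coords B.card W hWfin hcard
  have hy0 : (0 : ℝ) < y := by exact_mod_cast (by omega : 0 < y)
  have hy2 : (2 : ℝ) ≤ y := by exact_mod_cast hy
  set r : ℝ := 1 / y with hr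
  have hr0 : 0 < r := by positivity
  have hr1 : r < 1 := by rw [hr, div_lt_one hy0]; linarith
  have hterm : ∀ m ∈ A, (1 : ℝ) / m ≤ ∏ l : κ, r ^ (m.factorization l) := by
    intro m hm
    obtain ⟨hm0, hmx, hmp, -⟩ := hA m hm
    have h1 : ∏ l : κ, y ^ (m.factorization l) ≤ m := by
      have h2 : ∏ l : κ, y ^ (m.factorization (l : ℕ)) = ∏ l ∈ κ, y ^ (m.factorization l) :=
        prod_coe_sort κ (fun l => y ^ (m.factorization l))
      rw [h2]
      have h3 : ∏ l ∈ κ, y ^ (m.factorization l) = ∏ l ∈ κ ∩ m.primeFactors, y ^ (m.factorization l) := by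
        symm
        refine prod_subset inter_subset_left fun l hl hl2 => ?_
        have : m.factorization l = 0 := by
          rw [← Finsupp.notMem_support_iff, Nat.support_factorization]
          intro h
          exact hl2 (mem_inter.2 ⟨hl, h⟩)
        rw [this, pow_zero]
      rw [h3]
      calc ∏ l ∈ κ ∩ m.primeFactors, y ^ (m.factorization l)
          ≤ ∏ l ∈ κ ∩ m.primeFactors, l ^ (m.factorization l) := by
            refine prod_le_prod (fun _ _ => Nat.zero_le _) fun l hl => ?_
            have h4 := (mem_inter.1 hl).2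
            exact Nat.pow_le_pow_left (hmp l (Nat.prime_of_mem_primeFactors h4)
              (Nat.dvd_of_mem_primeFactors h4)).le _
        _ ≤ ∏ l ∈ m.primeFactors, l ^ (m.factorization l) := by
            refine prod_le_prod_of_subset_of_one_le' inter_subset_right fun l hl _ => ?_
            exact Nat.one_le_pow _ _ (Nat.prime_of_mem_primeFactors hl).pos
        _ = m := Nat.prod_factorization_pow_eq_self hm0.ne'
    have h5 : ∏ l : κ, r ^ (m.factorization l) = 1 / ((∏ l : κ, y ^ (m.factorization l) : ℕ) : ℝ) := by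
      push_cast
      simp only [hr, one_div, inv_pow, prod_inv_distrib]
    rw [h5]
    apply one_div_le_one_div_of_le
    · exact_mod_cast Nat.pos_of_ne_zero (prod_ne_zero_iff.2 fun l _ => pow_ne_zero _ (by omega))
    · exact_mod_cast h1
  have hinjA : ∀ m ∈ A, ∀ m' ∈ A, (fun l : κ => m.factorization l) = (fun l : κ => m'.factorization l) →
      m = m' := by
    intro m hm m' hm' h
    apply vv_inj (hA0 m hm) (hA0 m' hm')
    have h1 : vv m - vv m' ∈ W := W.sub_mem (Submodule.subset_span ⟨m, hm, rfl⟩)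
      (Submodule.subset_span ⟨m', hm', rfl⟩)
    have h2 := hκ2 _ h1 fun l hl => by
      rw [Finsupp.sub_apply, vv_apply, vv_apply, sub_eq_zero]
      exact_mod_cast congrFun h ⟨l, hl⟩
    exact sub_eq_zero.1 h2
  calc ∑ m ∈ A, (1 : ℝ) / m ≤ ∑ m ∈ A, ∏ l : κ, r ^ (m.factorization l) := sum_le_sum hterm
    _ = ∑ e ∈ A.image (fun m => fun l : κ => m.factorization l), ∏ l : κ, r ^ (e l) := by
        rw [sum_image]
        intro m hm m' hm' h
        exact hinjA m hm m' hm' h
    _ ≤ ∑ e ∈ Fintype.piFinset (fun _ : κ => range (x + 1)), ∏ l : κ, r ^ (e l) := by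
        refine sum_le_sum_of_subset_of_nonneg ?_ fun e _ _ => prod_nonneg fun l _ => by positivity
        intro e he
        obtain ⟨m, hm, rfl⟩ := mem_image.1 he
        rw [Fintype.mem_piFinset]
        intro l
        rw [mem_range]
        have h1 := (hA m hm).2.1
        have h2 : m.factorization (l : ℕ) < m := Nat.factorization_lt _ (hA0 m hm)
        omega
    _ = ∏ _l : κ, ∑ j ∈ range (x + 1), r ^ j := by
        rw [prod_univ_sum]
    _ ≤ ∏ _l : κ, ((y : ℝ) / (y - 1)) := by
        refine prod_le_prod (fun _ _ => by positivity) fun _ _ => ?_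
        have h1 : ∑ j ∈ range (x + 1), r ^ j ≤ ∑' j, r ^ j :=
          (summable_geometric_of_lt_one hr0.le hr1).sum_le_tsum _ fun _ _ => by positivity
        rw [tsum_geometric_of_lt_one hr0.le hr1] at h1
        refine h1.trans (le_of_eq ?_)
        rw [hr]
        field_simp
    _ = ((y : ℝ) / (y - 1)) ^ κ.card := by
        rw [prod_const, card_univ, Fintype.card_coe]
    _ ≤ ((y : ℝ) / (y - 1)) ^ T₀ := by
        refine pow_le_pow_right₀ ?_ (by omega)
        rw [le_div_iff₀ (by linarith)]
        linarith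

end Pool.Agent.Run7.h776.FT
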