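import Pool.Agent.Run7.h776.FT.Lin

/-! # Arcs -/

set_option autoImplicit false
set_option linter.style.haveILetI false

namespace Pool.Agent.Run7.h776.FT

open MeasureTheory Finset
open Pool.Agent.R203.ID (hat norm_f f_add f_zero f_smul f_nsmul f_neg integrable_f norm_hat_le
  ext_hat hat_map_nsmul hat_map_smul inv_iff conv hat_conv conv_atom)

/-- the arc `[s, t)` of the circle -/
def arc (s t : ℝ) : Set TT := (fun y : ℝ => (y : TT)) '' Set.Ico s t

section

variable {s t : ℝ}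

lemma mem_arc (_hst : s < t) (hts : t < s + 1) (x : TT) :
    x ∈ arc s t ↔ rep (x - (s : TT)) < t - s := by
  constructor
  · rintro ⟨y, ⟨h1, h2⟩, rfl⟩
    have h3 : ((y : TT) - (s : TT)) = ((y - s : ℝ) : TT) := by rw [AddCircle.coe_sub]
    simp only
    rw [h3, rep_real, Int.fract_eq_self.2 ⟨by linarith, by linarith⟩]
    linarith
  · intro h
    refine ⟨s + rep (x - (s : TT)), ⟨by linarith [(rep_mem (x - (s : TT))).1], by linarith⟩, ?_⟩
    simp only
    rw [AddCircle.coe_add, rep_coe]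
    abel

lemma measurableSet_arc (hst : s < t) (hts : t < s + 1) : MeasurableSet (arc s t) := by
  have h : arc s t = {x | rep (x - (s : TT)) < t - s} := by
    ext x
    exact mem_arc hst hts x
  rw [h]
  exact measurableSet_lt (measurable_rep.comp (by fun_prop)) measurable_const

lemma indicator_arc (hst : s < t) (hts : t < s + 1) (x : TT) :
    (((arc s t).indicator (fun _ => (1 : ℝ)) x : ℝ) : ℂ) =
      ((t - s : ℝ) : ℂ) + saw (x - (t : TT)) - saw (x - (s : TT)) := by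
  classical
  set u := rep (x - (s : TT)) with hu
  have hu0 := (rep_mem (x - (s : TT))).1
  have hu1 := (rep_mem (x - (s : TT))).2
  rw [← hu] at hu0 hu1
  have h1 : x - (t : TT) = ((u - (t - s) : ℝ) : TT) := by
    rw [AddCircle.coe_sub, AddCircle.coe_sub, hu, rep_coe]
    abel
  have h2 : rep (x - (t : TT)) = u - (t - s) + if u < t - s then 1 else 0 := by
    rw [h1, rep_real, Int.fract_eq_iff]
    split_ifs with h
    · refine ⟨by linarith, by linarith, -1, ?_⟩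
      push_cast
      ring
    · push Not at h
      refine ⟨by linarith, by linarith, 0, ?_⟩
      push_cast
      ring
  unfold saw
  rw [h2, ← hu, Set.indicator_apply]
  simp only [mem_arc hst hts, ← hu]
  split_ifs
  · push_cast; ring
  · push_cast; ring

/-- the sawtooth has bounded cyclic variation -/
lemma TF_rep (θ : ℝ) : TF (fun x => rep (x - (θ : TT))) := by
  refine ⟨measurable_rep.comp (by fun_prop), ⟨1, fun x => ?_⟩, ⟨2, by norm_num, ?_⟩⟩
  · have := rep_mem (x - (θ : TT))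
    rw [abs_of_nonneg this.1]
    exact this.2.le
  · intro r N hN x y hx hy
    have hNr : (0 : ℝ) < N := by exact_mod_cast hN
    have h1 : ∀ j ∈ range N, |rep ((x j : TT) - (θ : TT)) - rep ((y j : TT) - (θ : TT))| ≤
        1 / N + ((⌊r + (((j + 1 : ℕ) : ℝ)) / N - θ⌋ : ℝ) - (⌊r + (j : ℝ) / N - θ⌋ : ℝ)) := by
      intro j hj
      have hj' := mem_range.1 hj
      obtain ⟨hx1, hx2⟩ := hx j hj'
      obtain ⟨hy1, hy2⟩ := hy j hj'
      rw [← AddCircle.coe_sub, ← AddCircle.coe_sub, rep_real, rep_real]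
      unfold Int.fract
      have e : r + (((j + 1 : ℕ) : ℝ)) / N = r + ((j : ℝ) + 1) / N := by push_cast; rfl
      rw [e]
      have a1 : (⌊r + (j : ℝ) / N - θ⌋ : ℝ) ≤ ⌊x j - θ⌋ := by
        exact_mod_cast Int.floor_le_floor (by linarith)
      have a2 : (⌊x j - θ⌋ : ℝ) ≤ ⌊r + ((j : ℝ) + 1) / N - θ⌋ := by
        exact_mod_cast Int.floor_le_floor (by linarith)
      have a3 : (⌊r + (j : ℝ) / N - θ⌋ : ℝ) ≤ ⌊y j - θ⌋ := by
        exact_mod_cast Int.floor_le_floor (by linarith)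
      have a4 : (⌊y j - θ⌋ : ℝ) ≤ ⌊r + ((j : ℝ) + 1) / N - θ⌋ := by
        exact_mod_cast Int.floor_le_floor (by linarith)
      have a5 : ((j : ℝ) + 1) / N = (j : ℝ) / N + 1 / N := by rw [add_div]
      rw [abs_le]
      constructor <;> linarith
    refine (sum_le_sum h1).trans ?_
    rw [sum_add_distrib, sum_const, card_range, nsmul_eq_mul, mul_one_div_cancel hNr.ne',
      sum_range_sub (fun j : ℕ => (⌊r + (j : ℝ) / N - θ⌋ : ℝ))]
    have h2 : (⌊r + ((N : ℕ) : ℝ) / N - θ⌋ : ℝ) = ⌊r + ((0 : ℕ) : ℝ) / N - θ⌋ + 1 := by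
      rw [div_self hNr.ne']
      have : r + 1 - θ = (r + ((0 : ℕ) : ℝ) / N - θ) + 1 := by simp; ring
      rw [this, Int.floor_add_one]
      push_cast
      rfl
    rw [h2]
    linarith

lemma TF_const (c : ℝ) : TF (fun _ => c) :=
  ⟨measurable_const, ⟨|c|, fun _ => le_rfl⟩, ⟨0, le_rfl, fun r N _ x y _ _ => by simp⟩⟩

lemma TF.add {f g : TT → ℝ} (hf : TF f) (hg : TF g) : TF (fun x => f x + g x) := by
  have := TF.sum (κ := Bool) (f := fun b => if b then f else g)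
    (fun b => by cases b <;> simp [hf, hg]) (fun _ => 1)
  simpa using this

lemma arc_rep (hst : s < t) (hts : t < s + 1) (x : TT) :
    (arc s t).indicator (fun _ => (1 : ℝ)) x =
      (t - s) + (rep (x - (t : TT)) + (-1) * rep (x - (s : TT))) := by
  have h := indicator_arc hst hts x
  have e : ((t - s : ℝ) : ℂ) + saw (x - (t : TT)) - saw (x - (s : TT)) =
      (((t - s) + (rep (x - (t : TT)) + (-1) * rep (x - (s : TT))) : ℝ) : ℂ) := by
    unfold saw
    push_cast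
    ring
  rw [e] at h
  exact_mod_cast h

lemma TF_arc (hst : s < t) (hts : t < s + 1) : TF ((arc s t).indicator (fun _ => (1 : ℝ))) := by
  have h : (arc s t).indicator (fun _ => (1 : ℝ)) = fun x =>
      (t - s) + (rep (x - (t : TT)) + (-1) * rep (x - (s : TT))) :=
    funext fun x => arc_rep hst hts x
  rw [h]
  exact (TF_const _).add ((TF_rep t).add ((TF_rep s).smul (-1)))

lemma fc_arc' (hst : s < t) (hts : t < s + 1) (n : ℤ) :
    fourierCoeff (fun x => (((arc s t).indicator (fun _ => (1 : ℝ)) x : ℝ) : ℂ)) n =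
      ((t - s : ℝ) : ℂ) * (if n = 0 then 1 else 0) + bc (t : TT) n - bc (s : TT) n := by
  simp_rw [indicator_arc hst hts]
  rw [← fc_saw_sub, ← fc_saw_sub]
  have hb : ∀ θ : TT, Integrable (fun x : TT => (fourier (-n) x : ℂ) • saw (x - θ))
      (AddCircle.haarAddCircle : Measure TT) := fun θ =>
    Integrable.of_bound (((fourier (-n)).continuous.measurable.mul
      (measurable_saw.comp (by fun_prop))).aestronglyMeasurable) 1
      (Filter.Eventually.of_forall fun y => by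
        rw [norm_smul, norm_f, one_mul]; exact norm_saw_le _)
  have hc : Integrable (fun x : TT => (fourier (-n) x : ℂ) • ((t - s : ℝ) : ℂ))
      (AddCircle.haarAddCircle : Measure TT) :=
    Integrable.of_bound ((fourier (-n)).continuous.smul continuous_const).aestronglyMeasurable
      ‖((t - s : ℝ) : ℂ)‖ (Filter.Eventually.of_forall fun y => by
        rw [norm_smul, norm_f, one_mul])
  have h0 : ∫ x : TT, (fourier (-n) x : ℂ) • ((t - s : ℝ) : ℂ) ∂AddCircle.haarAddCircle =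
      ((t - s : ℝ) : ℂ) * (if n = 0 then 1 else 0) := by
    have h1 := hat_vol (-n)
    unfold hat at h1
    rw [haar_eq, integral_smul_const, h1, smul_eq_mul, mul_comm]
    simp
  unfold fourierCoeff
  rw [← h0]
  simp_rw [smul_sub, smul_add]
  have hadd : Integrable (fun x : TT => (fourier (-n) x : ℂ) • ((t - s : ℝ) : ℂ) +
      (fourier (-n) x : ℂ) • saw (x - (t : TT))) (AddCircle.haarAddCircle : Measure TT) :=
    hc.add (hb _)
  rw [integral_sub hadd (hb _), integral_add hc (hb _)]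

lemma fc_arc (hst : s < t) (hts : t < s + 1) {n : ℤ} (hn : n ≠ 0) :
    fourierCoeff (fun x => (((arc s t).indicator (fun _ => (1 : ℝ)) x : ℝ) : ℂ)) n =
      ((fourier (-n) (s : TT) : ℂ) - fourier (-n) (t : TT)) / (2 * Real.pi * Complex.I * n) := by
  rw [fc_arc' hst hts, if_neg hn]
  unfold bc
  ring

lemma coe_ne (hst : s < t) (hts : t < s + 1) : (s : TT) ≠ (t : TT) := by
  intro h
  have h1 : ((t - s : ℝ) : TT) = 0 := by
    rw [AddCircle.coe_sub, h, sub_self]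
  obtain ⟨k, hk⟩ := (AddCircle.coe_eq_zero_iff (1 : ℝ)).1 h1
  simp only [zsmul_eq_mul, mul_one] at hk
  have h2 : (0 : ℝ) < k := by rw [hk]; linarith
  have h3 : (k : ℝ) < 1 := by rw [hk]; linarith
  have h4 : 0 < k := by exact_mod_cast h2
  have h5 : k < 1 := by exact_mod_cast h3
  omega

lemma orb_arc {p q : ℕ} (hp : p.Prime) (hq : q.Prime) (hst : s < t) (hts : t < s + 1) {a : ℤ}
    (ha : a ≠ 0) : orb p q ((arc s t).indicator (fun _ => (1 : ℝ))) a =
      1 / (2 * Real.pi * Complex.I * a) * ∑' ij : ℕ × ℕ,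
        ((fourier (-(a * (p : ℤ) ^ ij.1 * (q : ℤ) ^ ij.2)) (s : TT) : ℂ) -
        (fourier (-(a * (p : ℤ) ^ ij.1 * (q : ℤ) ^ ij.2)) (t : TT) : ℂ)) /
          ((p : ℂ) ^ ij.1 * (q : ℂ) ^ ij.2) := by
  unfold orb
  rw [← tsum_mul_left]
  congr 1
  funext ij
  have hpz : (p : ℤ) ≠ 0 := by exact_mod_cast hp.ne_zero
  have hqz : (q : ℤ) ≠ 0 := by exact_mod_cast hq.ne_zero
  have hpc : (p : ℂ) ≠ 0 := by exact_mod_cast hp.ne_zero
  have hqc : (q : ℂ) ≠ 0 := by exact_mod_cast hq.ne_zero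
  have hac : (a : ℂ) ≠ 0 := by exact_mod_cast ha
  have hpi : (Real.pi : ℂ) ≠ 0 := by exact_mod_cast Real.pi_ne_zero
  rw [fc_arc hst hts (mul_ne_zero ha (mul_ne_zero (pow_ne_zero _ hpz) (pow_ne_zero _ hqz))),
    mul_assoc a]
  push_cast
  field_simp

/-- an arc is a nontrivial test function -/
lemma arc_nontrivial (hA : S_ARC) {p q : ℕ} (hp : p.Prime) (hq : q.Prime) (hpq : p ≠ q)
    (hst : s < t) (hts : t < s + 1) : ∃ a : ℤ, a ≠ 0 ∧ IsCoprime a (p : ℤ) ∧
      IsCoprime a (q : ℤ) ∧ orb p q ((arc s t).indicator (fun _ => (1 : ℝ))) a ≠ 0 := by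
  obtain ⟨a, ha, hap, haq, h⟩ := hA p q hp hq hpq (s : TT) (t : TT) (coe_ne hst hts)
  refine ⟨a, ha, hap, haq, ?_⟩
  rw [orb_arc hp hq hst hts ha]
  have hac : (a : ℂ) ≠ 0 := by exact_mod_cast ha
  have hpi : (Real.pi : ℂ) ≠ 0 := by exact_mod_cast Real.pi_ne_zero
  refine mul_ne_zero (div_ne_zero one_ne_zero ?_) h
  exact mul_ne_zero (mul_ne_zero (mul_ne_zero two_ne_zero hpi) Complex.I_ne_zero) hac

lemma integral_arc (hst : s < t) (hts : t < s + 1) (μ : Measure TT) :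
    ∫ x, (arc s t).indicator (fun _ => (1 : ℝ)) x ∂μ = μ.real (arc s t) := by
  rw [integral_indicator (measurableSet_arc hst hts)]
  simp

lemma vol_arc (hst : s < t) (hts : t < s + 1) : (volume : Measure TT).real (arc s t) = t - s := by
  rw [← integral_arc hst hts]
  have h1 := fc_arc' hst hts 0
  rw [← integral_eq_fc, if_pos rfl, mul_one] at h1
  have h2 : ∫ x, (((arc s t).indicator (fun _ => (1 : ℝ)) x : ℝ) : ℂ) ∂(volume : Measure TT) =
      ((∫ x, (arc s t).indicator (fun _ => (1 : ℝ)) x ∂(volume : Measure TT) : ℝ) : ℂ) :=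
    integral_ofReal
  have h3 : ∀ θ : TT, bc θ 0 = 0 := by
    intro θ
    unfold bc
    simp
  rw [h2, h3, h3, add_zero, sub_zero] at h1
  exact_mod_cast h1

lemma orb_neg {p q : ℕ} {f : TT → ℝ} {a : ℤ} : orb p q (fun x => (-1) * f x) a = - orb p q f a := by
  unfold orb
  rw [← tsum_neg]
  congr 1
  funext ij
  have : (fun x => (((-1) * f x : ℝ) : ℂ)) = (-1 : ℂ) • (fun x => (f x : ℂ)) := by
    funext x
    simp
  rw [this, fourierCoeff.const_smul]
  simp

/-- enlarging the torsion -/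
lemma Rel.mono {p q a N M : ℕ} (h : N ∣ M) {μ ν : Measure TT} (hr : Rel p q a N μ ν) :
    Rel p q a M μ ν := by
  obtain ⟨n, ρ, τ, h1, h2, h3, h4, h5, h6, h7⟩ := hr
  refine ⟨n, ρ, τ, h1, h2, h3, h4, h5, ?_, h7⟩
  filter_upwards [h6] with x hx
  obtain ⟨k, rfl⟩ := h
  rw [mul_comm, mul_smul, hx, smul_zero]

/-- **One arc and one measure.** -/
theorem arc_single (hM : S_MOD) (hA : S_ARC) {p q : ℕ} (hp : p.Prime) (hq : q.Prime)
    (hpq : p ≠ q) (hst : s < t) (hts : t < s + 1) : ∃ a : ℕ, 0 < a ∧ a.Coprime p ∧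
      a.Coprime q ∧ ∀ η : ℝ, 0 < η → ∃ (N : ℕ) (δ : ℝ), 0 < N ∧ N.Coprime p ∧ N.Coprime q ∧
        0 < δ ∧ ∀ μ : Measure TT, PInv p q μ → (∃ n : ℤ, n ≠ 0 ∧ η ≤ ‖hat μ n‖) →
          (∃ ν : Measure TT, Rel p q a N μ ν ∧ ν.real (arc s t) ≤ t - s - δ) ∧
          (∃ ν : Measure TT, Rel p q a N μ ν ∧ t - s + δ ≤ ν.real (arc s t)) := by
  obtain ⟨a₀, ha₀, hap₀, haq₀, hC₀⟩ := arc_nontrivial hA hp hq hpq hst hts
  obtain ⟨a, ha, hap, haq, hC⟩ := exists_pos ha₀ hap₀ haq₀ hC₀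
  have hC' : orb p q (fun x => (-1) * (arc s t).indicator (fun _ => (1 : ℝ)) x) a ≠ 0 := by
    rw [orb_neg]
    exact neg_ne_zero.2 hC
  refine ⟨a, ha, hap, haq, fun η hη => ?_⟩
  obtain ⟨N₁, δ₁, hN₁, hN₁p, hN₁q, hδ₁, hb₁⟩ :=
    (TF_arc hst hts).single hM hp hq hpq ha hap haq hC hη
  obtain ⟨N₂, δ₂, hN₂, hN₂p, hN₂q, hδ₂, hb₂⟩ :=
    ((TF_arc hst hts).smul (-1)).single hM hp hq hpq ha hap haq hC' hη
  refine ⟨N₁ * N₂, min δ₁ δ₂, Nat.mul_pos hN₁ hN₂, Nat.Coprime.mul_left hN₁p hN₂p,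
    Nat.Coprime.mul_left hN₁q hN₂q, lt_min hδ₁ hδ₂, fun μ hμ hn => ⟨?_, ?_⟩⟩
  · obtain ⟨ν, hν, hle⟩ := hb₁ μ hμ hn
    refine ⟨ν, hν.mono (dvd_mul_right _ _), ?_⟩
    rw [integral_arc hst hts, integral_arc hst hts, vol_arc hst hts] at hle
    have := min_le_left δ₁ δ₂
    linarith
  · obtain ⟨ν, hν, hle⟩ := hb₂ μ hμ hn
    refine ⟨ν, hν.mono (dvd_mul_left _ _), ?_⟩
    rw [integral_const_mul, integral_const_mul, integral_arc hst hts, integral_arc hst hts,
      vol_arc hst hts] at hle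
    have := min_le_right δ₁ δ₂
    linarith

/-- **One arc decides the conjecture, one-sided.** -/
theorem arc_decides (hM : S_MOD) (hA : S_ARC) {p q : ℕ} (hp : p.Prime) (hq : q.Prime)
    (hpq : p ≠ q) (hst : s < t) (hts : t < s + 1) :
    ((∀ μ : Measure TT, Inv p q μ → μ = volume) ↔
      ∀ μ : Measure TT, Inv p q μ → t - s ≤ μ.real (arc s t)) ∧
    ((∀ μ : Measure TT, Inv p q μ → μ = volume) ↔
      ∀ μ : Measure TT, Inv p q μ → μ.real (arc s t) ≤ t - s) := by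
  obtain ⟨a, _, _, _, h⟩ := arc_single hM hA hp hq hpq hst hts
  refine ⟨⟨fun hQ μ hμ => ?_, fun hQ μ hμ => ?_⟩, ⟨fun hQ μ hμ => ?_, fun hQ μ hμ => ?_⟩⟩
  · rw [hQ μ hμ, vol_arc hst hts]
  · refine eq_vol hμ.prob fun n hn => ?_
    by_contra hne
    obtain ⟨N, δ, _, _, _, hδ, hb⟩ := h _ (norm_pos_iff.2 hne)
    obtain ⟨⟨ν, hν, hle⟩, _⟩ := hb μ hμ.toP ⟨n, hn, le_rfl⟩
    have := hQ ν (hν.inv hμ)
    linarith
  · rw [hQ μ hμ, vol_arc hst hts]
  · refine eq_vol hμ.prob fun n hn => ?_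
    by_contra hne
    obtain ⟨N, δ, _, _, _, hδ, hb⟩ := h _ (norm_pos_iff.2 hne)
    obtain ⟨_, ⟨ν, hν, hle⟩⟩ := hb μ hμ.toP ⟨n, hn, le_rfl⟩
    have := hQ ν (hν.inv hμ)
    linarith

end

end Pool.Agent.Run7.h776.FT
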