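import Pool.Agent.Run7.h776.FT.Coef

/-! # Functions of bounded variation -/

set_option autoImplicit false
set_option linter.style.haveILetI false

namespace Pool.Agent.Run7.h776.FT

open MeasureTheory Finset
open Pool.Agent.R203.ID (hat norm_f f_add f_zero f_smul f_nsmul f_neg integrable_f norm_hat_le
  ext_hat hat_map_nsmul hat_map_smul inv_iff conv hat_conv conv_atom)

/-- cyclic variation at most `V` -/
def BVC (F : TT → ℂ) (V : ℝ) : Prop :=
  ∀ (r : ℝ) (N : ℕ), 0 < N → ∀ x y : ℕ → ℝ,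
    (∀ j < N, x j ∈ Set.Icc (r + (j : ℝ) / N) (r + ((j : ℝ) + 1) / N)) →
    (∀ j < N, y j ∈ Set.Icc (r + (j : ℝ) / N) (r + ((j : ℝ) + 1) / N)) →
    ∑ j ∈ range N, ‖F (x j : TT) - F (y j : TT)‖ ≤ V

section

variable {F : TT → ℂ} {V : ℝ}

lemma BVC.nonneg (h : BVC F V) : 0 ≤ V :=
  (sum_nonneg fun _ _ => norm_nonneg _).trans (h 0 1 one_pos (fun _ => 0) (fun _ => 0)
    (fun j hj => by
      have : j = 0 := by omega
      subst this
      simp) (fun j hj => by
      have : j = 0 := by omega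
      subst this
      simp))

lemma sum_zmod {N : ℕ} [NeZero N] {M : Type*} [AddCommMonoid M] (G : ℕ → M) :
    ∑ b : ZMod N, G b.val = ∑ j ∈ range N, G j := by
  refine sum_nbij' (fun b : ZMod N => b.val) (fun j : ℕ => (j : ZMod N)) ?_ ?_ ?_ ?_ ?_
  · intro b _
    exact mem_range.2 (ZMod.val_lt b)
  · intro j _
    exact mem_univ _
  · intro b _
    exact ZMod.natCast_zmod_val b
  · intro j hj
    exact ZMod.val_natCast_of_lt (mem_range.1 hj)
  · intro b _
    rfl

lemma pt_val {N : ℕ} [NeZero N] (b : ZMod N) : pt b = (((b.val : ℝ) / N : ℝ) : TT) := by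
  unfold pt
  rw [ZMod.toAddCircle_apply]

lemma pt_add {N : ℕ} [NeZero N] (b c : ZMod N) : pt (b + c) = pt b + pt c := by
  unfold pt
  rw [map_add]

lemma pt_one {N : ℕ} [NeZero N] : pt (1 : ZMod N) = ((1 / N : ℝ) : TT) := by
  unfold pt
  have : (1 : ZMod N) = ((1 : ℤ) : ZMod N) := by simp
  rw [this, ZMod.toAddCircle_intCast]
  push_cast
  rfl

/-- differences at distance `u ≤ 1 / N` -/
lemma BVC.shift (h : BVC F V) {N : ℕ} [NeZero N] (y : TT) {u : ℝ} (hu0 : 0 ≤ u)
    (hu1 : u ≤ 1 / N) :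
    ∑ b : ZMod N, ‖F (pt b + y) - F (pt b + ((u : TT) + y))‖ ≤ V := by
  have hN : 0 < N := Nat.pos_of_ne_zero (NeZero.ne N)
  have hNr : (0 : ℝ) < N := by exact_mod_cast hN
  set r := rep y with hr
  have e1 : ∀ b : ZMod N, pt b + y = ((r + (b.val : ℝ) / N : ℝ) : TT) := by
    intro b
    rw [AddCircle.coe_add, hr, rep_coe, pt_val, add_comm]
  have e2 : ∀ b : ZMod N, pt b + ((u : TT) + y) = ((r + (b.val : ℝ) / N + u : ℝ) : TT) := by
    intro b
    rw [AddCircle.coe_add, ← e1]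
    abel
  simp_rw [e1, e2]
  rw [sum_zmod (fun j => ‖F ((r + (j : ℝ) / N : ℝ) : TT) - F ((r + (j : ℝ) / N + u : ℝ) : TT)‖)]
  apply h r N hN
  · intro j _
    refine ⟨le_rfl, ?_⟩
    rw [add_div]
    have : (0 : ℝ) ≤ 1 / N := by positivity
    linarith
  · intro j _
    refine ⟨by linarith, ?_⟩
    rw [add_div]
    linarith

/-- the twisted mean over a coset -/
noncomputable def Sm (F : TT → ℂ) (N : ℕ) [NeZero N] (m : ℤ) (z : TT) : ℂ :=
  (1 / N : ℂ) * ∑ b : ZMod N, ZMod.stdAddChar (-((m : ZMod N) * b)) * F (pt b + z)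

lemma Sm_pt (N : ℕ) [NeZero N] (m : ℤ) (z : TT) (c : ZMod N) :
    Sm F N m (pt c + z) = ZMod.stdAddChar ((m : ZMod N) * c) * Sm F N m z := by
  unfold Sm
  rw [mul_left_comm]
  congr 1
  rw [mul_sum]
  refine Fintype.sum_bijective (fun b : ZMod N => b + c) (Equiv.addRight c).bijective _ _
    (fun b => ?_)
  rw [pt_add, ← mul_assoc, ← AddChar.map_add_eq_mul]
  congr 2
  · ring
  · rw [add_assoc]

lemma norm_Sm_sub (h : BVC F V) (N : ℕ) [NeZero N] (m : ℤ) (z : TT) {u : ℝ} (hu0 : 0 ≤ u)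
    (hu1 : u ≤ 1 / N) : ‖Sm F N m z - Sm F N m ((u : TT) + z)‖ ≤ V * (1 / N) := by
  have e : Sm F N m z - Sm F N m ((u : TT) + z) = (1 / N : ℂ) *
      ∑ b : ZMod N, ZMod.stdAddChar (-((m : ZMod N) * b)) *
        (F (pt b + z) - F (pt b + ((u : TT) + z))) := by
    unfold Sm
    rw [← mul_sub, ← sum_sub_distrib]
    congr 1
    exact sum_congr rfl fun b _ => by ring
  rw [e, norm_mul, norm_div, norm_one, Complex.norm_natCast, mul_comm]
  apply mul_le_mul_of_nonneg_right _ (by positivity)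
  refine (norm_sum_le _ _).trans (le_trans (sum_le_sum fun b _ => ?_) (h.shift z hu0 hu1))
  rw [norm_mul, AddChar.norm_apply, one_mul]

lemma norm_Sm (h : BVC F V) (N : ℕ) [NeZero N] {m : ℤ} (hm0 : m ≠ 0) (hm : 2 * |m| ≤ N)
    (z : TT) : ‖Sm F N m z‖ ≤ V / (4 * |(m : ℝ)|) := by
  have hN : 0 < N := Nat.pos_of_ne_zero (NeZero.ne N)
  have hNr : (0 : ℝ) < N := by exact_mod_cast hN
  have hmpos : 0 < |(m : ℝ)| := abs_pos.2 (by exact_mod_cast hm0)
  have h1 := norm_Sm_sub h N m z (u := 1 / N) (by positivity) le_rfl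
  rw [← pt_one, Sm_pt, mul_one] at h1
  have e : Sm F N m z - ZMod.stdAddChar ((m : ZMod N)) * Sm F N m z =
      -((ZMod.stdAddChar ((m : ZMod N)) - 1) * Sm F N m z) := by ring
  rw [e, norm_neg, norm_mul] at h1
  have hexp : (ZMod.stdAddChar ((m : ZMod N)) : ℂ) =
      Complex.exp (-(2 * Real.pi * Complex.I * (((-m : ℤ) : ℝ) / N : ℝ))) := by
    rw [ZMod.stdAddChar_coe]
    congr 1
    push_cast
    ring
  have hmN : |(((-m : ℤ) : ℝ) / N : ℝ)| ≤ 1 / 2 := by
    rw [abs_div, abs_of_pos hNr, div_le_iff₀ hNr]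
    have : ((2 * |m| : ℤ) : ℝ) ≤ N := by exact_mod_cast hm
    push_cast at this ⊢
    rw [abs_neg]
    linarith
  have h2 := four_le_norm hmN
  rw [← hexp] at h2
  have h3 : |(((-m : ℤ) : ℝ) / N : ℝ)| = |(m : ℝ)| / N := by
    rw [abs_div, abs_of_pos hNr]
    push_cast
    rw [abs_neg]
  rw [h3] at h2
  have h4 : 4 * (|(m : ℝ)| / N) * ‖Sm F N m z‖ ≤ V * (1 / N) :=
    (mul_le_mul_of_nonneg_right h2 (norm_nonneg _)).trans h1
  rw [le_div_iff₀ (by positivity)]
  have h5 : 4 * (|(m : ℝ)| / N) * ‖Sm F N m z‖ = (‖Sm F N m z‖ * (4 * |(m : ℝ)|)) * (1 / N) := by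
    ring
  rw [h5] at h4
  exact le_of_mul_le_mul_right h4 (by positivity)

/-- every point is `b / N + u` -/
lemma exists_coset (N : ℕ) [NeZero N] (t : TT) :
    ∃ (c : ZMod N) (u : ℝ), 0 ≤ u ∧ u ≤ 1 / N ∧ t = pt c + (u : TT) := by
  have hN : 0 < N := Nat.pos_of_ne_zero (NeZero.ne N)
  have hNr : (0 : ℝ) < N := by exact_mod_cast hN
  obtain ⟨hr0, hr1⟩ := rep_mem t
  set r := rep t with hr
  set k := ⌊(N : ℝ) * r⌋₊ with hk
  have hk1 : (k : ℝ) ≤ N * r := Nat.floor_le (by positivity)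
  have hk2 : (N : ℝ) * r < k + 1 := Nat.lt_floor_add_one _
  have hkN : k < N := by
    have : (k : ℝ) < N := by nlinarith
    exact_mod_cast this
  refine ⟨(k : ZMod N), r - k / N, ?_, ?_, ?_⟩
  · rw [sub_nonneg, div_le_iff₀ hNr]; linarith
  · rw [sub_le_iff_le_add, ← add_div, le_div_iff₀ hNr]; linarith
  · rw [pt_val, ZMod.val_natCast_of_lt hkN, ← AddCircle.coe_add]
    rw [add_sub_cancel, hr, rep_coe]

lemma fourier_small (m : ℤ) {u : ℝ} (hu : 0 ≤ u) :
    ‖1 - (fourier (-m) (u : TT) : ℂ)‖ ≤ 2 * Real.pi * |(m : ℝ)| * u := by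
  rw [norm_sub_rev, fourier_coe_apply]
  have e : Complex.exp (2 * Real.pi * Complex.I * ((-m : ℤ) : ℂ) * (u : ℂ) / ((1 : ℝ) : ℂ)) =
      Complex.exp (Complex.I * ((-(2 * Real.pi * (m * u)) : ℝ) : ℂ)) := by
    congr 1
    push_cast
    ring
  rw [e]
  refine (Real.norm_exp_I_mul_ofReal_sub_one_le).trans (le_of_eq ?_)
  rw [Real.norm_eq_abs, abs_neg, abs_mul, abs_of_pos (by positivity : (0 : ℝ) < 2 * Real.pi),
    abs_mul, abs_of_nonneg hu]
  ring

lemma fourier_neg_pt {N : ℕ} [NeZero N] (m : ℤ) (c : ZMod N) :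
    (fourier (-m) (pt c) : ℂ) * ZMod.stdAddChar ((m : ZMod N) * c) = 1 := by
  rw [fourier_pt, ← AddChar.map_add_eq_mul]
  have : (((-m : ℤ) : ZMod N) * c + (m : ZMod N) * c) = 0 := by push_cast; ring
  rw [this, AddChar.map_zero_eq_one]

/-- the Fourier coefficient as a mean of twisted means -/
lemma fc_eq_mean (hF : Measurable F) {M : ℝ} (hM : ∀ x, ‖F x‖ ≤ M) (N : ℕ) [NeZero N] (m : ℤ)
    (y : TT) : fourierCoeff F m * (fourier m y : ℂ) =
      ∫ t, (fourier (-m) t : ℂ) * Sm F N m (t + y) := by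
  have hN : (N : ℂ) ≠ 0 := by exact_mod_cast NeZero.ne N
  have hint : ∀ w : TT, Integrable (fun t : TT => (fourier (-m) t : ℂ) * F (w + t))
      (volume : Measure TT) := fun w =>
    Integrable.of_bound (((fourier (-m)).continuous.measurable.mul
      (hF.comp (by fun_prop))).aestronglyMeasurable) M
      (Filter.Eventually.of_forall fun t => by
        rw [norm_mul, norm_f, one_mul]; exact hM _)
  have h1 : ∀ w : TT, ∫ t, (fourier (-m) t : ℂ) * F (w + t) = fourier m w * fourierCoeff F m := by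
    intro w
    unfold fourierCoeff
    rw [haar_eq]
    have h2 := integral_add_left_eq_self (μ := (volume : Measure TT))
      (fun t => (fourier (-m) (t - w) : ℂ) * F t) w
    have h3 : ∀ t : TT, (fourier (-m) (w + t - w) : ℂ) * F (w + t) =
        (fourier (-m) t : ℂ) * F (w + t) := by
      intro t
      rw [add_sub_cancel_left]
    simp_rw [h3] at h2
    rw [h2, ← integral_const_mul]
    congr 1
    funext t
    rw [sub_eq_add_neg, f_add]
    have h4 : (fourier (-m) (-w) : ℂ) = fourier m w := by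
      rw [fourier_apply, fourier_apply, smul_neg, neg_smul, neg_neg]
    rw [h4, smul_eq_mul]
    ring
  have h5 : ∀ t : TT, (fourier (-m) t : ℂ) * Sm F N m (t + y) = (1 / N : ℂ) *
      ∑ b : ZMod N, ZMod.stdAddChar (-((m : ZMod N) * b)) *
        ((fourier (-m) t : ℂ) * F (pt b + y + t)) := by
    intro t
    unfold Sm
    rw [mul_left_comm, mul_sum]
    congr 1
    refine sum_congr rfl fun b _ => ?_
    have : pt b + (t + y) = pt b + y + t := by abel
    rw [this]
    ring
  simp_rw [h5]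
  rw [integral_const_mul, integral_finsetSum]
  · have h6 : ∀ b : ZMod N, ∫ t, ZMod.stdAddChar (-((m : ZMod N) * b)) *
        ((fourier (-m) t : ℂ) * F (pt b + y + t)) = fourierCoeff F m * fourier m y := by
      intro b
      rw [integral_const_mul, h1, f_add, fourier_pt]
      have h7 : (ZMod.stdAddChar (-((m : ZMod N) * b)) : ℂ) *
          ZMod.stdAddChar ((m : ZMod N) * b) = 1 := by
        rw [← AddChar.map_add_eq_mul, neg_add_cancel, AddChar.map_zero_eq_one]
      calc _ = ((ZMod.stdAddChar (-((m : ZMod N) * b)) : ℂ) *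
          ZMod.stdAddChar ((m : ZMod N) * b)) * (fourierCoeff F m * fourier m y) := by ring
        _ = _ := by rw [h7, one_mul]
    simp_rw [h6]
    rw [sum_const, card_univ, ZMod.card, nsmul_eq_mul]
    field_simp
  · intro b _
    exact (hint _).const_mul _

/-- the pointwise estimate -/
lemma BVC.point (h : BVC F V) (N : ℕ) [NeZero N] (m : ℤ) (y t : TT) {E : ℝ}
    (hE : ∀ z, 2 * Real.pi * |(m : ℝ)| * (1 / N) * ‖Sm F N m z‖ ≤ E) :
    ‖Sm F N m y - (fourier (-m) t : ℂ) * Sm F N m (t + y)‖ ≤ V * (1 / N) + E := by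
  obtain ⟨c, u, hu0, hu1, rfl⟩ := exists_coset N t
  have e1 : (fourier (-m) (pt c + (u : TT)) : ℂ) * Sm F N m (pt c + (u : TT) + y) =
      fourier (-m) (u : TT) * Sm F N m ((u : TT) + y) := by
    rw [add_assoc, Sm_pt, f_add]
    have := fourier_neg_pt m c
    calc _ = ((fourier (-m) (pt c) : ℂ) * ZMod.stdAddChar ((m : ZMod N) * c)) *
        (fourier (-m) (u : TT) * Sm F N m ((u : TT) + y)) := by ring
      _ = _ := by rw [this, one_mul]
  rw [e1]
  have e2 : Sm F N m y - (fourier (-m) (u : TT) : ℂ) * Sm F N m ((u : TT) + y) =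
      (Sm F N m y - Sm F N m ((u : TT) + y)) +
        (1 - (fourier (-m) (u : TT) : ℂ)) * Sm F N m ((u : TT) + y) := by ring
  rw [e2]
  refine (norm_add_le _ _).trans (add_le_add (norm_Sm_sub h N m y hu0 hu1) ?_)
  rw [norm_mul]
  refine le_trans (mul_le_mul_of_nonneg_right ((fourier_small m hu0).trans ?_) (norm_nonneg _))
    (hE ((u : TT) + y))
  exact mul_le_mul_of_nonneg_left hu1 (by positivity)

lemma measurable_Sm (hF : Measurable F) (N : ℕ) [NeZero N] (m : ℤ) : Measurable (Sm F N m) := by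
  unfold Sm
  refine Measurable.const_mul ?_ _
  refine Finset.measurable_fun_sum _ fun b _ => ?_
  exact (hF.comp (by fun_prop)).const_mul _

lemma norm_Sm_le {M : ℝ} (hM : ∀ x, ‖F x‖ ≤ M) (N : ℕ) [NeZero N] (m : ℤ) (z : TT) :
    ‖Sm F N m z‖ ≤ M := by
  have hN : (0 : ℝ) < N := by exact_mod_cast Nat.pos_of_ne_zero (NeZero.ne N)
  unfold Sm
  rw [norm_mul, norm_div, norm_one, Complex.norm_natCast, div_mul_eq_mul_div, one_mul,
    div_le_iff₀ hN]
  refine (norm_sum_le _ _).trans ?_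
  have : ∀ b ∈ (univ : Finset (ZMod N)),
      ‖(ZMod.stdAddChar (-((m : ZMod N) * b)) : ℂ) * F (pt b + z)‖ ≤ M := by
    intro b _
    rw [norm_mul, AddChar.norm_apply, one_mul]
    exact hM _
  refine (sum_le_sum this).trans ?_
  rw [sum_const, card_univ, ZMod.card, nsmul_eq_mul, mul_comm]

/-- the averaged estimate -/
lemma BVC.avg (h : BVC F V) (hF : Measurable F) {M : ℝ} (hM : ∀ x, ‖F x‖ ≤ M) (N : ℕ) [NeZero N]
    (m : ℤ) (y : TT) {E : ℝ} (hE : ∀ z, 2 * Real.pi * |(m : ℝ)| * (1 / N) * ‖Sm F N m z‖ ≤ E) :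
    ‖Sm F N m y - fourierCoeff F m * (fourier m y : ℂ)‖ ≤ V * (1 / N) + E := by
  rw [fc_eq_mean hF hM N m y]
  have hint : Integrable (fun t : TT => (fourier (-m) t : ℂ) * Sm F N m (t + y))
      (volume : Measure TT) :=
    Integrable.of_bound (((fourier (-m)).continuous.measurable.mul
      ((measurable_Sm hF N m).comp (by fun_prop))).aestronglyMeasurable) M
      (Filter.Eventually.of_forall fun t => by
        rw [norm_mul, norm_f, one_mul]; exact norm_Sm_le hM N m _)
  have e : Sm F N m y - ∫ t, (fourier (-m) t : ℂ) * Sm F N m (t + y) =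
      ∫ t : TT, (Sm F N m y - (fourier (-m) t : ℂ) * Sm F N m (t + y)) := by
    rw [integral_sub (integrable_const _) hint]
    simp
  rw [e]
  have h3 := norm_integral_le_of_norm_le_const (μ := (volume : Measure TT))
    (f := fun t => Sm F N m y - (fourier (-m) t : ℂ) * Sm F N m (t + y))
    (C := V * (1 / N) + E) (Filter.Eventually.of_forall fun t => h.point N m y t hE)
  simpa using h3

/-- the Fourier coefficients are `O(1/m)` -/
lemma BVC.dec (h : BVC F V) (hF : Measurable F) {M : ℝ} (hM : ∀ x, ‖F x‖ ≤ M) {m : ℤ}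
    (hm0 : m ≠ 0) : ‖fourierCoeff F m‖ ≤ V * (1 / |(m : ℝ)|) := by
  have hmpos : 0 < |(m : ℝ)| := abs_pos.2 (by exact_mod_cast hm0)
  set N : ℕ := 2 * m.natAbs with hN
  haveI : NeZero N := ⟨by omega⟩
  have hm : 2 * |m| ≤ N := by rw [hN]; push_cast; exact le_rfl
  have e := fc_eq_mean hF hM N m 0
  rw [f_zero, mul_one] at e
  rw [e]
  have h3 := norm_integral_le_of_norm_le_const (μ := (volume : Measure TT))
    (f := fun t => (fourier (-m) t : ℂ) * Sm F N m (t + 0)) (C := V / (4 * |(m : ℝ)|))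
    (Filter.Eventually.of_forall fun t => by
      rw [norm_mul, norm_f, one_mul]
      exact norm_Sm h N hm0 hm _)
  have h4 : V / (4 * |(m : ℝ)|) ≤ V * (1 / |(m : ℝ)|) := by
    rw [mul_one_div]
    apply div_le_div_of_nonneg_left h.nonneg hmpos
    linarith
  refine le_trans ?_ h4
  simpa using h3

/-- **Functions of bounded variation with mean zero are of type `JF`.** -/
theorem BVC.toJF (h : BVC F V) (hF : Measurable F) {M : ℝ} (hM : ∀ x, ‖F x‖ ≤ M)
    (h0 : fourierCoeff F 0 = 0) : JF F V where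
  meas := hF
  bdd := ⟨M, hM⟩
  nonneg := h.nonneg
  zero := h0
  dec := fun m hm => h.dec hF hM hm
  twist := by
    intro N _ m hm0 hm y
    have hNr : (0 : ℝ) < N := by exact_mod_cast Nat.pos_of_ne_zero (NeZero.ne N)
    have hmpos : 0 < |(m : ℝ)| := abs_pos.2 (by exact_mod_cast hm0)
    have h1 := h.avg hF hM N m y (E := V * (2 / N)) (fun z => by
      have h2 := norm_Sm h N hm0 hm z
      have hpi : Real.pi ≤ 4 := Real.pi_le_four
      calc 2 * Real.pi * |(m : ℝ)| * (1 / N) * ‖Sm F N m z‖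
          ≤ 2 * Real.pi * |(m : ℝ)| * (1 / N) * (V / (4 * |(m : ℝ)|)) :=
            mul_le_mul_of_nonneg_left h2 (by positivity)
        _ = (Real.pi / 4) * (V * (2 / N)) := by field_simp
        _ ≤ 1 * (V * (2 / N)) := by
            apply mul_le_mul_of_nonneg_right _ (mul_nonneg h.nonneg (by positivity))
            linarith
        _ = V * (2 / N) := one_mul _)
    refine h1.trans ?_
    have : V * (1 / N) + V * (2 / N) = V * (3 / N) := by ring
    rw [this]
    apply mul_le_mul_of_nonneg_left _ h.nonneg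
    exact div_le_div_of_nonneg_right (by norm_num) hNr.le
  mean := by
    intro N _ y
    have h1 := h.avg hF hM N 0 y (E := 0) (fun z => by simp)
    rw [h0, zero_mul, sub_zero, add_zero] at h1
    have h2 : Sm F N 0 y = (1 / N : ℂ) * ∑ b : ZMod N, F (pt b + y) := by
      unfold Sm
      simp
    rw [h2] at h1
    exact h1

/-- bounded variation on the circle -/
def BV (f : TT → ℝ) : Prop := LocallyBoundedVariationOn (fun t : ℝ => f (t : TT)) Set.univ

lemma BV.measurable {f : TT → ℝ} (hf : BV f) : Measurable f := by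
  obtain ⟨u, v, hu, hv, huv⟩ := hf.exists_monotoneOn_sub_monotoneOn
  have h1 : Measurable (fun t : ℝ => f (t : TT)) := by
    rw [huv]
    exact (monotoneOn_univ.1 hu).measurable.sub (monotoneOn_univ.1 hv).measurable
  have h2 : f = (fun t : ℝ => f (t : TT)) ∘ rep := by
    funext x
    simp only [Function.comp_apply, rep_coe]
  rw [h2]
  exact h1.comp measurable_rep

/-- the variation over one period bounds all cyclic sums -/
lemma BV.cyclic {f : TT → ℝ} (hf : BV f) : ∃ V : ℝ, 0 ≤ V ∧ ∀ (r : ℝ) (N : ℕ), 0 < N →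
    ∀ x y : ℕ → ℝ, (∀ j < N, x j ∈ Set.Icc (r + (j : ℝ) / N) (r + ((j : ℝ) + 1) / N)) →
    (∀ j < N, y j ∈ Set.Icc (r + (j : ℝ) / N) (r + ((j : ℝ) + 1) / N)) →
    ∑ j ∈ range N, |f (x j : TT) - f (y j : TT)| ≤ V := by
  set g : ℝ → ℝ := fun t => f (t : TT) with hg
  have hper : ∀ (t : ℝ) (k : ℤ), g (t - k) = g t := by
    intro t k
    rw [hg]
    simp only
    congr 1
    rw [AddCircle.coe_sub]
    have : ((k : ℝ) : TT) = 0 := by
      rw [AddCircle.coe_eq_zero_iff]
      exact ⟨k, by simp⟩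
    rw [this, sub_zero]
  have hfin : eVariationOn g (Set.univ ∩ Set.Icc 0 2) ≠ ⊤ := hf 0 2 trivial trivial
  refine ⟨(eVariationOn g (Set.univ ∩ Set.Icc 0 2)).toReal, ENNReal.toReal_nonneg, ?_⟩
  intro r N hN x y hx hy
  have hNr : (0 : ℝ) < N := by exact_mod_cast hN
  set k := ⌊r⌋ with hk
  set r' := r - k with hr'
  have hr0 : 0 ≤ r' := by rw [hr']; linarith [Int.floor_le r]
  have hr1 : r' ≤ 1 := by rw [hr']; linarith [Int.lt_floor_add_one r]
  have key : ∀ n : ℕ, n ≤ N → ∑ j ∈ range n, edist (g (x j - k)) (g (y j - k)) ≤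
      eVariationOn g (Set.univ ∩ Set.Icc r' (r' + (n : ℝ) / N)) := by
    intro n
    induction n with
    | zero => intro _; simp
    | succ n ih =>
      intro hn
      rw [sum_range_succ]
      have h1 : r' ≤ r' + (n : ℝ) / N := by
        have : (0 : ℝ) ≤ (n : ℝ) / N := by positivity
        linarith
      have h2 : r' + (n : ℝ) / N ≤ r' + ((n + 1 : ℕ) : ℝ) / N := by
        push_cast
        rw [add_div]
        have : (0 : ℝ) ≤ 1 / N := by positivity
        linarith
      rw [← eVariationOn.Icc_add_Icc g h1 h2 (Set.mem_univ _)]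
      refine add_le_add (ih (by omega)) (eVariationOn.edist_le g ⟨trivial, ?_⟩ ⟨trivial, ?_⟩)
      · have := hx n (by omega)
        push_cast
        exact ⟨by rw [hr']; linarith [this.1], by rw [hr']; linarith [this.2]⟩
      · have := hy n (by omega)
        push_cast
        exact ⟨by rw [hr']; linarith [this.1], by rw [hr']; linarith [this.2]⟩
  have h3 := key N le_rfl
  have h4 : eVariationOn g (Set.univ ∩ Set.Icc r' (r' + (N : ℝ) / N)) ≤
      eVariationOn g (Set.univ ∩ Set.Icc 0 2) := by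
    apply eVariationOn.mono
    rw [div_self hNr.ne']
    rintro t ⟨_, ht1, ht2⟩
    exact ⟨trivial, by linarith, by linarith⟩
  have h5 := ENNReal.toReal_mono hfin (h3.trans h4)
  rw [ENNReal.toReal_sum (fun j _ => edist_ne_top _ _)] at h5
  refine le_trans (le_of_eq (sum_congr rfl fun j _ => ?_)) h5
  rw [hper, hper, ← dist_edist, Real.dist_eq]

lemma BV.bounded {f : TT → ℝ} (hf : BV f) : ∃ M : ℝ, ∀ x, |f x| ≤ M := by
  obtain ⟨V, hV, h⟩ := hf.cyclic
  refine ⟨|f 0| + V, fun x => ?_⟩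
  have h1 := h 0 1 one_pos (fun _ => rep x) (fun _ => 0)
    (fun j hj => by
      have : j = 0 := by omega
      subst this
      have := rep_mem x
      simp only [Nat.cast_zero, Nat.cast_one]
      exact ⟨by linarith [this.1], by linarith [this.2]⟩)
    (fun j hj => by
      have : j = 0 := by omega
      subst this
      simp)
  simp only [range_one, sum_singleton, rep_coe] at h1
  have h2 : ((0 : ℝ) : TT) = 0 := by simp
  rw [h2] at h1
  have h3 : |f x| ≤ |f 0| + |f x - f 0| := by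
    have := abs_add_le (f 0) (f x - f 0)
    rw [add_sub_cancel] at this
    exact this
  linarith

/-- measurable bounded functions with bounded cyclic variation -/
structure TF (f : TT → ℝ) : Prop where
  meas : Measurable f
  bdd : ∃ M : ℝ, ∀ x, |f x| ≤ M
  cyc : ∃ V : ℝ, 0 ≤ V ∧ ∀ (r : ℝ) (N : ℕ), 0 < N →
    ∀ x y : ℕ → ℝ, (∀ j < N, x j ∈ Set.Icc (r + (j : ℝ) / N) (r + ((j : ℝ) + 1) / N)) →
    (∀ j < N, y j ∈ Set.Icc (r + (j : ℝ) / N) (r + ((j : ℝ) + 1) / N)) →
    ∑ j ∈ range N, |f (x j : TT) - f (y j : TT)| ≤ V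

lemma BV.tf {f : TT → ℝ} (hf : BV f) : TF f := ⟨hf.measurable, hf.bounded, hf.cyclic⟩

lemma TF.integrable {f : TT → ℝ} (hf : TF f) (μ : Measure TT) [IsFiniteMeasure μ] :
    Integrable f μ := by
  obtain ⟨M, hM⟩ := hf.bdd
  exact Integrable.of_bound hf.meas.aestronglyMeasurable M
    (Filter.Eventually.of_forall fun x => by rw [Real.norm_eq_abs]; exact hM x)

lemma TF.sum {κ : Type} [Fintype κ] {f : κ → TT → ℝ} (hf : ∀ l, TF (f l)) (w : κ → ℝ) :
    TF (fun x => ∑ l, w l * f l x) := by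
  choose M hM using fun l => (hf l).bdd
  choose V hV0 hV using fun l => (hf l).cyc
  refine ⟨?_, ⟨∑ l, |w l| * M l, fun x => ?_⟩, ⟨∑ l, |w l| * V l,
    sum_nonneg fun l _ => mul_nonneg (abs_nonneg _) (hV0 l), fun r N hN x y hx hy => ?_⟩⟩
  · exact Finset.measurable_fun_sum _ fun l _ => (hf l).meas.const_mul _
  · refine (abs_sum_le_sum_abs _ _).trans (sum_le_sum fun l _ => ?_)
    rw [abs_mul]
    exact mul_le_mul_of_nonneg_left (hM l x) (abs_nonneg _)
  · have h1 : ∀ j ∈ range N, |∑ l, w l * f l (x j : TT) - ∑ l, w l * f l (y j : TT)| ≤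
        ∑ l, |w l| * |f l (x j : TT) - f l (y j : TT)| := by
      intro j _
      rw [← sum_sub_distrib]
      refine (abs_sum_le_sum_abs _ _).trans (sum_le_sum fun l _ => ?_)
      rw [← mul_sub, abs_mul]
    refine (sum_le_sum h1).trans ?_
    rw [sum_comm]
    refine sum_le_sum fun l _ => ?_
    rw [← mul_sum]
    exact mul_le_mul_of_nonneg_left (hV l r N hN x y hx hy) (abs_nonneg _)

lemma TF.smul {f : TT → ℝ} (hf : TF f) (w : ℝ) : TF (fun x => w * f x) := by
  have := TF.sum (κ := Fin 1) (f := fun _ => f) (fun _ => hf) (fun _ => w)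
  simpa using this

/-- a function of bounded variation minus its mean -/
theorem TF.jf {f : TT → ℝ} (hf : TF f) :
    ∃ V : ℝ, JF (fun x => ((f x : ℝ) : ℂ) - ((∫ x, f x : ℝ) : ℂ)) V := by
  obtain ⟨V, hV, h⟩ := hf.cyc
  obtain ⟨M, hM⟩ := hf.bdd
  set c : ℝ := ∫ x, f x with hc
  have hmeas : Measurable (fun x => ((f x : ℝ) : ℂ) - (c : ℂ)) :=
    (Complex.measurable_ofReal.comp hf.meas).sub_const _
  have hint : Integrable (fun x => ((f x : ℝ) : ℂ)) (volume : Measure TT) :=
    (hf.integrable volume).ofReal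
  refine ⟨V, BVC.toJF (M := M + |c|) ?_ hmeas (fun x => ?_) ?_⟩
  · intro r N hN x y hx hy
    refine le_trans (le_of_eq (sum_congr rfl fun j _ => ?_)) (h r N hN x y hx hy)
    rw [sub_sub_sub_cancel_right, ← Complex.ofReal_sub, Complex.norm_real, Real.norm_eq_abs]
  · refine (norm_sub_le _ _).trans ?_
    rw [Complex.norm_real, Complex.norm_real, Real.norm_eq_abs, Real.norm_eq_abs]
    exact add_le_add (hM x) le_rfl
  · rw [← integral_eq_fc, integral_sub hint (integrable_const _)]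
    have : ∫ x, ((f x : ℝ) : ℂ) ∂(volume : Measure TT) = (c : ℂ) := integral_ofReal
    rw [this]
    simp

end

end Pool.Agent.Run7.h776.FT
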