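import Pool.Agent.Run7.h776.FT.Core

/-! # The bound for a coefficient with nonvanishing orbit sum -/

set_option autoImplicit false
set_option linter.style.haveILetI false

namespace Pool.Agent.Run7.h776.FT

open MeasureTheory Finset
open Pool.Agent.R203.ID (hat norm_f f_add f_zero f_smul f_nsmul f_neg integrable_f norm_hat_le
  ext_hat hat_map_nsmul hat_map_smul inv_iff conv hat_conv conv_atom)

/-- `p ^ i q ^ j` -/
def sS (p q : ℕ) (ij : ℕ × ℕ) : ℤ := (p : ℤ) ^ ij.1 * (q : ℤ) ^ ij.2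

/-- the orbit sum `∑ c (a p ^ i q ^ j)` -/
noncomputable def CC (p q : ℕ) (a : ℤ) (c : ℤ → ℂ) : ℂ := ∑' ij : ℕ × ℕ, c (a * sS p q ij)

section

variable {p q : ℕ}

lemma sS_inj (hp : p.Prime) (hq : q.Prime) (hpq : p ≠ q) : Function.Injective (sS p q) := by
  have key : ∀ (p q : ℕ), p.Prime → q.Prime → p ≠ q → ∀ i j : ℕ,
      (p ^ i * q ^ j).factorization p = i := by
    intro p q hp hq hpq i j
    rw [Nat.factorization_mul (pow_ne_zero _ hp.ne_zero) (pow_ne_zero _ hq.ne_zero)]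
    rw [hp.factorization_pow, hq.factorization_pow]
    simp [hpq.symm]
  rintro ⟨i, j⟩ ⟨i', j'⟩ h
  unfold sS at h
  have h' : p ^ i * q ^ j = p ^ i' * q ^ j' := by exact_mod_cast h
  have h1 := key p q hp hq hpq i j
  have h2 := key q p hq hp hpq.symm j i
  rw [mul_comm] at h2
  rw [h', key p q hp hq hpq] at h1
  rw [h', mul_comm, key q p hq hp hpq.symm] at h2
  rw [h1, h2]

lemma sS_pos (hp : p.Prime) (hq : q.Prime) (ij : ℕ × ℕ) : 0 < sS p q ij := by
  unfold sS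
  have h1 : (0 : ℤ) < p := by exact_mod_cast hp.pos
  have h2 : (0 : ℤ) < q := by exact_mod_cast hq.pos
  positivity

lemma asS_inj (hp : p.Prime) (hq : q.Prime) (hpq : p ≠ q) {a : ℤ} (ha : a ≠ 0) :
    Function.Injective (fun ij => a * sS p q ij) :=
  fun _ _ h => sS_inj hp hq hpq (mul_left_cancel₀ ha h)

lemma geom_pq (hp : p.Prime) (hq : q.Prime) :
    Summable fun ij : ℕ × ℕ => (1 / (p : ℝ)) ^ ij.1 * (1 / (q : ℝ)) ^ ij.2 := by
  have key : ∀ r : ℕ, r.Prime → Summable fun i : ℕ => (1 / (r : ℝ)) ^ i := by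
    intro r hr
    apply summable_geometric_of_lt_one (by positivity)
    have : (2 : ℝ) ≤ r := by exact_mod_cast hr.two_le
    rw [div_lt_one (by linarith)]
    linarith
  exact (key p hp).mul_of_nonneg (key q hq) (fun _ => by positivity) (fun _ => by positivity)

variable {F : TT → ℂ} {Λ : ℝ} {γ : ℤ → ℂ}

lemma summable_fc (hF : JF F Λ) (hp : p.Prime) (hq : q.Prime) {a : ℤ} (ha : a ≠ 0) :
    Summable fun ij : ℕ × ℕ => fourierCoeff F (a * sS p q ij) := by
  refine Summable.of_norm_bounded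
    (g := fun ij : ℕ × ℕ => Λ * ((1 / (p : ℝ)) ^ ij.1 * (1 / (q : ℝ)) ^ ij.2))
    ((geom_pq hp hq).mul_left _) (fun ij => ?_)
  have hs := sS_pos hp hq ij
  have hne : a * sS p q ij ≠ 0 := mul_ne_zero ha hs.ne'
  refine (hF.dec _ hne).trans ?_
  apply mul_le_mul_of_nonneg_left _ hF.nonneg
  have h1 : (1 / (p : ℝ)) ^ ij.1 * (1 / (q : ℝ)) ^ ij.2 = 1 / (sS p q ij : ℝ) := by
    unfold sS
    push_cast
    rw [div_pow, div_pow, one_pow, one_pow]
    field_simp
  rw [h1]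
  have hs' : (0 : ℝ) < (sS p q ij : ℝ) := by exact_mod_cast hs
  apply one_div_le_one_div_of_le hs'
  push_cast
  rw [abs_mul, abs_of_pos hs']
  have h2 : (1 : ℝ) ≤ |(a : ℝ)| := by
    exact_mod_cast Int.one_le_abs ha
  nlinarith

lemma summable_ga (hp : p.Prime) (hq : q.Prime) (hpq : p ≠ q) {a : ℤ} (ha : a ≠ 0)
    (hγ : Summable fun n => ‖γ n‖) : Summable fun ij : ℕ × ℕ => γ (a * sS p q ij) :=
  Summable.of_norm (hγ.comp_injective (asS_inj hp hq hpq ha))

/-- the tail of an absolutely convergent sum -/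
lemma exists_tail (hγ : Summable fun n => ‖γ n‖) {ε : ℝ} (hε : 0 < ε) :
    ∃ F : Finset ℤ, ∀ t : ℤ → ℝ, (∀ n, 0 ≤ t n) → (∀ n, t n ≤ 1) → (∀ n ∈ F, t n = 0) →
      Summable (fun n => ‖γ n‖ * t n) ∧ ∑' n, ‖γ n‖ * t n ≤ ε := by
  classical
  have h1 := hγ.hasSum.eventually (Metric.ball_mem_nhds _ hε)
  obtain ⟨F, hF⟩ := Filter.eventually_atTop.1 h1
  refine ⟨F, fun t ht0 ht1 htF => ?_⟩
  have hs : Summable (fun n => ‖γ n‖ * t n) :=
    Summable.of_nonneg_of_le (fun n => mul_nonneg (norm_nonneg _) (ht0 n))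
      (fun n => by
        have := mul_le_mul_of_nonneg_left (ht1 n) (norm_nonneg (γ n))
        simpa using this) hγ
  refine ⟨hs, ?_⟩
  have hfs : Summable (fun n => if n ∈ F then ‖γ n‖ else 0) :=
    summable_of_ne_finset_zero (s := F) (fun n hn => by rw [if_neg hn])
  have h2 : ∑' n, ‖γ n‖ * t n ≤ ∑' n, (‖γ n‖ - if n ∈ F then ‖γ n‖ else 0) := by
    refine hs.tsum_le_tsum (fun n => ?_) (hγ.sub hfs)
    by_cases hn : n ∈ F
    · rw [htF n hn, if_pos hn]; simp
    · rw [if_neg hn, sub_zero]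
      have := mul_le_mul_of_nonneg_left (ht1 n) (norm_nonneg (γ n))
      simpa using this
  refine h2.trans ?_
  have h3 : ∑' n, (if n ∈ F then ‖γ n‖ else 0) = ∑ n ∈ F, ‖γ n‖ := by
    rw [tsum_eq_sum (s := F) (f := fun n => if n ∈ F then ‖γ n‖ else 0)
      (fun n hn => if_neg hn)]
    exact sum_congr rfl fun n hn => by rw [if_pos hn]
  rw [hγ.tsum_sub hfs, h3]
  have h4 : dist (∑ n ∈ F, ‖γ n‖) (∑' n, ‖γ n‖) < ε := hF F (fun _ h => h)
  rw [Real.dist_eq, abs_lt] at h4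
  linarith [h4.1]

/-- the core bound: for suitable moduli the twisted sum is close to the orbit sum -/
theorem core_bound (hM : S_MOD) (hp : p.Prime) (hq : q.Prime) (hpq : p ≠ q) {a : ℤ} (ha : a ≠ 0)
    (hF : JF F Λ) (hγ : Summable fun n => ‖γ n‖)
    {ε₁ : ℝ} (hε₁ : 0 < ε₁) : ∃ (N' : ℕ) (_ : NeZero N'), N'.Coprime p ∧ N'.Coprime q ∧ 2 ≤ N' ∧
      (HH p q N').card * (4 / ((a.natAbs * N' : ℕ) : ℝ)) ≤ ε₁ ∧
      ∀ V : ℝ, 0 ≤ V → ∀ μ : Measure TT, PInv p q μ → (∀ n : ℤ, n ≠ 0 → ‖hat μ n‖ ≤ V) →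
        ‖CC p q a (fun n => fourierCoeff F n + γ n)‖ * ‖hat μ a‖ ≤
          ‖∑ h ∈ HH p q N', fourierCoeff F (mh a N' h) * hat μ (mh a N' h) +
            ∑' n : ℤ, γ n * hat μ n * kap a N' p q (a.natAbs * N') n‖ + V * ε₁ := by
  classical
  have hΛ0 : 0 ≤ Λ := hF.nonneg
  -- tails
  have hε3 : 0 < ε₁ / 3 := by positivity
  have hb := summable_fc hF hp hq ha
  obtain ⟨F0, hF0⟩ := Filter.eventually_atTop.1
    (hb.hasSum.eventually (Metric.ball_mem_nhds _ hε3))
  obtain ⟨F1, hF1⟩ := exists_tail hγ hε3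
  set M : ℕ := 1 + ∑ ij ∈ F0, (sS p q ij).natAbs + ∑ n ∈ F1, n.natAbs with hMdef
  have hM1 : 1 ≤ M := by omega
  have hMF0 : ∀ ij ∈ F0, (sS p q ij).natAbs ≤ M := by
    intro ij hij
    have : (sS p q ij).natAbs ≤ ∑ ij ∈ F0, (sS p q ij).natAbs :=
      single_le_sum (f := fun ij => (sS p q ij).natAbs) (fun _ _ => Nat.zero_le _) hij
    omega
  have hMF1 : ∀ n ∈ F1, n.natAbs ≤ M := by
    intro n hn
    have : n.natAbs ≤ ∑ n ∈ F1, n.natAbs :=
      single_le_sum (f := fun n : ℤ => n.natAbs) (fun _ _ => Nat.zero_le _) hn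
    omega
  have hMr : (1 : ℝ) ≤ M := by exact_mod_cast hM1
  set ε : ℝ := min (ε₁ / 4) (min (ε₁ / (3 * (Λ + 1))) (1 / (2 * M + 2))) with hεdef
  have hε : 0 < ε := by
    rw [hεdef]
    refine lt_min (by positivity) (lt_min (by positivity) (by positivity))
  have hεa : ε ≤ ε₁ / 4 := min_le_left _ _
  have hεb : ε ≤ ε₁ / (3 * (Λ + 1)) := (min_le_right _ _).trans (min_le_left _ _)
  have hεc : ε ≤ 1 / (2 * M + 2) := (min_le_right _ _).trans (min_le_right _ _)
  have hΛε : Λ * ε ≤ ε₁ / 3 := by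
    have h1 : ε * (3 * (Λ + 1)) ≤ ε₁ := (le_div_iff₀ (by positivity)).1 hεb
    nlinarith
  obtain ⟨N', hN'0, hNp, hNq, hcard, hbad⟩ := hM p q hp hq hpq ε hε
  have hcard1 : 1 ≤ (HH p q N').card := card_pos.2 ⟨1, one_mem_HH⟩
  have hcard1r : (1 : ℝ) ≤ (HH p q N').card := by exact_mod_cast hcard1
  have hN'big : (2 * M + 2 : ℝ) ≤ N' := by
    have h1 : 1 ≤ ε * N' := hcard1r.trans hcard
    have h2 : ε * N' ≤ 1 / (2 * M + 2) * N' := mul_le_mul_of_nonneg_right hεc (Nat.cast_nonneg _)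
    have h3 : 1 ≤ 1 / (2 * M + 2 : ℝ) * N' := h1.trans h2
    have h4 : (0 : ℝ) < 2 * M + 2 := by positivity
    rw [div_mul_eq_mul_div, one_mul, le_div_iff₀ h4, one_mul] at h3
    exact h3
  have hN'M : 2 * M + 2 ≤ N' := by exact_mod_cast hN'big
  have hN'2 : 2 ≤ N' := by omega
  set N : ℕ := a.natAbs * N' with hN
  haveI : NeZero N := ⟨mul_ne_zero (by omega) (by omega)⟩
  have hNN' : N' ≤ N := by
    rw [hN]
    exact Nat.le_mul_of_pos_left _ (by omega)
  have hNr : (N' : ℝ) ≤ N := by exact_mod_cast hNN'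
  have hN'pos : (0 : ℝ) < N' := by positivity
  -- small integers
  have hsmall : ∀ n' : ℤ, n'.natAbs ≤ M → ((n' : ZMod N')).valMinAbs = n' := by
    intro n' hn'
    rw [ZMod.valMinAbs_spec]
    refine ⟨rfl, ?_, ?_⟩ <;> omega
  have hcN : (HH p q N').card * (4 / (N : ℝ)) ≤ ε₁ := by
    have h1 : (4 / N : ℝ) ≤ 4 / N' := div_le_div_of_nonneg_left (by norm_num) hN'pos hNr
    calc (HH p q N').card * (4 / N : ℝ) ≤ (ε * N') * (4 / N') := by gcongr
      _ = 4 * ε := by field_simp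
      _ ≤ ε₁ := by linarith
  refine ⟨N', hN'0, hNp, hNq, hN'2, hcN, ?_⟩
  intro V hV μ hμ hμV
  haveI := hμ.prob
  have hVa : ‖hat μ a‖ ≤ V := hμV a ha
  have hunit : ∀ h ∈ HH p q N', h ≠ 0 := by
    intro h hh h0
    have hu := HH_unit hNp hNq hh
    rw [h0] at hu
    haveI : Fact (1 < N') := ⟨by omega⟩
    exact not_isUnit_zero hu
  -- the sum over the residues
  set good := (HH p q N').filter (fun h => IsS p q h.valMinAbs) with hgood
  set bad := (HH p q N').filter (fun h => ¬ IsS p q h.valMinAbs) with hbaddef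
  have hsplit : ∑ h ∈ HH p q N', fourierCoeff F (mh a N' h) * hat μ (mh a N' h) =
      ∑ h ∈ good, fourierCoeff F (mh a N' h) * hat μ (mh a N' h) +
      ∑ h ∈ bad, fourierCoeff F (mh a N' h) * hat μ (mh a N' h) := by
    rw [hgood, hbaddef, sum_filter_add_sum_filter_not]
  have hbadsum : ‖∑ h ∈ bad, fourierCoeff F (mh a N' h) * hat μ (mh a N' h)‖ ≤ V * (ε₁ / 3) := by
    have h1 : ∀ h ∈ bad, ‖fourierCoeff F (mh a N' h) * hat μ (mh a N' h)‖ ≤
        Λ * V * (1 / |(h.valMinAbs : ℝ)|) := by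
      intro h hh
      have hh' : h ∈ HH p q N' := (mem_filter.1 hh).1
      have hv : h.valMinAbs ≠ 0 := by
        rw [Ne, ZMod.valMinAbs_eq_zero]; exact hunit h hh'
      have hne : mh a N' h ≠ 0 := mul_ne_zero ha hv
      rw [norm_mul]
      have h2 : ‖fourierCoeff F (mh a N' h)‖ ≤ Λ * (1 / |(h.valMinAbs : ℝ)|) := by
        refine (hF.dec _ hne).trans ?_
        apply mul_le_mul_of_nonneg_left _ hΛ0
        have h3 : 0 < |(h.valMinAbs : ℝ)| := abs_pos.2 (by exact_mod_cast hv)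
        apply one_div_le_one_div_of_le h3
        unfold mh
        push_cast
        rw [abs_mul]
        have h4 : (1 : ℝ) ≤ |(a : ℝ)| := by exact_mod_cast Int.one_le_abs ha
        nlinarith
      calc ‖fourierCoeff F (mh a N' h)‖ * ‖hat μ (mh a N' h)‖
          ≤ (Λ * (1 / |(h.valMinAbs : ℝ)|)) * V :=
            mul_le_mul h2 (hμV _ hne) (norm_nonneg _) (by positivity)
        _ = Λ * V * (1 / |(h.valMinAbs : ℝ)|) := by ring
    refine (norm_sum_le _ _).trans ((sum_le_sum h1).trans ?_)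
    rw [← mul_sum]
    have h5 : ∑ h ∈ bad, 1 / |(h.valMinAbs : ℝ)| ≤ ε :=
      hbad bad (filter_subset _ _) (fun h hh => (mem_filter.1 hh).2)
    calc Λ * V * ∑ h ∈ bad, 1 / |(h.valMinAbs : ℝ)| ≤ Λ * V * ε :=
          mul_le_mul_of_nonneg_left h5 (by positivity)
      _ = V * (Λ * ε) := by ring
      _ ≤ V * (ε₁ / 3) := mul_le_mul_of_nonneg_left hΛε hV
  set G := good.image ZMod.valMinAbs with hG
  set P := G.preimage (sS p q) (sS_inj hp hq hpq).injOn with hP
  have hgoodsum : ∑ h ∈ good, fourierCoeff F (mh a N' h) * hat μ (mh a N' h) =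
      (∑ ij ∈ P, fourierCoeff F (a * sS p q ij)) * hat μ a := by
    have h1 : ∑ ij ∈ P, fourierCoeff F (a * sS p q ij) = ∑ x ∈ G, fourierCoeff F (a * x) := by
      rw [hP]
      apply sum_preimage (sS p q) G (sS_inj hp hq hpq).injOn (fun x => fourierCoeff F (a * x))
      intro x hx hxr
      obtain ⟨h, hh, rfl⟩ := mem_image.1 hx
      obtain ⟨i, j, hij⟩ := (mem_filter.1 hh).2
      exact absurd ⟨(i, j), hij.symm⟩ hxr
    rw [h1, hG, sum_image (fun x _ y _ hxy => ZMod.injective_valMinAbs hxy), sum_mul]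
    refine sum_congr rfl fun h hh => ?_
    obtain ⟨i, j, hij⟩ := (mem_filter.1 hh).2
    have h2 : hat μ (mh a N' h) = hat μ a := by
      unfold mh
      rw [hij, hμ.hS]
    rw [h2]
    rfl
  have hF0P : F0 ⊆ P := by
    intro ij hij
    rw [hP, mem_preimage, hG, mem_image]
    refine ⟨((sS p q ij : ℤ) : ZMod N'), ?_, hsmall _ (hMF0 ij hij)⟩
    rw [hgood, mem_filter]
    refine ⟨mem_HH.2 ⟨ij.1, ij.2, ?_⟩, ?_⟩
    · unfold sS; push_cast; rfl
    · rw [hsmall _ (hMF0 ij hij)]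
      exact ⟨ij.1, ij.2, rfl⟩
  have hPerr : ‖∑ ij ∈ P, fourierCoeff F (a * sS p q ij) - CC p q a (fourierCoeff F)‖ ≤ ε₁ / 3 := by
    have := hF0 P hF0P
    rw [dist_eq_norm] at this
    exact this.le
  -- the Fourier series part
  set ind : ℤ → ℂ := fun n => if n ∈ Set.range (fun ij => a * sS p q ij) then 1 else 0 with hind
  have hCCγ : CC p q a γ * hat μ a = ∑' n : ℤ, γ n * hat μ n * ind n := by
    unfold CC
    rw [← tsum_mul_right]
    rw [← (asS_inj hp hq hpq ha).tsum_eq]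
    · congr 1
      funext ij
      have h1 : ind (a * sS p q ij) = 1 := by
        rw [hind]
        exact if_pos ⟨ij, rfl⟩
      simp only [h1, mul_one]
      congr 1
      unfold sS
      rw [hμ.hS]
    · intro n hn
      rw [Function.mem_support] at hn
      by_contra hr
      apply hn
      have : ind n = 0 := by
        rw [hind]
        exact if_neg hr
      rw [this, mul_zero]
  have hkap1 : ∀ n, ‖kap a N' p q N n‖ ≤ 1 := fun n => kap_norm ha hN n
  have hind1 : ∀ n, ‖ind n‖ ≤ 1 := by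
    intro n
    rw [hind]
    simp only
    split_ifs <;> simp
  have hW : ‖∑' n : ℤ, γ n * hat μ n * kap a N' p q N n - CC p q a γ * hat μ a‖ ≤
      V * (ε₁ / 3) := by
    rw [hCCγ, ← (wsum_summable hγ μ _ hkap1).tsum_sub (wsum_summable hγ μ _ hind1)]
    set t : ℤ → ℝ := fun n => ‖kap a N' p q N n - ind n‖ with ht
    have hcases : ∀ n, (kap a N' p q N n - ind n = 0) ∨
        (ind n = 0 ∧ ∃ n' : ℤ, n = a * n' ∧ (n' : ZMod N') ∈ HH p q N' ∧ ¬ IsS p q n') := by
      intro n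
      by_cases hn : n ∈ Set.range (fun ij => a * sS p q ij)
      · left
        have h1 : ind n = 1 := by rw [hind]; exact if_pos hn
        obtain ⟨ij, rfl⟩ := hn
        rw [h1]
        have h2 : (((sS p q ij : ℤ)) : ZMod N') ∈ HH p q N' :=
          mem_HH.2 ⟨ij.1, ij.2, by unfold sS; push_cast; rfl⟩
        have h3 := kap_eq_one (N := N) ha hN h2
        simp only at h3 ⊢
        rw [h3, sub_self]
      · have h1 : ind n = 0 := by rw [hind]; exact if_neg hn
        rcases kap_cases (p := p) (q := q) ha hN n with h | ⟨n', h2, h3⟩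
        · left; rw [h, h1, sub_zero]
        · right
          refine ⟨h1, n', h2, h3, ?_⟩
          rintro ⟨i, j, hij⟩
          apply hn
          refine ⟨(i, j), ?_⟩
          simp only [sS]
          rw [h2, hij]
    have ht1 : ∀ n, t n ≤ 1 := by
      intro n
      rw [ht]
      simp only
      rcases hcases n with h | ⟨h, _⟩
      · rw [h]; simp
      · rw [h, sub_zero]; exact hkap1 n
    have ht0 : ∀ n, t n ≠ 0 → n ≠ 0 := by
      intro n hn h0
      apply hn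
      rw [ht]
      simp only
      rcases hcases n with h | ⟨_, n', h2, h3, _⟩
      · rw [h, norm_zero]
      · exfalso
        rw [h0] at h2
        have h4 : n' = 0 := by
          rcases mul_eq_zero.1 h2.symm with h5 | h5
          · exact absurd h5 ha
          · exact h5
        rw [h4, Int.cast_zero] at h3
        exact hunit 0 h3 rfl
    have htF : ∀ n ∈ F1, t n = 0 := by
      intro n hn
      rw [ht]
      simp only
      rcases hcases n with h | ⟨_, n', h2, h3, h4⟩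
      · rw [h, norm_zero]
      · exfalso
        have h5 : n'.natAbs ≤ M := by
          refine le_trans ?_ (hMF1 n hn)
          rw [h2, Int.natAbs_mul]
          exact Nat.le_mul_of_pos_left _ (by omega)
        have h6 := hsmall n' h5
        have hn'0 : n' ≠ 0 := by
          rintro rfl
          rw [Int.cast_zero] at h3
          exact hunit 0 h3 rfl
        have h7 := hbad {(n' : ZMod N')} (by
          intro x hx
          rw [mem_singleton.1 hx]; exact h3) (by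
          intro x hx
          rw [mem_singleton.1 hx, h6]; exact h4)
        rw [sum_singleton, h6] at h7
        have h8 : |(n' : ℝ)| ≤ M := by
          have : |n'| ≤ (M : ℤ) := by
            rw [← Int.natCast_natAbs]
            exact_mod_cast h5
          exact_mod_cast this
        have h9 : 0 < |(n' : ℝ)| := abs_pos.2 (by exact_mod_cast hn'0)
        have h10 : 1 / (M : ℝ) ≤ 1 / |(n' : ℝ)| := one_div_le_one_div_of_le h9 h8
        have h11 : 1 / (2 * M + 2 : ℝ) < 1 / (M : ℝ) :=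
          one_div_lt_one_div_of_lt (by linarith) (by linarith)
        linarith
    obtain ⟨hts, htsum⟩ := hF1 t (fun n => norm_nonneg _) ht1 htF
    have hterm : ∀ n, ‖γ n * hat μ n * kap a N' p q N n - γ n * hat μ n * ind n‖ ≤
        V * (‖γ n‖ * t n) := by
      intro n
      rw [← mul_sub, norm_mul, norm_mul]
      by_cases h0 : t n = 0
      · rw [h0]
        have : ‖kap a N' p q N n - ind n‖ = 0 := h0
        rw [this]; simp
      · have h1 := hμV n (ht0 n h0)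
        have h2 : 0 ≤ t n := norm_nonneg _
        calc ‖γ n‖ * ‖hat μ n‖ * ‖kap a N' p q N n - ind n‖ ≤ ‖γ n‖ * V * t n := by gcongr
          _ = V * (‖γ n‖ * t n) := by ring
    refine (tsum_of_norm_bounded (hts.mul_left V).hasSum hterm).trans ?_
    rw [tsum_mul_left]
    exact mul_le_mul_of_nonneg_left htsum hV
  -- conclusion
  have hCsum : CC p q a (fun n => fourierCoeff F n + γ n) = CC p q a (fourierCoeff F) + CC p q a γ := by
    unfold CC
    exact hb.tsum_add (summable_ga hp hq hpq ha hγ)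
  have hfinal : CC p q a (fun n => fourierCoeff F n + γ n) * hat μ a =
      (∑ h ∈ HH p q N', fourierCoeff F (mh a N' h) * hat μ (mh a N' h) +
        ∑' n : ℤ, γ n * hat μ n * kap a N' p q N n) -
      (∑ ij ∈ P, fourierCoeff F (a * sS p q ij) - CC p q a (fourierCoeff F)) * hat μ a -
      ∑ h ∈ bad, fourierCoeff F (mh a N' h) * hat μ (mh a N' h) -
      (∑' n : ℤ, γ n * hat μ n * kap a N' p q N n - CC p q a γ * hat μ a) := by
    rw [hsplit, hgoodsum, hCsum]
    ring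
  rw [← norm_mul, hfinal]
  have hE1 : ‖(∑ ij ∈ P, fourierCoeff F (a * sS p q ij) - CC p q a (fourierCoeff F)) * hat μ a‖ ≤
      V * (ε₁ / 3) := by
    rw [norm_mul]
    calc ‖∑ ij ∈ P, fourierCoeff F (a * sS p q ij) - CC p q a (fourierCoeff F)‖ * ‖hat μ a‖
        ≤ (ε₁ / 3) * V := by gcongr
      _ = V * (ε₁ / 3) := by ring
  refine (norm_sub_le _ _).trans ?_
  refine (add_le_add (norm_sub_le _ _) hW).trans ?_
  refine (add_le_add (add_le_add (norm_sub_le _ _) hbadsum) le_rfl).trans ?_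
  linarith

/-- bootstrapping -/
lemma bootstrap {a : ℤ} (ha : a ≠ 0) (hap : IsCoprime a (p : ℤ)) (haq : IsCoprime a (q : ℤ))
    {C X e : ℝ} (hC : 0 < C) (he : e ≤ C / 2)
    (h : ∀ V : ℝ, 0 ≤ V → ∀ μ : Measure TT, Inv p q μ → (∀ n : ℤ, n ≠ 0 → ‖hat μ n‖ ≤ V) →
      C * ‖hat μ a‖ ≤ X + V * e) :
    ∀ μ : Measure TT, Inv p q μ → ∀ n : ℤ, n ≠ 0 → ‖hat μ n‖ ≤ 2 * X / C := by
  -- the supremum
  set S : Set ℝ := {v | ∃ μ : Measure TT, Inv p q μ ∧ ∃ n : ℤ, n ≠ 0 ∧ v = ‖hat μ n‖} with hS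
  have hSb : BddAbove S := by
    refine ⟨1, ?_⟩
    rintro v ⟨μ, hμ, n, _, rfl⟩
    haveI := hμ.prob
    exact norm_hat_le μ n
  intro μ hμ n hn
  set V := sSup S with hV
  have hle : ∀ ν : Measure TT, Inv p q ν → ∀ m : ℤ, m ≠ 0 → ‖hat ν m‖ ≤ V :=
    fun ν hν m hm => le_csSup hSb ⟨ν, hν, m, hm, rfl⟩
  have hV0 : 0 ≤ V := (norm_nonneg _).trans (hle μ hμ n hn)
  have key : ∀ v ∈ S, v ≤ (X + V * e) / C := by
    rintro v ⟨ν, hν, m, hm, rfl⟩
    obtain ⟨ρ, hρ, h1, _⟩ := exists_move hν hm ha hap haq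
    have h2 := h V hV0 ρ hρ (fun l hl => hle ρ hρ l hl)
    rw [h1] at h2
    rw [le_div_iff₀ hC]
    linarith
  have hVle : V ≤ (X + V * e) / C := csSup_le ⟨_, μ, hμ, n, hn, rfl⟩ key
  rw [le_div_iff₀ hC] at hVle
  refine (hle μ hμ n hn).trans ?_
  have h1 : V * e ≤ V * (C / 2) := mul_le_mul_of_nonneg_left he hV0
  rw [le_div_iff₀ hC]
  linarith

/-- **The main bound, two-sided.** -/
theorem main_bound (hM : S_MOD) (hp : p.Prime) (hq : q.Prime) (hpq : p ≠ q) {a : ℤ} (ha : a ≠ 0)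
    (hap : IsCoprime a (p : ℤ)) (haq : IsCoprime a (q : ℤ)) (hF : JF F Λ)
    (hγ : Summable fun n => ‖γ n‖) (hC : CC p q a (fun n => fourierCoeff F n + γ n) ≠ 0) {ε₁ : ℝ} (hε₁ : 0 < ε₁) :
    ∃ K : ℝ, 0 ≤ K ∧ ∀ δ : ℝ, 0 ≤ δ →
      (∀ ν : Measure TT, Inv p q ν → ‖∫ x, PF F γ x ∂ν - γ 0‖ ≤ δ) →
      ∀ μ : Measure TT, Inv p q μ → ∀ n : ℤ, n ≠ 0 →
        ‖hat μ n‖ ≤ K * δ + Λ * ε₁ := by
  set C := CC p q a (fun n => fourierCoeff F n + γ n) with hCdef
  have hC0 : 0 < ‖C‖ := norm_pos_iff.2 hC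
  have hΛ0 : 0 ≤ Λ := hF.nonneg
  set e : ℝ := min (‖C‖ / 2) (ε₁ * ‖C‖ / 2) with he
  have he0 : 0 < e := lt_min (by positivity) (by positivity)
  have he1 : e ≤ ‖C‖ / 2 := min_le_left _ _
  have he2 : e ≤ ε₁ * ‖C‖ / 2 := min_le_right _ _
  obtain ⟨N', _, hNp, hNq, hN'2, hcN, hb⟩ := core_bound hM hp hq hpq ha hF hγ he0
  haveI : NeZero (a.natAbs * N') := ⟨mul_ne_zero (by omega) (by omega)⟩
  refine ⟨2 * (2 * (HH p q N').card) / ‖C‖, by positivity, ?_⟩
  intro δ hδ hfδ μ hμ n hn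
  have h1 := bootstrap (p := p) (q := q) ha hap haq hC0 he1
    (X := 2 * δ * (HH p q N').card + Λ * e) (fun V hV μ hμ hμV => by
      refine (hb V hV μ hμ.toP hμV).trans (add_le_add ?_ le_rfl)
      refine (twisted hF ha hap haq hNp hNq hN'2 rfl hγ hδ hfδ hμ).trans (add_le_add le_rfl ?_)
      exact mul_le_mul_of_nonneg_left hcN hΛ0) μ hμ n hn
  refine h1.trans ?_
  have h2 : Λ * e ≤ Λ * (ε₁ * ‖C‖ / 2) := mul_le_mul_of_nonneg_left he2 hΛ0
  rw [div_le_iff₀ hC0]
  have h3 : (2 * (2 * ((HH p q N').card : ℝ)) / ‖C‖ * δ + Λ * ε₁) * ‖C‖ =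
      2 * (2 * ((HH p q N').card : ℝ)) * δ + Λ * ε₁ * ‖C‖ := by field_simp
  rw [h3]
  linarith

end

end Pool.Agent.Run7.h776.FT
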