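import Pool.Agent.Run7.h776.FT.Trig
import Pool.Agent.Run7.h776.FT.ArcF

/-! # Coboundaries -/

set_option autoImplicit false
set_option linter.style.haveILetI false

namespace Pool.Agent.Run7.h776.FT

open MeasureTheory Finset
open Pool.Agent.R203.ID (hat norm_f f_add f_zero f_smul f_nsmul f_neg integrable_f norm_hat_le
  ext_hat hat_map_nsmul hat_map_smul inv_iff conv hat_conv conv_atom)

/-- variation at most `V` over every period -/
structure RV (f : TT → ℝ) (V : ℝ) : Prop where
  nonneg : 0 ≤ V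
  le : ∀ (r : ℝ) (n : ℕ) (u : ℕ → ℝ), Monotone u → (∀ i, u i ∈ Set.Icc r (r + 1)) →
    ∑ i ∈ range n, |f (u (i + 1) : TT) - f (u i : TT)| ≤ V

section

variable {f g : TT → ℝ} {V W : ℝ}

lemma sum_edist (g : ℝ → ℝ) (n : ℕ) (u : ℕ → ℝ) :
    ∑ i ∈ range n, edist (g (u (i + 1))) (g (u i)) =
      ENNReal.ofReal (∑ i ∈ range n, |g (u (i + 1)) - g (u i)|) := by
  rw [ENNReal.ofReal_sum_of_nonneg fun _ _ => abs_nonneg _]
  refine sum_congr rfl fun i _ => ?_
  rw [edist_dist, Real.dist_eq]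

lemma RV.eV (h : RV f V) (r : ℝ) :
    eVariationOn (fun t : ℝ => f (t : TT)) (Set.Icc r (r + 1)) ≤ ENNReal.ofReal V := by
  apply iSup_le
  rintro ⟨n, u, hu, hus⟩
  simp only
  rw [sum_edist (fun t : ℝ => f (t : TT)) n u]
  exact ENNReal.ofReal_le_ofReal (h.le r n u hu hus)

lemma RV.of_eV (hV : 0 ≤ V) (h : ∀ r : ℝ, eVariationOn (fun t : ℝ => f (t : TT))
    (Set.Icc r (r + 1)) ≤ ENNReal.ofReal V) : RV f V := by
  refine ⟨hV, fun r n u hu hus => ?_⟩
  have h1 := (eVariationOn.sum_le (f := fun t : ℝ => f (t : TT)) (n := n) hu hus).trans (h r)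
  rw [sum_edist (fun t : ℝ => f (t : TT)) n u] at h1
  exact (ENNReal.ofReal_le_ofReal_iff hV).1 h1

lemma RV.eV_nat (h : RV f V) (a : ℝ) (n : ℕ) :
    eVariationOn (fun t : ℝ => f (t : TT)) (Set.univ ∩ Set.Icc a (a + n)) ≤
      n * ENNReal.ofReal V := by
  induction n with
  | zero =>
    have : eVariationOn (fun t : ℝ => f (t : TT)) (Set.univ ∩ Set.Icc a (a + (0 : ℕ))) = 0 := by
      apply eVariationOn.subsingleton
      simp
    rw [this]
    exact zero_le
  | succ n ih =>
    have h1 : a ≤ a + n := by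
      have : (0 : ℝ) ≤ n := Nat.cast_nonneg n
      linarith
    have h2 : a + n ≤ a + ((n + 1 : ℕ) : ℝ) := by push_cast; linarith
    rw [← eVariationOn.Icc_add_Icc _ h1 h2 (Set.mem_univ _)]
    have h3 : (Set.univ ∩ Set.Icc (a + n) (a + ((n + 1 : ℕ) : ℝ))) =
        Set.Icc (a + n) ((a + n) + 1) := by
      rw [Set.univ_inter]
      congr 1
      push_cast
      ring
    rw [h3]
    push_cast
    rw [add_mul, one_mul]
    exact add_le_add ih (h.eV _)

lemma RV.toBV (h : RV f V) : BV f := by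
  intro a b _ _
  obtain ⟨n, hn⟩ := exists_nat_ge (b - a)
  have h1 : eVariationOn (fun t : ℝ => f (t : TT)) (Set.univ ∩ Set.Icc a b) ≤
      n * ENNReal.ofReal V := by
    refine le_trans (eVariationOn.mono _ ?_) (h.eV_nat a n)
    rintro t ⟨_, ht1, ht2⟩
    exact ⟨Set.mem_univ _, ht1, by linarith⟩
  exact ne_top_of_le_ne_top (ENNReal.mul_ne_top (ENNReal.natCast_ne_top n) ENNReal.ofReal_ne_top) h1

lemma shift_int (f : TT → ℝ) (t : ℝ) (k : ℤ) : f ((t - k : ℝ) : TT) = f (t : TT) := by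
  congr 1
  rw [AddCircle.coe_sub]
  have : ((k : ℝ) : TT) = 0 := by
    rw [AddCircle.coe_eq_zero_iff]
    exact ⟨k, by simp⟩
  rw [this, sub_zero]

lemma BV.rv (hf : BV f) : ∃ V : ℝ, RV f V := by
  have hfin : eVariationOn (fun t : ℝ => f (t : TT)) (Set.univ ∩ Set.Icc 0 2) ≠ ⊤ :=
    hf 0 2 trivial trivial
  refine ⟨(eVariationOn (fun t : ℝ => f (t : TT)) (Set.univ ∩ Set.Icc 0 2)).toReal,
    ENNReal.toReal_nonneg, fun r n u hu hus => ?_⟩
  have h1 := eVariationOn.sum_le (f := fun t : ℝ => f (t : TT)) (n := n)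
    (s := Set.univ ∩ Set.Icc 0 2) (u := fun i => u i - ⌊r⌋)
    (fun i j hij => by
      simp only
      linarith [hu hij]) (fun i => by
      have h2 := hus i
      have h3 := Int.floor_le r
      have h4 := Int.lt_floor_add_one r
      refine ⟨Set.mem_univ _, ?_, ?_⟩
      · linarith [h2.1]
      · linarith [h2.2])
  rw [sum_edist (fun t : ℝ => f (t : TT)) n (fun i => u i - ⌊r⌋)] at h1
  simp only [shift_int] at h1
  rwa [ENNReal.ofReal_le_iff_le_toReal hfin] at h1

lemma RV.add (hf : RV f V) (hg : RV g W) : RV (fun x => f x + g x) (V + W) := by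
  refine ⟨add_nonneg hf.nonneg hg.nonneg, fun r n u hu hus => ?_⟩
  refine le_trans (sum_le_sum fun i _ => ?_) ((sum_add_distrib).le.trans
    (add_le_add (hf.le r n u hu hus) (hg.le r n u hu hus)))
  have : f (u (i + 1) : TT) + g (u (i + 1) : TT) - (f (u i : TT) + g (u i : TT)) =
      (f (u (i + 1) : TT) - f (u i : TT)) + (g (u (i + 1) : TT) - g (u i : TT)) := by ring
  rw [this]
  exact abs_add_le _ _

lemma RV.neg (hf : RV f V) : RV (fun x => -f x) V := by
  refine ⟨hf.nonneg, fun r n u hu hus => ?_⟩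
  refine le_trans (sum_le_sum fun i _ => ?_) (hf.le r n u hu hus)
  rw [← abs_neg]
  apply le_of_eq
  congr 1
  ring

lemma RV.const (c : ℝ) : RV (fun _ => c) 0 := ⟨le_rfl, fun r n u _ _ => by simp⟩

lemma RV.diff (hf : RV f V) (x y : TT) : |f x - f y| ≤ V := by
  wlog h : rep x ≤ rep y generalizing x y
  · rw [abs_sub_comm]
    exact this y x (le_of_not_ge h)
  have hx := rep_mem x
  have hy := rep_mem y
  have h1 := hf.le 0 1 (fun i => if i = 0 then rep x else rep y)
    (by
      intro i j hij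
      show (if i = 0 then rep x else rep y) ≤ (if j = 0 then rep x else rep y)
      split_ifs with h1 h2
      · exact le_rfl
      · exact h
      · omega
      · exact le_rfl)
    (fun i => by
      show (if i = 0 then rep x else rep y) ∈ Set.Icc (0 : ℝ) (0 + 1)
      split_ifs
      · exact ⟨hx.1, by linarith [hx.2]⟩
      · exact ⟨hy.1, by linarith [hy.2]⟩)
  simp only [range_one, sum_singleton, zero_add, one_ne_zero, if_false, if_true, rep_coe] at h1
  rw [abs_sub_comm]
  exact h1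

lemma RV.sup (hf : RV f V) (h0 : ∫ x, f x = 0) (x : TT) : |f x| ≤ V := by
  have hint := hf.toBV.tf.integrable volume
  have h1 : f x = ∫ y, (f x - f y) := by
    rw [integral_sub (integrable_const _) hint, h0]
    simp
  rw [h1]
  have h3 := norm_integral_le_of_norm_le_const (μ := (volume : Measure TT))
    (f := fun y => f x - f y) (C := V) (Filter.Eventually.of_forall fun y => by
      rw [Real.norm_eq_abs]; exact hf.diff x y)
  simpa using h3

lemma RV.tsum {f : ℕ → TT → ℝ} {V : ℕ → ℝ} (hf : ∀ l, RV (f l) (V l)) (hV : Summable V)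
    (hs : ∀ x, Summable fun l => f l x) : RV (fun x => ∑' l, f l x) (∑' l, V l) := by
  refine ⟨tsum_nonneg fun l => (hf l).nonneg, fun r n u hu hus => ?_⟩
  have hd : ∀ x y : TT, Summable fun l => |f l x - f l y| := fun x y =>
    Summable.of_nonneg_of_le (fun l => abs_nonneg _) (fun l => (hf l).diff x y) hV
  have h1 : ∀ i ∈ range n, |∑' l, f l (u (i + 1) : TT) - ∑' l, f l (u i : TT)| ≤
      ∑' l, |f l (u (i + 1) : TT) - f l (u i : TT)| := by
    intro i _
    rw [← (hs _).tsum_sub (hs _)]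
    have := norm_tsum_le_tsum_norm (f := fun l => f l (u (i + 1) : TT) - f l (u i : TT))
      (by simpa only [Real.norm_eq_abs] using hd _ _)
    simpa only [Real.norm_eq_abs] using this
  refine (sum_le_sum h1).trans ?_
  rw [← Summable.tsum_finsetSum fun i _ => hd _ _]
  refine Summable.tsum_le_tsum (fun l => (hf l).le r n u hu hus) ?_ hV
  exact summable_sum fun i _ => hd _ _

/-! ### the transfer operator -/

/-- the transfer operator of `x ↦ q x` -/
noncomputable def PP (q : ℕ) [NeZero q] (f : TT → ℝ) (x : TT) : ℝ :=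
  (1 / q : ℝ) * ∑ b : ZMod q, f (pt b + sec q x)

lemma sec_smul (q : ℕ) [NeZero q] (z : TT) : ∃ c : ZMod q, sec q (q • z) = pt c + z := by
  have hq : (q : ℝ) ≠ 0 := by exact_mod_cast NeZero.ne q
  refine ⟨((-⌊(q : ℝ) * rep z⌋ : ℤ) : ZMod q), ?_⟩
  have h1 : q • z = (((q : ℝ) * rep z : ℝ) : TT) := by
    conv_lhs => rw [← rep_coe z]
    rw [← AddCircle.coe_nsmul, nsmul_eq_mul]
  unfold sec pt
  rw [h1, rep_real, ZMod.toAddCircle_intCast]
  have h2 : ((Int.fract ((q : ℝ) * rep z) / q : ℝ) : TT) =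
      (((((-⌊(q : ℝ) * rep z⌋ : ℤ) : ℝ) / q : ℝ)) : TT) + ((rep z : ℝ) : TT) := by
    rw [← AddCircle.coe_add]
    congr 1
    unfold Int.fract
    push_cast
    field_simp
    ring
  rw [h2, rep_coe]

lemma PP_smul (q : ℕ) [NeZero q] (f : TT → ℝ) (z : TT) :
    PP q f (q • z) = (1 / q : ℝ) * ∑ b : ZMod q, f (pt b + z) := by
  obtain ⟨c, hc⟩ := sec_smul q z
  unfold PP
  rw [hc]
  congr 1
  refine Fintype.sum_bijective (fun b : ZMod q => b + c) (Equiv.addRight c).bijective _ _
    (fun b => ?_)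
  rw [pt_add, add_assoc]

lemma PP_coe (q : ℕ) [NeZero q] (f : TT → ℝ) (t : ℝ) :
    PP q f (t : TT) = (1 / q : ℝ) * ∑ b ∈ range q, f (((t + b) / q : ℝ) : TT) := by
  have hq : (q : ℝ) ≠ 0 := by exact_mod_cast NeZero.ne q
  have h1 : (t : TT) = q • ((t / q : ℝ) : TT) := by
    rw [← AddCircle.coe_nsmul, nsmul_eq_mul, mul_div_cancel₀ _ hq]
  rw [h1, PP_smul]
  congr 1
  rw [← sum_zmod (fun b => f (((t + b) / q : ℝ) : TT))]
  refine sum_congr rfl fun b _ => ?_
  rw [pt_val, ← AddCircle.coe_add]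
  congr 2
  ring

lemma cells (f : TT → ℝ) {q : ℕ} [NeZero q] (r : ℝ) :
    ∀ m : ℕ, m ≤ q → ∑ b ∈ range m, eVariationOn (fun t : ℝ => f (t : TT))
      (Set.univ ∩ Set.Icc ((r + b) / q) ((r + b + 1) / q)) ≤
      eVariationOn (fun t : ℝ => f (t : TT)) (Set.univ ∩ Set.Icc (r / q) ((r + m) / q)) := by
  have hq : (0 : ℝ) < q := by exact_mod_cast Nat.pos_of_ne_zero (NeZero.ne q)
  intro m
  induction m with
  | zero => intro _; simp
  | succ m ih =>
    intro hm
    rw [sum_range_succ]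
    have h1 : r / q ≤ (r + m) / q := by
      apply div_le_div_of_nonneg_right _ hq.le
      have : (0 : ℝ) ≤ m := Nat.cast_nonneg m
      linarith
    have h2 : (r + m) / q ≤ (r + ((m + 1 : ℕ) : ℝ)) / q := by
      apply div_le_div_of_nonneg_right _ hq.le
      push_cast
      linarith
    rw [← eVariationOn.Icc_add_Icc _ h1 h2 (Set.mem_univ _)]
    refine add_le_add (ih (by omega)) (le_of_eq ?_)
    congr 3
    push_cast
    ring

lemma RV.PP (hf : RV f V) (q : ℕ) [NeZero q] : RV (PP q f) (V / q) := by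
  have hq : (0 : ℝ) < q := by exact_mod_cast Nat.pos_of_ne_zero (NeZero.ne q)
  refine ⟨div_nonneg hf.nonneg hq.le, fun r n u hu hus => ?_⟩
  have h1 : ∀ i ∈ range n, |FT.PP q f (u (i + 1) : TT) - FT.PP q f (u i : TT)| ≤
      (1 / q : ℝ) * ∑ b ∈ range q, |f (((u (i + 1) + b) / q : ℝ) : TT) -
        f (((u i + b) / q : ℝ) : TT)| := by
    intro i _
    rw [PP_coe, PP_coe, ← mul_sub, ← sum_sub_distrib, abs_mul, abs_of_nonneg (by positivity)]
    exact mul_le_mul_of_nonneg_left (abs_sum_le_sum_abs _ _) (by positivity)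
  refine (sum_le_sum h1).trans ?_
  rw [← mul_sum, sum_comm]
  have h2 : ∑ b ∈ range q, ∑ i ∈ range n, |f (((u (i + 1) + b) / q : ℝ) : TT) -
      f (((u i + b) / q : ℝ) : TT)| ≤ V := by
    have h3 : ENNReal.ofReal (∑ b ∈ range q, ∑ i ∈ range n,
        |f (((u (i + 1) + b) / q : ℝ) : TT) - f (((u i + b) / q : ℝ) : TT)|) ≤
        ENNReal.ofReal V := by
      rw [ENNReal.ofReal_sum_of_nonneg fun _ _ => sum_nonneg fun _ _ => abs_nonneg _]
      have h4 : ∀ b ∈ range q, ENNReal.ofReal (∑ i ∈ range n,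
          |f (((u (i + 1) + b) / q : ℝ) : TT) - f (((u i + b) / q : ℝ) : TT)|) ≤
          eVariationOn (fun t : ℝ => f (t : TT))
            (Set.univ ∩ Set.Icc ((r + b) / q) ((r + b + 1) / q)) := by
        intro b _
        have h5 := eVariationOn.sum_le (f := fun t : ℝ => f (t : TT)) (n := n)
          (s := Set.univ ∩ Set.Icc ((r + b) / q) ((r + b + 1) / q))
          (u := fun i => (u i + b) / q)
          (fun i j hij => by
            simp only
            apply div_le_div_of_nonneg_right _ hq.le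
            linarith [hu hij]) (fun i => by
            have h6 := hus i
            refine ⟨Set.mem_univ _, ?_, ?_⟩
            · apply div_le_div_of_nonneg_right _ hq.le
              linarith [h6.1]
            · apply div_le_div_of_nonneg_right _ hq.le
              linarith [h6.2])
        rw [sum_edist (fun t : ℝ => f (t : TT)) n (fun i => (u i + b) / q)] at h5
        exact h5
      refine (sum_le_sum h4).trans ((cells f r q le_rfl).trans ?_)
      have h7 : (Set.univ ∩ Set.Icc (r / (q : ℝ)) ((r + q) / q)) =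
          Set.Icc (r / (q : ℝ)) (r / q + 1) := by
        rw [Set.univ_inter, add_div, div_self hq.ne']
      rw [h7]
      exact hf.eV _
    exact (ENNReal.ofReal_le_ofReal_iff hf.nonneg).1 h3
  calc (1 / q : ℝ) * _ ≤ (1 / q : ℝ) * V := mul_le_mul_of_nonneg_left h2 (by positivity)
    _ = V / q := by ring

lemma RV.comp (hf : RV f V) (q : ℕ) : RV (fun x => f (q • x)) (q * V) := by
  refine ⟨mul_nonneg (Nat.cast_nonneg q) hf.nonneg, fun r n u hu hus => ?_⟩
  have h5 := eVariationOn.sum_le (f := fun t : ℝ => f (t : TT)) (n := n)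
    (s := Set.univ ∩ Set.Icc ((q : ℝ) * r) ((q : ℝ) * r + q))
    (u := fun i => (q : ℝ) * u i)
    (fun i j hij => by
      simp only
      exact mul_le_mul_of_nonneg_left (hu hij) (Nat.cast_nonneg q)) (fun i => by
      have h6 := hus i
      refine ⟨Set.mem_univ _, ?_, ?_⟩
      · exact mul_le_mul_of_nonneg_left h6.1 (Nat.cast_nonneg q)
      · have := mul_le_mul_of_nonneg_left h6.2 (Nat.cast_nonneg (α := ℝ) q)
        linarith)
  rw [sum_edist (fun t : ℝ => f (t : TT)) n (fun i => (q : ℝ) * u i)] at h5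
  have h6 := h5.trans (hf.eV_nat ((q : ℝ) * r) q)
  have h7 : (q : ENNReal) * ENNReal.ofReal V = ENNReal.ofReal (q * V) := by
    rw [ENNReal.ofReal_mul (Nat.cast_nonneg q), ENNReal.ofReal_natCast]
  rw [h7] at h6
  have h8 := (ENNReal.ofReal_le_ofReal_iff (mul_nonneg (Nat.cast_nonneg q) hf.nonneg)).1 h6
  refine le_trans (le_of_eq (sum_congr rfl fun i _ => ?_)) h8
  rw [← AddCircle.coe_nsmul, ← AddCircle.coe_nsmul, nsmul_eq_mul, nsmul_eq_mul]

end

end Pool.Agent.Run7.h776.FT
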