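import Pool.Agent.Run7.h776.FT.Cob

/-! # Functions of bounded variation with vanishing orbit sums are sums of coboundaries -/

set_option autoImplicit false
set_option linter.style.haveILetI false

namespace Pool.Agent.Run7.h776.FT

open MeasureTheory Finset
open Pool.Agent.R203.ID (hat norm_f f_add f_zero f_smul f_nsmul f_neg integrable_f norm_hat_le
  ext_hat hat_map_nsmul hat_map_smul inv_iff conv hat_conv conv_atom)

/-- Fourier coefficients of a real function -/
noncomputable def cf (f : TT → ℝ) (n : ℤ) : ℂ := fourierCoeff (fun x => (f x : ℂ)) n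

section

variable {f g : TT → ℝ} {V W : ℝ}

lemma cf_eq (f : TT → ℝ) (n : ℤ) : cf f n = ∫ x, (fourier (-n) x : ℂ) * (f x : ℂ) := by
  unfold cf fourierCoeff
  rw [haar_eq]
  rfl

lemma RV.meas (hf : RV f V) : Measurable f := hf.toBV.measurable

lemma RV.intf (hf : RV f V) (n : ℤ) :
    Integrable (fun x => (fourier (-n) x : ℂ) * (f x : ℂ)) (volume : Measure TT) := by
  obtain ⟨M, hM⟩ := hf.toBV.bounded
  exact Integrable.of_bound (((fourier (-n)).continuous.measurable.mul
    (Complex.measurable_ofReal.comp hf.meas)).aestronglyMeasurable) M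
    (Filter.Eventually.of_forall fun x => by
      rw [norm_mul, norm_f, one_mul, Complex.norm_real, Real.norm_eq_abs]; exact hM x)

lemma cf_add (hf : RV f V) (hg : RV g W) (n : ℤ) : cf (fun x => f x + g x) n = cf f n + cf g n := by
  rw [cf_eq, cf_eq, cf_eq, ← integral_add (hf.intf n) (hg.intf n)]
  congr 1
  funext x
  push_cast
  ring

lemma cf_neg (f : TT → ℝ) (n : ℤ) : cf (fun x => -f x) n = -cf f n := by
  rw [cf_eq, cf_eq, ← integral_neg]
  congr 1
  funext x
  push_cast
  ring

lemma cf_zero (f : TT → ℝ) : cf f 0 = ((∫ x, f x : ℝ) : ℂ) := by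
  rw [cf_eq]
  simp only [neg_zero, fourier_zero, one_mul]
  exact integral_ofReal

lemma norm_cf_le {M : ℝ} (hM : ∀ x, |f x| ≤ M) (n : ℤ) : ‖cf f n‖ ≤ M := by
  rw [cf_eq]
  have h3 := norm_integral_le_of_norm_le_const (μ := (volume : Measure TT))
    (f := fun x => (fourier (-n) x : ℂ) * (f x : ℂ)) (C := M)
    (Filter.Eventually.of_forall fun x => by
      rw [norm_mul, norm_f, one_mul, Complex.norm_real, Real.norm_eq_abs]; exact hM x)
  simpa using h3

/-- invariance of Lebesgue measure under multiplication -/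
lemma int_smul {q : ℕ} (hq : q ≠ 0) {G : TT → ℂ} (hG : Measurable G) :
    ∫ x : TT, G (q • x) = ∫ x, G x := by
  have h := (vol_Inv (p := q) (q := q) hq hq).mp
  rw [← integral_map h.measurable.aemeasurable (f := G) hG.aestronglyMeasurable, h.map_eq]

lemma cf_PP (q : ℕ) [NeZero q] (hf : RV f V) (n : ℤ) : cf (PP q f) n = cf f (n * q) := by
  have hq : (q : ℂ) ≠ 0 := by exact_mod_cast NeZero.ne q
  have hm : Measurable fun x : TT => (fourier (-n) x : ℂ) * ((PP q f x : ℝ) : ℂ) :=
    (fourier (-n)).continuous.measurable.mul (Complex.measurable_ofReal.comp (hf.PP q).meas)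
  rw [cf_eq, ← int_smul (NeZero.ne q) hm]
  have h1 : ∀ x : TT, (fourier (-n) (q • x) : ℂ) * ((PP q f (q • x) : ℝ) : ℂ) = (1 / q : ℂ) *
      ∑ b : ZMod q, (fourier (-(n * q)) x : ℂ) * (f (pt b + x) : ℂ) := by
    intro x
    rw [PP_smul, f_nsmul]
    push_cast
    have e : (fourier (-n * (q : ℤ)) x : ℂ) = fourier (-(n * q)) x := by
      congr 1
      ring_nf
    rw [e, mul_left_comm, mul_sum]
  simp_rw [h1]
  have h2 : ∀ b : ZMod q, ∫ x : TT, (fourier (-(n * q)) x : ℂ) * (f (pt b + x) : ℂ) =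
      cf f (n * q) := by
    intro b
    rw [cf_eq]
    have h3 := integral_add_left_eq_self (μ := (volume : Measure TT))
      (fun t => (fourier (-(n * q)) t : ℂ) * (f t : ℂ)) (pt b)
    rw [← h3]
    congr 1
    funext x
    rw [f_add]
    have h4 : (fourier (-(n * q)) (pt b) : ℂ) = 1 := by
      rw [fourier_pt]
      have : ((-(n * (q : ℤ)) : ℤ) : ZMod q) * b = 0 := by
        push_cast
        simp
      rw [this, AddChar.map_zero_eq_one]
    rw [h4, one_mul]
  have hint : ∀ b : ZMod q, Integrable (fun x : TT => (fourier (-(n * q)) x : ℂ) *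
      (f (pt b + x) : ℂ)) (volume : Measure TT) := by
    intro b
    obtain ⟨M, hM⟩ := hf.toBV.bounded
    exact Integrable.of_bound (((fourier (-(n * q))).continuous.measurable.mul
      (Complex.measurable_ofReal.comp (hf.meas.comp (by fun_prop)))).aestronglyMeasurable) M
      (Filter.Eventually.of_forall fun x => by
        rw [norm_mul, norm_f, one_mul, Complex.norm_real, Real.norm_eq_abs]; exact hM _)
  rw [integral_const_mul, integral_finsetSum _ fun b _ => hint b]
  simp_rw [h2]
  rw [sum_const, card_univ, ZMod.card, nsmul_eq_mul]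
  field_simp

lemma cf_comp (q : ℕ) [NeZero q] (hf : RV f V) (n : ℤ) :
    cf (fun x => f (q • x)) n = if (q : ℤ) ∣ n then cf f (n / q) else 0 := by
  have hqz : (q : ℤ) ≠ 0 := by exact_mod_cast NeZero.ne q
  split_ifs with h
  · obtain ⟨m, rfl⟩ := h
    rw [Int.mul_ediv_cancel_left _ hqz, cf_eq, cf_eq]
    have hm : Measurable fun x : TT => (fourier (-m) x : ℂ) * ((f x : ℝ) : ℂ) :=
      (fourier (-m)).continuous.measurable.mul (Complex.measurable_ofReal.comp hf.meas)
    rw [← int_smul (NeZero.ne q) hm]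
    congr 1
    funext x
    rw [f_nsmul]
    congr 2
    congr 1
    ring
  · rw [cf_eq]
    set J := ∫ x : TT, (fourier (-n) x : ℂ) * ((f (q • x) : ℝ) : ℂ) with hJ
    have h1 : J = fourier (-n) (pt (1 : ZMod q)) * J := by
      have h3 := integral_add_left_eq_self (μ := (volume : Measure TT))
        (fun t => (fourier (-n) t : ℂ) * ((f (q • t) : ℝ) : ℂ)) (pt (1 : ZMod q))
      rw [hJ]
      conv_lhs => rw [← h3]
      rw [← integral_const_mul]
      congr 1
      funext x
      rw [f_add, smul_add, pt_nsmul]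
      have : pt ((q : ZMod q) * 1) = 0 := by
        unfold pt
        simp
      rw [this, zero_add]
      ring
    have h2 : (fourier (-n) (pt (1 : ZMod q)) : ℂ) ≠ 1 := by
      rw [fourier_pt]
      intro h4
      rw [← AddChar.map_zero_eq_one (ZMod.stdAddChar (N := q))] at h4
      have h5 := ZMod.injective_stdAddChar h4
      rw [mul_one] at h5
      have h6 := (ZMod.intCast_zmod_eq_zero_iff_dvd (-n) q).1 h5
      exact h ((dvd_neg).1 h6)
    have h3 : (1 - (fourier (-n) (pt (1 : ZMod q)) : ℂ)) * J = 0 := by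
      rw [sub_mul, one_mul, ← h1, sub_self]
    rcases mul_eq_zero.1 h3 with h4 | h4
    · exact absurd (sub_eq_zero.1 h4).symm h2
    · exact h4

lemma cf_tsum {f : ℕ → TT → ℝ} {V : ℕ → ℝ} (hf : ∀ l, RV (f l) (V l)) (hV : Summable V)
    (hb : ∀ l x, |f l x| ≤ V l) (n : ℤ) : cf (fun x => ∑' l, f l x) n = ∑' l, cf (f l) n := by
  rw [cf_eq]
  have h1 : ∀ x : TT, (fourier (-n) x : ℂ) * ((∑' l, f l x : ℝ) : ℂ) =
      ∑' l, (fourier (-n) x : ℂ) * ((f l x : ℝ) : ℂ) := by
    intro x
    rw [tsum_mul_left, Complex.ofReal_tsum]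
  simp_rw [h1]
  rw [← integral_tsum_of_summable_integral_norm]
  · congr 1
    funext l
    rw [cf_eq]
  · intro l
    exact (hf l).intf n
  · refine Summable.of_nonneg_of_le (fun l => integral_nonneg fun x => norm_nonneg _)
      (fun l => ?_) hV
    have h3 := norm_integral_le_of_norm_le_const (μ := (volume : Measure TT))
      (f := fun x => ‖(fourier (-n) x : ℂ) * ((f l x : ℝ) : ℂ)‖) (C := V l)
      (Filter.Eventually.of_forall fun x => by
        rw [norm_norm, norm_mul, norm_f, one_mul, Complex.norm_real, Real.norm_eq_abs]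
        exact hb l x)
    refine (le_abs_self _).trans ?_
    simpa using h3

/-- iterates of the transfer operator -/
noncomputable def it (q : ℕ) [NeZero q] (f : TT → ℝ) : ℕ → TT → ℝ
  | 0 => f
  | l + 1 => PP q (it q f l)

lemma it_RV (q : ℕ) [NeZero q] (hf : RV f V) (l : ℕ) : RV (it q f l) (V / (q : ℝ) ^ l) := by
  induction l with
  | zero => simpa [it] using hf
  | succ l ih =>
    have := ih.PP q
    rw [div_div, ← pow_succ] at this
    exact this

lemma it_cf (q : ℕ) [NeZero q] (hf : RV f V) (l : ℕ) (n : ℤ) :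
    cf (it q f l) n = cf f (n * (q : ℤ) ^ l) := by
  induction l generalizing n with
  | zero => simp [it]
  | succ l ih =>
    show cf (PP q (it q f l)) n = _
    rw [cf_PP q (it_RV q hf l), ih, pow_succ]
    congr 1
    ring

/-- **One step.** -/
theorem step (q : ℕ) (hq : 2 ≤ q) (hf : RV f V) (h0 : ∫ x, f x = 0) :
    ∃ (K : TT → ℝ) (V₁ V₂ : ℝ), RV K V₁ ∧ RV (fun x => f x + (-K x + K (q • x))) V₂ ∧
      ∀ n : ℤ, cf (fun x => f x + (-K x + K (q • x))) n =
        if (q : ℤ) ∣ n then 0 else ∑' l : ℕ, cf f (n * (q : ℤ) ^ l) := by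
  haveI : NeZero q := ⟨by omega⟩
  have hq0 : (q : ℤ) ≠ 0 := by omega
  have hqr : (0 : ℝ) < q := by exact_mod_cast (by omega : 0 < q)
  have hgeo : Summable fun l : ℕ => V / (q : ℝ) ^ l := by
    have h1 : Summable fun l : ℕ => (1 / (q : ℝ)) ^ l := by
      apply summable_geometric_of_lt_one (by positivity)
      have : (2 : ℝ) ≤ q := by exact_mod_cast hq
      rw [div_lt_one hqr]
      linarith
    refine (h1.mul_left V).congr fun l => ?_
    rw [div_pow, one_pow, mul_one_div]
  have hmean : ∀ l, ∫ x, it q f l x = 0 := by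
    intro l
    have h1 := it_cf q hf l 0
    rw [zero_mul, cf_zero, cf_zero, h0] at h1
    exact_mod_cast h1
  have hsup : ∀ l x, |it q f l x| ≤ V / (q : ℝ) ^ l := fun l x => (it_RV q hf l).sup (hmean l) x
  have hgeo1 : Summable fun l : ℕ => V / (q : ℝ) ^ (l + 1) := (summable_nat_add_iff 1).2 hgeo
  have hsx : ∀ x, Summable fun l => it q f (l + 1) x := fun x =>
    Summable.of_norm_bounded hgeo1 fun l => by rw [Real.norm_eq_abs]; exact hsup _ _
  have hKs : RV (fun x => ∑' l, it q f (l + 1) x) (∑' l, V / (q : ℝ) ^ (l + 1)) :=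
    RV.tsum (fun l => it_RV q hf (l + 1)) hgeo1 hsx
  have hcs : ∀ n : ℤ, Summable fun l : ℕ => cf f (n * (q : ℤ) ^ l) := fun n =>
    Summable.of_norm_bounded hgeo fun l => by
      rw [← it_cf q hf l n]
      exact norm_cf_le (hsup l) n
  set K : TT → ℝ := fun x => -∑' l, it q f (l + 1) x with hK
  have hKR : RV K _ := hKs.neg
  have hcK : ∀ n : ℤ, cf K n = -∑' l : ℕ, cf f (n * (q : ℤ) ^ (l + 1)) := by
    intro n
    rw [hK, cf_neg, cf_tsum (fun l => it_RV q hf (l + 1)) hgeo1 (fun l x => hsup _ _)]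
    congr 2
    funext l
    exact it_cf q hf (l + 1) n
  refine ⟨K, _, _, hKR, hf.add (hKR.neg.add (hKR.comp q)), fun n => ?_⟩
  rw [cf_add hf (hKR.neg.add (hKR.comp q)), cf_add hKR.neg (hKR.comp q), cf_neg, cf_comp q hKR,
    hcK, neg_neg]
  have hsplit : ∑' l : ℕ, cf f (n * (q : ℤ) ^ l) =
      cf f n + ∑' l : ℕ, cf f (n * (q : ℤ) ^ (l + 1)) := by
    rw [(hcs n).tsum_eq_zero_add, pow_zero, mul_one]
  split_ifs with h
  · rw [hcK]
    obtain ⟨m, rfl⟩ := h
    rw [Int.mul_ediv_cancel_left _ hq0]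
    have h1 : ∀ l : ℕ, cf f (m * (q : ℤ) ^ (l + 1)) = cf f ((q : ℤ) * m * (q : ℤ) ^ l) := by
      intro l
      congr 1
      ring
    simp_rw [h1]
    rw [hsplit]
    ring
  · rw [add_zero, hsplit]

/-- bounded variation and vanishing coefficients -/
theorem vanish (hf : RV f V) (h : ∀ n, cf f n = 0) : ∃ D : Set TT, D.Countable ∧ ∀ x ∉ D, f x = 0 := by
  -- almost everywhere
  obtain ⟨M, hM⟩ := hf.toBV.bounded
  have hmem : MemLp (fun x => (f x : ℂ)) 2 (AddCircle.haarAddCircle : Measure TT) :=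
    MemLp.of_bound (Complex.measurable_ofReal.comp hf.meas).aestronglyMeasurable M
      (Filter.Eventually.of_forall fun x => by
        rw [Complex.norm_real, Real.norm_eq_abs]; exact hM x)
  have hae : (fun x => (f x : ℂ)) =ᵐ[AddCircle.haarAddCircle] 0 := by
    have h1 : hmem.toLp _ = 0 := by
      apply (fourierBasis (T := 1)).repr.injective
      rw [map_zero]
      ext n
      rw [fourierBasis_repr]
      have h2 := congrFun (fourierCoeff_congr_ae hmem.coeFn_toLp) n
      rw [h2]
      exact h n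
    have h3 := hmem.coeFn_toLp
    rw [h1] at h3
    exact h3.symm.trans (Lp.coeFn_zero _ _ _)
  have hae' : ∀ᵐ x ∂(volume : Measure TT), f x = 0 := by
    rw [← haar_eq]
    filter_upwards [hae] with x hx
    simpa using hx
  -- continuity off a countable set
  obtain ⟨u, v, hu, hv, huv⟩ := hf.toBV.exists_monotoneOn_sub_monotoneOn
  have hu' := monotoneOn_univ.1 hu
  have hv' := monotoneOn_univ.1 hv
  set D : Set ℝ := {t | ¬ ContinuousAt u t} ∪ {t | ¬ ContinuousAt v t} with hD
  have hDc : D.Countable := hu'.countable_not_continuousAt.union hv'.countable_not_continuousAt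
  refine ⟨(fun t : ℝ => (t : TT)) '' D, hDc.image _, fun x hx => ?_⟩
  have hx' : rep x ∉ D := by
    intro h1
    exact hx ⟨rep x, h1, rep_coe x⟩
  rw [hD, Set.mem_union, not_or] at hx'
  simp only [Set.mem_ofPred_eq, not_not] at hx'
  set t := rep x with ht
  have hcont : ContinuousAt (fun s : ℝ => f (s : TT)) t := by
    rw [huv]
    exact hx'.1.sub hx'.2
  by_contra hne
  have hft : (fun s : ℝ => f (s : TT)) t ≠ 0 := by
    simp only
    rw [ht, rep_coe]
    exact hne
  have hev : ∀ᶠ s : ℝ in nhds t, f (s : TT) ≠ 0 := hcont.eventually_ne hft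
  obtain ⟨ε, hε, hball⟩ := Metric.eventually_nhds_iff.1 hev
  set e := min ε (1 / 2) with he
  have he0 : 0 < e := lt_min hε (by norm_num)
  have hmp := AddCircle.measurePreserving_mk (1 : ℝ) (t - 1 / 2)
  have hnull : ∀ᵐ s : ℝ ∂(volume.restrict (Set.Ioc (t - 1 / 2) (t - 1 / 2 + 1)) : Measure ℝ),
      f (s : TT) = 0 := hmp.quasiMeasurePreserving.ae hae'
  rw [ae_restrict_iff' measurableSet_Ioc] at hnull
  have hpos : (volume : Measure ℝ) (Set.Ioo (t - e) (t + e)) ≠ 0 := by
    rw [Real.volume_Ioo]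
    simp only [ne_eq, ENNReal.ofReal_eq_zero, not_le]
    linarith
  apply hpos
  refine measure_mono_null (fun s hs => ?_) hnull
  simp only [Set.mem_compl_iff, Set.mem_ofPred_eq, Classical.not_imp]
  obtain ⟨hs1, hs2⟩ := hs
  have he2 : e ≤ 1 / 2 := min_le_right _ _
  refine ⟨⟨by linarith, by linarith⟩, ?_⟩
  apply hball
  rw [Real.dist_eq, abs_lt]
  have he1 : e ≤ ε := min_le_left _ _
  constructor <;> linarith

end

end Pool.Agent.Run7.h776.FT
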