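import Pool.Agent.Run7.h776.FT.Cob2

/-! # The theorem on functions of bounded variation -/

set_option autoImplicit false
set_option linter.style.haveILetI false

namespace Pool.Agent.Run7.h776.FT

open MeasureTheory Finset
open Pool.Agent.R203.ID (hat norm_f f_add f_zero f_smul f_nsmul f_neg integrable_f norm_hat_le
  ext_hat hat_map_nsmul hat_map_smul inv_iff conv hat_conv conv_atom)

/-- `f` is, off a countable set, a constant plus two coboundaries of functions of bounded
variation -/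
def Cob (p q : ℕ) (f : TT → ℝ) : Prop :=
  ∃ (c : ℝ) (g k : TT → ℝ) (D : Set TT), BV g ∧ BV k ∧ D.Countable ∧
    ∀ x ∉ D, f x = c + (g x - g (p • x)) + (k x - k (q • x))

section

variable {p q : ℕ} {f : TT → ℝ} {V : ℝ}

lemma cf_const {c : ℝ} {n : ℤ} (hn : n ≠ 0) : cf (fun _ => c) n = 0 := by
  rw [cf_eq, integral_mul_const]
  have := hat_vol (-n)
  unfold hat at this
  rw [this, if_neg (neg_ne_zero.2 hn), zero_mul]

lemma integral_comp_smul {μ : Measure TT} {q : ℕ} (h : MeasurePreserving (fun x : TT => q • x) μ μ)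
    {g : TT → ℝ} (hg : Measurable g) : ∫ x, g (q • x) ∂μ = ∫ x, g x ∂μ := by
  rw [← integral_map h.measurable.aemeasurable (f := g) hg.aestronglyMeasurable, h.map_eq]

/-- coboundaries have constant integral -/
theorem Cob.integral (h : Cob p q f) {μ : Measure TT} (hμ : Inv p q μ) (hp : p ≠ 0)
    (hq : q ≠ 0) : ∫ x, f x ∂μ = ∫ x, f x := by
  obtain ⟨c, g, k, D, hg, hk, hD, hf⟩ := h
  have key : ∀ ν : Measure TT, Inv p q ν → ∫ x, f x ∂ν = c := by
    intro ν hν
    haveI := hν.prob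
    haveI : NullSingletonClass ν := ⟨hν.na⟩
    have h0 : ν D = 0 := hD.measure_zero ν
    have hae : ∀ᵐ x ∂ν, f x = c + (g x - g (p • x)) + (k x - k (q • x)) := by
      rw [ae_iff]
      refine measure_mono_null (fun x hx => ?_) h0
      by_contra hxD
      exact hx (hf x hxD)
    rw [integral_congr_ae hae]
    have hgi := hg.tf.integrable ν
    have hki := hk.tf.integrable ν
    have hgi' : Integrable (fun x => g (p • x)) ν :=
      hν.mp.integrable_comp_of_integrable hgi
    have hki' : Integrable (fun x => k (q • x)) ν :=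
      hν.mq.integrable_comp_of_integrable hki
    have h1 : ∫ x, (c + (g x - g (p • x)) + (k x - k (q • x))) ∂ν =
        (∫ x, (c + (g x - g (p • x))) ∂ν) + ∫ x, (k x - k (q • x)) ∂ν :=
      integral_add ((integrable_const c).add (hgi.sub hgi')) (hki.sub hki')
    have h2 : ∫ x, (c + (g x - g (p • x))) ∂ν = (∫ _x, c ∂ν) + ∫ x, (g x - g (p • x)) ∂ν :=
      integral_add (integrable_const c) (hgi.sub hgi')
    rw [h1, h2, integral_sub hgi hgi', integral_sub hki hki', integral_comp_smul hν.mp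
      hg.measurable, integral_comp_smul hν.mq hk.measurable]
    simp
  rw [key μ hμ, key volume (vol_Inv hp hq)]

/-- **Functions of bounded variation whose orbit sums vanish are sums of coboundaries.** -/
theorem coboundary (hp : p.Prime) (hq : q.Prime) (hpq : p ≠ q) (hf : RV f V)
    (h : ∀ a : ℤ, a ≠ 0 → IsCoprime a (p : ℤ) → IsCoprime a (q : ℤ) → orb p q f a = 0) :
    Cob p q f := by
  set c : ℝ := ∫ x, f x with hc
  set f₀ : TT → ℝ := fun x => f x + -c with hf₀
  have hf₀R : RV f₀ (V + 0) := hf.add (RV.const (-c))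
  have hmean : ∫ x, f₀ x = 0 := by
    rw [hf₀, integral_add (hf.toBV.tf.integrable volume) (integrable_const _), ← hc]
    simp
  have hcf : ∀ n : ℤ, n ≠ 0 → cf f₀ n = cf f n := by
    intro n hn
    rw [hf₀, cf_add hf (RV.const (-c)), cf_const hn, add_zero]
  -- summability
  obtain ⟨Λ, hJ⟩ := hf.toBV.tf.jf
  have hsum : ∀ a : ℤ, a ≠ 0 → Summable fun ij : ℕ × ℕ => cf f₀ (a * sS p q ij) := by
    intro a ha
    refine (summable_fc hJ hp hq ha).congr fun ij => ?_
    unfold cf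
    congr 1
    funext x
    rw [hf₀]
    push_cast
    ring
  obtain ⟨K₁, W₁, U₁, hK₁, hH₁, hc₁⟩ := step q hq.two_le hf₀R hmean
  set H₁ : TT → ℝ := fun x => f₀ x + (-K₁ x + K₁ (q • x)) with hH₁def
  have hmean₁ : ∫ x, H₁ x = 0 := by
    have h1 := hc₁ 0
    rw [if_pos (dvd_zero _), cf_zero] at h1
    exact_mod_cast h1
  obtain ⟨K₂, W₂, U₂, hK₂, hH₂, hc₂⟩ := step p hp.two_le hH₁ hmean₁
  set H₂ : TT → ℝ := fun x => H₁ x + (-K₂ x + K₂ (p • x)) with hH₂def
  have hpp : Prime (p : ℤ) := Nat.prime_iff_prime_int.1 hp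
  have hqp : Prime (q : ℤ) := Nat.prime_iff_prime_int.1 hq
  have hqpow : ∀ (n : ℤ) (l : ℕ), (q : ℤ) ∣ n * (p : ℤ) ^ l ↔ (q : ℤ) ∣ n := by
    intro n l
    constructor
    · intro hd
      rcases hqp.dvd_or_dvd hd with h1 | h1
      · exact h1
      · exfalso
        have h2 := hqp.dvd_of_dvd_pow h1
        have h3 : q ∣ p := by exact_mod_cast h2
        exact hpq ((Nat.prime_dvd_prime_iff_eq hq hp).1 h3).symm
    · intro hd
      exact hd.mul_right _
  have hall : ∀ n : ℤ, cf H₂ n = 0 := by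
    intro n
    rw [hc₂]
    split_ifs with hpn
    · rfl
    · simp_rw [hc₁, hqpow]
      by_cases hqn : (q : ℤ) ∣ n
      · simp_rw [if_pos hqn]
        exact tsum_zero
      · simp_rw [if_neg hqn]
        have hn0 : n ≠ 0 := by
          rintro rfl
          exact hpn (dvd_zero _)
        have hnp : IsCoprime n (p : ℤ) := ((Prime.coprime_iff_not_dvd hpp).2 hpn).symm
        have hnq : IsCoprime n (q : ℤ) := ((Prime.coprime_iff_not_dvd hqp).2 hqn).symm
        have h1 : ∀ l j : ℕ, cf f₀ (n * (p : ℤ) ^ l * (q : ℤ) ^ j) =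
            cf f₀ (n * sS p q (l, j)) := by
          intro l j
          unfold sS
          rw [mul_assoc]
        simp_rw [h1]
        rw [← (hsum n hn0).tsum_prod]
        have h2 := h n hn0 hnp hnq
        unfold orb at h2
        rw [← h2]
        congr 1
        funext ij
        exact hcf _ (mul_ne_zero hn0 (sS_pos hp hq ij).ne')
  obtain ⟨D, hD, hx⟩ := vanish hH₂ hall
  refine ⟨c, K₂, K₁, D, hK₂.toBV, hK₁.toBV, hD, fun x hxD => ?_⟩
  have h1 := hx x hxD
  rw [hH₂def, hH₁def, hf₀] at h1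
  simp only at h1
  linarith

/-- **A one-sided inequality for a function of bounded variation.** -/
theorem bv_iff (hM : S_MOD) (hp : p.Prime) (hq : q.Prime) (hpq : p ≠ q) (hf : BV f) :
    (∀ μ : Measure TT, Inv p q μ → ∫ x, f x ≤ ∫ x, f x ∂μ) ↔
      ((∀ μ : Measure TT, Inv p q μ → μ = volume) ∨ Cob p q f) := by
  constructor
  · intro h
    by_cases hall : ∀ a : ℤ, a ≠ 0 → IsCoprime a (p : ℤ) → IsCoprime a (q : ℤ) →
        orb p q f a = 0
    · obtain ⟨V, hV⟩ := hf.rv
      exact Or.inr (coboundary hp hq hpq hV hall)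
    · push Not at hall
      obtain ⟨a, ha, hap, haq, hC⟩ := hall
      exact Or.inl (hf.tf.decides hM hp hq hpq ha hap haq hC h)
  · rintro (h | h) μ hμ
    · rw [h μ hμ]
    · rw [h.integral hμ hp.ne_zero hq.ne_zero]

/-- a function of bounded variation that is not a sum of coboundaries has a nonzero orbit sum -/
lemma exists_orb (hp : p.Prime) (hq : q.Prime) (hpq : p ≠ q) (hf : BV f) (h : ¬ Cob p q f) :
    ∃ a : ℤ, a ≠ 0 ∧ IsCoprime a (p : ℤ) ∧ IsCoprime a (q : ℤ) ∧ orb p q f a ≠ 0 := by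
  by_contra hcon
  push Not at hcon
  obtain ⟨V, hV⟩ := hf.rv
  exact h (coboundary hp hq hpq hV hcon)

/-- **One function and one measure.** -/
theorem bv_single (hM : S_MOD) (hp : p.Prime) (hq : q.Prime) (hpq : p ≠ q) (hf : BV f)
    (h : ¬ Cob p q f) : ∃ a : ℕ, 0 < a ∧ a.Coprime p ∧ a.Coprime q ∧ ∀ η : ℝ, 0 < η →
      ∃ (N : ℕ) (δ : ℝ), 0 < N ∧ N.Coprime p ∧ N.Coprime q ∧ 0 < δ ∧
        ∀ μ : Measure TT, PInv p q μ → (∃ n : ℤ, n ≠ 0 ∧ η ≤ ‖hat μ n‖) →
          ∃ ν : Measure TT, Rel p q a N μ ν ∧ ∫ x, f x ∂ν ≤ (∫ x, f x) - δ := by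
  obtain ⟨a₀, ha₀, hap₀, haq₀, hC₀⟩ := exists_orb hp hq hpq hf h
  obtain ⟨a, ha, hap, haq, hC⟩ := exists_pos ha₀ hap₀ haq₀ hC₀
  exact ⟨a, ha, hap, haq, fun η hη => hf.tf.single hM hp hq hpq ha hap haq hC hη⟩

/-- **Open mapping for functions of bounded variation.** -/
theorem bv_fill (hM : S_MOD) (hp : p.Prime) (hq : q.Prime) (hpq : p ≠ q) {r : ℕ}
    {f : Fin r → TT → ℝ} (hf : ∀ l, BV (f l))
    (hind : ∀ w : Fin r → ℝ, w ≠ 0 → ¬ Cob p q (fun x => ∑ l, w l * f l x))
    {μ₀ : Measure TT} (hμ₀ : Inv p q μ₀) (hne : μ₀ ≠ volume) :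
    ∃ ρ : ℝ, 0 < ρ ∧ ∀ z : Fin r → ℝ, (∀ l, |z l| ≤ ρ) →
      ∃ μ : Measure TT, Inv p q μ ∧ ∀ l, ∫ x, f l x ∂μ = (∫ x, f l x) + z l := by
  refine fill hM hp hq hpq (fun l => (hf l).tf) (fun w hw => ?_) hμ₀ hne
  have hR : ∀ s : Finset (Fin r), ∃ V, RV (fun x => ∑ l ∈ s, w l * f l x) V := by
    classical
    intro s
    induction s using Finset.induction_on with
    | empty => exact ⟨0, by simpa using RV.const 0⟩
    | insert l s hl ih =>
      obtain ⟨V, hV⟩ := ih
      obtain ⟨W, hW⟩ := (hf l).rv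
      have h1 : RV (fun x => w l * f l x) (|w l| * W) := by
        refine ⟨mul_nonneg (abs_nonneg _) hW.nonneg, fun r n u hu hus => ?_⟩
        simp_rw [← mul_sub, abs_mul]
        rw [← mul_sum]
        exact mul_le_mul_of_nonneg_left (hW.le r n u hu hus) (abs_nonneg _)
      refine ⟨|w l| * W + V, ?_⟩
      have h2 := h1.add hV
      have h3 : (fun x => ∑ l ∈ insert l s, w l * f l x) =
          fun x => w l * f l x + ∑ l ∈ s, w l * f l x := by
        funext x
        rw [sum_insert hl]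
      rw [h3]
      exact h2
  obtain ⟨V, hV⟩ := hR univ
  exact exists_orb hp hq hpq hV.toBV (hind w hw)

end

end Pool.Agent.Run7.h776.FT
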