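import Pool.Agent.Run7.h776.FT.One

/-! # Fourier coefficients of the test functions -/

set_option autoImplicit false
set_option linter.style.haveILetI false

namespace Pool.Agent.Run7.h776.FT

open MeasureTheory Finset
open Pool.Agent.R203.ID (hat norm_f f_add f_zero f_smul f_nsmul f_neg integrable_f norm_hat_le
  ext_hat hat_map_nsmul hat_map_smul inv_iff conv hat_conv conv_atom)

lemma haar_eq : (AddCircle.haarAddCircle : Measure TT) = volume := by
  rw [AddCircle.volume_eq_smul_haarAddCircle]
  simp

instance volProb : IsProbabilityMeasure (volume : Measure TT) := by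
  rw [← haar_eq]; infer_instance

lemma vol_singleton (x : TT) : (volume : Measure TT) {x} = 0 := by
  have h := AddCircle.measurePreserving_mk (1 : ℝ) 0
  rw [← h.measure_preimage (measurableSet_singleton x).nullMeasurableSet]
  have hc : ((fun t : ℝ => (t : TT)) ⁻¹' {x}).Countable := by
    refine (Set.countable_range (fun k : ℤ => rep x + k)).mono ?_
    intro t ht
    have h1 : ((t - rep x : ℝ) : TT) = 0 := by
      rw [AddCircle.coe_sub, rep_coe, sub_eq_zero]; exact ht
    obtain ⟨k, hk⟩ := (AddCircle.coe_eq_zero_iff (1 : ℝ)).1 h1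
    refine ⟨k, ?_⟩
    simp only [zsmul_eq_mul, mul_one] at hk
    simp only
    linarith
  exact le_antisymm ((Measure.restrict_apply_le _ _).trans (hc.measure_zero _).le) zero_le

lemma hat_vol (n : ℤ) : hat (volume : Measure TT) n = if n = 0 then 1 else 0 := by
  by_cases hn : n = 0
  · rw [if_pos hn, hn, hat_zero]
  · rw [if_neg hn]
    refine Pool.Agent.R202.coeff_zero (θ := Real.sqrt 2) irrational_sqrt_two ?_ hn
    exact (measurePreserving_add_right volume _).map_eq

lemma vol_Inv {p q : ℕ} (hp : p ≠ 0) (hq : q ≠ 0) : Inv p q (volume : Measure TT) := by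
  refine Inv.mk' (PInv.mk' inferInstance (fun n => ?_) (fun n => ?_)) (fun x => ?_)
  · rw [hat_vol, hat_vol]
    simp [hp]
  · rw [hat_vol, hat_vol]
    simp [hq]
  · exact vol_singleton x

lemma saw_eq (x : TT) : saw x = ((periodizedBernoulli 1 x : ℝ) : ℂ) := by
  conv_rhs => rw [← rep_coe x]
  unfold periodizedBernoulli
  rw [AddCircle.liftIco_coe_apply ⟨(rep_mem x).1, by rw [zero_add]; exact (rep_mem x).2⟩,
    bernoulliFun_one]
  unfold saw; push_cast; ring

lemma fc_saw (n : ℤ) : fourierCoeff saw n = -1 / (2 * Real.pi * Complex.I * n) := by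
  have h := fourierCoeff_bernoulli_eq one_ne_zero n
  have e : ((↑) ∘ periodizedBernoulli 1 : TT → ℂ) = saw := by
    funext x; rw [saw_eq]; rfl
  rw [e] at h
  rw [h]
  simp

lemma fc_saw_sub (θ : TT) (n : ℤ) : fourierCoeff (fun x => saw (x - θ)) n = bc θ n := by
  unfold fourierCoeff
  have h1 := integral_sub_right_eq_self (μ := (AddCircle.haarAddCircle : Measure TT))
    (fun t => (fourier (-n) (t + θ) : ℂ) • saw t) θ
  simp only [sub_add_cancel] at h1
  rw [h1]
  have h2 : ∀ t : TT, (fourier (-n) (t + θ) : ℂ) • saw t =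
      fourier (-n) θ * ((fourier (-n) t : ℂ) • saw t) := by
    intro t
    rw [f_add, smul_eq_mul, smul_eq_mul]
    ring
  simp_rw [h2]
  rw [integral_const_mul]
  have h3 := fc_saw n
  unfold fourierCoeff at h3
  rw [h3]
  unfold bc
  ring

lemma fc_wf {γ : ℤ → ℂ} (hγ : Summable fun n => ‖γ n‖) (n : ℤ) : fourierCoeff (wf γ) n = γ n := by
  unfold fourierCoeff
  rw [haar_eq]
  have hinj : Function.Injective (fun m : ℤ => m + n) := add_left_injective n
  have hγ' : Summable fun m => ‖γ (m + n)‖ := hγ.comp_injective hinj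
  have h1 : ∀ t : TT, (fourier (-n) t : ℂ) • wf γ t = wf (fun m => γ (m + n)) t := by
    intro t
    unfold wf
    rw [smul_eq_mul, ← tsum_mul_left]
    have h2 := (Equiv.addRight n).tsum_eq (fun m : ℤ => (fourier (-n) t : ℂ) * (γ m * fourier m t))
    rw [← h2]
    congr 1
    funext m
    simp only [Equiv.coe_addRight]
    have h3 : (fourier m t : ℂ) = fourier (-n) t * fourier (m + n) t := by
      rw [f_mul]; congr 1; ring_nf
    rw [h3]
    ring
  simp_rw [h1]
  rw [integral_wf' hγ' volume, tsum_eq_single 0]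
  · rw [hat_vol, if_pos rfl, mul_one, zero_add]
  · intro m hm
    rw [hat_vol, if_neg hm, mul_zero]

variable {F : TT → ℂ} {V : ℝ} {γ : ℤ → ℂ}

lemma fc_PF (hF : JF F V) (hγ : Summable fun n => ‖γ n‖) (n : ℤ) :
    fourierCoeff (PF F γ) n = fourierCoeff F n + γ n := by
  obtain ⟨M, hM⟩ := hF.bdd
  have hb : Integrable (fun t : TT => (fourier (-n) t : ℂ) • F t)
      (AddCircle.haarAddCircle : Measure TT) :=
    Integrable.of_bound (((fourier (-n)).continuous.measurable.mul hF.meas).aestronglyMeasurable) M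
      (Filter.Eventually.of_forall fun y => by
        rw [norm_smul, norm_f, one_mul]; exact hM _)
  have hw : Integrable (fun t : TT => (fourier (-n) t : ℂ) • wf γ t)
      (AddCircle.haarAddCircle : Measure TT) :=
    Integrable.of_bound (((fourier (-n)).continuous.mul (wf_continuous hγ)).aestronglyMeasurable)
      (∑' n, ‖γ n‖) (Filter.Eventually.of_forall fun y => by
        rw [norm_smul, norm_f, one_mul]; exact wf_bound hγ y)
  have h1 : ∀ t : TT, (fourier (-n) t : ℂ) • PF F γ t =
      (fourier (-n) t : ℂ) • F t + (fourier (-n) t : ℂ) • wf γ t := by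
    intro t
    unfold PF
    rw [smul_add]
  rw [← fc_wf hγ n]
  unfold fourierCoeff
  simp_rw [h1]
  rw [integral_add hb hw]

lemma integral_eq_fc (G : TT → ℂ) : ∫ x, G x ∂(volume : Measure TT) = fourierCoeff G 0 := by
  unfold fourierCoeff
  rw [haar_eq]
  simp

lemma integral_PF_vol (hF : JF F V) (hγ : Summable fun n => ‖γ n‖) :
    ∫ x, PF F γ x ∂(volume : Measure TT) = γ 0 := by
  rw [integral_eq_fc, fc_PF hF hγ, hF.zero, zero_add]

end Pool.Agent.Run7.h776.FT
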