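import Pool.Agent.Run7.h776.FT.Saw

/-! # The core inequality -/

set_option autoImplicit false
set_option linter.style.haveILetI false

namespace Pool.Agent.Run7.h776.FT

open MeasureTheory Finset
open Pool.Agent.R203.ID (hat norm_f f_add f_zero f_smul f_nsmul f_neg integrable_f norm_hat_le
  ext_hat hat_map_nsmul hat_map_smul inv_iff conv hat_conv conv_atom)

/-! ### the set of residues -/

section HHlemmas

variable {p q N : ℕ} [NeZero N]

lemma mem_HH {h : ZMod N} : h ∈ HH p q N ↔ ∃ i j : ℕ, h = (p : ZMod N) ^ i * (q : ZMod N) ^ j := by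
  unfold HH
  simp

lemma one_mem_HH : (1 : ZMod N) ∈ HH p q N := mem_HH.2 ⟨0, 0, by simp⟩

lemma HH_mulp {h : ZMod N} (hh : h ∈ HH p q N) : (p : ZMod N) * h ∈ HH p q N := by
  obtain ⟨i, j, rfl⟩ := mem_HH.1 hh
  exact mem_HH.2 ⟨i + 1, j, by ring⟩

lemma HH_mulq {h : ZMod N} (hh : h ∈ HH p q N) : (q : ZMod N) * h ∈ HH p q N := by
  obtain ⟨i, j, rfl⟩ := mem_HH.1 hh
  exact mem_HH.2 ⟨i, j + 1, by ring⟩

lemma HH_unit (hNp : N.Coprime p) (hNq : N.Coprime q) {h : ZMod N} (hh : h ∈ HH p q N) :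
    IsUnit h := by
  obtain ⟨i, j, rfl⟩ := mem_HH.1 hh
  have h1 : IsUnit (p : ZMod N) := (ZMod.isUnit_iff_coprime p N).2 hNp.symm
  have h2 : IsUnit (q : ZMod N) := (ZMod.isUnit_iff_coprime q N).2 hNq.symm
  exact (h1.pow i).mul (h2.pow j)

/-- reindexing by multiplication -/
lemma HH_sum {r : ℕ} (hr : N.Coprime r) (hmul : ∀ h ∈ HH p q N, (r : ZMod N) * h ∈ HH p q N)
    (F : ZMod N → ℂ) : ∑ h ∈ HH p q N, F ((r : ZMod N) * h) = ∑ h ∈ HH p q N, F h := by
  classical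
  have hu : IsUnit (r : ZMod N) := (ZMod.isUnit_iff_coprime r N).2 hr.symm
  have hinj : Set.InjOn (fun h : ZMod N => (r : ZMod N) * h) (HH p q N : Set (ZMod N)) := by
    intro x _ y _ hxy
    exact hu.mul_left_cancel hxy
  have himg : (HH p q N).image (fun h : ZMod N => (r : ZMod N) * h) = HH p q N := by
    apply eq_of_subset_of_card_le
    · intro x hx
      obtain ⟨h, hh, rfl⟩ := mem_image.1 hx
      exact hmul h hh
    · rw [card_image_of_injOn hinj]
  conv_rhs => rw [← himg]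
  rw [sum_image hinj]

end HHlemmas

/-! ### the twisting function -/

section twist

variable {p q : ℕ} (a : ℤ) (N' : ℕ) [NeZero N']

/-- the integer attached to a residue -/
def mh (h : ZMod N') : ℤ := a * h.valMinAbs

lemma mh_congr (N : ℕ) (hN : N = a.natAbs * N') (n : ℤ) (h : ZMod N') (hn : (n : ZMod N') = h) :
    ((a * n : ℤ) : ZMod N) = ((mh a N' h : ℤ) : ZMod N) := by
  rw [ZMod.intCast_eq_intCast_iff_dvd_sub]
  unfold mh
  have h1 : (N' : ℤ) ∣ h.valMinAbs - n := by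
    rw [← ZMod.intCast_eq_intCast_iff_dvd_sub, hn, ZMod.coe_valMinAbs]
  rw [← mul_sub, hN]
  push_cast
  exact mul_dvd_mul ((abs_dvd _ _).2 dvd_rfl) h1

lemma mh_inj (ha : a ≠ 0) (N : ℕ) (hN : N = a.natAbs * N') (n : ℤ) (h : ZMod N')
    (e : ((a * n : ℤ) : ZMod N) = ((mh a N' h : ℤ) : ZMod N)) : (n : ZMod N') = h := by
  rw [ZMod.intCast_eq_intCast_iff_dvd_sub] at e
  unfold mh at e
  rw [← mul_sub, hN] at e
  push_cast at e
  have h1 : (a * (N' : ℤ)) ∣ a * (h.valMinAbs - n) := by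
    refine (mul_dvd_mul ?_ dvd_rfl).trans e
    exact (dvd_abs _ _).2 dvd_rfl
  have h2 : (N' : ℤ) ∣ h.valMinAbs - n := Int.dvd_of_mul_dvd_mul_left ha h1 |> fun h => h
  rw [← ZMod.intCast_eq_intCast_iff_dvd_sub] at h2
  rw [h2, ZMod.coe_valMinAbs]

lemma two_mh (N : ℕ) (hN : N = a.natAbs * N') (h : ZMod N') : 2 * |mh a N' h| ≤ N := by
  unfold mh
  rw [abs_mul, hN]
  push_cast
  have h1 : h.valMinAbs.natAbs ≤ N' / 2 := ZMod.natAbs_valMinAbs_le h
  have h2 : 2 * |h.valMinAbs| ≤ N' := by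
    rw [← Int.natCast_natAbs]
    omega
  calc 2 * (|a| * |h.valMinAbs|) = |a| * (2 * |h.valMinAbs|) := by ring
    _ ≤ |a| * N' := mul_le_mul_of_nonneg_left h2 (abs_nonneg _)

/-- the weight on `ZMod N` -/
noncomputable def gg (p q : ℕ) (N : ℕ) [NeZero N] (b : ZMod N) : ℂ :=
  (1 / N : ℂ) * ∑ h ∈ HH p q N', ZMod.stdAddChar (-(((mh a N' h : ℤ) : ZMod N) * b))

lemma gg_inv (N : ℕ) [NeZero N] (hN : N = a.natAbs * N') {r : ℕ} (hr : N'.Coprime r)
    (hmul : ∀ h ∈ HH p q N', (r : ZMod N') * h ∈ HH p q N') (b : ZMod N) :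
    gg a N' p q N ((r : ZMod N) * b) = gg a N' p q N b := by
  unfold gg
  congr 1
  rw [← HH_sum hr hmul (fun h => ZMod.stdAddChar (-(((mh a N' h : ℤ) : ZMod N) * b)))]
  refine sum_congr rfl fun h _ => ?_
  congr 2
  have h1 : ((a * (r * h.valMinAbs) : ℤ) : ZMod N) =
      ((mh a N' ((r : ZMod N') * h) : ℤ) : ZMod N) := by
    apply mh_congr a N' N hN
    push_cast
    simp
  rw [← h1]
  unfold mh
  push_cast
  ring

lemma gg_norm (N : ℕ) [NeZero N] : ∑ b, ‖gg a N' p q N b‖ ≤ (HH p q N').card := by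
  have hN : (0 : ℝ) < N := by exact_mod_cast Nat.pos_of_ne_zero (NeZero.ne N)
  have h1 : ∀ b : ZMod N, ‖gg a N' p q N b‖ ≤ (1 / N : ℝ) * (HH p q N').card := by
    intro b
    unfold gg
    rw [norm_mul, norm_div, norm_one, Complex.norm_natCast]
    apply mul_le_mul_of_nonneg_left _ (by positivity)
    refine (norm_sum_le _ _).trans ?_
    have : ∀ h ∈ HH p q N',
        ‖(ZMod.stdAddChar (-(((mh a N' h : ℤ) : ZMod N) * b)) : ℂ)‖ ≤ 1 := by
      intro h _
      rw [AddChar.norm_apply]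
    refine (sum_le_sum this).trans ?_
    simp
  refine (sum_le_sum fun b _ => h1 b).trans ?_
  rw [sum_const, card_univ, ZMod.card, nsmul_eq_mul, ← mul_assoc, mul_one_div_cancel hN.ne',
    one_mul]

/-- number of representations -/
noncomputable def kap (p q : ℕ) (N : ℕ) (n : ℤ) : ℂ := by
  classical
  exact ∑ h ∈ HH p q N', if (n : ZMod N) = ((mh a N' h : ℤ) : ZMod N) then 1 else 0

lemma gg_sum (N : ℕ) [NeZero N] (n : ℤ) :
    ∑ b, gg a N' p q N b * ZMod.stdAddChar ((n : ZMod N) * b) = kap a N' p q N n := by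
  classical
  have hN : (N : ℂ) ≠ 0 := by exact_mod_cast NeZero.ne N
  unfold gg kap
  have h1 : ∀ b : ZMod N, (1 / N : ℂ) * (∑ h ∈ HH p q N',
      ZMod.stdAddChar (-(((mh a N' h : ℤ) : ZMod N) * b))) * ZMod.stdAddChar ((n : ZMod N) * b) =
      (1 / N : ℂ) * ∑ h ∈ HH p q N',
        ZMod.stdAddChar (b * ((n : ZMod N) - ((mh a N' h : ℤ) : ZMod N))) := by
    intro b
    rw [mul_assoc, sum_mul]
    congr 1
    refine sum_congr rfl fun h _ => ?_
    rw [← AddChar.map_add_eq_mul]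
    congr 1
    ring
  simp_rw [h1]
  rw [← mul_sum, sum_comm, mul_sum]
  refine sum_congr rfl fun h _ => ?_
  rw [AddChar.sum_mulShift (R' := ℂ) _ (ZMod.isPrimitive_stdAddChar N), ZMod.card]
  simp only [sub_eq_zero]
  split_ifs
  · field_simp
  · simp

lemma gg_exact (N : ℕ) [NeZero N] (F : ZMod N → ℂ) :
    ∑ b, gg a N' p q N b * F b = ∑ h ∈ HH p q N', (1 / N : ℂ) *
      ∑ b, ZMod.stdAddChar (-(((mh a N' h : ℤ) : ZMod N) * b)) * F b := by
  unfold gg
  simp_rw [mul_assoc, sum_mul, mul_sum]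
  rw [sum_comm]

end twist

/-! ### the values of `kap` -/

section kapv

variable {p q : ℕ} {a : ℤ} {N' : ℕ} [NeZero N'] {N : ℕ}

lemma kap_eq_one (ha : a ≠ 0) (hN : N = a.natAbs * N') {n' : ℤ} (hn : (n' : ZMod N') ∈ HH p q N') :
    kap a N' p q N (a * n') = 1 := by
  classical
  unfold kap
  rw [sum_eq_single ((n' : ZMod N'))]
  · rw [if_pos (mh_congr a N' N hN n' _ rfl)]
  · intro h _ hne
    rw [if_neg]
    intro e
    exact hne (mh_inj a N' ha N hN n' h e).symm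
  · intro h
    exact absurd hn h

lemma kap_cases (ha : a ≠ 0) (hN : N = a.natAbs * N') (n : ℤ) :
    kap a N' p q N n = 0 ∨ ∃ n' : ℤ, n = a * n' ∧ (n' : ZMod N') ∈ HH p q N' := by
  classical
  by_cases h : ∃ h ∈ HH p q N', (n : ZMod N) = ((mh a N' h : ℤ) : ZMod N)
  · right
    obtain ⟨h, hh, e⟩ := h
    have h1 := e
    rw [ZMod.intCast_eq_intCast_iff_dvd_sub] at h1
    have h2 : a ∣ (N : ℤ) := by
      rw [hN]; push_cast
      exact Dvd.dvd.mul_right ((dvd_abs _ _).2 dvd_rfl) _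
    have h3 : a ∣ n := by
      have h4 : a ∣ mh a N' h - n := h2.trans h1
      have h5 : a ∣ mh a N' h := ⟨h.valMinAbs, rfl⟩
      exact (dvd_sub_right h5).1 h4
    obtain ⟨n', rfl⟩ := h3
    refine ⟨n', rfl, ?_⟩
    rw [mh_inj a N' ha N hN n' h e]
    exact hh
  · left
    push Not at h
    unfold kap
    exact sum_eq_zero fun x hx => by rw [if_neg (h x hx)]

lemma kap_norm (ha : a ≠ 0) (hN : N = a.natAbs * N') (n : ℤ) : ‖kap a N' p q N n‖ ≤ 1 := by
  rcases kap_cases (p := p) (q := q) ha hN n with h | ⟨n', rfl, h⟩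
  · rw [h]; simp
  · rw [kap_eq_one ha hN h]; simp

end kapv

/-! ### the class of functions -/

/-- Functions with mean zero, Fourier coefficients `O(1/n)` and good Riemann sums: the functions
of bounded variation will be shown to be of this type. -/
structure JF (F : TT → ℂ) (V : ℝ) : Prop where
  meas : Measurable F
  bdd : ∃ M : ℝ, ∀ x, ‖F x‖ ≤ M
  nonneg : 0 ≤ V
  zero : fourierCoeff F 0 = 0
  dec : ∀ n : ℤ, n ≠ 0 → ‖fourierCoeff F n‖ ≤ V * (1 / |(n : ℝ)|)
  twist : ∀ (N : ℕ) [NeZero N] (m : ℤ), m ≠ 0 → 2 * |m| ≤ N → ∀ y : TT,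
    ‖(1 / N : ℂ) * ∑ b : ZMod N, ZMod.stdAddChar (-((m : ZMod N) * b)) * F (pt b + y) -
      fourierCoeff F m * (fourier m y : ℂ)‖ ≤ V * (4 / N)
  mean : ∀ (N : ℕ) [NeZero N] (y : TT), ‖(1 / N : ℂ) * ∑ b : ZMod N, F (pt b + y)‖ ≤ V * (1 / N)

/-- the sum of such a function and an absolutely convergent Fourier series -/
noncomputable def PF (F : TT → ℂ) (γ : ℤ → ℂ) (x : TT) : ℂ := F x + wf γ x

section PFl

variable {p q : ℕ} {F : TT → ℂ} {V : ℝ} {γ : ℤ → ℂ}

lemma PF_measurable (hF : JF F V) (hγ : Summable fun n => ‖γ n‖) : Measurable (PF F γ) :=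
  hF.meas.add (wf_continuous hγ).measurable

lemma PF_bound (hF : JF F V) (hγ : Summable fun n => ‖γ n‖) : ∃ M : ℝ, ∀ x, ‖PF F γ x‖ ≤ M := by
  obtain ⟨M, hM⟩ := hF.bdd
  exact ⟨M + ∑' n, ‖γ n‖, fun x => (norm_add_le _ _).trans (add_le_add (hM x) (wf_bound hγ x))⟩

lemma JF.integrable (hF : JF F V) (μ : Measure TT) [IsFiniteMeasure μ] (u : TT) :
    Integrable (fun y => F (u + y)) μ := by
  obtain ⟨M, hM⟩ := hF.bdd
  exact Integrable.of_bound (hF.meas.comp (by fun_prop)).aestronglyMeasurable M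
    (Filter.Eventually.of_forall fun y => hM _)

/-- one residue -/
lemma JF.int (hF : JF F V) {N : ℕ} [NeZero N] {m : ℤ} (hm0 : m ≠ 0) (hm : 2 * |m| ≤ N)
    (μ : Measure TT) [IsProbabilityMeasure μ] :
    ‖(1 / N : ℂ) * ∑ b : ZMod N, ZMod.stdAddChar (-((m : ZMod N) * b)) *
      ∫ y, F (pt b + y) ∂μ - fourierCoeff F m * hat μ m‖ ≤ V * (4 / N) := by
  have h1 : (1 / N : ℂ) * ∑ b : ZMod N, ZMod.stdAddChar (-((m : ZMod N) * b)) *
      ∫ y, F (pt b + y) ∂μ = ∫ y, (1 / N : ℂ) * ∑ b : ZMod N,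
        ZMod.stdAddChar (-((m : ZMod N) * b)) * F (pt b + y) ∂μ := by
    rw [integral_const_mul, integral_finsetSum]
    · congr 1
      refine sum_congr rfl fun b _ => ?_
      rw [integral_const_mul]
    · intro b _
      exact (hF.integrable μ _).const_mul _
  have h2 : fourierCoeff F m * hat μ m = ∫ y, fourierCoeff F m * (fourier m y : ℂ) ∂μ := by
    rw [integral_const_mul]
    rfl
  rw [h1, h2, ← integral_sub]
  · have h3 := norm_integral_le_of_norm_le_const (μ := μ)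
      (f := fun y => (1 / N : ℂ) * ∑ b : ZMod N,
        ZMod.stdAddChar (-((m : ZMod N) * b)) * F (pt b + y) -
          fourierCoeff F m * (fourier m y : ℂ))
      (C := V * (4 / N)) (Filter.Eventually.of_forall fun y => hF.twist N m hm0 hm y)
    simpa using h3
  · refine Integrable.const_mul ?_ _
    exact integrable_finsetSum _ fun b _ => (hF.integrable μ _).const_mul _
  · exact (integrable_f μ m).const_mul _

lemma co_N {a : ℤ} {N' N : ℕ} (hN : N = a.natAbs * N') {r : ℕ} (h1 : IsCoprime a (r : ℤ))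
    (h2 : N'.Coprime r) : N.Coprime r := by
  rw [hN]
  refine Nat.Coprime.mul_left ?_ h2
  have := Int.isCoprime_iff_gcd_eq_one.1 h1
  simpa [Int.gcd] using this

lemma unit_HH {N' : ℕ} [NeZero N'] (hNp : N'.Coprime p) (hNq : N'.Coprime q) (hN' : 2 ≤ N') :
    ∀ h ∈ HH p q N', h ≠ 0 := by
  intro h hh h0
  have hu := HH_unit hNp hNq hh
  rw [h0] at hu
  haveI : Fact (1 < N') := ⟨by omega⟩
  exact not_isUnit_zero hu

lemma gg_mean {a : ℤ} (ha : a ≠ 0) {N' : ℕ} [NeZero N'] (hNp : N'.Coprime p)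
    (hNq : N'.Coprime q) (hN' : 2 ≤ N') {N : ℕ} [NeZero N] (hN : N = a.natAbs * N') :
    ∑ b, gg a N' p q N b = 0 := by
  have h1 := gg_sum (p := p) (q := q) a N' N 0
  simp only [Int.cast_zero, zero_mul, AddChar.map_zero_eq_one, mul_one] at h1
  rw [h1]
  rcases kap_cases (p := p) (q := q) ha hN 0 with h | ⟨n', h2, h3⟩
  · exact h
  · have h4 : n' = 0 := by
      rcases mul_eq_zero.1 h2.symm with h5 | h5
      · exact absurd h5 ha
      · exact h5
    rw [h4, Int.cast_zero] at h3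
    exact absurd rfl (unit_HH hNp hNq hN' 0 h3)

/-- the value of `JJ` -/
lemma JJ_PF (hF : JF F V) {N : ℕ} [NeZero N] (hγ : Summable fun n => ‖γ n‖) (μ : Measure TT)
    [IsProbabilityMeasure μ] (b : ZMod N) : JJ (PF F γ) μ b =
      ∫ y, F (pt b + y) ∂μ + ∑' n, γ n * hat μ n * fourier n (pt b) := by
  unfold JJ PF
  rw [integral_add, integral_wf hγ]
  · exact hF.integrable μ _
  · exact Integrable.of_bound ((wf_continuous hγ).comp (by fun_prop)).aestronglyMeasurable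
      (∑' n, ‖γ n‖) (Filter.Eventually.of_forall fun y => wf_bound hγ _)

/-- **The twisted identity, approximately.** -/
theorem twisted0 (hF : JF F V) {a : ℤ} (ha : a ≠ 0) {N' : ℕ} [NeZero N'] (hNp : N'.Coprime p)
    (hNq : N'.Coprime q) (hN' : 2 ≤ N') {N : ℕ} [NeZero N] (hN : N = a.natAbs * N')
    (hγ : Summable fun n => ‖γ n‖) (μ : Measure TT) [IsProbabilityMeasure μ] :
    ‖∑ h ∈ HH p q N', fourierCoeff F (mh a N' h) * hat μ (mh a N' h) +
      ∑' n : ℤ, γ n * hat μ n * kap a N' p q N n‖ ≤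
      ‖∑ b, gg a N' p q N b * (JJ (PF F γ) μ b - γ 0)‖ +
        V * ((HH p q N').card * (4 / N)) := by
  have hunit := unit_HH (p := p) (q := q) hNp hNq hN'
  have hm0 : ∀ h ∈ HH p q N', mh a N' h ≠ 0 := by
    intro h hh
    unfold mh
    refine mul_ne_zero ha ?_
    rw [Ne, ZMod.valMinAbs_eq_zero]
    exact hunit h hh
  have hg0 := gg_mean (p := p) (q := q) ha hNp hNq hN' hN
  -- evaluate the left hand side
  have hL : ∑ b, gg a N' p q N b * (JJ (PF F γ) μ b - γ 0) =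
      ∑ h ∈ HH p q N', (1 / N : ℂ) *
        ∑ b, ZMod.stdAddChar (-(((mh a N' h : ℤ) : ZMod N) * b)) * ∫ y, F (pt b + y) ∂μ +
      ∑' n : ℤ, γ n * hat μ n * kap a N' p q N n := by
    simp_rw [mul_sub]
    rw [sum_sub_distrib, ← sum_mul, hg0, zero_mul, sub_zero]
    simp_rw [JJ_PF hF hγ μ, mul_add]
    rw [sum_add_distrib]
    congr 1
    · exact gg_exact (p := p) (q := q) a N' N (fun b => ∫ y, F (pt b + y) ∂μ)
    · have h5 : ∀ b : ZMod N, gg a N' p q N b * ∑' n, γ n * hat μ n * fourier n (pt b) =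
          ∑' n : ℤ, γ n * hat μ n * (gg a N' p q N b * ZMod.stdAddChar ((n : ZMod N) * b)) := by
        intro b
        rw [← tsum_mul_left]
        congr 1
        funext n
        rw [fourier_pt]
        ring
      simp_rw [h5]
      rw [← Summable.tsum_finsetSum]
      · congr 1
        funext n
        rw [← mul_sum, gg_sum]
      · intro b _
        have h6 := wsum_summable hγ μ (fun n : ℤ => (ZMod.stdAddChar ((n : ZMod N) * b) : ℂ))
          (fun n => by rw [← fourier_pt]; exact (norm_f _ _).le)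
        have h7 := h6.mul_left (gg a N' p q N b)
        refine h7.congr fun n => ?_
        ring
  rw [hL]
  have hS : ‖∑ h ∈ HH p q N', fourierCoeff F (mh a N' h) * hat μ (mh a N' h) -
      ∑ h ∈ HH p q N', (1 / N : ℂ) *
        ∑ b, ZMod.stdAddChar (-(((mh a N' h : ℤ) : ZMod N) * b)) * ∫ y, F (pt b + y) ∂μ‖ ≤
      V * ((HH p q N').card * (4 / N)) := by
    rw [← sum_sub_distrib]
    refine (norm_sum_le _ _).trans ?_
    have h1 : ∀ h ∈ HH p q N', ‖fourierCoeff F (mh a N' h) * hat μ (mh a N' h) - (1 / N : ℂ) *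
        ∑ b, ZMod.stdAddChar (-(((mh a N' h : ℤ) : ZMod N) * b)) *
          ∫ y, F (pt b + y) ∂μ‖ ≤ V * (4 / N) := by
      intro h hh
      rw [norm_sub_rev]
      exact hF.int (hm0 h hh) (two_mh a N' N hN h) μ
    refine (sum_le_sum h1).trans (le_of_eq ?_)
    rw [sum_const, nsmul_eq_mul]
    ring
  set A := ∑ h ∈ HH p q N', fourierCoeff F (mh a N' h) * hat μ (mh a N' h) with hA
  set B := ∑ h ∈ HH p q N', (1 / N : ℂ) *
        ∑ b, ZMod.stdAddChar (-(((mh a N' h : ℤ) : ZMod N) * b)) * ∫ y, F (pt b + y) ∂μ with hB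
  set W := ∑' n : ℤ, γ n * hat μ n * kap a N' p q N n with hW
  have e : A + W = (B + W) + (A - B) := by ring
  rw [e]
  exact (norm_add_le _ _).trans (add_le_add le_rfl hS)

/-- **The twisted inequality.** -/
theorem twisted (hF : JF F V) {a : ℤ} (ha : a ≠ 0) (hap : IsCoprime a (p : ℤ))
    (haq : IsCoprime a (q : ℤ)) {N' : ℕ} [NeZero N'] (hNp : N'.Coprime p) (hNq : N'.Coprime q)
    (hN' : 2 ≤ N') {N : ℕ} [NeZero N] (hN : N = a.natAbs * N') (hγ : Summable fun n => ‖γ n‖)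
    {δ : ℝ} (hδ : 0 ≤ δ)
    (hfδ : ∀ ν : Measure TT, Inv p q ν → ‖∫ x, PF F γ x ∂ν - γ 0‖ ≤ δ) {μ : Measure TT}
    (hμ : Inv p q μ) :
    ‖∑ h ∈ HH p q N', fourierCoeff F (mh a N' h) * hat μ (mh a N' h) +
      ∑' n : ℤ, γ n * hat μ n * kap a N' p q N n‖ ≤
      2 * δ * (HH p q N').card + V * ((HH p q N').card * (4 / N)) := by
  haveI := hμ.prob
  obtain ⟨M, hM⟩ := PF_bound hF hγ
  have hbound := func_bound (co_N hN hap hNp) (co_N hN haq hNq) (PF_measurable hF hγ) hM hδ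
    hfδ hμ (gg a N' p q N) (gg_inv a N' N hN hNp (fun h => HH_mulp))
    (gg_inv a N' N hN hNq (fun h => HH_mulq))
  refine (twisted0 hF ha hNp hNq hN' hN hγ μ).trans (add_le_add ?_ le_rfl)
  refine hbound.trans ?_
  exact mul_le_mul_of_nonneg_left (gg_norm a N' N) (by positivity)

end PFl

end Pool.Agent.Run7.h776.FT
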