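import Pool.Agent.Run7.h776.FT.Ops

/-! # Testing with atomic invariant measures -/

set_option autoImplicit false
set_option linter.style.haveILetI false

namespace Pool.Agent.Run7.h776.FT

open MeasureTheory Finset
open Pool.Agent.R203.ID (hat norm_f f_add f_zero f_smul f_nsmul f_neg integrable_f norm_hat_le
  ext_hat hat_map_nsmul hat_map_smul inv_iff conv hat_conv conv_atom)

variable {p q : ℕ}

/-- the integrals of the translates by the points `b / N` -/
noncomputable def JJ (f : TT → ℂ) (μ : Measure TT) {N : ℕ} [NeZero N] (b : ZMod N) : ℂ :=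
  ∫ y, f (pt b + y) ∂μ

lemma integral_conv_atom {N : ℕ} [NeZero N] (w : ZMod N → ℝ) (hw : ∀ b, 0 ≤ w b)
    (h1 : ∑ b, w b = 1) (μ : Measure TT) [IsProbabilityMeasure μ] {f : TT → ℂ}
    (hf : Measurable f) {M : ℝ} (hM : ∀ x, ‖f x‖ ≤ M) :
    ∫ x, f x ∂(conv (atom w) μ) = ∑ b, (w b : ℂ) * JJ f μ b := by
  haveI : IsProbabilityMeasure (atom w) :=
    mix_prob _ _ _ (fun b _ => hw b) h1 (fun b _ => inferInstance)
  unfold conv
  rw [integral_map (by fun_prop) hf.aestronglyMeasurable]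
  have hint : Integrable (fun z : TT × TT => f (z.1 + z.2)) ((atom w).prod μ) :=
    Integrable.of_bound (hf.comp (by fun_prop)).aestronglyMeasurable M
      (Filter.Eventually.of_forall fun z => hM _)
  rw [integral_prod _ hint]
  unfold atom
  rw [integral_mix _ _ _ (fun b _ => hw b)]
  · refine sum_congr rfl fun b _ => ?_
    rw [integral_dirac]
    rfl
  · intro b _
    exact integrable_dirac (by simp)

/-- **The linear inequality.** -/
theorem func_bound {N : ℕ} [NeZero N] (hNp : N.Coprime p) (hNq : N.Coprime q) {f : TT → ℂ}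
    (hf : Measurable f) {M : ℝ} (hM : ∀ x, ‖f x‖ ≤ M) {c₀ : ℂ} {δ : ℝ} (hδ : 0 ≤ δ)
    (hfδ : ∀ ν : Measure TT, Inv p q ν → ‖∫ x, f x ∂ν - c₀‖ ≤ δ) {μ : Measure TT}
    (hμ : Inv p q μ) (g : ZMod N → ℂ) (hp : ∀ b, g ((p : ZMod N) * b) = g b)
    (hq : ∀ b, g ((q : ZMod N) * b) = g b) :
    ‖∑ b, g b * (JJ f μ b - c₀)‖ ≤ 2 * δ * ∑ b, ‖g b‖ := by
  haveI := hμ.prob
  -- nonnegative weights
  have s1 : ∀ w : ZMod N → ℝ, (∀ b, 0 ≤ w b) → (∀ b, w ((p : ZMod N) * b) = w b) →
      (∀ b, w ((q : ZMod N) * b) = w b) → ‖∑ b, (w b : ℂ) * (JJ f μ b - c₀)‖ ≤ δ * ∑ b, w b := by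
    intro w hw hwp hwq
    set W := ∑ b, w b with hW
    have hW0 : 0 ≤ W := sum_nonneg fun b _ => hw b
    rcases hW0.eq_or_lt with h0 | hpos
    · have hz : ∀ b, w b = 0 := fun b =>
        (sum_eq_zero_iff_of_nonneg fun b _ => hw b).1 (hW ▸ h0.symm) b (mem_univ b)
      simp [hz, ← h0]
    · set v : ZMod N → ℝ := fun b => w b / W with hv
      have hv0 : ∀ b, 0 ≤ v b := fun b => div_nonneg (hw b) hW0
      have hv1 : ∑ b, v b = 1 := by
        rw [hv, ← sum_div, ← hW, div_self hpos.ne']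
      have hI : Inv p q (conv (atom v) μ) := by
        refine conv_Inv (atom_PInv hNp hNq v hv0 hv1 (fun b => ?_) (fun b => ?_)) hμ
        · rw [hv]; simp only; rw [hwp]
        · rw [hv]; simp only; rw [hwq]
      have h2 := hfδ _ hI
      rw [integral_conv_atom v hv0 hv1 μ hf hM] at h2
      have h3 : ∑ b, (w b : ℂ) * (JJ f μ b - c₀) =
          (W : ℂ) * (∑ b, (v b : ℂ) * JJ f μ b - c₀) := by
        have hWc : (W : ℂ) ≠ 0 := by exact_mod_cast hpos.ne'
        rw [mul_sub, mul_sum]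
        simp_rw [mul_sub]
        rw [sum_sub_distrib]
        congr 1
        · refine sum_congr rfl fun b _ => ?_
          rw [hv]
          push_cast
          field_simp
        · rw [← sum_mul, hW]
          push_cast
          rfl
      rw [h3, norm_mul, Complex.norm_real, Real.norm_of_nonneg hW0, mul_comm]
      exact mul_le_mul_of_nonneg_right h2 hW0
  -- real weights
  have s2 : ∀ u : ZMod N → ℝ, (∀ b, u ((p : ZMod N) * b) = u b) →
      (∀ b, u ((q : ZMod N) * b) = u b) → ‖∑ b, (u b : ℂ) * (JJ f μ b - c₀)‖ ≤ δ * ∑ b, |u b| := by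
    intro u hup huq
    have h1 := s1 (fun b => max (u b) 0) (fun b => le_max_right _ _)
      (fun b => by simp only [hup]) (fun b => by simp only [huq])
    have h2 := s1 (fun b => max (-u b) 0) (fun b => le_max_right _ _)
      (fun b => by simp only [hup]) (fun b => by simp only [huq])
    have h3 : ∀ b, (u b : ℂ) = ((max (u b) 0 : ℝ) : ℂ) - ((max (-u b) 0 : ℝ) : ℂ) := by
      intro b
      rw [← Complex.ofReal_sub]
      congr 1
      rcases le_total 0 (u b) with h | h
      · rw [max_eq_left h, max_eq_right (by linarith)]; ring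
      · rw [max_eq_right h, max_eq_left (by linarith)]; ring
    have h4 : ∀ b, |u b| = max (u b) 0 + max (-u b) 0 := by
      intro b
      rcases le_total 0 (u b) with h | h
      · rw [max_eq_left h, max_eq_right (by linarith), abs_of_nonneg h]; ring
      · rw [max_eq_right h, max_eq_left (by linarith), abs_of_nonpos h]; ring
    have h5 : ∑ b, (u b : ℂ) * (JJ f μ b - c₀) =
        ∑ b, ((max (u b) 0 : ℝ) : ℂ) * (JJ f μ b - c₀) -
          ∑ b, ((max (-u b) 0 : ℝ) : ℂ) * (JJ f μ b - c₀) := by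
      rw [← sum_sub_distrib]
      refine sum_congr rfl fun b _ => ?_
      conv_lhs => rw [h3 b]
      ring
    rw [h5]
    refine (norm_sub_le _ _).trans ((add_le_add h1 h2).trans (le_of_eq ?_))
    rw [← mul_add, ← sum_add_distrib]
    simp_rw [h4]
  have h1 := s2 (fun b => (g b).re) (fun b => by rw [hp]) (fun b => by rw [hq])
  have h2 := s2 (fun b => (g b).im) (fun b => by rw [hp]) (fun b => by rw [hq])
  have h3 : ∑ b, g b * (JJ f μ b - c₀) = ∑ b, ((g b).re : ℂ) * (JJ f μ b - c₀) +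
      Complex.I * ∑ b, ((g b).im : ℂ) * (JJ f μ b - c₀) := by
    rw [mul_sum, ← sum_add_distrib]
    refine sum_congr rfl fun b _ => ?_
    conv_lhs => rw [← Complex.re_add_im (g b)]
    ring
  rw [h3]
  refine (norm_add_le _ _).trans ?_
  rw [norm_mul, Complex.norm_I, one_mul]
  refine (add_le_add h1 h2).trans ?_
  rw [← mul_add, ← sum_add_distrib, mul_assoc 2, mul_left_comm 2]
  apply mul_le_mul_of_nonneg_left _ hδ
  rw [mul_sum]
  refine sum_le_sum fun b _ => ?_
  have := Complex.abs_re_le_norm (g b)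
  have := Complex.abs_im_le_norm (g b)
  linarith

/-- inverse Fourier transform on `ZMod N` -/
noncomputable def ift {N : ℕ} [NeZero N] (ψ : ZMod N → ℂ) (b : ZMod N) : ℂ :=
  (1 / N : ℂ) * ∑ x, ψ x * ZMod.stdAddChar (-(x * b))

lemma ift_inv {N : ℕ} [NeZero N] {r : ℕ} (hr : N.Coprime r) {ψ : ZMod N → ℂ}
    (h : ∀ x, ψ ((r : ZMod N) * x) = ψ x) (b : ZMod N) :
    ift ψ ((r : ZMod N) * b) = ift ψ b := by
  unfold ift
  congr 1
  set u : (ZMod N)ˣ := ZMod.unitOfCoprime r hr.symm with hu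
  have huc : (u : ZMod N) = (r : ZMod N) := ZMod.coe_unitOfCoprime r hr.symm
  refine Fintype.sum_bijective (fun x : ZMod N => (r : ZMod N) * x) ?_ _ _ (fun x => ?_)
  · rw [← huc]
    exact (Units.mulLeft u).bijective
  · rw [h x]
    congr 2
    ring

lemma ift_sum {N : ℕ} [NeZero N] (ψ : ZMod N → ℂ) (n : ZMod N) :
    ∑ b, ift ψ b * ZMod.stdAddChar (n * b) = ψ n := by
  unfold ift
  have hN : (N : ℂ) ≠ 0 := by exact_mod_cast NeZero.ne N
  have h1 : ∀ b : ZMod N, (1 / N : ℂ) * (∑ x, ψ x * ZMod.stdAddChar (-(x * b))) *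
      ZMod.stdAddChar (n * b) = (1 / N : ℂ) * ∑ x, ψ x * ZMod.stdAddChar (b * (n - x)) := by
    intro b
    rw [mul_assoc, sum_mul]
    congr 1
    refine sum_congr rfl fun x _ => ?_
    rw [mul_assoc, ← AddChar.map_add_eq_mul]
    congr 2
    ring
  simp_rw [h1]
  rw [← mul_sum, sum_comm]
  have h2 : ∀ x : ZMod N, ∑ b : ZMod N, ψ x * ZMod.stdAddChar (b * (n - x)) =
      if x = n then (N : ℂ) * ψ x else 0 := by
    intro x
    rw [← mul_sum, AddChar.sum_mulShift (R' := ℂ) (n - x) (ZMod.isPrimitive_stdAddChar N)]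
    have h3 : (n - x = 0) ↔ x = n := by
      rw [sub_eq_zero]; exact eq_comm
    simp only [h3, ZMod.card]
    split_ifs
    · ring
    · simp
  simp_rw [h2]
  rw [sum_ite_eq' univ n]
  simp [hN]

/-! ### functions with absolutely convergent Fourier series -/

/-- the sum of the series -/
noncomputable def wf (c : ℤ → ℂ) (x : TT) : ℂ := ∑' n, c n * fourier n x

lemma wf_summable {c : ℤ → ℂ} (hc : Summable fun n => ‖c n‖) (x : TT) :
    Summable fun n => c n * (fourier n x : ℂ) := by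
  refine Summable.of_norm ?_
  simp only [norm_mul, norm_f, mul_one]
  exact hc

lemma wf_continuous {c : ℤ → ℂ} (hc : Summable fun n => ‖c n‖) : Continuous (wf c) := by
  refine continuous_tsum (fun n => ?_) hc (fun n x => ?_)
  · exact continuous_const.mul (fourier n).continuous
  · rw [norm_mul, norm_f, mul_one]

lemma wf_bound {c : ℤ → ℂ} (hc : Summable fun n => ‖c n‖) (x : TT) :
    ‖wf c x‖ ≤ ∑' n, ‖c n‖ := by
  refine (norm_tsum_le_tsum_norm ?_).trans (le_of_eq ?_)
  · simp only [norm_mul, norm_f, mul_one]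
    exact hc
  · congr 1
    funext n
    rw [norm_mul, norm_f, mul_one]

lemma integral_wf {c : ℤ → ℂ} (hc : Summable fun n => ‖c n‖) (μ : Measure TT)
    [IsProbabilityMeasure μ] (x₀ : TT) :
    ∫ y, wf c (x₀ + y) ∂μ = ∑' n, c n * hat μ n * fourier n x₀ := by
  unfold wf
  rw [← integral_tsum_of_summable_integral_norm]
  · congr 1
    funext n
    unfold hat
    have : ∀ y : TT, c n * (fourier n (x₀ + y) : ℂ) = (c n * fourier n x₀) * fourier n y := by
      intro y
      rw [f_add]; ring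
    simp_rw [this]
    rw [integral_const_mul]
    ring
  · intro n
    refine Integrable.of_bound (C := ‖c n‖) ?_ (Filter.Eventually.of_forall fun y => ?_)
    · exact (continuous_const.mul ((fourier n).continuous.comp (by fun_prop))).aestronglyMeasurable
    · rw [norm_mul, norm_f, mul_one]
  · simp only [norm_mul, norm_f, mul_one, integral_const, probReal_univ, one_smul]
    exact hc

lemma integral_wf' {c : ℤ → ℂ} (hc : Summable fun n => ‖c n‖) (μ : Measure TT)
    [IsProbabilityMeasure μ] : ∫ y, wf c y ∂μ = ∑' n, c n * hat μ n := by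
  have h := integral_wf hc μ 0
  simp only [zero_add] at h
  rw [h]
  congr 1
  funext n
  rw [f_zero, mul_one]

lemma wsum_summable {c : ℤ → ℂ} (hc : Summable fun n => ‖c n‖) (μ : Measure TT)
    [IsProbabilityMeasure μ] (t : ℤ → ℂ) (ht : ∀ n, ‖t n‖ ≤ 1) :
    Summable fun n => c n * hat μ n * t n := by
  refine Summable.of_norm_bounded hc fun n => ?_
  rw [norm_mul, norm_mul]
  calc ‖c n‖ * ‖hat μ n‖ * ‖t n‖ ≤ ‖c n‖ * 1 * 1 := by
        have h1 := norm_hat_le μ n
        have h2 := ht n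
        gcongr
    _ = ‖c n‖ := by ring

/-- the Fourier series twisted by an invariant function on `ZMod N` -/
theorem wiener_twist {N : ℕ} [NeZero N] (hNp : N.Coprime p) (hNq : N.Coprime q) {c : ℤ → ℂ}
    (hc : Summable fun n => ‖c n‖) {δ : ℝ} (hδ : 0 ≤ δ)
    (hfδ : ∀ ν : Measure TT, Inv p q ν → ‖∫ x, wf c x ∂ν - c 0‖ ≤ δ) {μ : Measure TT}
    (hμ : Inv p q μ) (ψ : ZMod N → ℂ) (hp : ∀ b, ψ ((p : ZMod N) * b) = ψ b)
    (hq : ∀ b, ψ ((q : ZMod N) * b) = ψ b) (h0 : ψ 0 = 0) :
    ‖∑' n : ℤ, c n * hat μ n * ψ (n : ZMod N)‖ ≤ 2 * δ * ∑ b, ‖ift ψ b‖ := by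
  haveI := hμ.prob
  have h1 := func_bound hNp hNq (wf_continuous hc).measurable (wf_bound hc) hδ hfδ hμ (ift ψ)
    (ift_inv hNp hp) (ift_inv hNq hq)
  have h2 : ∑ b, ift ψ b * (JJ (wf c) μ b - c 0) = ∑' n : ℤ, c n * hat μ n * ψ (n : ZMod N) := by
    have h3 : ∑ b, ift ψ b = 0 := by
      have h4 := ift_sum ψ 0
      rw [h0] at h4
      simpa using h4
    simp_rw [mul_sub]
    rw [sum_sub_distrib, ← sum_mul, h3, zero_mul, sub_zero]
    unfold JJ
    have h5 : ∀ b : ZMod N, ift ψ b * ∫ y, wf c (pt b + y) ∂μ =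
        ∑' n : ℤ, c n * hat μ n * (ift ψ b * ZMod.stdAddChar ((n : ZMod N) * b)) := by
      intro b
      rw [integral_wf hc, ← tsum_mul_left]
      congr 1
      funext n
      rw [fourier_pt]
      ring
    simp_rw [h5]
    rw [← Summable.tsum_finsetSum]
    · congr 1
      funext n
      rw [← mul_sum, ift_sum]
    · intro b _
      have h6 := wsum_summable hc μ (fun n : ℤ => (ZMod.stdAddChar ((n : ZMod N) * b) : ℂ))
        (fun n => by rw [← fourier_pt]; exact (norm_f _ _).le)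
      have h7 := h6.mul_left (ift ψ b)
      refine h7.congr fun n => ?_
      ring
  rw [← h2]
  exact h1

end Pool.Agent.Run7.h776.FT
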