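import Pool.Agent.Run7.h776.FT.BV

/-! # Linear functionals on the invariant measures -/

set_option autoImplicit false
set_option linter.style.haveILetI false

namespace Pool.Agent.Run7.h776.FT

open MeasureTheory Finset
open Pool.Agent.R203.ID (hat norm_f f_add f_zero f_smul f_nsmul f_neg integrable_f norm_hat_le
  ext_hat hat_map_nsmul hat_map_smul inv_iff conv hat_conv conv_atom)

/-- the orbit sum of Fourier coefficients -/
noncomputable def orb (p q : ℕ) (f : TT → ℝ) (a : ℤ) : ℂ :=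
  ∑' ij : ℕ × ℕ, fourierCoeff (fun x => (f x : ℂ)) (a * ((p : ℤ) ^ ij.1 * (q : ℤ) ^ ij.2))

lemma wf_smul {γ : ℤ → ℂ} (c : ℂ) (x : TT) :
    wf (fun n => c * γ n) x = c * wf γ x := by
  unfold wf
  rw [← tsum_mul_left]
  congr 1
  funext n
  ring

lemma wf_sum {κ : Type} [Fintype κ] {γ : κ → ℤ → ℂ} (hγ : ∀ l, Summable fun n => ‖γ l n‖) (x : TT) :
    wf (fun n => ∑ l, γ l n) x = ∑ l, wf (γ l) x := by
  unfold wf
  rw [← Summable.tsum_finsetSum]
  · congr 1
    funext n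
    rw [sum_mul]
  · intro l _
    exact wf_summable (hγ l) x

lemma f_zero' (x : TT) : (fourier 0 x : ℂ) = 1 := by
  rw [fourier_zero]

variable {p q : ℕ}

/-- `ν` is an `(a, N)`-relative of `μ`: `ν = τ * ρ`, where `ρ` is the lift by `a` of a dilate of
`μ` and `τ` is an invariant measure on the points of order dividing `N` -/
def Rel (p q a N : ℕ) (μ ν : Measure TT) : Prop :=
  ∃ (n : ℤ) (ρ τ : Measure TT), n ≠ 0 ∧ PInv p q ρ ∧ PInv p q τ ∧
    (∀ m : ℤ, hat ρ (a * m) = hat μ (n * m)) ∧ (∀ m : ℤ, ¬ (a : ℤ) ∣ m → hat ρ m = 0) ∧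
    (∀ᵐ x ∂τ, N • x = 0) ∧ ν = (τ.prod ρ).map (fun z => z.1 + z.2)

/-- relatives of atomless invariant measures are atomless invariant measures -/
lemma Rel.inv {a N : ℕ} {μ ν : Measure TT} (h : Rel p q a N μ ν) (hμ : Inv p q μ) :
    Inv p q ν := by
  obtain ⟨n, ρ, τ, hn, hρ, hτ, h1, _, _, rfl⟩ := h
  haveI := hρ.prob
  haveI := hμ.prob
  have ham : Measurable fun x : TT => (a : ℤ) • x := by fun_prop
  have hnm : Measurable fun x : TT => n • x := by fun_prop
  haveI : IsProbabilityMeasure (ρ.map fun x : TT => (a : ℤ) • x) :=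
    Measure.isProbabilityMeasure_map ham.aemeasurable
  haveI : IsProbabilityMeasure (μ.map fun x : TT => n • x) :=
    Measure.isProbabilityMeasure_map hnm.aemeasurable
  have he : (ρ.map fun x : TT => (a : ℤ) • x) = μ.map fun x : TT => n • x := by
    apply ext_hat
    intro m
    rw [hat_map_smul, hat_map_smul, mul_comm, h1, mul_comm]
  have hna : ∀ x, ρ {x} = 0 := by
    intro x
    have h2 := (dil_Inv hμ hn).na ((a : ℤ) • x)
    rw [← he, Measure.map_apply ham (measurableSet_singleton _)] at h2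
    refine measure_mono_null ?_ h2
    intro y hy
    rw [Set.mem_singleton_iff] at hy
    rw [hy]
    rfl
  exact conv_Inv hτ (Inv.mk' hρ hna)

lemma atom_torsion {N : ℕ} [NeZero N] (w : ZMod N → ℝ) : ∀ᵐ x ∂(atom w), N • x = 0 := by
  have hms : MeasurableSet {x : TT | ¬ N • x = 0} :=
    (isClosed_singleton.preimage (continuous_nsmul N)).measurableSet.compl
  rw [ae_iff]
  unfold atom mix
  rw [Measure.finsetSum_apply]
  refine sum_eq_zero fun b _ => ?_
  rw [Measure.smul_apply, Measure.dirac_apply' _ hms]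
  have h0 : N • pt b = (0 : TT) := by
    rw [pt_nsmul]
    unfold pt
    simp
  simp [h0]

lemma orb_conj (p q : ℕ) (f : TT → ℝ) (a : ℤ) :
    orb p q f (-a) = (starRingEnd ℂ) (orb p q f a) := by
  unfold orb
  rw [Complex.conj_tsum]
  congr 1
  funext ij
  unfold fourierCoeff
  rw [← integral_conj]
  congr 1
  funext x
  rw [smul_eq_mul, smul_eq_mul, map_mul, Complex.conj_ofReal, ← fourier_neg]
  congr 2
  congr 1
  ring

/-- the index can be taken positive -/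
lemma exists_pos {f : TT → ℝ} {a₀ : ℤ} (ha₀ : a₀ ≠ 0) (hap₀ : IsCoprime a₀ (p : ℤ))
    (haq₀ : IsCoprime a₀ (q : ℤ)) (hC₀ : orb p q f a₀ ≠ 0) : ∃ a : ℕ, 0 < a ∧ a.Coprime p ∧
      a.Coprime q ∧ orb p q f a ≠ 0 := by
  refine ⟨a₀.natAbs, by omega, ?_, ?_, ?_⟩
  · have := Int.isCoprime_iff_gcd_eq_one.1 hap₀
    simpa [Int.gcd] using this
  · have := Int.isCoprime_iff_gcd_eq_one.1 haq₀
    simpa [Int.gcd] using this
  · rcases Int.natAbs_eq a₀ with h | h
    · rw [← h]; exact hC₀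
    · have h1 : ((a₀.natAbs : ℕ) : ℤ) = -a₀ := by omega
      rw [h1, orb_conj]
      exact (map_ne_zero _).2 hC₀

/-- **The main theorem for one measure and one test function.** -/
theorem TF.single (hM : S_MOD) (hp : p.Prime) (hq : q.Prime) (hpq : p ≠ q) {f : TT → ℝ}
    (hf : TF f) {a : ℕ} (ha : 0 < a) (hap : a.Coprime p) (haq : a.Coprime q)
    (hC : orb p q f a ≠ 0) {η : ℝ} (hη : 0 < η) :
    ∃ (N : ℕ) (δ : ℝ), 0 < N ∧ N.Coprime p ∧ N.Coprime q ∧ 0 < δ ∧
      ∀ μ : Measure TT, PInv p q μ → (∃ n : ℤ, n ≠ 0 ∧ η ≤ ‖hat μ n‖) →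
        ∃ ν : Measure TT, Rel p q a N μ ν ∧ ∫ x, f x ∂ν ≤ (∫ x, f x) - δ := by
  have haz : (a : ℤ) ≠ 0 := by omega
  have hapz : IsCoprime (a : ℤ) (p : ℤ) := Nat.isCoprime_iff_coprime.2 hap
  have haqz : IsCoprime (a : ℤ) (q : ℤ) := Nat.isCoprime_iff_coprime.2 haq
  obtain ⟨V, hF⟩ := hf.jf
  set c : ℝ := ∫ x, f x with hc
  set γ : ℤ → ℂ := fun n => if n = 0 then (c : ℂ) else 0 with hγdef
  have hγ0 : γ 0 = (c : ℂ) := by rw [hγdef]; exact if_pos rfl
  have hΓ : ∀ n : ℤ, n ≠ 0 → ‖γ n‖ ≤ 0 / (n : ℝ) ^ 2 := by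
    intro n hn
    rw [hγdef]
    simp only
    rw [if_neg hn]
    simp
  have hγ := summable_of_quad hΓ
  have hx : ∀ x, (f x : ℂ) = PF (fun x => ((f x : ℝ) : ℂ) - (c : ℂ)) γ x := by
    intro x
    unfold PF wf
    rw [tsum_eq_single 0]
    · rw [hγ0, f_zero', mul_one]
      ring
    · intro n hn
      rw [hγdef]
      simp only
      rw [if_neg hn, zero_mul]
  have hint : ∀ ν : Measure TT,
      (∫ x, PF (fun x => ((f x : ℝ) : ℂ) - (c : ℂ)) γ x ∂ν).re = ∫ x, f x ∂ν := by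
    intro ν
    simp_rw [← hx]
    have : ∫ x, (f x : ℂ) ∂ν = ((∫ x, f x ∂ν : ℝ) : ℂ) := integral_ofReal
    rw [this, Complex.ofReal_re]
  have horb : orb p q f a =
      CC p q a (fun n => fourierCoeff (fun x => ((f x : ℝ) : ℂ) - (c : ℂ)) n + γ n) := by
    have hfun : (fun x => (f x : ℂ)) = PF (fun x => ((f x : ℝ) : ℂ) - (c : ℂ)) γ := funext hx
    unfold orb CC
    rw [hfun]
    congr 1
    funext ij
    exact fc_PF hF hγ _
  rw [horb] at hC
  obtain ⟨N, hN0, δ, hNp, hNq, hδ, hb⟩ := FT.single hM hp hq hpq haz hapz haqz hF hΓ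
    (fun x => by rw [← hx]; exact Complex.ofReal_im _) (by rw [hγ0]; exact Complex.ofReal_im _)
    hC hη
  refine ⟨N, δ, Nat.pos_of_ne_zero (NeZero.ne N), hNp, hNq, hδ, ?_⟩
  intro μ hμ hμη
  haveI := hμ.prob
  obtain ⟨n, hn, h1⟩ := hb μ hμ hμη
  obtain ⟨ρ, hρ, _, hρc⟩ := exists_lift0 (dil_PInv hμ n) ha.ne' hap haq
  have hρ1 : ∀ m : ℤ, hat ρ (a * m) = hat μ (n * m) := by
    intro m
    rw [(hρc m).1, hat_map_smul, mul_comm]
  obtain ⟨w, hw0, hw1, hwp, hwq, hle⟩ := h1 ρ hρ (by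
      have := hρ1 1
      rwa [mul_one, mul_one] at this) (by
      intro V hV0 hV m hm
      by_cases hd : (a : ℤ) ∣ m
      · obtain ⟨m', rfl⟩ := hd
        rw [hρ1]
        exact hV _ (mul_ne_zero hn (right_ne_zero_of_mul hm))
      · rw [(hρc m).2 hd, norm_zero]
        exact hV0)
  refine ⟨conv (atom w) ρ, ⟨n, ρ, atom w, hn, hρ, atom_PInv hNp hNq w hw0 hw1 hwp hwq, hρ1,
    fun m hm => (hρc m).2 hm, atom_torsion w, rfl⟩, ?_⟩
  rw [hint, hγ0, Complex.ofReal_re] at hle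
  exact hle

/-- all coefficients vanish: the measure is Lebesgue -/
lemma eq_vol {μ : Measure TT} (hμ : IsProbabilityMeasure μ) (h : ∀ n : ℤ, n ≠ 0 → hat μ n = 0) :
    μ = volume := by
  apply ext_hat
  intro n
  by_cases hn : n = 0
  · rw [hn, hat_zero, hat_zero]
  · rw [h n hn, hat_vol, if_neg hn]

/-- a one-sided inequality for a nontrivial test function decides the conjecture -/
theorem TF.decides (hM : S_MOD) (hp : p.Prime) (hq : q.Prime) (hpq : p ≠ q) {f : TT → ℝ}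
    (hf : TF f) {a : ℤ} (ha : a ≠ 0) (hap : IsCoprime a (p : ℤ)) (haq : IsCoprime a (q : ℤ))
    (hC : orb p q f a ≠ 0)
    (h : ∀ ν : Measure TT, Inv p q ν → ∫ x, f x ≤ ∫ x, f x ∂ν) :
    ∀ μ : Measure TT, Inv p q μ → μ = volume := by
  intro μ hμ
  refine eq_vol hμ.prob fun n hn => ?_
  by_contra hne
  obtain ⟨a', ha', hap', haq', hC'⟩ := exists_pos ha hap haq hC
  obtain ⟨N, δ, _, _, _, hδ, hb⟩ := hf.single hM hp hq hpq ha' hap' haq' hC'
    (norm_pos_iff.2 hne)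
  obtain ⟨ν, hν, hle⟩ := hb μ hμ.toP ⟨n, hn, le_rfl⟩
  have h1 := h ν (hν.inv hμ)
  linarith

/-- separation in finite dimension -/
lemma exists_dual {κ : Type} [Fintype κ] {S : Set (κ → ℝ)} (hS : Convex ℝ S)
    (h0 : (0 : κ → ℝ) ∈ S) (hi : (0 : κ → ℝ) ∉ interior S) :
    ∃ w : κ → ℝ, w ≠ 0 ∧ ∀ v ∈ S, ∑ l, w l * v l ≤ 0 := by
  classical
  have key : ∃ f : (κ → ℝ) →ₗ[ℝ] ℝ, f ≠ 0 ∧ ∀ v ∈ S, f v ≤ 0 := by
    by_cases hne : (interior S).Nonempty
    · obtain ⟨f, hf, h⟩ := geometric_hahn_banach_of_nonempty_interior_point hS hi hne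
      refine ⟨f.toLinearMap, fun h' => hf ?_, fun v hv => ?_⟩
      · ext v
        exact LinearMap.congr_fun h' v
      · have := h v hv
        simpa using this
    · rw [hS.interior_nonempty_iff_affineSpan_eq_top] at hne
      have h1 : vectorSpan ℝ S < ⊤ := by
        rw [lt_top_iff_ne_top]
        intro h
        exact hne ((AffineSubspace.affineSpan_eq_top_iff_vectorSpan_eq_top_of_nonempty ℝ _ _
          ⟨0, h0⟩).2 h)
      obtain ⟨f, hf, hker⟩ := Submodule.exists_le_ker_of_lt_top _ h1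
      refine ⟨f, hf, fun v hv => ?_⟩
      have h2 : v - 0 ∈ vectorSpan ℝ S := by
        rw [← vsub_eq_sub]
        exact vsub_mem_vectorSpan ℝ hv h0
      rw [sub_zero] at h2
      exact (LinearMap.mem_ker.1 (hker h2)).le
  obtain ⟨f, hf, h⟩ := key
  have hrep : ∀ v, f v = ∑ l, f (Pi.single l 1) * v l := by
    intro v
    rw [LinearMap.pi_apply_eq_sum_univ f v]
    refine sum_congr rfl fun l _ => ?_
    rw [smul_eq_mul, mul_comm]
    congr 2
    funext j
    simp only [Pi.single_apply, eq_comm]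
  refine ⟨fun l => f (Pi.single l 1), fun hw => hf ?_, fun v hv => ?_⟩
  · ext v
    rw [LinearMap.comp_apply, LinearMap.zero_comp, LinearMap.zero_apply]
    exact congrFun hw v
  · rw [← hrep]
    exact h v hv

/-- **Open mapping.** -/
theorem fill (hM : S_MOD) (hp : p.Prime) (hq : q.Prime) (hpq : p ≠ q) {κ : Type} [Fintype κ]
    {f : κ → TT → ℝ} (hf : ∀ l, TF (f l))
    (hind : ∀ w : κ → ℝ, w ≠ 0 → ∃ a : ℤ, a ≠ 0 ∧ IsCoprime a (p : ℤ) ∧
      IsCoprime a (q : ℤ) ∧ orb p q (fun x => ∑ l, w l * f l x) a ≠ 0)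
    {μ₀ : Measure TT} (hμ₀ : Inv p q μ₀) (hne : μ₀ ≠ volume) :
    ∃ ρ : ℝ, 0 < ρ ∧ ∀ z : κ → ℝ, (∀ l, |z l| ≤ ρ) →
      ∃ μ : Measure TT, Inv p q μ ∧ ∀ l, ∫ x, f l x ∂μ = (∫ x, f l x) + z l := by
  set S : Set (κ → ℝ) := {v | ∃ μ : Measure TT, Inv p q μ ∧
    ∀ l, ∫ x, f l x ∂μ = (∫ x, f l x) + v l} with hS
  have hconv : Convex ℝ S := by
    rintro u ⟨μ, hμ, hu⟩ v ⟨ν, hν, hv⟩ s t hs ht hst
    set M : Bool → Measure TT := fun b => if b then μ else ν with hMdef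
    set W : Bool → ℝ := fun b => if b then s else t with hWdef
    have hW : ∀ i ∈ (univ : Finset Bool), 0 ≤ W i := by
      intro i _; cases i <;> simp [hWdef, hs, ht]
    have hW1 : ∑ i, W i = 1 := by simp [hWdef, hst]
    have hMI : ∀ i ∈ (univ : Finset Bool), Inv p q (M i) := by
      intro i _; cases i <;> simp [hMdef, hμ, hν]
    have hmix := mix_Inv univ W M hW hW1 hMI
    refine ⟨mix univ W M, hmix, fun l => ?_⟩
    haveI := hμ.prob
    haveI := hν.prob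
    have h1 : ∫ x, (f l x : ℂ) ∂(mix univ W M) = ∑ i, (W i : ℂ) * ∫ x, (f l x : ℂ) ∂(M i) := by
      apply integral_mix _ _ _ hW
      intro i hi
      haveI := (hMI i hi).prob
      exact ((hf l).integrable (M i)).ofReal
    have h2 : ∀ ρ : Measure TT, ∫ x, (f l x : ℂ) ∂ρ = ((∫ x, f l x ∂ρ : ℝ) : ℂ) :=
      fun ρ => integral_ofReal
    rw [h2, Fintype.sum_bool] at h1
    simp only [h2, hMdef, hWdef, if_true, Bool.false_eq_true, if_false] at h1
    rw [hu l, hv l] at h1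
    have h3 : ∫ x, f l x ∂(mix univ W M) =
        s * ((∫ x, f l x) + u l) + t * ((∫ x, f l x) + v l) := by exact_mod_cast h1
    rw [h3]
    simp only [Pi.add_apply, Pi.smul_apply, smul_eq_mul]
    have h4 : t = 1 - s := by linarith
    rw [h4]
    ring
  have h0 : (0 : κ → ℝ) ∈ S :=
    ⟨volume, vol_Inv hp.ne_zero hq.ne_zero, fun l => by simp⟩
  by_cases hi : (0 : κ → ℝ) ∈ interior S
  · rw [mem_interior_iff_mem_nhds, Metric.mem_nhds_iff] at hi
    obtain ⟨ρ, hρ, hball⟩ := hi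
    refine ⟨ρ / 2, by positivity, fun z hz => ?_⟩
    have h1 : z ∈ S := by
      apply hball
      rw [Metric.mem_ball, dist_zero_right]
      have h2 : ‖z‖ ≤ ρ / 2 := (pi_norm_le_iff_of_nonneg (by positivity)).2 hz
      linarith
    exact h1
  · exfalso
    obtain ⟨w, hw, hwS⟩ := exists_dual hconv h0 hi
    obtain ⟨a, ha, hap, haq, hC⟩ := hind (-w) (neg_ne_zero.2 hw)
    apply hne
    refine TF.decides hM hp hq hpq (TF.sum hf (-w)) ha hap haq hC (fun ν hν => ?_) μ₀ hμ₀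
    haveI := hν.prob
    have h1 : ∀ ρ : Measure TT, IsProbabilityMeasure ρ → ∫ x, ∑ l, (-w) l * f l x ∂ρ =
        ∑ l, (-w) l * ∫ x, f l x ∂ρ := by
      intro ρ hρ
      rw [integral_finsetSum _ fun l _ => ((hf l).integrable ρ).const_mul _]
      exact sum_congr rfl fun l _ => integral_const_mul _ _
    rw [h1 _ inferInstance, h1 _ inferInstance]
    have h2 := hwS (fun l => (∫ x, f l x ∂ν) - ∫ x, f l x) ⟨ν, hν, fun l => by ring⟩
    have h3 : (∑ l, (-w) l * ∫ x, f l x ∂ν) - (∑ l, (-w) l * ∫ x, f l x) =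
        -∑ l, w l * ((∫ x, f l x ∂ν) - ∫ x, f l x) := by
      rw [← sum_sub_distrib, ← sum_neg_distrib]
      exact sum_congr rfl fun l _ => by simp only [Pi.neg_apply]; ring
    linarith

end Pool.Agent.Run7.h776.FT
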