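import Pool.Agent.Run7.h776.FT.Bound

/-! # One-sided hypotheses -/

set_option autoImplicit false
set_option linter.style.haveILetI false

namespace Pool.Agent.Run7.h776.FT

open MeasureTheory Finset
open Pool.Agent.R203.ID (hat norm_f f_add f_zero f_smul f_nsmul f_neg integrable_f norm_hat_le
  ext_hat hat_map_nsmul hat_map_smul inv_iff conv hat_conv conv_atom)

variable {p q : ℕ}

/-- **The linear inequality from a one-sided bound.** -/
theorem func_bound1 {N : ℕ} [NeZero N] {f : TT → ℂ}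
    (hf : Measurable f) {M : ℝ} (hM : ∀ x, ‖f x‖ ≤ M) (hre : ∀ x, (f x).im = 0) {c₀ δ E G : ℝ}
    (hG : 0 ≤ G) {μ : Measure TT} [IsProbabilityMeasure μ]
    (hfδ : ∀ w : ZMod N → ℝ, (∀ b, 0 ≤ w b) → ∑ b, w b = 1 → (∀ b, w ((p : ZMod N) * b) = w b) →
      (∀ b, w ((q : ZMod N) * b) = w b) → c₀ - δ ≤ (∫ x, f x ∂(conv (atom w) μ)).re)
    (g : ZMod N → ℂ) (hp : ∀ b, g ((p : ZMod N) * b) = g b)
    (hq : ∀ b, g ((q : ZMod N) * b) = g b) (hg0 : ∑ b, g b = 0) (hgb : ∀ b, ‖g b‖ ≤ G * (1 / N))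
    (hE : ‖(1 / N : ℂ) * ∑ b : ZMod N, (JJ f μ b - (c₀ : ℂ))‖ ≤ E) :
    ‖∑ b, g b * (JJ f μ b - (c₀ : ℂ))‖ ≤ G * (δ + E) := by
  have hNpos : (0 : ℝ) < N := by exact_mod_cast Nat.pos_of_ne_zero (NeZero.ne N)
  have hNc : (N : ℂ) ≠ 0 := by exact_mod_cast NeZero.ne N
  set R : ZMod N → ℝ := fun b => (∫ y, (f (pt b + y)).re ∂μ) - c₀ with hR
  have hJ : ∀ b : ZMod N, JJ f μ b = ((R b + c₀ : ℝ) : ℂ) := by
    intro b
    have h1 : ∀ y, f (pt b + y) = (((f (pt b + y)).re : ℝ) : ℂ) := fun y =>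
      Complex.ext (by simp) (by simp [hre])
    unfold JJ
    rw [hR]
    simp only [sub_add_cancel]
    rw [← integral_complex_ofReal]
    exact integral_congr_ae (Filter.Eventually.of_forall h1)
  have hJR : ∀ b : ZMod N, JJ f μ b - (c₀ : ℂ) = (R b : ℂ) := by
    intro b
    rw [hJ b]
    push_cast
    ring
  simp_rw [hJR] at hE ⊢
  have hE' : (1 / N : ℝ) * ∑ b, R b ≤ E := by
    have h1 : (1 / N : ℂ) * ∑ b, (R b : ℂ) = (((1 / N : ℝ) * ∑ b, R b : ℝ) : ℂ) := by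
      push_cast; ring
    rw [h1, Complex.norm_real, Real.norm_eq_abs] at hE
    exact (le_abs_self _).trans hE
  rcases hG.eq_or_lt with h0 | hpos
  · have hz : ∀ b, g b = 0 := by
      intro b
      have := hgb b
      rw [← h0, zero_mul] at this
      exact norm_le_zero_iff.1 this
    simp [hz, ← h0]
  set S : ℂ := ∑ b, g b * (R b : ℂ) with hS
  obtain ⟨ζ, hζ1, hζ2⟩ : ∃ ζ : ℂ, ‖ζ‖ ≤ 1 ∧ (ζ * S).re = -‖S‖ := by
    by_cases h : S = 0
    · exact ⟨0, by simp, by simp [h]⟩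
    · have hn : (‖S‖ : ℂ) ≠ 0 := by
        exact_mod_cast (norm_pos_iff.2 h).ne'
      refine ⟨-((starRingEnd ℂ) S / ‖S‖), ?_, ?_⟩
      · rw [norm_neg, norm_div, RCLike.norm_conj, Complex.norm_real, norm_norm,
          div_self (norm_pos_iff.2 h).ne']
      · have h1 : -((starRingEnd ℂ) S / ‖S‖) * S = ((-‖S‖ : ℝ) : ℂ) := by
          rw [neg_mul, div_mul_eq_mul_div, mul_comm, Complex.mul_conj, Complex.normSq_eq_norm_sq]
          push_cast
          field_simp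
        rw [h1, Complex.ofReal_re]
  set w : ZMod N → ℝ := fun b => 1 / N + (ζ * g b).re / G with hw
  have hw0 : ∀ b, 0 ≤ w b := by
    intro b
    have h1 : |(ζ * g b).re| ≤ G * (1 / N) := by
      refine (Complex.abs_re_le_norm _).trans ?_
      rw [norm_mul]
      calc ‖ζ‖ * ‖g b‖ ≤ 1 * (G * (1 / N)) := by
            have := hgb b
            gcongr
        _ = G * (1 / N) := one_mul _
    have h2 : -(G * (1 / N)) ≤ (ζ * g b).re := (abs_le.1 h1).1
    have h3 : -(1 / N : ℝ) ≤ (ζ * g b).re / G := by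
      rw [le_div_iff₀ hpos]
      linarith
    rw [hw]
    simp only
    linarith
  have hsumre : ∑ b, (ζ * g b).re = 0 := by
    have h1 : ∑ b, (ζ * g b) = 0 := by rw [← mul_sum, hg0, mul_zero]
    have h2 := congrArg Complex.re h1
    rw [Complex.re_sum] at h2
    simpa using h2
  have hw1 : ∑ b, w b = 1 := by
    have e1 : ∑ b : ZMod N, (ζ * g b).re / G = 0 := by rw [← sum_div, hsumre, zero_div]
    have e2 : ∑ _b : ZMod N, (1 / N : ℝ) = 1 := by
      rw [sum_const, card_univ, ZMod.card, nsmul_eq_mul, mul_one_div_cancel hNpos.ne']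
    rw [hw]
    simp only
    rw [sum_add_distrib, e1, e2, add_zero]
  have h2 := hfδ w hw0 hw1 (fun b => by rw [hw]; simp only; rw [hp])
    (fun b => by rw [hw]; simp only; rw [hq])
  rw [integral_conv_atom w hw0 hw1 μ hf hM] at h2
  have h3 : (∑ b, (w b : ℂ) * JJ f μ b).re = ∑ b, w b * R b + c₀ := by
    have h4 : ∑ b, (w b : ℂ) * JJ f μ b = ((∑ b, w b * R b + c₀ : ℝ) : ℂ) := by
      simp_rw [hJ]
      have h5 : ∑ b, (w b : ℂ) * ((R b + c₀ : ℝ) : ℂ) =
          ((∑ b, (w b * R b + w b * c₀) : ℝ) : ℂ) := by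
        push_cast
        exact sum_congr rfl fun b _ => by ring
      rw [h5, sum_add_distrib, ← sum_mul, hw1, one_mul]
    rw [h4, Complex.ofReal_re]
  rw [h3] at h2
  have h6 : ∑ b, w b * R b = (1 / N : ℝ) * ∑ b, R b + (ζ * S).re / G := by
    have h7 : (ζ * S).re = ∑ b, (ζ * g b).re * R b := by
      rw [hS, mul_sum, Complex.re_sum]
      refine sum_congr rfl fun b _ => ?_
      rw [← mul_assoc, Complex.re_mul_ofReal]
    rw [h7, mul_sum, sum_div, ← sum_add_distrib]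
    refine sum_congr rfl fun b _ => ?_
    rw [hw]
    simp only
    ring
  rw [h6, hζ2] at h2
  have h8 : ‖S‖ / G ≤ δ + E := by
    have : -‖S‖ / G = -(‖S‖ / G) := by ring
    rw [this] at h2
    linarith
  rw [div_le_iff₀ hpos] at h8
  linarith

/-- values of the sawtooth on a coset -/
lemma saw_coset {N : ℕ} [NeZero N] (y : TT) : ∃ (x₀ : ℝ) (k : ZMod N), 0 ≤ x₀ ∧ x₀ < 1 / N ∧
    ∀ b : ZMod N, saw (pt b + y) = (((x₀ - 1 / 2) + ((b + k).val : ℝ) / N : ℝ) : ℂ) := by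
  have hN : 0 < N := Nat.pos_of_ne_zero (NeZero.ne N)
  have hNr : (0 : ℝ) < N := by exact_mod_cast hN
  set r := rep y with hr
  obtain ⟨hr0, hr1⟩ := rep_mem y
  set k := ⌊(N : ℝ) * r⌋₊ with hk
  have hk1 : (k : ℝ) ≤ N * r := Nat.floor_le (by positivity)
  have hk2 : (N : ℝ) * r < k + 1 := Nat.lt_floor_add_one _
  set x₀ := r - k / N with hx₀
  have hx0 : 0 ≤ x₀ := by
    rw [hx₀, sub_nonneg, div_le_iff₀ hNr]; linarith
  have hx1 : x₀ < 1 / N := by
    rw [hx₀, sub_lt_iff_lt_add, ← add_div, lt_div_iff₀ hNr]; linarith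
  refine ⟨x₀, (k : ZMod N), hx0, hx1, fun b => ?_⟩
  have h1 : pt b + y = (((b.val : ℝ) / N + r : ℝ) : TT) := by
    rw [AddCircle.coe_add, rep_coe]
    congr 1
    unfold pt
    rw [ZMod.toAddCircle_apply]
  have h2 : rep (pt b + y) = x₀ + ((b + (k : ZMod N)).val : ℝ) / N := by
    rw [h1, rep_real, Int.fract_eq_iff]
    have hv : (b + (k : ZMod N)).val < N := ZMod.val_lt _
    have hv' : ((b + (k : ZMod N)).val : ℝ) + 1 ≤ N := by exact_mod_cast hv
    refine ⟨by positivity, ?_, ?_⟩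
    · calc x₀ + ((b + (k : ZMod N)).val : ℝ) / N < 1 / N + ((b + (k : ZMod N)).val : ℝ) / N := by
            linarith
        _ = (((b + (k : ZMod N)).val : ℝ) + 1) / N := by ring
        _ ≤ 1 := by rw [div_le_one hNr]; exact hv'
    · refine ⟨(((b.val + k) / N : ℕ) : ℤ), ?_⟩
      rw [Int.cast_natCast]
      have h3 : (b + (k : ZMod N)).val = (b.val + k) % N := by
        rw [ZMod.val_add, ZMod.val_natCast]
        simp [Nat.add_mod]
      rw [h3, hx₀]
      have h4 : ((b.val + k : ℕ) : ℝ) = N * ((b.val + k) / N : ℕ) + ((b.val + k) % N : ℕ) := by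
        exact_mod_cast (Nat.div_add_mod (b.val + k) N).symm
      have h5 : ((b.val : ℝ) + k) = N * ((b.val + k) / N : ℕ) + ((b.val + k) % N : ℕ) := by
        rw [← h4]; push_cast; ring
      generalize ((((b.val + k) / N : ℕ) : ℕ) : ℝ) = Q at h5 ⊢
      generalize ((((b.val + k) % N : ℕ) : ℕ) : ℝ) = R at h5 ⊢
      field_simp
      linarith
  unfold saw
  rw [h2]
  push_cast
  ring

/-- the mean of the sawtooth over a coset -/
lemma saw_avg {N : ℕ} [NeZero N] (y : TT) :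
    ‖(1 / N : ℂ) * ∑ b : ZMod N, saw (pt b + y)‖ ≤ 1 / N := by
  have hN : 0 < N := Nat.pos_of_ne_zero (NeZero.ne N)
  have hNr : (0 : ℝ) < N := by exact_mod_cast hN
  obtain ⟨x₀, k, hx0, hx1, hval⟩ := saw_coset (N := N) y
  have hzmod : ∀ (F : ℕ → ℝ), ∑ b : ZMod N, F b.val = ∑ j ∈ range N, F j := by
    intro F
    refine sum_nbij' (fun b : ZMod N => b.val) (fun j : ℕ => (j : ZMod N)) ?_ ?_ ?_ ?_ ?_
    · intro b _
      exact mem_range.2 (ZMod.val_lt b)
    · intro j _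
      exact mem_univ _
    · intro b _
      exact ZMod.natCast_zmod_val b
    · intro j hj
      exact ZMod.val_natCast_of_lt (mem_range.1 hj)
    · intro b _
      rfl
  have hshift : ∑ b : ZMod N, (((b + k).val : ℕ) : ℝ) = ∑ b : ZMod N, ((b.val : ℕ) : ℝ) :=
    Fintype.sum_bijective (fun b : ZMod N => b + k) (Equiv.addRight k).bijective _ _
      (fun b => rfl)
  have hgauss : (∑ j ∈ range N, (j : ℝ)) = N * (N - 1) / 2 := by
    have h := Finset.sum_range_id_mul_two N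
    have h1 : ((∑ j ∈ range N, j : ℕ) : ℝ) * 2 = N * ((N - 1 : ℕ) : ℝ) := by exact_mod_cast h
    rw [Nat.cast_sub hN] at h1
    push_cast at h1
    linarith
  have hsum : (1 / N : ℂ) * ∑ b : ZMod N, saw (pt b + y) = ((x₀ - 1 / (2 * N) : ℝ) : ℂ) := by
    simp_rw [hval]
    rw [← Complex.ofReal_sum, sum_add_distrib, ← sum_div, hshift, hzmod (fun j => (j : ℝ)), hgauss,
      sum_const, card_univ, ZMod.card, nsmul_eq_mul]
    have : (1 / N : ℂ) = ((1 / N : ℝ) : ℂ) := by push_cast; rfl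
    rw [this, ← Complex.ofReal_mul]
    congr 1
    field_simp
    ring
  rw [hsum, Complex.norm_real, Real.norm_eq_abs, abs_le]
  have h1 : (1 : ℝ) / (2 * N) = (1 / N) / 2 := by field_simp
  have h2 : (0 : ℝ) < 1 / N := by positivity
  rw [h1]
  constructor <;> linarith

lemma summable_of_quad {γ : ℤ → ℂ} {Γ : ℝ} (h : ∀ n : ℤ, n ≠ 0 → ‖γ n‖ ≤ Γ / (n : ℝ) ^ 2) :
    Summable fun n => ‖γ n‖ := by
  classical
  have h1 : Summable fun n : ℤ => 1 / (n : ℝ) ^ 2 := Real.summable_one_div_int_pow.2 one_lt_two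
  have h2 : Summable fun n : ℤ => (if n = 0 then ‖γ 0‖ else 0) :=
    summable_of_ne_finset_zero (s := {0}) (fun n hn => if_neg (by simpa using hn))
  refine Summable.of_nonneg_of_le (fun n => norm_nonneg _) (fun n => ?_) ((h1.mul_left Γ).add h2)
  by_cases hn : n = 0
  · rw [hn]; simp
  · have := h n hn
    rw [if_neg hn, add_zero, mul_one_div]
    exact this

/-- the constant `∑ 1 / k ^ 2` -/
noncomputable def ZZ : ℝ := ∑' k : ℤ, 1 / (k : ℝ) ^ 2

lemma ZZ_nonneg : 0 ≤ ZZ := tsum_nonneg fun k => by positivity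

variable {F : TT → ℂ} {Λ : ℝ} {γ : ℤ → ℂ}

/-- the mean over the torsion translates -/
lemma mean_bound (hF : JF F Λ) {Γ : ℝ} (hΓ : ∀ n : ℤ, n ≠ 0 → ‖γ n‖ ≤ Γ / (n : ℝ) ^ 2) {N : ℕ}
    [NeZero N] (μ : Measure TT) [IsProbabilityMeasure μ] :
    ‖(1 / N : ℂ) * ∑ b : ZMod N, (JJ (PF F γ) μ b - γ 0)‖ ≤ (Λ + Γ * ZZ) * (1 / N) := by
  classical
  have hγ := summable_of_quad hΓ
  have hNpos : (0 : ℝ) < N := by exact_mod_cast Nat.pos_of_ne_zero (NeZero.ne N)
  have hN1 : (1 : ℝ) ≤ N := by exact_mod_cast Nat.pos_of_ne_zero (NeZero.ne N)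
  have hNc : (N : ℂ) ≠ 0 := by exact_mod_cast NeZero.ne N
  have hΓ0 : 0 ≤ Γ := by
    have := (norm_nonneg _).trans (hΓ 1 one_ne_zero)
    simpa using this
  -- the first part
  have hsaw : ‖(1 / N : ℂ) * ∑ b : ZMod N, ∫ y, F (pt b + y) ∂μ‖ ≤ Λ * (1 / N) := by
    have h1 : (1 / N : ℂ) * ∑ b : ZMod N, ∫ y, F (pt b + y) ∂μ =
        ∫ y, (1 / N : ℂ) * ∑ b : ZMod N, F (pt b + y) ∂μ := by
      rw [integral_const_mul, integral_finsetSum]
      intro b _
      exact hF.integrable μ _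
    rw [h1]
    have h3 := norm_integral_le_of_norm_le_const (μ := μ)
      (f := fun y => (1 / N : ℂ) * ∑ b : ZMod N, F (pt b + y)) (C := Λ * (1 / N))
      (Filter.Eventually.of_forall fun y => hF.mean N y)
    simpa using h3
  -- the Fourier series part
  have havg : ∀ n : ℤ, (1 / N : ℂ) * ∑ b : ZMod N, (fourier n (pt b) : ℂ) =
      if (N : ℤ) ∣ n then 1 else 0 := by
    intro n
    have h := AddChar.sum_mulShift (R' := ℂ) (n : ZMod N) (ZMod.isPrimitive_stdAddChar N)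
    have h2 : ∑ b : ZMod N, (fourier n (pt b) : ℂ) =
        ∑ b : ZMod N, ZMod.stdAddChar (b * (n : ZMod N)) :=
      sum_congr rfl fun b _ => by rw [fourier_pt, mul_comm]
    rw [h2, h]
    have h3 : ((n : ZMod N) = 0) ↔ (N : ℤ) ∣ n := ZMod.intCast_zmod_eq_zero_iff_dvd n N
    simp only [h3, ZMod.card]
    split_ifs with h4
    · field_simp
    · simp
  have hinj : Function.Injective (fun k : ℤ => (N : ℤ) * k) := by
    intro x y h
    exact mul_left_cancel₀ (by exact_mod_cast NeZero.ne N) h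
  have hwsum : ∑' n : ℤ, γ n * hat μ n * (if (N : ℤ) ∣ n then 1 else 0) =
      ∑' k : ℤ, γ (N * k) * hat μ (N * k) := by
    rw [← hinj.tsum_eq]
    · congr 1
      funext k
      rw [if_pos (dvd_mul_right _ _), mul_one]
    · intro n hn
      rw [Function.mem_support] at hn
      by_contra hr
      apply hn
      rw [if_neg, mul_zero]
      rintro ⟨k, rfl⟩
      exact hr ⟨k, rfl⟩
  have hsk : Summable fun k : ℤ => γ (N * k) * hat μ (N * k) := by
    have h1 := (wsum_summable hγ μ (fun _ => 1) (fun _ => by simp)).comp_injective hinj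
    refine h1.congr fun k => ?_
    simp
  have hrest : ‖∑' k : ℤ, γ (N * k) * hat μ (N * k) - γ 0‖ ≤ Γ * ZZ * (1 / N) := by
    rw [hsk.tsum_eq_add_tsum_ite 0]
    have h0 : γ ((N : ℤ) * 0) * hat μ ((N : ℤ) * 0) = γ 0 := by
      rw [mul_zero, hat_zero, mul_one]
    rw [h0, add_sub_cancel_left]
    have h1 : Summable fun n : ℤ => 1 / (n : ℝ) ^ 2 := Real.summable_one_div_int_pow.2 one_lt_two
    have h2 : ∀ k : ℤ, ‖(if k = 0 then 0 else γ (N * k) * hat μ (N * k) : ℂ)‖ ≤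
        Γ * (1 / N) * (1 / (k : ℝ) ^ 2) := by
      intro k
      by_cases hk : k = 0
      · rw [if_pos hk, norm_zero]; positivity
      · rw [if_neg hk, norm_mul]
        have h3 := hΓ (N * k) (mul_ne_zero (by exact_mod_cast NeZero.ne N) hk)
        have h4 := norm_hat_le μ (N * k)
        have hk2 : (0 : ℝ) < (k : ℝ) ^ 2 := by positivity
        calc ‖γ (N * k)‖ * ‖hat μ (N * k)‖ ≤ (Γ / (((N : ℤ) * k : ℤ) : ℝ) ^ 2) * 1 := by gcongr
          _ = Γ * (1 / N) * (1 / (k : ℝ) ^ 2) * (1 / N) := by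
              push_cast
              field_simp
          _ ≤ Γ * (1 / N) * (1 / (k : ℝ) ^ 2) * 1 := by
              apply mul_le_mul_of_nonneg_left _ (by positivity)
              rw [div_le_one hNpos]; exact hN1
          _ = _ := mul_one _
    refine (tsum_of_norm_bounded ((h1.mul_left (Γ * (1 / N))).hasSum) h2).trans (le_of_eq ?_)
    rw [tsum_mul_left]
    unfold ZZ
    ring
  -- the decomposition
  have hdec : (1 / N : ℂ) * ∑ b : ZMod N, (JJ (PF F γ) μ b - γ 0) =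
      (1 / N : ℂ) * ∑ b : ZMod N, ∫ y, F (pt b + y) ∂μ +
        (∑' k : ℤ, γ (N * k) * hat μ (N * k) - γ 0) := by
    rw [sum_sub_distrib, sum_const, card_univ, ZMod.card, nsmul_eq_mul, mul_sub]
    have h1 : (1 / N : ℂ) * ((N : ℂ) * γ 0) = γ 0 := by field_simp
    rw [h1]
    simp_rw [JJ_PF hF hγ μ]
    rw [sum_add_distrib, mul_add]
    have h2 : (1 / N : ℂ) * ∑ b : ZMod N, ∑' n : ℤ, γ n * hat μ n * fourier n (pt b) =
        ∑' k : ℤ, γ (N * k) * hat μ (N * k) := by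
      rw [← hwsum, ← Summable.tsum_finsetSum, ← tsum_mul_left]
      · congr 1
        funext n
        rw [← havg n, ← mul_sum]
        ring
      · intro b _
        exact wsum_summable hγ μ _ (fun n => (norm_f _ _).le)
    rw [h2]
    ring
  rw [hdec]
  refine (norm_add_le _ _).trans ?_
  rw [add_mul]
  exact add_le_add hsaw hrest

/-- **The main theorem for one measure.** -/
theorem single (hM : S_MOD) (hp : p.Prime) (hq : q.Prime) (hpq : p ≠ q) {a : ℤ} (ha : a ≠ 0)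
    (hap : IsCoprime a (p : ℤ)) (haq : IsCoprime a (q : ℤ)) (hF : JF F Λ) {Γ : ℝ}
    (hΓ : ∀ n : ℤ, n ≠ 0 → ‖γ n‖ ≤ Γ / (n : ℝ) ^ 2)
    (hre : ∀ x, (PF F γ x).im = 0) (h0 : (γ 0).im = 0)
    (hC : CC p q a (fun n => fourierCoeff F n + γ n) ≠ 0) {η : ℝ} (hη : 0 < η) :
    ∃ (N : ℕ) (_ : NeZero N) (δ : ℝ), N.Coprime p ∧ N.Coprime q ∧ 0 < δ ∧
      ∀ μ : Measure TT, PInv p q μ → (∃ n : ℤ, n ≠ 0 ∧ η ≤ ‖hat μ n‖) →
      ∃ n : ℤ, n ≠ 0 ∧ ∀ ρ : Measure TT, PInv p q ρ → hat ρ a = hat μ n →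
        (∀ V : ℝ, 0 ≤ V → (∀ m : ℤ, m ≠ 0 → ‖hat μ m‖ ≤ V) → ∀ m : ℤ, m ≠ 0 → ‖hat ρ m‖ ≤ V) →
        ∃ w : ZMod N → ℝ, (∀ b, 0 ≤ w b) ∧ ∑ b, w b = 1 ∧ (∀ b, w ((p : ZMod N) * b) = w b) ∧
          (∀ b, w ((q : ZMod N) * b) = w b) ∧
          (∫ x, PF F γ x ∂(conv (atom w) ρ)).re ≤ (γ 0).re - δ := by
  have hγ := summable_of_quad hΓ
  have hΓ0 : 0 ≤ Γ := by
    have := (norm_nonneg _).trans (hΓ 1 one_ne_zero)
    simpa using this
  set C := CC p q a (fun n => fourierCoeff F n + γ n) with hCdef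
  have hC0 : 0 < ‖C‖ := norm_pos_iff.2 hC
  have hΛ0 : 0 ≤ Λ := hF.nonneg
  have hZ := ZZ_nonneg
  set B : ℝ := 2 * Λ + Γ * ZZ + 1 with hB
  have hB0 : 0 < B := by positivity
  set e : ℝ := min (‖C‖ / 4) (η * ‖C‖ / (8 * B)) with he
  have he0 : 0 < e := lt_min (by positivity) (by positivity)
  have he1 : e ≤ ‖C‖ / 4 := min_le_left _ _
  have he2 : e ≤ η * ‖C‖ / (8 * B) := min_le_right _ _
  obtain ⟨N', _, hNp, hNq, hN'2, hcN, hb⟩ := core_bound hM hp hq hpq ha hF hγ he0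
  haveI hNZ : NeZero (a.natAbs * N') := ⟨mul_ne_zero (by omega) (by omega)⟩
  set H : ℝ := ((HH p q N').card : ℝ) with hH
  have hH1 : 1 ≤ H := by
    have : 1 ≤ (HH p q N').card := card_pos.2 ⟨1, one_mem_HH⟩
    rw [hH]
    exact_mod_cast this
  have hH0 : 0 ≤ H := by linarith
  refine ⟨a.natAbs * N', hNZ, ‖C‖ * η / (16 * H), co_N rfl hap hNp, co_N rfl haq hNq,
    by positivity, ?_⟩
  set δ : ℝ := ‖C‖ * η / (16 * H) with hδdef
  rintro μ hμ ⟨n₀, hn₀, hn₀η⟩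
  haveI := hμ.prob
  -- the supremum
  set S : Set ℝ := {v | ∃ n : ℤ, n ≠ 0 ∧ v = ‖hat μ n‖} with hS
  have hSb : BddAbove S := by
    refine ⟨1, ?_⟩
    rintro v ⟨n, _, rfl⟩
    exact norm_hat_le μ n
  set V := sSup S with hV
  have hle : ∀ m : ℤ, m ≠ 0 → ‖hat μ m‖ ≤ V := fun m hm => le_csSup hSb ⟨m, hm, rfl⟩
  have hVη : η ≤ V := hn₀η.trans (hle n₀ hn₀)
  have hV0 : 0 < V := hη.trans_le hVη
  obtain ⟨v, ⟨n, hn, rfl⟩, hv⟩ := exists_lt_of_lt_csSup (s := S) ⟨_, n₀, hn₀, rfl⟩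
    (show V / 2 < sSup S by rw [← hV]; linarith)
  refine ⟨n, hn, fun ρ hρ hρa hρV => ?_⟩
  haveI := hρ.prob
  have hcore := hb V hV0.le ρ hρ (hρV V hV0.le hle)
  rw [hρa] at hcore
  by_contra hcon
  push Not at hcon
  have hc0 : γ 0 = (((γ 0).re : ℝ) : ℂ) := Complex.ext (by simp) (by simp [h0])
  have h2 := mean_bound hF hΓ (N := a.natAbs * N') ρ
  obtain ⟨M, hM'⟩ := PF_bound hF hγ
  have h3 := func_bound1 (p := p) (q := q) (PF_measurable hF hγ)
    hM' hre (c₀ := (γ 0).re) (δ := δ) (E := (Λ + Γ * ZZ) * (1 / ((a.natAbs * N' : ℕ) : ℝ)))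
    hH0 (μ := ρ) (fun w hw0 hw1 hwp hwq => (hcon w hw0 hw1 hwp hwq).le)
    (gg a N' p q (a.natAbs * N'))
    (gg_inv a N' _ rfl hNp (fun h => HH_mulp)) (gg_inv a N' _ rfl hNq (fun h => HH_mulq))
    (gg_mean ha hNp hNq hN'2 rfl) (fun b => by
      unfold gg
      rw [norm_mul, norm_div, norm_one, Complex.norm_natCast, mul_comm]
      apply mul_le_mul_of_nonneg_right _ (by positivity)
      refine (norm_sum_le _ _).trans ?_
      have : ∀ h ∈ HH p q N', ‖(ZMod.stdAddChar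
          (-(((mh a N' h : ℤ) : ZMod (a.natAbs * N')) * b)) : ℂ)‖ ≤ 1 := by
        intro h _
        rw [AddChar.norm_apply]
      refine (sum_le_sum this).trans ?_
      simp [hH]) (by rw [← hc0]; exact h2)
  rw [← hc0] at h3
  have h4 : H * ((Λ + Γ * ZZ) * (1 / ((a.natAbs * N' : ℕ) : ℝ))) ≤ (Λ + Γ * ZZ) * e := by
    have h5 : H * (1 / ((a.natAbs * N' : ℕ) : ℝ)) ≤ e := by
      refine le_trans ?_ hcN
      apply mul_le_mul_of_nonneg_left _ hH0
      have : (0 : ℝ) < ((a.natAbs * N' : ℕ) : ℝ) := by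
        exact_mod_cast Nat.pos_of_ne_zero (NeZero.ne (a.natAbs * N'))
      exact div_le_div_of_nonneg_right (by norm_num) this.le
    calc H * ((Λ + Γ * ZZ) * (1 / ((a.natAbs * N' : ℕ) : ℝ))) =
        (Λ + Γ * ZZ) * (H * (1 / ((a.natAbs * N' : ℕ) : ℝ))) := by ring
      _ ≤ (Λ + Γ * ZZ) * e := mul_le_mul_of_nonneg_left h5 (by positivity)
  have h6 := twisted0 hF ha hNp hNq hN'2 (N := a.natAbs * N') rfl hγ ρ
  have h7 : Λ * ((HH p q N').card * (4 / ((a.natAbs * N' : ℕ) : ℝ))) ≤ Λ * e :=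
    mul_le_mul_of_nonneg_left hcN hΛ0
  have h8 : H * δ = ‖C‖ * η / 16 := by
    rw [hδdef]
    field_simp
  have h9 : B * e ≤ η * ‖C‖ / 8 := by
    have := mul_le_mul_of_nonneg_left he2 hB0.le
    refine this.trans (le_of_eq ?_)
    field_simp
  have h10 : V * e ≤ V * (‖C‖ / 4) := mul_le_mul_of_nonneg_left he1 hV0.le
  have h11 : ‖C‖ * (V / 2) ≤ ‖C‖ * ‖hat μ n‖ := mul_le_mul_of_nonneg_left hv.le hC0.le
  have h12 : ‖C‖ * η ≤ ‖C‖ * V := mul_le_mul_of_nonneg_left hVη hC0.le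
  have h13 : 0 < ‖C‖ * η := by positivity
  rw [mul_add] at h3
  have h14 : (Λ + Γ * ZZ) * e + Λ * e ≤ B * e := by
    rw [hB]
    nlinarith [he0.le]
  nlinarith

end Pool.Agent.Run7.h776.FT
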