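import Pool.Agent.R203.ID.Fou
import Pool.Agent.Run7.h776.FT.Iface

/-! # Operations on atomless invariant measures of the circle -/

set_option autoImplicit false
set_option linter.style.haveILetI false

namespace Pool.Agent.Run7.h776.FT

open MeasureTheory Finset
open Pool.Agent.R203.ID (hat norm_f f_add f_zero f_smul f_nsmul f_neg integrable_f norm_hat_le
  ext_hat hat_map_nsmul hat_map_smul inv_iff conv hat_conv conv_atom)

abbrev TT := UnitAddCircle

/-- atomless probability measures invariant under `x ↦ p x` and `x ↦ q x` -/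
structure Inv (p q : ℕ) (μ : Measure TT) : Prop where
  prob : IsProbabilityMeasure μ
  na : ∀ x, μ {x} = 0
  mp : MeasurePreserving (fun x : TT => p • x) μ μ
  mq : MeasurePreserving (fun x : TT => q • x) μ μ

/-- invariant probability measures, atoms allowed -/
structure PInv (p q : ℕ) (μ : Measure TT) : Prop where
  prob : IsProbabilityMeasure μ
  mp : MeasurePreserving (fun x : TT => p • x) μ μ
  mq : MeasurePreserving (fun x : TT => q • x) μ μ

variable {p q : ℕ}

lemma Inv.toP {μ : Measure TT} (h : Inv p q μ) : PInv p q μ := ⟨h.prob, h.mp, h.mq⟩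

lemma PInv.hp {μ : Measure TT} (h : PInv p q μ) (n : ℤ) : hat μ (n * p) = hat μ n := by
  haveI := h.prob
  exact (inv_iff p).1 h.mp n

lemma PInv.hq {μ : Measure TT} (h : PInv p q μ) (n : ℤ) : hat μ (n * q) = hat μ n := by
  haveI := h.prob
  exact (inv_iff q).1 h.mq n

lemma PInv.mk' {μ : Measure TT} (h : IsProbabilityMeasure μ) (hp : ∀ n, hat μ (n * p) = hat μ n)
    (hq : ∀ n, hat μ (n * q) = hat μ n) : PInv p q μ :=
  ⟨h, (inv_iff p).2 hp, (inv_iff q).2 hq⟩

lemma Inv.mk' {μ : Measure TT} (h : PInv p q μ) (hna : ∀ x, μ {x} = 0) : Inv p q μ :=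
  ⟨h.prob, hna, h.mp, h.mq⟩

lemma PInv.hS {μ : Measure TT} (h : PInv p q μ) (n : ℤ) (i j : ℕ) :
    hat μ (n * ((p : ℤ) ^ i * (q : ℤ) ^ j)) = hat μ n := by
  have h1 : ∀ (i : ℕ) (n : ℤ), hat μ (n * (p : ℤ) ^ i) = hat μ n := by
    intro i
    induction i with
    | zero => intro n; simp
    | succ i ih =>
      intro n
      rw [pow_succ, ← mul_assoc, h.hp, ih]
  have h2 : ∀ (j : ℕ) (n : ℤ), hat μ (n * (q : ℤ) ^ j) = hat μ n := by
    intro j
    induction j with
    | zero => intro n; simp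
    | succ j ih =>
      intro n
      rw [pow_succ, ← mul_assoc, h.hq, ih]
  rw [← mul_assoc, h2, h1]

lemma hat_zero (μ : Measure TT) [IsProbabilityMeasure μ] : hat μ 0 = 1 := by
  unfold hat
  simp

lemma f_mul (m n : ℤ) (x : TT) : (fourier m x : ℂ) * fourier n x = fourier (m + n) x := by
  rw [fourier_add]

/-! ### convolution -/

lemma conv_PInv {μ ν : Measure TT} (h1 : PInv p q μ) (h2 : PInv p q ν) :
    PInv p q (conv μ ν) := by
  haveI := h1.prob
  haveI := h2.prob
  refine PInv.mk' inferInstance (fun n => ?_) (fun n => ?_)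
  · rw [hat_conv, hat_conv, h1.hp, h2.hp]
  · rw [hat_conv, hat_conv, h1.hq, h2.hq]

lemma conv_Inv {μ ν : Measure TT} (h1 : PInv p q μ) (h2 : Inv p q ν) : Inv p q (conv μ ν) := by
  haveI := h1.prob
  haveI := h2.prob
  refine Inv.mk' (conv_PInv h1 h2.toP) (fun x => ?_)
  have := conv_atom (μ := μ) (ν := ν) (a := 0) (fun x => (h2.na x).le) x
  exact le_antisymm this zero_le

/-! ### dilation -/

lemma finite_fiber {j : ℤ} (hj : j ≠ 0) (y : TT) : {x : TT | j • x = y}.Finite := by
  by_cases hne : ∃ x₀ : TT, j • x₀ = y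
  · obtain ⟨x₀, hx₀⟩ := hne
    have hfin : {x : TT | j • x = 0}.Finite := by
      have h := AddCircle.finite_torsion (p := (1 : ℝ)) (n := j.natAbs) (by omega)
      refine h.subset ?_
      intro x hx
      simp only [Set.mem_ofPred_eq] at hx ⊢
      rcases Int.natAbs_eq j with h' | h'
      · rw [h', natCast_zsmul] at hx
        simpa using hx
      · rw [h', neg_smul, natCast_zsmul, neg_eq_zero] at hx
        simpa using hx
    refine (hfin.image (fun x => x + x₀)).subset ?_
    intro x hx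
    refine ⟨x - x₀, ?_, by simp⟩
    simp only [Set.mem_ofPred_eq] at hx ⊢
    rw [smul_sub, hx, hx₀, sub_self]
  · refine Set.Finite.subset Set.finite_empty ?_
    intro x hx
    exact hne ⟨x, hx⟩

lemma dil_Inv {μ : Measure TT} (h : Inv p q μ) {j : ℤ} (hj : j ≠ 0) :
    Inv p q (μ.map fun x : TT => j • x) := by
  haveI := h.prob
  have hm : Measurable fun x : TT => j • x := by fun_prop
  haveI : IsProbabilityMeasure (μ.map fun x : TT => j • x) :=
    Measure.isProbabilityMeasure_map hm.aemeasurable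
  refine Inv.mk' (PInv.mk' inferInstance (fun n => ?_) (fun n => ?_)) (fun y => ?_)
  · rw [hat_map_smul, hat_map_smul, mul_right_comm, h.toP.hp]
  · rw [hat_map_smul, hat_map_smul, mul_right_comm, h.toP.hq]
  · rw [Measure.map_apply hm (measurableSet_singleton y)]
    haveI : NullSingletonClass μ := ⟨h.na⟩
    have e : (fun x : TT => j • x) ⁻¹' {y} = {x : TT | j • x = y} := rfl
    rw [e]
    exact (finite_fiber hj y).measure_zero μ

/-! ### mixtures -/

/-- the mixture `∑ w i μ i` -/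
noncomputable def mix {ι : Type*} (s : Finset ι) (w : ι → ℝ) (μ : ι → Measure TT) : Measure TT :=
  ∑ i ∈ s, ENNReal.ofReal (w i) • μ i

lemma mix_prob {ι : Type*} (s : Finset ι) (w : ι → ℝ) (μ : ι → Measure TT)
    (hw : ∀ i ∈ s, 0 ≤ w i) (h1 : ∑ i ∈ s, w i = 1) (hμ : ∀ i ∈ s, IsProbabilityMeasure (μ i)) :
    IsProbabilityMeasure (mix s w μ) := by
  constructor
  unfold mix
  rw [Measure.finsetSum_apply]
  have : ∀ i ∈ s, (ENNReal.ofReal (w i) • μ i) Set.univ = ENNReal.ofReal (w i) := by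
    intro i hi
    haveI := hμ i hi
    simp
  rw [sum_congr rfl this, ← ENNReal.ofReal_sum_of_nonneg hw, h1, ENNReal.ofReal_one]

lemma integral_mix {ι : Type*} (s : Finset ι) (w : ι → ℝ) (μ : ι → Measure TT)
    (hw : ∀ i ∈ s, 0 ≤ w i) {f : TT → ℂ} (hf : ∀ i ∈ s, Integrable f (μ i)) :
    ∫ x, f x ∂(mix s w μ) = ∑ i ∈ s, (w i : ℂ) * ∫ x, f x ∂(μ i) := by
  unfold mix
  rw [integral_finsetSum_measure]
  · refine sum_congr rfl fun i hi => ?_
    rw [integral_smul_measure, ENNReal.toReal_ofReal (hw i hi), Complex.real_smul]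
  · intro i hi
    exact (hf i hi).smul_measure ENNReal.ofReal_ne_top

lemma hat_mix {ι : Type*} (s : Finset ι) (w : ι → ℝ) (μ : ι → Measure TT)
    (hw : ∀ i ∈ s, 0 ≤ w i) (hμ : ∀ i ∈ s, IsProbabilityMeasure (μ i)) (n : ℤ) :
    hat (mix s w μ) n = ∑ i ∈ s, (w i : ℂ) * hat (μ i) n := by
  unfold hat
  rw [integral_mix s w μ hw]
  intro i hi
  haveI := hμ i hi
  exact integrable_f (μ i) n

lemma mix_Inv {ι : Type*} (s : Finset ι) (w : ι → ℝ) (μ : ι → Measure TT)
    (hw : ∀ i ∈ s, 0 ≤ w i) (h1 : ∑ i ∈ s, w i = 1) (hμ : ∀ i ∈ s, Inv p q (μ i)) :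
    Inv p q (mix s w μ) := by
  have hp := fun i hi => (hμ i hi).prob
  refine Inv.mk' (PInv.mk' (mix_prob s w μ hw h1 hp) (fun n => ?_) (fun n => ?_)) (fun y => ?_)
  · rw [hat_mix s w μ hw hp, hat_mix s w μ hw hp]
    exact sum_congr rfl fun i hi => by rw [(hμ i hi).toP.hp]
  · rw [hat_mix s w μ hw hp, hat_mix s w μ hw hp]
    exact sum_congr rfl fun i hi => by rw [(hμ i hi).toP.hq]
  · unfold mix
    rw [Measure.finsetSum_apply]
    refine sum_eq_zero fun i hi => ?_
    rw [Measure.smul_apply, (hμ i hi).na, smul_zero]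

/-! ### atomic measures on the torsion points -/

/-- the point `b / N` -/
noncomputable def pt {N : ℕ} [NeZero N] (b : ZMod N) : TT := ZMod.toAddCircle b

lemma pt_nsmul {N : ℕ} [NeZero N] (k : ℕ) (b : ZMod N) : k • pt b = pt ((k : ZMod N) * b) := by
  unfold pt
  rw [← map_nsmul, nsmul_eq_mul]

lemma fourier_pt {N : ℕ} [NeZero N] (n : ℤ) (b : ZMod N) :
    (fourier n (pt b) : ℂ) = ZMod.stdAddChar ((n : ZMod N) * b) := by
  rw [fourier_apply, ZMod.stdAddChar_apply]
  unfold pt
  rw [← map_zsmul, zsmul_eq_mul]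
  rfl

/-- the measure `∑ w b δ_{b / N}` -/
noncomputable def atom {N : ℕ} [NeZero N] (w : ZMod N → ℝ) : Measure TT :=
  mix univ w (fun b => Measure.dirac (pt b))

lemma hat_atom {N : ℕ} [NeZero N] (w : ZMod N → ℝ) (hw : ∀ b, 0 ≤ w b) (n : ℤ) :
    hat (atom w) n = ∑ b, (w b : ℂ) * ZMod.stdAddChar ((n : ZMod N) * b) := by
  unfold atom
  rw [hat_mix _ _ _ (fun b _ => hw b) (fun b _ => inferInstance)]
  refine sum_congr rfl fun b _ => ?_
  unfold hat
  rw [integral_dirac, fourier_pt]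

lemma atom_PInv {N : ℕ} [NeZero N] (hNp : N.Coprime p) (hNq : N.Coprime q) (w : ZMod N → ℝ)
    (hw : ∀ b, 0 ≤ w b) (h1 : ∑ b, w b = 1) (hp : ∀ b, w ((p : ZMod N) * b) = w b)
    (hq : ∀ b, w ((q : ZMod N) * b) = w b) : PInv p q (atom w) := by
  have key : ∀ r : ℕ, N.Coprime r → (∀ b, w ((r : ZMod N) * b) = w b) → ∀ n : ℤ,
      hat (atom w) (n * r) = hat (atom w) n := by
    intro r hr hwr n
    rw [hat_atom w hw, hat_atom w hw]
    set u : (ZMod N)ˣ := ZMod.unitOfCoprime r hr.symm with hu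
    have huc : (u : ZMod N) = (r : ZMod N) := ZMod.coe_unitOfCoprime r hr.symm
    refine Fintype.sum_bijective (fun b : ZMod N => (r : ZMod N) * b) ?_ _ _ (fun b => ?_)
    · rw [← huc]
      exact (Units.mulLeft u).bijective
    · rw [hwr b]
      congr 2
      push_cast
      ring
  exact PInv.mk' (mix_prob _ _ _ (fun b _ => hw b) h1 (fun b _ => inferInstance))
    (key p hNp hp) (key q hNq hq)

/-! ### the representative in `[0, 1)` and lifts -/

/-- the representative in `[0, 1)` -/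
noncomputable def rep (x : TT) : ℝ := (AddCircle.equivIco (1 : ℝ) 0 x : ℝ)

lemma rep_coe (x : TT) : ((rep x : ℝ) : TT) = x := by
  unfold rep
  exact AddCircle.coe_equivIco

lemma rep_mem (x : TT) : 0 ≤ rep x ∧ rep x < 1 := by
  have h := (AddCircle.equivIco (1 : ℝ) 0 x).2
  exact ⟨h.1, lt_of_lt_of_eq h.2 (zero_add 1)⟩

lemma measurable_rep : Measurable rep :=
  measurable_subtype_coe.comp (AddCircle.measurableEquivIco (1 : ℝ) 0).measurable

/-- the section `x ↦ x / a` -/
noncomputable def sec (a : ℕ) (x : TT) : TT := ((rep x / a : ℝ) : TT)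

lemma measurable_sec (a : ℕ) : Measurable (sec a) := by
  unfold sec
  exact (AddCircle.measurable_mk').comp (measurable_rep.div_const _)

lemma smul_sec {a : ℕ} (ha : a ≠ 0) (x : TT) : a • sec a x = x := by
  unfold sec
  rw [← AddCircle.coe_nsmul, nsmul_eq_mul, mul_div_cancel₀ _ (by exact_mod_cast ha), rep_coe]

/-- the uniform measure on the `a`-torsion -/
noncomputable def unif (a : ℕ) [NeZero a] : Measure TT := atom (fun _ : ZMod a => (1 / a : ℝ))

lemma hat_unif (a : ℕ) [NeZero a] (n : ℤ) : hat (unif a) n = if (a : ℤ) ∣ n then 1 else 0 := by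
  unfold unif
  rw [hat_atom _ (fun _ => by positivity)]
  have ha : (a : ℂ) ≠ 0 := by exact_mod_cast NeZero.ne a
  rw [← mul_sum]
  have h := AddChar.sum_mulShift (R' := ℂ) (n : ZMod a) (ZMod.isPrimitive_stdAddChar a)
  have h2 : ∑ b : ZMod a, ZMod.stdAddChar ((n : ZMod a) * b) =
      ∑ b : ZMod a, ZMod.stdAddChar (b * (n : ZMod a)) :=
    sum_congr rfl fun b _ => by rw [mul_comm]
  rw [h2, h]
  have h3 : ((n : ZMod a) = 0) ↔ (a : ℤ) ∣ n := ZMod.intCast_zmod_eq_zero_iff_dvd n a
  simp only [h3]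
  split_ifs with h4
  · simp [ha]
  · simp

lemma unif_prob (a : ℕ) [NeZero a] : IsProbabilityMeasure (unif a) := by
  unfold unif atom
  apply mix_prob
  · intro _ _; positivity
  · have ha : (a : ℝ) ≠ 0 := by exact_mod_cast NeZero.ne a
    simp [ha]
  · intro _ _; infer_instance

/-- **Lifts.** -/
lemma exists_lift0 {μ : Measure TT} (h : PInv p q μ) {a : ℕ} (ha : a ≠ 0) (hap : a.Coprime p)
    (haq : a.Coprime q) : ∃ ν : Measure TT, PInv p q ν ∧ ((∀ x, μ {x} = 0) → ∀ x, ν {x} = 0) ∧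
      ∀ n : ℤ, hat ν (a * n) = hat μ n ∧ (¬ (a : ℤ) ∣ n → hat ν n = 0) := by
  haveI := h.prob
  haveI : NeZero a := ⟨ha⟩
  haveI := unif_prob a
  set ρ := μ.map (sec a) with hρ
  haveI : IsProbabilityMeasure ρ :=
    Measure.isProbabilityMeasure_map (measurable_sec a).aemeasurable
  have h1 : ∀ n : ℤ, hat ρ (a * n) = hat μ n := by
    intro n
    unfold hat
    rw [hρ, integral_map (measurable_sec a).aemeasurable
      (fourier (a * n)).continuous.aestronglyMeasurable]
    congr 1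
    funext x
    rw [mul_comm, ← f_nsmul, smul_sec ha]
  have h2 : ∀ n : ℤ, hat (conv (unif a) ρ) n = if (a : ℤ) ∣ n then hat ρ n else 0 := by
    intro n
    rw [hat_conv, hat_unif]
    split_ifs <;> simp
  have h3 : ∀ r : ℕ, a.Coprime r → (∀ n, hat μ (n * r) = hat μ n) → ∀ n : ℤ,
      hat (conv (unif a) ρ) (n * r) = hat (conv (unif a) ρ) n := by
    intro r hr hμr n
    rw [h2, h2]
    have hiff : (a : ℤ) ∣ n * r ↔ (a : ℤ) ∣ n := by
      constructor
      · intro hd
        exact (Int.isCoprime_iff_gcd_eq_one.2 (by exact_mod_cast hr)).dvd_of_dvd_mul_right hd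
      · intro hd
        exact hd.mul_right _
    simp only [hiff]
    split_ifs with hd
    · obtain ⟨m, rfl⟩ := hd
      rw [mul_assoc, h1, h1, hμr]
    · rfl
  refine ⟨conv (unif a) ρ, PInv.mk' inferInstance (h3 p hap h.hp)
    (h3 q haq h.hq), fun hna x => ?_, fun n => ⟨?_, fun hn => ?_⟩⟩
  · have hna : ∀ y, ρ {y} ≤ 0 := by
      intro y
      rw [hρ, Measure.map_apply (measurable_sec a) (measurableSet_singleton y)]
      refine (measure_mono ?_).trans (hna (a • y)).le
      intro x hx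
      simp only [Set.mem_preimage, Set.mem_singleton_iff] at hx ⊢
      rw [← hx, smul_sec ha]
    exact le_antisymm (conv_atom hna x) zero_le
  · rw [h2, if_pos (dvd_mul_right _ _), h1]
  · rw [h2, if_neg hn]

lemma exists_lift {μ : Measure TT} (h : Inv p q μ) {a : ℕ} (ha : a ≠ 0) (hap : a.Coprime p)
    (haq : a.Coprime q) : ∃ ν : Measure TT, Inv p q ν ∧
      ∀ n : ℤ, hat ν (a * n) = hat μ n ∧ (¬ (a : ℤ) ∣ n → hat ν n = 0) := by
  obtain ⟨ν, h1, h2, h3⟩ := exists_lift0 h.toP ha hap haq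
  exact ⟨ν, Inv.mk' h1 (h2 h.na), h3⟩

lemma dil_PInv {μ : Measure TT} (h : PInv p q μ) (j : ℤ) :
    PInv p q (μ.map fun x : TT => j • x) := by
  haveI := h.prob
  have hm : Measurable fun x : TT => j • x := by fun_prop
  haveI : IsProbabilityMeasure (μ.map fun x : TT => j • x) :=
    Measure.isProbabilityMeasure_map hm.aemeasurable
  refine PInv.mk' inferInstance (fun n => ?_) (fun n => ?_)
  · rw [hat_map_smul, hat_map_smul, mul_right_comm, h.hp]
  · rw [hat_map_smul, hat_map_smul, mul_right_comm, h.hq]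

/-- transport: a nonzero coefficient can be moved to every index prime to `p q` -/
lemma exists_move {μ : Measure TT} (h : Inv p q μ) {n : ℤ} (hn : n ≠ 0) {a : ℤ} (ha : a ≠ 0)
    (hap : IsCoprime a (p : ℤ)) (haq : IsCoprime a (q : ℤ)) : ∃ ν : Measure TT, Inv p q ν ∧
      hat ν a = hat μ n ∧ ∀ m : ℤ, ¬ a ∣ m → hat ν m = 0 := by
  have hs : a.sign ≠ 0 := by rwa [Ne, Int.sign_eq_zero_iff_zero]
  have hab : ∀ r : ℕ, IsCoprime a (r : ℤ) → a.natAbs.Coprime r := by
    intro r hr
    have := Int.isCoprime_iff_gcd_eq_one.1 hr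
    simpa [Int.gcd] using this
  have h1 := dil_Inv h (j := n * a.sign) (mul_ne_zero hn hs)
  obtain ⟨ν, hν, hν2⟩ := exists_lift h1 (a := a.natAbs) (by omega) (hab p hap) (hab q haq)
  haveI := h.prob
  refine ⟨ν, hν, ?_, fun m hm => ?_⟩
  · have e : a = (a.natAbs : ℤ) * a.sign := by
      rw [mul_comm, Int.sign_mul_natAbs]
    have h2 := (hν2 a.sign).1
    rw [← e, hat_map_smul] at h2
    rw [h2]
    congr 1
    have h3 : a.sign * a.sign = 1 := by
      rcases lt_trichotomy a 0 with h' | h' | h'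
      · rw [Int.sign_eq_neg_one_of_neg h']; norm_num
      · exact absurd h' ha
      · rw [Int.sign_eq_one_of_pos h']; norm_num
    calc a.sign * (n * a.sign) = n * (a.sign * a.sign) := by ring
      _ = n := by rw [h3, mul_one]
  · exact (hν2 m).2 (by rwa [Int.natAbs_dvd])

end Pool.Agent.Run7.h776.FT
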