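import Pool.Agent.Run7.h776.FT.Fun

/-! # Riemann sums of the sawtooth function against characters -/

set_option autoImplicit false
set_option linter.style.haveILetI false

namespace Pool.Agent.Run7.h776.FT

open MeasureTheory Finset

/-- the sawtooth function `{x} - 1/2` -/
noncomputable def saw (x : TT) : ℂ := ((rep x : ℝ) : ℂ) - 1 / 2

lemma measurable_saw : Measurable saw := by
  unfold saw
  exact (Complex.measurable_ofReal.comp measurable_rep).sub_const _

lemma norm_saw_le (x : TT) : ‖saw x‖ ≤ 1 := by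
  have h := rep_mem x
  have e : saw x = ((rep x - 1 / 2 : ℝ) : ℂ) := by
    unfold saw; push_cast; ring
  rw [e, Complex.norm_real, Real.norm_eq_abs, abs_le]
  constructor <;> linarith [h.1, h.2]

/-- its Fourier coefficient after a translation by `θ` -/
noncomputable def bc (θ : TT) (n : ℤ) : ℂ :=
  -(fourier (-n) θ : ℂ) / (2 * Real.pi * Complex.I * n)

lemma rep_real (v : ℝ) : rep (v : TT) = Int.fract v := by
  unfold rep
  rw [AddCircle.coe_equivIco_mk_apply]
  simp

/-- `∑ m z ^ m = N / (z - 1)` for `z ^ N = 1`, `z ≠ 1` -/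
lemma sum_mul_pow {N : ℕ} {z : ℂ} (hz : z ^ N = 1) (h1 : z ≠ 1) :
    ∑ m ∈ range N, (m : ℂ) * z ^ m = N / (z - 1) := by
  have h0 : z - 1 ≠ 0 := sub_ne_zero.2 h1
  have key : ∀ M : ℕ, (z - 1) * ∑ m ∈ range M, (m : ℂ) * z ^ m =
      M * z ^ M - z * ∑ m ∈ range M, z ^ m := by
    intro M
    induction M with
    | zero => simp
    | succ M ih =>
      rw [sum_range_succ, sum_range_succ, mul_add, ih]
      push_cast
      ring
  have hg : ∑ m ∈ range N, z ^ m = 0 := by
    have := geom_sum_eq h1 N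
    rw [this, hz, sub_self, zero_div]
  have h2 := key N
  rw [hg, hz, mul_zero, sub_zero, mul_one] at h2
  rw [eq_div_iff h0, mul_comm]
  exact h2

lemma four_le_norm {t : ℝ} (ht : |t| ≤ 1 / 2) :
    4 * |t| ≤ ‖Complex.exp (-(2 * Real.pi * Complex.I * t)) - 1‖ := by
  have e : Complex.exp (-(2 * Real.pi * Complex.I * t)) - 1 =
      Complex.exp (Complex.I * ((-(2 * Real.pi * t) : ℝ) : ℂ)) - 1 := by
    congr 2
    push_cast; ring
  rw [e, Complex.norm_exp_I_mul_ofReal_sub_one]
  rw [Real.norm_eq_abs]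
  have h1 : |2 * Real.sin (-(2 * Real.pi * t) / 2)| = 2 * Real.sin (Real.pi * |t|) := by
    have h2 : -(2 * Real.pi * t) / 2 = -(Real.pi * t) := by ring
    rw [h2, Real.sin_neg, abs_mul, abs_neg, abs_two]
    congr 1
    rcases le_total 0 t with h | h
    · rw [abs_of_nonneg h, abs_of_nonneg]
      apply Real.sin_nonneg_of_nonneg_of_le_pi (by positivity)
      rw [abs_of_nonneg h] at ht
      nlinarith [Real.pi_pos]
    · rw [abs_of_nonpos h]
      have h3 : Real.pi * -t = -(Real.pi * t) := by ring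
      rw [h3, Real.sin_neg, abs_of_nonpos]
      rw [abs_of_nonpos h] at ht
      have h4 : Real.sin (Real.pi * t) = - Real.sin (Real.pi * -t) := by
        rw [h3, Real.sin_neg, neg_neg]
      rw [h4, neg_nonpos]
      apply Real.sin_nonneg_of_nonneg_of_le_pi
      · have : 0 ≤ -t := by linarith
        positivity
      · nlinarith [Real.pi_pos]
  rw [h1]
  have h5 : 2 / Real.pi * (Real.pi * |t|) ≤ Real.sin (Real.pi * |t|) := by
    apply Real.mul_le_sin (by positivity)
    nlinarith [Real.pi_pos]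
  have h6 : 2 / Real.pi * (Real.pi * |t|) = 2 * |t| := by
    field_simp
  linarith

lemma inv_bound {t : ℝ} (ht0 : t ≠ 0) (ht : |t| ≤ 1 / 2) :
    ‖1 / (Complex.exp (-(2 * Real.pi * Complex.I * t)) - 1) + 1 / (2 * Real.pi * Complex.I * t)‖
      ≤ 3 := by
  have hpos : 0 < |t| := abs_pos.2 ht0
  have h4 := four_le_norm ht
  have hpi3 : Real.pi < 3.15 := Real.pi_lt_d2
  have hpi := Real.pi_pos
  set E := Complex.exp (-(2 * Real.pi * Complex.I * t)) - 1 with hE
  have hE0 : E ≠ 0 := by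
    rw [← norm_pos_iff]; linarith
  set D : ℂ := 2 * Real.pi * Complex.I * t with hD
  have hDn : ‖D‖ = 2 * Real.pi * |t| := by
    rw [hD]
    simp only [norm_mul, Complex.norm_I, Complex.norm_real, Real.norm_eq_abs, mul_one,
      Complex.norm_ofNat]
    rw [abs_of_pos hpi]
  have hD0 : D ≠ 0 := by
    rw [← norm_pos_iff, hDn]; positivity
  by_cases hs : 2 * Real.pi * |t| ≤ 1
  · have h5 : ‖Complex.exp (-D) - 1 - (-D)‖ ≤ ‖-D‖ ^ 2 :=
      Complex.norm_exp_sub_one_sub_id_le (by rw [norm_neg, hDn]; exact hs)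
    have h6 : 1 / E + 1 / D = (Complex.exp (-D) - 1 - (-D)) / (E * D) := by
      rw [hE]
      rw [div_add_div _ _ hE0 hD0]
      congr 1
      ring
    rw [h6, norm_div, norm_mul, hDn]
    rw [norm_neg, hDn] at h5
    rw [div_le_iff₀ (by positivity)]
    calc _ ≤ (2 * Real.pi * |t|) ^ 2 := h5
      _ ≤ 3 * (4 * |t| * (2 * Real.pi * |t|)) := by
          have : (2 * Real.pi * |t|) ^ 2 = 2 * Real.pi * |t| * |t| * (2 * Real.pi) := by ring
          rw [this]
          have : 3 * (4 * |t| * (2 * Real.pi * |t|)) = 2 * Real.pi * |t| * |t| * 12 := by ring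
          rw [this]
          apply mul_le_mul_of_nonneg_left _ (by positivity)
          linarith
      _ ≤ _ := by
          apply mul_le_mul_of_nonneg_left _ (by norm_num)
          exact mul_le_mul_of_nonneg_right h4 (by positivity)
  · push Not at hs
    refine (norm_add_le _ _).trans ?_
    rw [norm_div, norm_div, norm_one, hDn]
    have h7 : 1 / ‖E‖ ≤ 2 := by
      rw [div_le_iff₀ (norm_pos_iff.2 hE0)]
      nlinarith
    have h8 : 1 / (2 * Real.pi * |t|) ≤ 1 := by
      rw [div_le_iff₀ (by positivity)]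
      linarith
    linarith

/-- **The Riemann sums of the sawtooth function.** -/
theorem saw_sum {N : ℕ} [NeZero N] {m : ℤ} (hm0 : m ≠ 0) (hm : 2 * |m| ≤ N) (y : TT) :
    ‖(1 / N : ℂ) * ∑ b : ZMod N, ZMod.stdAddChar (-((m : ZMod N) * b)) * saw (pt b + y) +
      (fourier m y : ℂ) / (2 * Real.pi * Complex.I * m)‖ ≤ 4 / N := by
  have hN : 0 < N := Nat.pos_of_ne_zero (NeZero.ne N)
  have hNr : (0 : ℝ) < N := by exact_mod_cast hN
  have hNc : (N : ℂ) ≠ 0 := by exact_mod_cast hN.ne'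
  have hpi := Real.pi_pos
  set r := rep y with hr
  obtain ⟨hr0, hr1⟩ := rep_mem y
  set k := ⌊(N : ℝ) * r⌋₊ with hk
  have hk1 : (k : ℝ) ≤ N * r := Nat.floor_le (by positivity)
  have hk2 : (N : ℝ) * r < k + 1 := Nat.lt_floor_add_one _
  have hkN : k < N := by
    have : (k : ℝ) < N := by nlinarith
    exact_mod_cast this
  set x₀ := r - k / N with hx₀
  have hx0 : 0 ≤ x₀ := by
    rw [hx₀, sub_nonneg, div_le_iff₀ hNr]; linarith
  have hx1 : x₀ < 1 / N := by
    rw [hx₀, sub_lt_iff_lt_add, ← add_div, lt_div_iff₀ hNr]; linarith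
  -- the values of the sawtooth
  have hval : ∀ b : ZMod N, saw (pt b + y) =
      ((x₀ - 1 / 2 : ℝ) : ℂ) + (((b + (k : ZMod N)).val : ℝ) / N : ℝ) := by
    intro b
    have h1 : pt b + y = (((b.val : ℝ) / N + r : ℝ) : TT) := by
      rw [AddCircle.coe_add, rep_coe]
      congr 1
      unfold pt
      rw [ZMod.toAddCircle_apply]
    have h2 : rep (pt b + y) = x₀ + ((b + (k : ZMod N)).val : ℝ) / N := by
      rw [h1, rep_real, Int.fract_eq_iff]
      have hv : (b + (k : ZMod N)).val < N := ZMod.val_lt _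
      have hv' : ((b + (k : ZMod N)).val : ℝ) + 1 ≤ N := by exact_mod_cast hv
      refine ⟨by positivity, ?_, ?_⟩
      · calc x₀ + ((b + (k : ZMod N)).val : ℝ) / N < 1 / N + ((b + (k : ZMod N)).val : ℝ) / N := by
              linarith
          _ = (((b + (k : ZMod N)).val : ℝ) + 1) / N := by ring
          _ ≤ 1 := by rw [div_le_one hNr]; exact hv'
      · refine ⟨(((b.val + k) / N : ℕ) : ℤ), ?_⟩
        rw [Int.cast_natCast]
        have h3 : (b + (k : ZMod N)).val = (b.val + k) % N := by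
          rw [ZMod.val_add, ZMod.val_natCast]
          simp [Nat.add_mod]
        rw [h3, hx₀]
        have h4 : ((b.val + k : ℕ) : ℝ) = N * ((b.val + k) / N : ℕ) + ((b.val + k) % N : ℕ) := by
          exact_mod_cast (Nat.div_add_mod (b.val + k) N).symm
        have h5 : ((b.val : ℝ) + k) = N * ((b.val + k) / N : ℕ) + ((b.val + k) % N : ℕ) := by
          rw [← h4]; push_cast; ring
        generalize ((((b.val + k) / N : ℕ) : ℕ) : ℝ) = Q at h5 ⊢
        generalize ((((b.val + k) % N : ℕ) : ℕ) : ℝ) = R at h5 ⊢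
        field_simp
        linarith
    unfold saw
    rw [h2]
    push_cast
    ring
  set z : ℂ := ZMod.stdAddChar (-(m : ZMod N)) with hz
  have hzexp : z = Complex.exp (-(2 * Real.pi * Complex.I * ((m / N : ℝ) : ℂ))) := by
    rw [hz]
    have : (-(m : ZMod N)) = ((-m : ℤ) : ZMod N) := by push_cast; ring
    rw [this, ZMod.stdAddChar_coe]
    congr 1
    push_cast
    ring
  have hzN : z ^ N = 1 := by
    rw [hz, ← AddChar.map_nsmul_eq_pow]
    simp
  have hmN : |(m / N : ℝ)| ≤ 1 / 2 := by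
    rw [abs_div, abs_of_pos hNr, div_le_iff₀ hNr]
    have : ((2 * |m| : ℤ) : ℝ) ≤ N := by exact_mod_cast hm
    push_cast at this
    linarith
  have hmN0 : (m / N : ℝ) ≠ 0 := div_ne_zero (by exact_mod_cast hm0) hNr.ne'
  have hz1 : z ≠ 1 := by
    intro h
    have h1 := four_le_norm hmN
    rw [← hzexp, h, sub_self, norm_zero] at h1
    have : 0 < |(m / N : ℝ)| := abs_pos.2 hmN0
    linarith
  have hpow : ∀ b : ZMod N, (ZMod.stdAddChar (-((m : ZMod N) * b)) : ℂ) = z ^ b.val := by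
    intro b
    rw [hz, ← AddChar.map_nsmul_eq_pow]
    congr 1
    rw [nsmul_eq_mul, ZMod.natCast_zmod_val]
    ring
  have hzmod : ∀ (F : ℕ → ℂ), ∑ b : ZMod N, F b.val = ∑ j ∈ range N, F j := by
    intro F
    refine sum_nbij' (fun b : ZMod N => b.val) (fun j : ℕ => (j : ZMod N)) ?_ ?_ ?_ ?_ ?_
    · intro b _
      exact mem_range.2 (ZMod.val_lt b)
    · intro j _
      exact mem_univ _
    · intro b _
      exact ZMod.natCast_zmod_val b
    · intro j hj
      exact ZMod.val_natCast_of_lt (mem_range.1 hj)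
    · intro b _
      rfl
  -- the sum
  have hsum : ∑ b : ZMod N, ZMod.stdAddChar (-((m : ZMod N) * b)) * saw (pt b + y) =
      ZMod.stdAddChar ((m : ZMod N) * (k : ZMod N)) * (1 / (z - 1)) := by
    have h1 : ∑ b : ZMod N, ZMod.stdAddChar (-((m : ZMod N) * b)) * saw (pt b + y) =
        ∑ b : ZMod N, ZMod.stdAddChar (-((m : ZMod N) * (b - (k : ZMod N)))) *
          (((x₀ - 1 / 2 : ℝ) : ℂ) + ((b.val : ℝ) / N : ℝ)) := by
      refine Fintype.sum_bijective (fun b : ZMod N => b + (k : ZMod N))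
        (Equiv.addRight (k : ZMod N)).bijective _ _ (fun b => ?_)
      rw [hval b, add_sub_cancel_right]
    rw [h1]
    have h2 : ∀ b : ZMod N, (ZMod.stdAddChar (-((m : ZMod N) * (b - (k : ZMod N)))) : ℂ) *
        (((x₀ - 1 / 2 : ℝ) : ℂ) + ((b.val : ℝ) / N : ℝ)) =
        ZMod.stdAddChar ((m : ZMod N) * (k : ZMod N)) * (((x₀ - 1 / 2 : ℝ) : ℂ) * z ^ b.val +
          (1 / N : ℂ) * ((b.val : ℂ) * z ^ b.val)) := by
      intro b
      have e : -((m : ZMod N) * (b - (k : ZMod N))) =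
          (m : ZMod N) * (k : ZMod N) + -((m : ZMod N) * b) := by ring
      rw [e, AddChar.map_add_eq_mul, hpow b]
      push_cast
      ring
    simp_rw [h2]
    rw [← mul_sum, sum_add_distrib, ← mul_sum, ← mul_sum]
    congr 1
    rw [hzmod (fun j => z ^ j), hzmod (fun j => (j : ℂ) * z ^ j), sum_mul_pow hzN hz1,
      geom_sum_eq hz1, hzN, sub_self, zero_div, mul_zero, zero_add]
    have hz10 : z - 1 ≠ 0 := sub_ne_zero.2 hz1
    field_simp
  rw [hsum]
  -- compare
  set w : ℂ := ZMod.stdAddChar ((m : ZMod N) * (k : ZMod N)) with hw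
  have hwexp : w = Complex.exp (2 * Real.pi * Complex.I * ((m * (k / N) : ℝ) : ℂ)) := by
    rw [hw]
    have : ((m : ZMod N) * (k : ZMod N)) = ((m * k : ℤ) : ZMod N) := by push_cast; ring
    rw [this, ZMod.stdAddChar_coe]
    congr 1
    push_cast
    ring
  have hwn : ‖w‖ = 1 := by
    rw [hwexp]
    have : 2 * Real.pi * Complex.I * ((m * (k / N) : ℝ) : ℂ) =
        ((2 * Real.pi * (m * (k / N)) : ℝ) : ℂ) * Complex.I := by push_cast; ring
    rw [this, Complex.norm_exp_ofReal_mul_I]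
  have hfe : (fourier m y : ℂ) = Complex.exp (2 * Real.pi * Complex.I * ((m * r : ℝ) : ℂ)) := by
    conv_lhs => rw [← rep_coe y]
    rw [fourier_coe_apply]
    congr 1
    push_cast
    ring
  have hdiff : ‖w - (fourier m y : ℂ)‖ ≤ 2 * Real.pi * |(m : ℝ)| / N := by
    rw [hwexp, hfe]
    have e : Complex.exp (2 * Real.pi * Complex.I * ((m * (k / N) : ℝ) : ℂ)) -
        Complex.exp (2 * Real.pi * Complex.I * ((m * r : ℝ) : ℂ)) =
        Complex.exp (2 * Real.pi * Complex.I * ((m * r : ℝ) : ℂ)) *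
          (Complex.exp (Complex.I * ((2 * Real.pi * (m * (k / N - r)) : ℝ) : ℂ)) - 1) := by
      rw [mul_sub, ← Complex.exp_add, mul_one]
      congr 2
      push_cast
      ring
    rw [e, norm_mul]
    have hn1 : ‖Complex.exp (2 * Real.pi * Complex.I * ((m * r : ℝ) : ℂ))‖ = 1 := by
      have : 2 * Real.pi * Complex.I * ((m * r : ℝ) : ℂ) =
          ((2 * Real.pi * (m * r) : ℝ) : ℂ) * Complex.I := by push_cast; ring
      rw [this, Complex.norm_exp_ofReal_mul_I]
    rw [hn1, one_mul]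
    refine (Real.norm_exp_I_mul_ofReal_sub_one_le).trans ?_
    rw [Real.norm_eq_abs, abs_mul, abs_of_pos (by positivity : (0 : ℝ) < 2 * Real.pi), abs_mul]
    have h3 : |(k / N - r : ℝ)| ≤ 1 / N := by
      have : (k / N - r : ℝ) = -x₀ := by rw [hx₀]; ring
      rw [this, abs_neg, abs_of_nonneg hx0]
      exact hx1.le
    calc 2 * Real.pi * (|(m : ℝ)| * |(k / N - r : ℝ)|) ≤ 2 * Real.pi * (|(m : ℝ)| * (1 / N)) := by
          gcongr
      _ = _ := by ring
  have hm0r : (m : ℝ) ≠ 0 := by exact_mod_cast hm0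
  have hm0c : (m : ℂ) ≠ 0 := by exact_mod_cast hm0
  have hpic : (Real.pi : ℂ) ≠ 0 := by exact_mod_cast hpi.ne'
  have hsplit : (1 / N : ℂ) * (w * (1 / (z - 1))) +
      (fourier m y : ℂ) / (2 * Real.pi * Complex.I * m) =
      (1 / N : ℂ) * (w * (1 / (z - 1) + 1 / (2 * Real.pi * Complex.I * ((m / N : ℝ) : ℂ)))) -
        (w - (fourier m y : ℂ)) / (2 * Real.pi * Complex.I * m) := by
    have e : (1 / N : ℂ) * (1 / (2 * Real.pi * Complex.I * ((m / N : ℝ) : ℂ))) =
        1 / (2 * Real.pi * Complex.I * m) := by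
      push_cast
      field_simp
    have : (1 / N : ℂ) * (w * (1 / (z - 1) + 1 / (2 * Real.pi * Complex.I * ((m / N : ℝ) : ℂ)))) =
        (1 / N : ℂ) * (w * (1 / (z - 1))) +
          w * ((1 / N : ℂ) * (1 / (2 * Real.pi * Complex.I * ((m / N : ℝ) : ℂ)))) := by ring
    rw [this, e]
    ring
  rw [hsplit]
  refine (norm_sub_le _ _).trans ?_
  have hA : ‖(1 / N : ℂ) * (w * (1 / (z - 1) + 1 / (2 * Real.pi * Complex.I *
      ((m / N : ℝ) : ℂ))))‖ ≤ 3 / N := by
    rw [norm_mul, norm_mul, hwn, one_mul, norm_div, norm_one, Complex.norm_natCast]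
    have := inv_bound hmN0 hmN
    rw [← hzexp] at this
    calc 1 / (N : ℝ) * _ ≤ 1 / N * 3 := by gcongr
      _ = 3 / N := by ring
  have hB : ‖(w - (fourier m y : ℂ)) / (2 * Real.pi * Complex.I * m)‖ ≤ 1 / N := by
    rw [norm_div]
    have hden : ‖(2 * Real.pi * Complex.I * m : ℂ)‖ = 2 * Real.pi * |(m : ℝ)| := by
      simp only [norm_mul, Complex.norm_I, Complex.norm_real, Real.norm_eq_abs, mul_one,
        Complex.norm_ofNat, Complex.norm_intCast]
      rw [abs_of_pos hpi]
    rw [hden, div_le_iff₀ (by positivity)]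
    refine hdiff.trans (le_of_eq ?_)
    ring
  calc _ ≤ 3 / (N : ℝ) + 1 / N := add_le_add hA hB
    _ = 4 / N := by ring

end Pool.Agent.Run7.h776.FT
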