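import Pool.Agent.Run7.h776.FT.Lin

/-! # Symmetries and absolutely convergent Fourier series -/

set_option autoImplicit false
set_option linter.style.haveILetI false

namespace Pool.Agent.Run7.h776.FT

open MeasureTheory Finset
open Pool.Agent.R203.ID (hat norm_f f_add f_zero f_smul f_nsmul f_neg integrable_f norm_hat_le
  ext_hat hat_map_nsmul hat_map_smul inv_iff conv hat_conv conv_atom)

variable {p q : ℕ}

lemma fc_zero (n : ℤ) : fourierCoeff (fun _ : TT => (0 : ℂ)) n = 0 := by
  unfold fourierCoeff
  simp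

lemma JF_zero : JF (fun _ : TT => (0 : ℂ)) 0 where
  meas := measurable_const
  bdd := ⟨0, fun x => by simp⟩
  nonneg := le_rfl
  zero := fc_zero 0
  dec := fun n _ => by rw [fc_zero]; simp
  twist := fun N _ m _ _ y => by rw [fc_zero]; simp
  mean := fun N _ y => by simp

lemma PF_zero (γ : ℤ → ℂ) (x : TT) : PF (fun _ => 0) γ x = wf γ x := by
  unfold PF
  simp

/-- the two-sided bound for absolutely convergent Fourier series -/
theorem wiener_bound (hM : S_MOD) (hp : p.Prime) (hq : q.Prime) (hpq : p ≠ q) {γ : ℤ → ℂ}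
    (hγ : Summable fun n => ‖γ n‖) {a : ℤ} (ha : a ≠ 0) (hap : IsCoprime a (p : ℤ))
    (haq : IsCoprime a (q : ℤ)) (hC : CC p q a γ ≠ 0) : ∃ K : ℝ, 0 ≤ K ∧ ∀ δ : ℝ, 0 ≤ δ →
      (∀ ν : Measure TT, Inv p q ν → ‖∫ x, wf γ x ∂ν - γ 0‖ ≤ δ) →
      ∀ μ : Measure TT, Inv p q μ → ∀ n : ℤ, n ≠ 0 → ‖hat μ n‖ ≤ K * δ := by
  have hC' : CC p q a (fun n => fourierCoeff (fun _ : TT => (0 : ℂ)) n + γ n) ≠ 0 := by
    simp_rw [fc_zero, zero_add]
    exact hC
  obtain ⟨K, hK, hb⟩ := main_bound hM hp hq hpq ha hap haq JF_zero hγ hC' one_pos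
  refine ⟨K, hK, fun δ hδ h μ hμ n hn => ?_⟩
  have := hb δ hδ (fun ν hν => by simp_rw [PF_zero]; exact h ν hν) μ hμ n hn
  simpa using this

/-- integer multiples of `p ^ i q ^ j` -/
lemma sS_coprime (hp : p.Prime) (hq : q.Prime) {a b : ℤ} (hap : IsCoprime a (p : ℤ))
    (haq : IsCoprime a (q : ℤ)) {ij : ℕ × ℕ} (h : a = b * sS p q ij) : ij = (0, 0) := by
  obtain ⟨i, j⟩ := ij
  have h1 : i = 0 := by
    by_contra hi
    obtain ⟨i', rfl⟩ := Nat.exists_eq_succ_of_ne_zero hi
    have hd : (p : ℤ) ∣ a := by
      rw [h]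
      unfold sS
      exact Dvd.intro (b * ((p : ℤ) ^ i' * (q : ℤ) ^ j)) (by simp only [Nat.succ_eq_add_one]; ring)
    have hu := hap.isUnit_of_dvd' hd dvd_rfl
    rw [Int.isUnit_iff_natAbs_eq] at hu
    simp only [Int.natAbs_natCast] at hu
    exact hp.one_lt.ne' hu
  have h2 : j = 0 := by
    by_contra hj
    obtain ⟨j', rfl⟩ := Nat.exists_eq_succ_of_ne_zero hj
    have hd : (q : ℤ) ∣ a := by
      rw [h]
      unfold sS
      exact Dvd.intro (b * ((p : ℤ) ^ i * (q : ℤ) ^ j')) (by simp only [Nat.succ_eq_add_one]; ring)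
    have hu := haq.isUnit_of_dvd' hd dvd_rfl
    rw [Int.isUnit_iff_natAbs_eq] at hu
    simp only [Int.natAbs_natCast] at hu
    exact hq.one_lt.ne' hu
  rw [h1, h2]

lemma sS_zero : sS p q (0, 0) = 1 := by
  unfold sS
  simp

/-- **Symmetries.** -/
theorem symmetry (hM : S_MOD) (hp : p.Prime) (hq : q.Prime) (hpq : p ≠ q) {m : ℤ} (hm : m ≠ 0)
    (c : TT) (hmc : ¬ (c = 0 ∧ ∃ i j : ℕ, m = (p : ℤ) ^ i * (q : ℤ) ^ j)) :
    (∀ μ : Measure TT, Inv p q μ → μ = volume) ↔
      ∀ μ : Measure TT, Inv p q μ → μ.map (fun x => m • x + c) = μ := by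
  classical
  have hmeas : Measurable (fun x : TT => m • x + c) := by fun_prop
  have hcomp : ∀ (μ : Measure TT) (n : ℤ),
      hat (μ.map (fun x => m • x + c)) n = fourier n c * hat μ (n * m) := by
    intro μ n
    unfold hat
    rw [integral_map hmeas.aemeasurable (fourier n).continuous.aestronglyMeasurable,
      ← integral_const_mul]
    congr 1
    funext x
    rw [f_add, f_smul, mul_comm]
  constructor
  · intro h μ hμ
    rw [h μ hμ]
    haveI : IsProbabilityMeasure ((volume : Measure TT).map (fun x => m • x + c)) :=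
      Measure.isProbabilityMeasure_map hmeas.aemeasurable
    apply ext_hat
    intro n
    rw [hcomp, hat_vol, hat_vol]
    by_cases hn : n = 0
    · rw [hn]; simp
    · rw [if_neg hn, if_neg (mul_ne_zero hn hm), mul_zero]
  · intro h
    set γ : ℤ → ℂ := fun n => (if n = 1 then 1 else 0) - fourier 1 c * (if n = m then 1 else 0)
      with hγdef
    have hγ : Summable fun n => ‖γ n‖ := by
      refine summable_of_ne_finset_zero (s := {1, m}) (fun n hn => ?_)
      simp only [mem_insert, mem_singleton, not_or] at hn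
      rw [hγdef]
      simp only
      rw [if_neg hn.1, if_neg hn.2]
      simp
    have hf1 : Summable fun n : ℤ => (if n = 1 then (1 : ℂ) else 0) :=
      summable_of_ne_finset_zero (s := {1}) (fun n hn => if_neg (by simpa using hn))
    have hγ0 : γ 0 = 0 := by
      rw [hγdef]
      simp only
      rw [if_neg (by norm_num), if_neg (Ne.symm hm)]
      simp
    have hint : ∀ μ : Measure TT, IsProbabilityMeasure μ → ∫ x, wf γ x ∂μ =
        hat μ 1 - fourier 1 c * hat μ m := by
      intro μ hμ
      rw [integral_wf' hγ]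
      rw [tsum_eq_sum (s := {1, m})]
      · by_cases h1 : m = 1
        · rw [h1, hγdef]
          simp [h1]
          ring
        · rw [sum_pair (Ne.symm h1), hγdef]
          simp [h1, Ne.symm h1]
          ring
      · intro n hn
        simp only [mem_insert, mem_singleton, not_or] at hn
        rw [hγdef]
        simp only
        rw [if_neg hn.1, if_neg hn.2]
        simp
    have hC : CC p q 1 γ ≠ 0 := by
      unfold CC
      simp_rw [one_mul]
      by_cases hS : ∃ i j : ℕ, m = (p : ℤ) ^ i * (q : ℤ) ^ j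
      · obtain ⟨i, j, hij⟩ := hS
        have hc : c ≠ 0 := fun hc => hmc ⟨hc, i, j, hij⟩
        have hc1 : (fourier 1 c : ℂ) ≠ 1 := by
          intro h1
          apply hc
          rw [fourier_one] at h1
          have h2 : AddCircle.toCircle c = 1 := Circle.ext (by rw [h1]; simp)
          rw [← AddCircle.toCircle_zero] at h2
          exact AddCircle.injective_toCircle one_ne_zero h2
        have hms : m = sS p q (i, j) := by rw [hij]; rfl
        have h3 : ∑' ij : ℕ × ℕ, γ (sS p q ij) = 1 - fourier 1 c := by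
          have h4 : ∀ ij : ℕ × ℕ, γ (sS p q ij) = (if ij = (0, 0) then 1 else 0) -
              fourier 1 c * (if ij = (i, j) then 1 else 0) := by
            intro ij
            rw [hγdef]
            simp only
            have e1 : (sS p q ij = 1) ↔ ij = (0, 0) := by
              rw [← sS_zero (p := p) (q := q)]
              exact (sS_inj hp hq hpq).eq_iff
            have e2 : (sS p q ij = m) ↔ ij = (i, j) := by
              rw [hms]
              exact (sS_inj hp hq hpq).eq_iff
            simp only [e1, e2]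
          simp_rw [h4]
          rw [Summable.tsum_sub, tsum_mul_left, tsum_ite_eq, tsum_ite_eq, mul_one]
          · exact summable_of_ne_finset_zero (s := {(0, 0)}) (fun n hn => if_neg (by simpa using hn))
          · refine Summable.mul_left _ ?_
            exact summable_of_ne_finset_zero (s := {(i, j)}) (fun n hn => if_neg (by simpa using hn))
        rw [h3]
        exact sub_ne_zero.2 (Ne.symm hc1)
      · have h3 : ∑' ij : ℕ × ℕ, γ (sS p q ij) = 1 := by
          rw [tsum_eq_single (0, 0)]
          · rw [hγdef]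
            simp only
            rw [sS_zero, if_pos rfl, if_neg, mul_zero, sub_zero]
            intro h1
            exact hS ⟨0, 0, by rw [← h1]; simp⟩
          · intro ij hij
            rw [hγdef]
            simp only
            rw [if_neg, if_neg]
            · simp
            · intro h1
              exact hS ⟨ij.1, ij.2, h1.symm⟩
            · intro h1
              rw [← sS_zero (p := p) (q := q)] at h1
              exact hij (sS_inj hp hq hpq h1)
        rw [h3]
        exact one_ne_zero
    obtain ⟨K, _, hb⟩ := wiener_bound hM hp hq hpq hγ one_ne_zero isCoprime_one_left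
      isCoprime_one_left hC
    intro μ hμ
    refine eq_vol hμ.prob fun n hn => ?_
    have h5 := hb 0 le_rfl (fun ν hν => by
      haveI := hν.prob
      rw [hint ν hν.prob, hγ0]
      have h6 := hcomp ν 1
      rw [h ν hν, one_mul] at h6
      rw [← h6]
      simp) μ hμ n hn
    rw [mul_zero] at h5
    exact norm_le_zero_iff.1 h5

/-! ### the dichotomy -/

/-- integers prime to `p q` -/
def AA (p q : ℕ) : Type := {a : ℤ // a ≠ 0 ∧ IsCoprime a (p : ℤ) ∧ IsCoprime a (q : ℤ)}

/-- every nonzero integer is `a p ^ i q ^ j` -/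
lemma exists_fact (hp : p.Prime) (hq : q.Prime) {n : ℤ} (hn : n ≠ 0) :
    ∃ (a : AA p q) (ij : ℕ × ℕ), n = a.1 * sS p q ij := by
  have hfp : FiniteMultiplicity (p : ℤ) n := by
    rw [Int.finiteMultiplicity_iff]
    refine ⟨?_, hn⟩
    simp only [Int.natAbs_natCast]
    exact hp.one_lt.ne'
  obtain ⟨b, hb, hpb⟩ := hfp.exists_eq_pow_mul_and_not_dvd
  have hb0 : b ≠ 0 := by
    rintro rfl
    exact hpb (dvd_zero _)
  have hfq : FiniteMultiplicity (q : ℤ) b := by
    rw [Int.finiteMultiplicity_iff]
    refine ⟨?_, hb0⟩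
    simp only [Int.natAbs_natCast]
    exact hq.one_lt.ne'
  obtain ⟨a, ha, hqa⟩ := hfq.exists_eq_pow_mul_and_not_dvd
  have ha0 : a ≠ 0 := by
    rintro rfl
    exact hqa (dvd_zero _)
  have hpa : ¬ (p : ℤ) ∣ a := by
    intro h
    apply hpb
    rw [ha]
    exact h.mul_left _
  have hpp : Prime (p : ℤ) := Nat.prime_iff_prime_int.1 hp
  have hqp : Prime (q : ℤ) := Nat.prime_iff_prime_int.1 hq
  refine ⟨⟨a, ha0, ((Prime.coprime_iff_not_dvd hpp).2 hpa).symm,
    ((Prime.coprime_iff_not_dvd hqp).2 hqa).symm⟩, (multiplicity (p : ℤ) n,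
      multiplicity (q : ℤ) b), ?_⟩
  unfold sS
  simp only
  conv_lhs => rw [hb, ha]
  ring

lemma fact_inj (hp : p.Prime) (hq : q.Prime) (hpq : p ≠ q) :
    Function.Injective (fun z : AA p q × (ℕ × ℕ) => z.1.1 * sS p q z.2) := by
  have hpp : Prime (p : ℤ) := Nat.prime_iff_prime_int.1 hp
  have hqp : Prime (q : ℤ) := Nat.prime_iff_prime_int.1 hq
  have hcop : ∀ a : AA p q, ∀ ij : ℕ × ℕ, IsCoprime a.1 (sS p q ij) := by
    intro a ij
    unfold sS
    exact (a.2.2.1.pow_right).mul_right (a.2.2.2.pow_right)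
  rintro ⟨a, ij⟩ ⟨b, kl⟩ h
  simp only at h
  have h1 : a.1 ∣ b.1 := (hcop a kl).dvd_of_dvd_mul_right (h ▸ dvd_mul_right _ _)
  have h2 : b.1 ∣ a.1 := (hcop b ij).dvd_of_dvd_mul_right (h.symm ▸ dvd_mul_right _ _)
  have h3 : a.1 = b.1 := by
    rcases Int.associated_iff.1 (associated_of_dvd_dvd h1 h2) with h4 | h4
    · exact h4
    · exfalso
      rw [h4] at h
      have h5 : -sS p q ij = sS p q kl := by
        apply mul_left_cancel₀ b.2.1
        linarith
      have := sS_pos hp hq ij
      have := sS_pos hp hq kl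
      omega
  have h4 : sS p q ij = sS p q kl := by
    apply mul_left_cancel₀ a.2.1
    rw [h, h3]
  have h5 := sS_inj hp hq hpq h4
  have h6 : a = b := Subtype.ext h3
  rw [h5, h6]

/-- **The dichotomy.** -/
theorem dichotomy (hM : S_MOD) (hp : p.Prime) (hq : q.Prime) (hpq : p ≠ q) {γ : ℤ → ℂ}
    (hγ : Summable fun n => ‖γ n‖) :
    (∀ μ : Measure TT, Inv p q μ → ∫ x, wf γ x ∂μ = γ 0) ↔
      ((∀ μ : Measure TT, Inv p q μ → μ = volume) ∨
        ∀ σ : Measure TT, PInv p q σ → ∫ x, wf γ x ∂σ = γ 0) := by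
  classical
  constructor
  · intro h
    by_cases hall : ∀ a : AA p q, CC p q a.1 γ = 0
    · right
      intro σ hσ
      haveI := hσ.prob
      rw [integral_wf' hγ]
      have hs := wsum_summable hγ σ (fun _ => 1) (fun _ => by simp)
      simp only [mul_one] at hs
      rw [hs.tsum_eq_add_tsum_ite 0, hat_zero, mul_one]
      have h0 : ∑' n : ℤ, (if n = 0 then 0 else γ n * hat σ n) = 0 := by
        have hs' : Summable (fun n : ℤ => (if n = 0 then 0 else γ n * hat σ n)) := by
          refine Summable.of_norm_bounded (g := fun n => ‖γ n * hat σ n‖) hs.norm (fun n => ?_)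
          split_ifs
          · rw [norm_zero]; exact norm_nonneg _
          · exact le_rfl
        have e1 := (fact_inj hp hq hpq).tsum_eq
          (f := fun n : ℤ => (if n = 0 then 0 else γ n * hat σ n)) (by
            intro n hn
            rw [Function.mem_support] at hn
            have hn0 : n ≠ 0 := by
              rintro rfl
              exact hn (if_pos rfl)
            obtain ⟨a, ij, h1⟩ := exists_fact hp hq hn0
            exact ⟨(a, ij), h1.symm⟩)
        rw [← e1]
        have hs2 : Summable (fun z : AA p q × (ℕ × ℕ) =>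
            (if z.1.1 * sS p q z.2 = 0 then 0 else
              γ (z.1.1 * sS p q z.2) * hat σ (z.1.1 * sS p q z.2))) :=
          hs'.comp_injective (fact_inj hp hq hpq)
        rw [hs2.tsum_prod]
        have e2 : ∀ a : AA p q, ∑' ij : ℕ × ℕ, (if a.1 * sS p q ij = 0 then 0 else
            γ (a.1 * sS p q ij) * hat σ (a.1 * sS p q ij)) = 0 := by
          intro a
          have e3 : ∀ ij : ℕ × ℕ, (if a.1 * sS p q ij = 0 then 0 else
              γ (a.1 * sS p q ij) * hat σ (a.1 * sS p q ij)) = γ (a.1 * sS p q ij) * hat σ a.1 := by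
            intro ij
            rw [if_neg (mul_ne_zero a.2.1 (sS_pos hp hq ij).ne')]
            congr 1
            unfold sS
            exact hσ.hS a.1 ij.1 ij.2
          simp_rw [e3]
          rw [tsum_mul_right]
          have := hall a
          unfold CC at this
          rw [this, zero_mul]
        simp_rw [e2]
        exact tsum_zero
      rw [h0, add_zero]
    · left
      push Not at hall
      obtain ⟨a, ha⟩ := hall
      obtain ⟨K, _, hb⟩ := wiener_bound hM hp hq hpq hγ a.2.1 a.2.2.1 a.2.2.2 ha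
      intro μ hμ
      refine eq_vol hμ.prob fun n hn => ?_
      have h5 := hb 0 le_rfl (fun ν hν => by rw [h ν hν]; simp) μ hμ n hn
      rw [mul_zero] at h5
      exact norm_le_zero_iff.1 h5
  · rintro (h | h) μ hμ
    · rw [h μ hμ, integral_wf' hγ, tsum_eq_single 0]
      · rw [hat_vol, if_pos rfl, mul_one]
      · intro m hm
        rw [hat_vol, if_neg hm, mul_zero]
    · exact h μ hμ.toP

end Pool.Agent.Run7.h776.FT
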