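import Pool.Agent.Run7.h776.FT.Sym

/-! # Free Fourier coefficients -/

set_option autoImplicit false
set_option linter.style.haveILetI false

namespace Pool.Agent.Run7.h776.FT

open MeasureTheory Finset
open Pool.Agent.R203.ID (hat norm_f f_add f_zero f_smul f_nsmul f_neg integrable_f norm_hat_le
  ext_hat hat_map_nsmul hat_map_smul inv_iff conv hat_conv conv_atom)

variable {p q : ℕ}

/-- the coefficients of the real and imaginary parts of `e(m x)` -/
noncomputable def gc (m : ℤ) (b : Bool) (n : ℤ) : ℂ :=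
  if b then ((if n = m then 1 else 0) + (if n = -m then 1 else 0)) / 2
  else ((if n = m then 1 else 0) - (if n = -m then 1 else 0)) / (2 * Complex.I)

/-- the real and imaginary parts of `e(m x)` -/
noncomputable def gf (m : ℤ) (b : Bool) (x : TT) : ℝ :=
  if b then (fourier m x : ℂ).re else (fourier m x : ℂ).im

lemma gc_summable (m : ℤ) (b : Bool) : Summable fun n => ‖gc m b n‖ := by
  refine summable_of_ne_finset_zero (s := {m, -m}) (fun n hn => ?_)
  simp only [mem_insert, mem_singleton, not_or] at hn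
  unfold gc
  rw [if_neg hn.1, if_neg hn.2]
  simp

lemma gf_eq {m : ℤ} (hm : m ≠ 0) (b : Bool) (x : TT) : (gf m b x : ℂ) = wf (gc m b) x := by
  have hne : m ≠ -m := by omega
  unfold wf
  rw [tsum_eq_sum (s := {m, -m}), sum_pair hne]
  · have h2 : (fourier (-m) x : ℂ) = (starRingEnd ℂ) (fourier m x : ℂ) := fourier_neg
    unfold gc gf
    rw [h2]
    set z := (fourier m x : ℂ) with hz
    cases b
    · simp only [Bool.false_eq_true, if_false, if_true, if_neg hne, if_neg hne.symm]
      rw [Complex.im_eq_sub_conj]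
      ring
    · simp only [if_true, if_neg hne, if_neg hne.symm]
      rw [Complex.re_eq_add_conj]
      ring
  · intro n hn
    simp only [mem_insert, mem_singleton, not_or] at hn
    unfold gc
    rw [if_neg hn.1, if_neg hn.2]
    simp

lemma fourier_lip (m : ℤ) (x y : ℝ) :
    ‖(fourier m (x : TT) : ℂ) - fourier m (y : TT)‖ ≤ 2 * Real.pi * |(m : ℝ)| * |x - y| := by
  wlog h : y ≤ x generalizing x y
  · rw [norm_sub_rev, abs_sub_comm]
    exact this y x (le_of_not_ge h)
  have e : (fourier m (x : TT) : ℂ) - fourier m (y : TT) =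
      -(fourier m (y : TT) * (1 - (fourier (-(-m)) ((x - y : ℝ) : TT) : ℂ))) := by
    have h1 : (fourier m (x : TT) : ℂ) = fourier m (y : TT) * fourier m ((x - y : ℝ) : TT) := by
      rw [← f_add, ← AddCircle.coe_add, add_sub_cancel]
    rw [h1, neg_neg]
    ring
  rw [e, norm_neg, norm_mul, norm_f, one_mul, abs_of_nonneg (sub_nonneg.2 h)]
  refine (fourier_small (-m) (sub_nonneg.2 h)).trans (le_of_eq ?_)
  push_cast
  rw [abs_neg]

lemma TF_gf (m : ℤ) (b : Bool) : TF (gf m b) := by
  have hle : ∀ x y : TT, |gf m b x - gf m b y| ≤ ‖(fourier m x : ℂ) - fourier m y‖ := by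
    intro x y
    unfold gf
    cases b
    · simp only [Bool.false_eq_true, if_false]
      rw [← Complex.sub_im]
      exact Complex.abs_im_le_norm _
    · simp only [if_true]
      rw [← Complex.sub_re]
      exact Complex.abs_re_le_norm _
  refine ⟨?_, ⟨1, fun x => ?_⟩, ⟨2 * Real.pi * |(m : ℝ)|, by positivity, ?_⟩⟩
  · unfold gf
    cases b
    · simp only [Bool.false_eq_true, if_false]
      exact Complex.measurable_im.comp (fourier m).continuous.measurable
    · simp only [if_true]
      exact Complex.measurable_re.comp (fourier m).continuous.measurable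
  · have h1 := norm_f m x
    unfold gf
    cases b
    · simp only [Bool.false_eq_true, if_false]
      exact (Complex.abs_im_le_norm _).trans h1.le
    · simp only [if_true]
      exact (Complex.abs_re_le_norm _).trans h1.le
  · intro r N hN x y hx hy
    have hNr : (0 : ℝ) < N := by exact_mod_cast hN
    have h1 : ∀ j ∈ range N, |gf m b (x j : TT) - gf m b (y j : TT)| ≤
        2 * Real.pi * |(m : ℝ)| * (1 / N) := by
      intro j hj
      have hj' := mem_range.1 hj
      refine (hle _ _).trans ((fourier_lip m _ _).trans ?_)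
      apply mul_le_mul_of_nonneg_left _ (by positivity)
      obtain ⟨hx1, hx2⟩ := hx j hj'
      obtain ⟨hy1, hy2⟩ := hy j hj'
      rw [add_div] at hx2 hy2
      rw [abs_le]
      constructor <;> linarith
    refine (sum_le_sum h1).trans (le_of_eq ?_)
    rw [sum_const, card_range, nsmul_eq_mul]
    field_simp

/-- **Free coefficients.** -/
theorem free (hM : S_MOD) (hp : p.Prime) (hq : q.Prime) (hpq : p ≠ q) (F : Finset ℕ)
    (hF : ∀ m ∈ F, 0 < m ∧ m.Coprime p ∧ m.Coprime q) {μ₀ : Measure TT} (hμ₀ : Inv p q μ₀)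
    (hne : μ₀ ≠ volume) : ∃ ρ : ℝ, 0 < ρ ∧ ∀ z : ℕ → ℂ, (∀ m ∈ F, ‖z m‖ ≤ ρ) →
      ∃ μ : Measure TT, Inv p q μ ∧ ∀ m ∈ F, hat μ m = z m := by
  classical
  have hm0 : ∀ m : F, ((m : ℕ) : ℤ) ≠ 0 := fun m => by
    have := (hF m m.2).1
    omega
  have hind : ∀ w : F × Bool → ℝ, w ≠ 0 → ∃ a : ℤ, a ≠ 0 ∧ IsCoprime a (p : ℤ) ∧
      IsCoprime a (q : ℤ) ∧
      orb p q (fun x => ∑ l : F × Bool, w l * gf ((l.1 : ℕ) : ℤ) l.2 x) a ≠ 0 := by
    intro w hw
    obtain ⟨l₀, hl₀⟩ := Function.ne_iff.1 hw
    set a : ℤ := ((l₀.1 : ℕ) : ℤ) with ha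
    have hFa := hF l₀.1 l₀.1.2
    have hap : IsCoprime a (p : ℤ) := Nat.isCoprime_iff_coprime.2 hFa.2.1
    have haq : IsCoprime a (q : ℤ) := Nat.isCoprime_iff_coprime.2 hFa.2.2
    have ha0 : 0 < a := by rw [ha]; exact_mod_cast hFa.1
    refine ⟨a, ha0.ne', hap, haq, ?_⟩
    have hfc : ∀ n : ℤ, fourierCoeff (fun x =>
        (((∑ l : F × Bool, w l * gf ((l.1 : ℕ) : ℤ) l.2 x : ℝ)) : ℂ)) n =
        ∑ l : F × Bool, (w l : ℂ) * gc ((l.1 : ℕ) : ℤ) l.2 n := by
      intro n
      have hs : ∀ l : F × Bool, Summable fun n => ‖(w l : ℂ) * gc ((l.1 : ℕ) : ℤ) l.2 n‖ := by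
        intro l
        simp only [norm_mul]
        exact (gc_summable _ _).mul_left _
      have h1 : (fun x => (((∑ l : F × Bool, w l * gf ((l.1 : ℕ) : ℤ) l.2 x : ℝ)) : ℂ)) =
          wf (fun n => ∑ l : F × Bool, (w l : ℂ) * gc ((l.1 : ℕ) : ℤ) l.2 n) := by
        funext x
        rw [wf_sum hs]
        push_cast
        refine sum_congr rfl fun l _ => ?_
        rw [gf_eq (hm0 l.1), wf_smul]
      rw [h1, fc_wf]
      refine Summable.of_nonneg_of_le (fun n => norm_nonneg _) (fun n => norm_sum_le _ _) ?_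
      exact summable_sum fun l _ => hs l
    unfold orb
    simp_rw [hfc]
    rw [tsum_eq_single (0, 0)]
    · simp only [pow_zero, mul_one]
      have h2 : ∀ l : F × Bool, l.1 ≠ l₀.1 → (w l : ℂ) * gc ((l.1 : ℕ) : ℤ) l.2 a = 0 := by
        intro l hl
        have h3 : a ≠ ((l.1 : ℕ) : ℤ) := by
          intro h
          apply hl
          apply Subtype.ext
          rw [ha] at h
          exact_mod_cast h.symm
        have h4 : a ≠ -((l.1 : ℕ) : ℤ) := by
          have := (hF l.1 l.1.2).1
          omega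
        unfold gc
        rw [if_neg h3, if_neg h4]
        simp
      have h5 : ∑ l : F × Bool, (w l : ℂ) * gc ((l.1 : ℕ) : ℤ) l.2 a =
          (w (l₀.1, true) : ℂ) / 2 + (w (l₀.1, false) : ℂ) / (2 * Complex.I) := by
        rw [Fintype.sum_prod_type, sum_eq_single l₀.1]
        · rw [Fintype.sum_bool]
          have h6 : a ≠ -((l₀.1 : ℕ) : ℤ) := by rw [← ha]; omega
          unfold gc
          rw [← ha]
          rw [← ha] at h6
          simp only [Bool.false_eq_true, if_false, if_true, if_neg h6]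
          ring
        · intro m _ hm
          exact sum_eq_zero fun b _ => h2 (m, b) hm
        · intro h
          exact absurd (mem_univ _) h
      rw [h5]
      intro h
      have hre := congrArg Complex.re h
      have him := congrArg Complex.im h
      have e : (w (l₀.1, false) : ℂ) / (2 * Complex.I) =
          -((w (l₀.1, false) / 2 : ℝ) : ℂ) * Complex.I := by
        rw [div_eq_iff (mul_ne_zero two_ne_zero Complex.I_ne_zero)]
        push_cast
        ring_nf
        rw [Complex.I_sq]
        ring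
      rw [e] at hre him
      simp at hre him
      obtain ⟨m, b⟩ := l₀
      cases b
      · exact hl₀ him
      · exact hl₀ hre
    · intro ij hij
      refine sum_eq_zero fun l _ => ?_
      have hs := sS_pos hp hq ij
      have h3 : a * ((p : ℤ) ^ ij.1 * (q : ℤ) ^ ij.2) ≠ ((l.1 : ℕ) : ℤ) := by
        intro h
        apply hij
        have hFl := hF l.1 l.1.2
        exact sS_coprime hp hq (Nat.isCoprime_iff_coprime.2 hFl.2.1)
          (Nat.isCoprime_iff_coprime.2 hFl.2.2) (b := a) h.symm
      have h4 : a * ((p : ℤ) ^ ij.1 * (q : ℤ) ^ ij.2) ≠ -((l.1 : ℕ) : ℤ) := by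
        have h5 : 0 < a * sS p q ij := mul_pos ha0 hs
        have h6 := (hF l.1 l.1.2).1
        intro h
        unfold sS at h5
        omega
      unfold gc
      rw [if_neg h3, if_neg h4]
      simp
  obtain ⟨ρ, hρ, h⟩ := fill hM hp hq hpq (f := fun l : F × Bool => gf ((l.1 : ℕ) : ℤ) l.2)
    (fun l => TF_gf _ l.2) hind hμ₀ hne
  refine ⟨ρ, hρ, fun z hz => ?_⟩
  obtain ⟨μ, hμ, h1⟩ := h (fun l => if l.2 then (z l.1).re else (z l.1).im) (fun l => by
    have h2 := hz l.1 l.1.2
    split_ifs
    · exact (Complex.abs_re_le_norm _).trans h2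
    · exact (Complex.abs_im_le_norm _).trans h2)
  refine ⟨μ, hμ, fun m hm => ?_⟩
  haveI := hμ.prob
  have key : ∀ (ν : Measure TT) [IsProbabilityMeasure ν] (m : ℤ),
      hat ν m = ((∫ x, gf m true x ∂ν : ℝ) : ℂ) + ((∫ x, gf m false x ∂ν : ℝ) : ℂ) * Complex.I := by
    intro ν _ m
    have hre := integral_re (𝕜 := ℂ) (integrable_f ν m)
    have him := integral_im (𝕜 := ℂ) (integrable_f ν m)
    unfold gf hat
    simp only [if_true, Bool.false_eq_true, if_false]
    apply Complex.ext
    · simp only [Complex.add_re, Complex.ofReal_re, Complex.mul_re, Complex.I_re, mul_zero,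
        Complex.ofReal_im, Complex.I_im, mul_one, sub_zero, add_zero]
      exact hre.symm
    · simp only [Complex.add_im, Complex.ofReal_im, Complex.mul_im, Complex.ofReal_re,
        Complex.I_im, mul_one, Complex.I_re, mul_zero, add_zero, zero_add]
      exact him.symm
  have hvz : ∀ b : Bool, ∫ x, gf (m : ℤ) b x = 0 := by
    have h3 := key volume (m : ℤ)
    have hmne : ((m : ℕ) : ℤ) ≠ 0 := hm0 ⟨m, hm⟩
    rw [hat_vol, if_neg hmne] at h3
    have hre := congrArg Complex.re h3
    have him := congrArg Complex.im h3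
    simp at hre him
    intro b
    cases b
    · exact him.symm
    · exact hre.symm
  rw [key μ (m : ℤ)]
  have e1 := h1 (⟨m, hm⟩, true)
  have e2 := h1 (⟨m, hm⟩, false)
  simp only [if_true, Bool.false_eq_true, if_false] at e1 e2
  rw [e1, e2, hvz, hvz, zero_add, zero_add]
  exact Complex.re_add_im (z m)

end Pool.Agent.Run7.h776.FT
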